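import Mathlib

/-! Shifting vertical contours. -/

set_option autoImplicit false

open Complex MeasureTheory Set Filter Topology

namespace Pool.Agent.Ratios

lemma integrable_exp_neg_mul_abs (δ : ℝ) (hδ : 0 < δ) :
    Integrable (fun t : ℝ => Real.exp (-(δ * |t|))) := by
  have h1 : IntegrableOn (fun t : ℝ => Real.exp (-(δ * |t|))) (Ioi 0) := by
    refine (integrableOn_exp_mul_Ioi (a := -δ) (by linarith) 0).congr_fun ?_ measurableSet_Ioi
    intro t ht
    have ht0 : (0:ℝ) < t := ht
    simp only [abs_of_pos ht0]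
    congr 1; ring
  have h2 : IntegrableOn (fun t : ℝ => Real.exp (-(δ * |t|))) (Iic 0) := by
    refine (integrableOn_exp_mul_Iic (a := δ) hδ 0).congr_fun ?_ measurableSet_Iic
    intro t ht
    have ht0 : t ≤ (0:ℝ) := ht
    simp only [abs_of_nonpos ht0]
    congr 1; ring
  have := h2.union h1
  rwa [Iic_union_Ioi, integrableOn_univ] at this

/-- If `F` is holomorphic on the closed strip `c₂ ≤ Re z ≤ c₁` and decays exponentially, then its
integrals over the two boundary lines agree. -/
lemma integral_vertical_shift (F : ℂ → ℂ) (c₂ c₁ : ℝ) (hc : c₂ ≤ c₁) (C δ : ℝ) (hδ : 0 < δ)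
    (hF : ∀ z : ℂ, c₂ ≤ z.re → z.re ≤ c₁ → DifferentiableAt ℂ F z)
    (hb : ∀ z : ℂ, c₂ ≤ z.re → z.re ≤ c₁ → ‖F z‖ ≤ C * Real.exp (-(δ * |z.im|))) :
    ∫ t : ℝ, F (c₁ + t * I) = ∫ t : ℝ, F (c₂ + t * I) := by
  have hcont : ∀ c : ℝ, c₂ ≤ c → c ≤ c₁ → Continuous (fun t : ℝ => F (c + t * I)) := by
    intro c h2 h1
    rw [continuous_iff_continuousAt]
    intro t
    have : ContinuousAt F (c + t * I) := (hF _ (by simpa using h2) (by simpa using h1)).continuousAt
    exact ContinuousAt.comp (f := fun t : ℝ => (c : ℂ) + t * I) this (by fun_prop)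
  have hint : ∀ c : ℝ, c₂ ≤ c → c ≤ c₁ → Integrable (fun t : ℝ => F (c + t * I)) := by
    intro c h2 h1
    refine ((integrable_exp_neg_mul_abs δ hδ).const_mul C).mono'
      (hcont c h2 h1).aestronglyMeasurable ?_
    filter_upwards with t
    have := hb (c + t * I) (by simpa using h2) (by simpa using h1)
    simpa using this
  have hC : 0 ≤ C := by
    have h := hb (c₁ : ℂ) (by simpa using hc) (by simp)
    have h0 := norm_nonneg (F (c₁ : ℂ))
    simp at h
    linarith
  -- the rectangle identity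
  have hrect : ∀ T : ℝ, I • ((∫ y in (-T)..T, F (c₁ + y * I)) - ∫ y in (-T)..T, F (c₂ + y * I)) =
      (∫ x in c₂..c₁, F (x + T * I)) - ∫ x in c₂..c₁, F (x + (-T : ℝ) * I) := by
    intro T
    have h := integral_boundary_rect_eq_zero_of_differentiableOn F (⟨c₂, -T⟩ : ℂ) (⟨c₁, T⟩ : ℂ) (by
      intro z hz
      refine (hF z ?_ ?_).differentiableWithinAt
      · have := hz.1
        simp only [uIcc_of_le hc, mem_preimage, mem_Icc] at this
        exact this.1
      · have := hz.1
        simp only [uIcc_of_le hc, mem_preimage, mem_Icc] at this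
        exact this.2)
    simp only [smul_eq_mul] at h ⊢
    linear_combination h
  have hlim1 : Tendsto (fun T : ℝ => I • ((∫ y in (-T)..T, F (c₁ + y * I)) -
      ∫ y in (-T)..T, F (c₂ + y * I))) atTop
      (𝓝 (I • ((∫ t : ℝ, F (c₁ + t * I)) - ∫ t : ℝ, F (c₂ + t * I)))) := by
    have hneg : Tendsto (fun T : ℝ => -T) atTop atBot := tendsto_neg_atTop_atBot
    have a1 := intervalIntegral_tendsto_integral (hint c₁ hc le_rfl) hneg tendsto_id
    have a2 := intervalIntegral_tendsto_integral (hint c₂ le_rfl hc) hneg tendsto_id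
    exact (a1.sub a2).const_smul I
  have hlim2 : Tendsto (fun T : ℝ => (∫ x in c₂..c₁, F (x + T * I)) -
      ∫ x in c₂..c₁, F (x + (-T : ℝ) * I)) atTop (𝓝 0) := by
    have hbound : ∀ T : ℝ, ‖(∫ x in c₂..c₁, F (x + T * I)) -
      ∫ x in c₂..c₁, F (x + (-T : ℝ) * I)‖ ≤ 2 * (C * Real.exp (-(δ * |T|)) * |c₁ - c₂|) := by
      intro T
      have b1 : ‖∫ x in c₂..c₁, F (x + T * I)‖ ≤ C * Real.exp (-(δ * |T|)) * |c₁ - c₂| := by
        apply intervalIntegral.norm_integral_le_of_norm_le_const
        intro x hx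
        rw [uIoc_of_le hc] at hx
        have := hb (x + T * I) (by simpa using hx.1.le) (by simpa using hx.2)
        simpa using this
      have b2 : ‖∫ x in c₂..c₁, F (x + (-T : ℝ) * I)‖ ≤
          C * Real.exp (-(δ * |T|)) * |c₁ - c₂| := by
        apply intervalIntegral.norm_integral_le_of_norm_le_const
        intro x hx
        rw [uIoc_of_le hc] at hx
        have := hb (x + (-T : ℝ) * I) (by simpa using hx.1.le) (by simpa using hx.2)
        simpa using this
      calc _ ≤ _ + _ := norm_sub_le _ _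
        _ ≤ _ := by linarith
    refine squeeze_zero_norm hbound ?_
    have : Tendsto (fun T : ℝ => Real.exp (-(δ * |T|))) atTop (𝓝 0) := by
      refine Real.tendsto_exp_neg_atTop_nhds_zero.comp ?_
      exact Tendsto.const_mul_atTop hδ tendsto_abs_atTop_atTop
    have h2 : Tendsto (fun T : ℝ => 2 * (C * Real.exp (-(δ * |T|)) * |c₁ - c₂|)) atTop
        (𝓝 (2 * (C * 0 * |c₁ - c₂|))) := ((this.const_mul C).mul_const _).const_mul 2
    simpa using h2
  have heq : (fun T : ℝ => I • ((∫ y in (-T)..T, F (c₁ + y * I)) -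
      ∫ y in (-T)..T, F (c₂ + y * I))) = fun T : ℝ => (∫ x in c₂..c₁, F (x + T * I)) -
      ∫ x in c₂..c₁, F (x + (-T : ℝ) * I) := funext hrect
  rw [heq] at hlim1
  have := tendsto_nhds_unique hlim1 hlim2
  rw [smul_eq_mul, mul_eq_zero] at this
  rcases this with h | h
  · exact absurd h I_ne_zero
  · exact sub_eq_zero.mp h

end Pool.Agent.Ratios
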