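import Pool.Agent.Ratios.LBound

/-! The function `(1 - 2^{-s}) ζ(s)` in the strip `0 < Re s < 1`. -/

set_option autoImplicit false

open Complex MeasureTheory Set Filter Topology

namespace Pool.Agent.Ratios

/-- The zeta function without its factor at `2`. -/
noncomputable def Zf (s : ℂ) : ℂ := (1 - (2 : ℂ) ^ (-s)) * riemannZeta s

/-- Number of odd integers up to `t` (as a real number). -/
noncomputable def Ocount (t : ℝ) : ℝ := (((⌊t⌋₊ + 1) / 2 : ℕ) : ℝ)

/-- The discrepancy of the odd integers. -/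
noncomputable def Bodd (t : ℝ) : ℝ := Ocount t - max t 0 / 2

lemma measurable_Ocount : Measurable Ocount := by
  have : Measurable (fun n : ℕ => (((n + 1) / 2 : ℕ) : ℝ)) := measurable_from_top
  exact this.comp Nat.measurable_floor

lemma measurable_Bodd : Measurable Bodd :=
  measurable_Ocount.sub ((measurable_id.max measurable_const).div_const _)

lemma abs_Bodd_le (t : ℝ) : |Bodd t| ≤ 1 / 2 := by
  rw [Bodd, Ocount]
  rcases le_or_gt 0 t with h | h
  · rw [max_eq_left h]
    have h1 : (⌊t⌋₊ : ℝ) ≤ t := Nat.floor_le h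
    have h2 : t < ⌊t⌋₊ + 1 := Nat.lt_floor_add_one t
    set n := ⌊t⌋₊
    have h3 : (((n + 1) / 2 : ℕ) : ℝ) ≤ ((n : ℝ) + 1) / 2 := by
      have := @Nat.cast_div_le ℝ _ _ _ (n + 1) 2
      simpa using this
    have h4 : (n : ℝ) / 2 ≤ (((n + 1) / 2 : ℕ) : ℝ) := by
      have : n ≤ 2 * ((n + 1) / 2) := by omega
      have : (n : ℝ) ≤ 2 * (((n + 1) / 2 : ℕ) : ℝ) := by exact_mod_cast this
      linarith
    rw [abs_le]; constructor <;> linarith
  · have : ⌊t⌋₊ = 0 := Nat.floor_of_nonpos h.le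
    rw [this, max_eq_right h.le]
    simp

lemma Bodd_of_lt_one (t : ℝ) (h0 : 0 ≤ t) (h1 : t < 1) : Bodd t = -(t / 2) := by
  have : ⌊t⌋₊ = 0 := Nat.floor_eq_zero.mpr h1
  rw [Bodd, Ocount, this, max_eq_left h0]
  simp

lemma sum_trivChar_two (n : ℕ) :
    ∑ k ∈ Finset.Icc 1 n, (1 : DirichletCharacter ℂ 2) ((k : ℕ) : ZMod 2) =
      (((n + 1) / 2 : ℕ) : ℂ) := by
  induction n with
  | zero => simp
  | succ n ih =>
    rw [Finset.sum_Icc_succ_top (by omega), ih]
    rcases Nat.even_or_odd n with he | ho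
    · have hu : IsUnit (((n + 1 : ℕ)) : ZMod 2) := by
        rw [ZMod.isUnit_iff_coprime]
        exact Nat.coprime_two_right.mpr he.add_one
      rw [MulChar.one_apply hu]
      obtain ⟨k, hk⟩ := he
      have h1 : (n + 1) / 2 = k := by omega
      have h2 : (n + 1 + 1) / 2 = k + 1 := by omega
      rw [h1, h2]; push_cast; ring
    · have hu : ¬ IsUnit (((n + 1 : ℕ)) : ZMod 2) := by
        rw [ZMod.isUnit_iff_coprime]
        intro hc
        have := Nat.coprime_two_right.mp hc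
        exact (Nat.not_even_iff_odd.mpr this) ho.add_one
      rw [MulChar.map_nonunit _ hu]
      obtain ⟨k, hk⟩ := ho
      have h1 : (n + 1) / 2 = k + 1 := by omega
      have h2 : (n + 1 + 1) / 2 = k + 1 := by omega
      rw [h1, h2]; simp

lemma Zf_eq_LFunction (s : ℂ) (hs : s ≠ 1) :
    Zf s = (1 : DirichletCharacter ℂ 2).LFunction s := by
  have h := DirichletCharacter.LFunctionTrivChar_eq_mul_riemannZeta (N := 2) hs
  rw [DirichletCharacter.LFunctionTrivChar] at h
  rw [h, Zf]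
  congr 1
  rw [Nat.Prime.primeFactors Nat.prime_two]
  simp

/-- The discrepancy as a complex function. -/
noncomputable def BoddC (t : ℝ) : ℂ := (Bodd t : ℂ)

lemma measurable_BoddC : Measurable BoddC := Complex.measurable_ofReal.comp measurable_Bodd

lemma norm_BoddC_le (t : ℝ) : ‖BoddC t‖ ≤ 1 / 2 := by
  rw [BoddC, Complex.norm_real]; exact abs_Bodd_le t

lemma integral_Ioi_id_cpow (s : ℂ) (hs : 1 < s.re) :
    ∫ t in Ioi (1:ℝ), ((t / 2 : ℝ) : ℂ) * (t : ℂ) ^ (-(s + 1)) = 1 / (2 * (s - 1)) := by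
  have hs1 : s - 1 ≠ 0 := by
    intro h
    have h2 := congrArg Complex.re h
    simp at h2
    linarith
  have e : ∀ t ∈ Ioi (1:ℝ), ((t / 2 : ℝ) : ℂ) * (t : ℂ) ^ (-(s + 1)) =
      (1 / 2 : ℂ) * (t : ℂ) ^ (-s) := by
    intro t ht
    have ht0 : (0:ℝ) < t := by have := mem_Ioi.mp ht; linarith
    have ht' : (t : ℂ) ≠ 0 := by exact_mod_cast ht0.ne'
    have : (t : ℂ) ^ (-s) = (t : ℂ) ^ (-(s + 1)) * t := by
      rw [show -s = -(s + 1) + 1 by ring, Complex.cpow_add _ _ ht', Complex.cpow_one]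
    rw [this]; push_cast; ring
  rw [setIntegral_congr_fun measurableSet_Ioi e, integral_const_mul,
    integral_Ioi_cpow_of_lt (by simpa using hs) one_pos]
  have h2 : -s + 1 ≠ 0 := by
    intro h; apply hs1; linear_combination -h
  rw [Complex.ofReal_one, one_cpow]
  field_simp
  ring

lemma Zf_of_one_lt_re (s : ℂ) (hs : 1 < s.re) :
    Zf s = s * gint BoddC s + s / (2 * (s - 1)) := by
  have hs1 : s ≠ 1 := by rintro rfl; simp at hs
  rw [Zf_eq_LFunction s hs1, DirichletCharacter.LFunction_eq_LSeries _ hs]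
  have h := LSeries_eq_mul_integral (fun n => (1 : DirichletCharacter ℂ 2) (n : ZMod 2))
    (r := 1) zero_le_one hs (DirichletCharacter.LSeriesSummable_of_one_lt_re _ hs) (by
      refine Asymptotics.IsBigO.of_bound 1 ?_
      filter_upwards with n
      rw [sum_trivChar_two]
      simp only [Real.rpow_one, one_mul]
      rw [Complex.norm_natCast, Real.norm_of_nonneg (by positivity)]
      have : (n + 1) / 2 ≤ n := by omega
      exact_mod_cast this)
  rw [h]
  have h1 : ∫ t in Ioi (1:ℝ), (∑ k ∈ Finset.Icc 1 ⌊t⌋₊, (1 : DirichletCharacter ℂ 2)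
      ((k : ℕ) : ZMod 2)) * (t : ℂ) ^ (-(s + 1)) =
      ∫ t in Ioi (1:ℝ), (BoddC t * (t : ℂ) ^ (-(s + 1)) +
        ((t / 2 : ℝ) : ℂ) * (t : ℂ) ^ (-(s + 1))) := by
    refine setIntegral_congr_fun measurableSet_Ioi ?_
    intro t ht
    have ht0 : (0:ℝ) < t := by have := mem_Ioi.mp ht; linarith
    simp only
    rw [sum_trivChar_two, BoddC, Bodd, Ocount, max_eq_left ht0.le]
    push_cast
    ring
  rw [h1, integral_add, integral_Ioi_id_cpow s hs, gint]
  · ring
  · exact integrableOn_gint _ measurable_BoddC (1 / 2) norm_BoddC_le s (by linarith)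
  · have e : ∀ t ∈ Ioi (1:ℝ), (1 / 2 : ℂ) * (t : ℂ) ^ (-s) =
        ((t / 2 : ℝ) : ℂ) * (t : ℂ) ^ (-(s + 1)) := by
      intro t ht
      have ht0 : (0:ℝ) < t := by have := mem_Ioi.mp ht; linarith
      have ht' : (t : ℂ) ≠ 0 := by exact_mod_cast ht0.ne'
      have : (t : ℂ) ^ (-s) = (t : ℂ) ^ (-(s + 1)) * t := by
        rw [show -s = -(s + 1) + 1 by ring, Complex.cpow_add _ _ ht', Complex.cpow_one]
      rw [this]; push_cast; ring
    refine IntegrableOn.congr_fun ?_ e measurableSet_Ioi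
    exact (integrableOn_Ioi_cpow_of_lt (by simpa using hs) one_pos).const_mul _

lemma Zf_eq (s : ℂ) (hs : 0 < s.re) (hs1 : s ≠ 1) :
    Zf s = s * gint BoddC s + s / (2 * (s - 1)) := by
  have hU : IsOpen {s : ℂ | 0 < s.re} := isOpen_lt continuous_const Complex.continuous_re
  set F : ℂ → ℂ := DirichletCharacter.LFunctionTrivChar₁ 2 with hF
  set G : ℂ → ℂ := fun s => (s - 1) * (s * gint BoddC s) + s / 2 with hG
  have hFd : DifferentiableOn ℂ F {s : ℂ | 0 < s.re} :=
    (DirichletCharacter.differentiable_LFunctionTrivChar₁ 2).differentiableOn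
  have hGd : DifferentiableOn ℂ G {s : ℂ | 0 < s.re} := by
    intro s hs
    have h1 := differentiableAt_gint _ measurable_BoddC (1 / 2) norm_BoddC_le s hs
    exact (((differentiableAt_id.sub_const 1).mul (differentiableAt_id.mul h1)).add
      (differentiableAt_id.div_const 2)).differentiableWithinAt
  have hconv : IsPreconnected {s : ℂ | 0 < s.re} := (convex_halfSpace_re_gt 0).isPreconnected
  have hFZ : ∀ s : ℂ, s ≠ 1 → F s = (s - 1) * Zf s := by
    intro s hs
    rw [hF, DirichletCharacter.LFunctionTrivChar₁, Function.update_of_ne hs,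
      Zf_eq_LFunction s hs]
  have hev : F =ᶠ[𝓝 (2 : ℂ)] G := by
    have hopen : {s : ℂ | 1 < s.re} ∈ 𝓝 (2 : ℂ) :=
      (isOpen_lt continuous_const Complex.continuous_re).mem_nhds (by simp)
    filter_upwards [hopen] with s hs
    have hs' : 1 < s.re := hs
    have hs1 : s ≠ 1 := by rintro rfl; simp at hs'
    have hs2 : s - 1 ≠ 0 := sub_ne_zero.mpr hs1
    rw [hFZ s hs1, Zf_of_one_lt_re s hs', hG]
    field_simp
  have key := (hFd.analyticOnNhd hU).eqOn_of_preconnected_of_eventuallyEq (hGd.analyticOnNhd hU)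
    hconv (show (2 : ℂ) ∈ {s : ℂ | 0 < s.re} by simp) hev hs
  rw [hFZ s hs1, hG] at key
  have hs2 : s - 1 ≠ 0 := sub_ne_zero.mpr hs1
  have : (s - 1) * Zf s = (s - 1) * (s * gint BoddC s + s / (2 * (s - 1))) := by
    rw [key]
    field_simp
  exact mul_left_cancel₀ hs2 this

lemma norm_Zf_le (s : ℂ) (h0 : 0 < s.re) (h1 : s.re < 1) :
    ‖Zf s‖ ≤ ‖s‖ * (1 / (2 * s.re) + 1 / (2 * (1 - s.re))) := by
  have hs1 : s ≠ 1 := by rintro rfl; simp at h1
  rw [Zf_eq s h0 hs1]
  have hg := norm_gint_le BoddC (1 / 2) norm_BoddC_le s h0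
  have h2 : 1 - s.re ≤ ‖s - 1‖ := by
    have := Complex.abs_re_le_norm (s - 1)
    have h3 := neg_abs_le (s - 1).re
    simp only [sub_re, one_re] at this h3
    linarith
  calc ‖s * gint BoddC s + s / (2 * (s - 1))‖
      ≤ ‖s‖ * ‖gint BoddC s‖ + ‖s‖ / (2 * ‖s - 1‖) := by
        refine (norm_add_le _ _).trans ?_
        rw [norm_mul, norm_div, norm_mul]
        simp
    _ ≤ ‖s‖ * (1 / 2 / s.re) + ‖s‖ / (2 * (1 - s.re)) := by
        have : 0 < 1 - s.re := by linarith
        gcongr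
    _ = _ := by
        have : 0 < 1 - s.re := by linarith
        field_simp

/-- Integrability of the discrepancy against a power on the whole half-line. -/
lemma integrableOn_Bodd (x : ℝ) (h0 : 0 < x) (h1 : x < 1) :
    IntegrableOn (fun t : ℝ => |Bodd t| * t ^ (-(x + 1))) (Ioi 0) := by
  have hsplit : Ioi (0:ℝ) = Ioc 0 1 ∪ Ioi 1 := by rw [Ioc_union_Ioi_eq_Ioi zero_le_one]
  rw [hsplit]
  have hm : Measurable (fun t : ℝ => |Bodd t| * t ^ (-(x + 1))) :=
    measurable_Bodd.abs.mul (Measurable.pow_const measurable_id _)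
  refine IntegrableOn.union ?_ ?_
  · have hI : IntegrableOn (fun t : ℝ => t ^ (-x)) (Ioc 0 1) := by
      have := (intervalIntegral.intervalIntegrable_rpow' (a := 0) (b := 1) (r := -x) (by linarith))
      exact (intervalIntegrable_iff_integrableOn_Ioc_of_le zero_le_one).mp this
    refine Integrable.mono' hI hm.aestronglyMeasurable ?_
    rw [ae_restrict_iff' measurableSet_Ioc]
    filter_upwards with t ht
    have hp : 0 ≤ t ^ (-(x + 1)) := Real.rpow_nonneg ht.1.le _
    rw [Real.norm_of_nonneg (by positivity)]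
    have hb : |Bodd t| ≤ t := by
      rcases lt_or_eq_of_le ht.2 with h | h
      · rw [Bodd_of_lt_one t ht.1.le h, abs_neg, abs_of_pos (by have := ht.1; positivity)]
        linarith [ht.1]
      · have := abs_Bodd_le t
        rw [h] at this ⊢
        linarith
    calc |Bodd t| * t ^ (-(x + 1)) ≤ t * t ^ (-(x + 1)) := by gcongr
      _ = t ^ (-x) := by
        have h2 : t ^ (-x) = t ^ (1 + -(x + 1)) := by congr 1; ring
        rw [h2, Real.rpow_add ht.1, Real.rpow_one]
  · have hI : IntegrableOn (fun t : ℝ => t ^ (-(x + 1))) (Ioi 1) :=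
      integrableOn_Ioi_rpow_of_lt (by linarith) one_pos
    refine Integrable.mono' hI hm.aestronglyMeasurable ?_
    rw [ae_restrict_iff' measurableSet_Ioi]
    filter_upwards with t ht
    have ht0 : (0:ℝ) < t := by have := mem_Ioi.mp ht; linarith
    have hp : 0 ≤ t ^ (-(x + 1)) := Real.rpow_nonneg ht0.le _
    rw [Real.norm_of_nonneg (by positivity)]
    have := abs_Bodd_le t
    nlinarith

lemma Zf_eq_integral (s : ℂ) (h0 : 0 < s.re) (h1 : s.re < 1) :
    Zf s = s * ∫ t in Ioi (0:ℝ), BoddC t * (t : ℂ) ^ (-(s + 1)) := by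
  have hs1 : s ≠ 1 := by rintro rfl; simp at h1
  have hint : IntegrableOn (fun t : ℝ => BoddC t * (t : ℂ) ^ (-(s + 1))) (Ioi 0) := by
    refine Integrable.mono' (integrableOn_Bodd s.re h0 h1) ?_ ?_
    · exact (measurable_BoddC.mul
        (Measurable.pow_const Complex.measurable_ofReal _)).aestronglyMeasurable
    · rw [ae_restrict_iff' measurableSet_Ioi]
      filter_upwards with t ht
      rw [norm_mul, norm_cpow_eq_rpow_re_of_pos (mem_Ioi.mp ht), BoddC, Complex.norm_real]
      simp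
  have hsplit : Ioi (0:ℝ) = Ioc 0 1 ∪ Ioi 1 := by rw [Ioc_union_Ioi_eq_Ioi zero_le_one]
  have hdisj : Disjoint (Ioc (0:ℝ) 1) (Ioi 1) := Ioc_disjoint_Ioi_same
  rw [hsplit, setIntegral_union hdisj measurableSet_Ioi
    (hint.mono_set Ioc_subset_Ioi_self) (hint.mono_set (Ioi_subset_Ioi zero_le_one)), Zf_eq s h0 hs1]
  have h2 : ∫ t in Ioc (0:ℝ) 1, BoddC t * (t : ℂ) ^ (-(s + 1)) =
      ∫ t in Ioc (0:ℝ) 1, -(1 / 2 : ℂ) * (t : ℂ) ^ (-s) := by
    have : (Ioc (0:ℝ) 1 : Set ℝ) =ᵐ[volume] Ioo 0 1 := Ioo_ae_eq_Ioc.symm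
    rw [setIntegral_congr_set this, setIntegral_congr_set this]
    refine setIntegral_congr_fun measurableSet_Ioo ?_
    intro t ht
    simp only
    have ht' : (t : ℂ) ≠ 0 := by exact_mod_cast ht.1.ne'
    have h3 : (t : ℂ) ^ (-s) = (t : ℂ) ^ (-(s + 1)) * t := by
      rw [show -s = -(s + 1) + 1 by ring, Complex.cpow_add _ _ ht', Complex.cpow_one]
    rw [h3, BoddC, Bodd_of_lt_one t ht.1.le ht.2]
    push_cast
    ring
  rw [h2, integral_const_mul, ← intervalIntegral.integral_of_le zero_le_one,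
    integral_cpow (Or.inl (by simpa using h1))]
  have hs2 : s - 1 ≠ 0 := sub_ne_zero.mpr hs1
  have h4 : -s + 1 ≠ 0 := by
    intro h; apply hs2; linear_combination -h
  rw [Complex.ofReal_one, one_cpow, Complex.ofReal_zero, zero_cpow h4, gint]
  field_simp
  ring

end Pool.Agent.Ratios
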