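import Pool.Agent.Ratios.Defs

/-! Bounds for Dirichlet `L`-functions: the elementary bound to the right of `Re s = 0`, and a bound
for the reciprocal under the Riemann hypothesis. -/

set_option autoImplicit false

open Complex MeasureTheory Set Filter Topology

namespace Pool.Agent.Ratios

/-- The integral attached to a bounded summatory function. -/
noncomputable def gint (S : ℝ → ℂ) (s : ℂ) : ℂ := ∫ t in Ioi (1:ℝ), S t * (t : ℂ) ^ (-(s + 1))

lemma norm_gint_integrand_le (S : ℝ → ℂ) (B : ℝ) (hB : ∀ t : ℝ, ‖S t‖ ≤ B) (s : ℂ)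
    (t : ℝ) (ht : 1 < t) : ‖S t * (t : ℂ) ^ (-(s + 1))‖ ≤ B * t ^ (-(s.re + 1)) := by
  have ht0 : 0 < t := by linarith
  rw [norm_mul, norm_cpow_eq_rpow_re_of_pos ht0]
  have e : (-(s + 1)).re = -(s.re + 1) := by simp
  rw [e]
  have := Real.rpow_nonneg ht0.le (-(s.re + 1))
  exact mul_le_mul_of_nonneg_right (hB t) this

lemma norm_gint_le (S : ℝ → ℂ) (B : ℝ) (hB : ∀ t : ℝ, ‖S t‖ ≤ B) (s : ℂ) (hs : 0 < s.re) :
    ‖gint S s‖ ≤ B / s.re := by
  have hint : IntegrableOn (fun t : ℝ => B * t ^ (-(s.re + 1))) (Ioi 1) :=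
    (integrableOn_Ioi_rpow_of_lt (by linarith) one_pos).const_mul _
  have h : ‖gint S s‖ ≤ ∫ t in Ioi (1:ℝ), B * t ^ (-(s.re + 1)) := by
    refine norm_integral_le_of_norm_le hint ?_
    rw [ae_restrict_iff' measurableSet_Ioi]
    filter_upwards with t ht
    exact norm_gint_integrand_le S B hB s t ht
  refine h.trans (le_of_eq ?_)
  rw [integral_const_mul, integral_Ioi_rpow_of_lt (by linarith) one_pos, Real.one_rpow]
  have : -(s.re + 1) + 1 = -s.re := by ring
  rw [this]
  field_simp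

lemma integrableOn_gint (S : ℝ → ℂ) (hS : Measurable S) (B : ℝ) (hB : ∀ t : ℝ, ‖S t‖ ≤ B) (s : ℂ)
    (hs : 0 < s.re) : IntegrableOn (fun t : ℝ => S t * (t : ℂ) ^ (-(s + 1))) (Ioi 1) := by
  have hint : IntegrableOn (fun t : ℝ => B * t ^ (-(s.re + 1))) (Ioi 1) :=
    (integrableOn_Ioi_rpow_of_lt (by linarith) one_pos).const_mul _
  refine Integrable.mono' hint ?_ ?_
  · have : Measurable (fun t : ℝ => (t : ℂ) ^ (-(s + 1))) := by
      exact Measurable.pow_const Complex.measurable_ofReal _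
    exact (hS.mul this).aestronglyMeasurable
  · rw [ae_restrict_iff' measurableSet_Ioi]
    filter_upwards with t ht
    exact norm_gint_integrand_le S B hB s t ht

lemma differentiableAt_gint (S : ℝ → ℂ) (hS : Measurable S) (B : ℝ) (hB : ∀ t : ℝ, ‖S t‖ ≤ B)
    (s : ℂ) (hs : 0 < s.re) : DifferentiableAt ℂ (gint S) s := by
  have hB0 : 0 ≤ B := (norm_nonneg _).trans (hB 0)
  set T : ℝ → ℂ := indicator (Ioi 1) S with hT
  have hTm : Measurable T := hS.indicator measurableSet_Ioi
  have hTB : ∀ t, ‖T t‖ ≤ B := by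
    intro t
    rw [hT]
    by_cases h : t ∈ Ioi (1:ℝ)
    · rw [indicator_of_mem h]; exact hB t
    · rw [indicator_of_notMem h]; simpa using hB0
  have e : gint S = fun s => mellin T (-s) := by
    funext s
    rw [gint, mellin]
    have h1 : ∫ t in Ioi (1:ℝ), S t * (t : ℂ) ^ (-(s + 1)) =
        ∫ t in Ioi (0:ℝ), indicator (Ioi (1:ℝ)) (fun t : ℝ => S t * (t : ℂ) ^ (-(s + 1))) t := by
      rw [setIntegral_indicator measurableSet_Ioi]
      congr 1
      have : Ioi (0:ℝ) ∩ Ioi 1 = Ioi 1 := by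
        rw [Ioi_inter_Ioi]; simp
      rw [this]
    rw [h1]
    refine setIntegral_congr_fun measurableSet_Ioi ?_
    intro t _
    simp only [hT, smul_eq_mul]
    by_cases h : t ∈ Ioi (1:ℝ)
    · rw [indicator_of_mem h, indicator_of_mem h]
      rw [show -(s + 1) = -s - 1 by ring, mul_comm]
    · rw [indicator_of_notMem h, indicator_of_notMem h, mul_zero]
  rw [e]
  have hd : DifferentiableAt ℂ (mellin T) (-s) := by
    refine mellin_differentiableAt_of_isBigO_rpow (a := 0) (b := (-s).re - 1) ?_ ?_ ?_ ?_ ?_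
    · have hloc : LocallyIntegrable T := by
        refine (locallyIntegrable_const (B : ℝ)).mono hTm.aestronglyMeasurable ?_
        filter_upwards with t
        rw [Real.norm_of_nonneg hB0]
        exact hTB t
      exact hloc.locallyIntegrableOn _
    · refine Asymptotics.IsBigO.of_bound B ?_
      filter_upwards with t
      simpa using hTB t
    · simpa using hs
    · refine Asymptotics.IsBigO.of_bound 0 ?_
      have : Ioo (0:ℝ) 1 ∈ 𝓝[>] (0:ℝ) := Ioo_mem_nhdsGT one_pos
      filter_upwards [this] with t ht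
      have : T t = 0 := by
        rw [hT]
        apply indicator_of_notMem
        simp only [mem_Ioi, not_lt]
        exact ht.2.le
      rw [this]; simp
    · linarith
  exact DifferentiableAt.comp (g := mellin T) (f := fun s : ℂ => -s) s hd differentiableAt_id.neg

section partialsums

variable {N : ℕ} [NeZero N] (χ : DirichletCharacter ℂ N)

lemma sum_range_period (hχ : χ ≠ 1) (n : ℕ) :
    ∑ k ∈ Finset.range N, χ ((n + k : ℕ) : ZMod N) = 0 := by
  have h0 : ∑ a : ZMod N, χ a = 0 := MulChar.sum_eq_zero_of_ne_one hχ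
  have h1 : ∑ a : ZMod N, χ ((n : ZMod N) + a) = 0 := by
    rw [← h0]
    exact Fintype.sum_bijective _ (AddGroup.addLeft_bijective (n : ZMod N)) _ _ fun x => rfl
  rw [← h1]
  refine Finset.sum_nbij' (fun k => (k : ZMod N)) (fun a => a.val) ?_ ?_ ?_ ?_ ?_
  · intro k _; simp
  · intro a _; simp [ZMod.val_lt]
  · intro k hk
    simp only [Finset.mem_range] at hk
    exact ZMod.val_cast_of_lt hk
  · intro a _; simp
  · intro k _; push_cast; rfl

lemma sum_range_add_period (hχ : χ ≠ 1) (n : ℕ) :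
    ∑ k ∈ Finset.range (n + N), χ ((k : ℕ) : ZMod N) =
      ∑ k ∈ Finset.range n, χ ((k : ℕ) : ZMod N) := by
  rw [Finset.sum_range_add, sum_range_period χ hχ n, add_zero]

lemma sum_range_mod (hχ : χ ≠ 1) (n : ℕ) :
    ∑ k ∈ Finset.range n, χ ((k : ℕ) : ZMod N) =
      ∑ k ∈ Finset.range (n % N), χ ((k : ℕ) : ZMod N) := by
  induction n using Nat.strong_induction_on with
  | _ n ih =>
    by_cases h : n < N
    · rw [Nat.mod_eq_of_lt h]
    · push Not at h
      obtain ⟨m, rfl⟩ := Nat.exists_eq_add_of_le' h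
      rw [sum_range_add_period χ hχ, Nat.add_mod_right]
      exact ih m (by have := NeZero.pos N; omega)

omit [NeZero N] in
lemma norm_char_le_one (a : ZMod N) : ‖χ a‖ ≤ 1 := DirichletCharacter.norm_le_one χ a

lemma norm_sum_range_le (hχ : χ ≠ 1) (n : ℕ) :
    ‖∑ k ∈ Finset.range n, χ ((k : ℕ) : ZMod N)‖ ≤ N := by
  rw [sum_range_mod χ hχ]
  refine (norm_sum_le _ _).trans ?_
  have h1 : ∑ k ∈ Finset.range (n % N), ‖χ ((k : ℕ) : ZMod N)‖ ≤
      ∑ k ∈ Finset.range (n % N), (1:ℝ) := Finset.sum_le_sum fun k _ => norm_char_le_one χ _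
  refine h1.trans ?_
  rw [Finset.sum_const, Finset.card_range, nsmul_eq_mul, mul_one]
  exact_mod_cast (Nat.mod_lt n (NeZero.pos N)).le

lemma ne_one_level (hχ : χ ≠ 1) : N ≠ 1 := by
  rintro rfl
  exact hχ (DirichletCharacter.level_one χ)

lemma norm_sum_Icc_le (hχ : χ ≠ 1) (n : ℕ) :
    ‖∑ k ∈ Finset.Icc 1 n, χ ((k : ℕ) : ZMod N)‖ ≤ N := by
  have h := norm_sum_range_le χ hχ (n + 1)
  have e : ∑ k ∈ Finset.range (n + 1), χ ((k : ℕ) : ZMod N) =
      ∑ k ∈ Finset.Icc 1 n, χ ((k : ℕ) : ZMod N) := by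
    have h1 : Finset.range (n + 1) = insert 0 (Finset.Icc 1 n) := by
      ext k; simp; omega
    rw [h1, Finset.sum_insert (by simp), Nat.cast_zero, χ.map_zero' (ne_one_level χ hχ), zero_add]
  rwa [e] at h

/-- The summatory function of the character. -/
noncomputable def Ssum (t : ℝ) : ℂ := ∑ k ∈ Finset.Icc 1 ⌊t⌋₊, χ ((k : ℕ) : ZMod N)

omit [NeZero N] in
lemma measurable_Ssum : Measurable (Ssum χ) := by
  have : Measurable (fun n : ℕ => ∑ k ∈ Finset.Icc 1 n, χ ((k : ℕ) : ZMod N)) :=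
    measurable_from_top
  exact this.comp Nat.measurable_floor

lemma LFunction_eq_gint (hχ : χ ≠ 1) (s : ℂ) (hs : 0 < s.re) :
    χ.LFunction s = s * gint (Ssum χ) s := by
  have hU : IsOpen {s : ℂ | 0 < s.re} := isOpen_lt continuous_const Complex.continuous_re
  have hB : ∀ t, ‖Ssum χ t‖ ≤ N := fun t => norm_sum_Icc_le χ hχ _
  have hF : DifferentiableOn ℂ (fun s => χ.LFunction s) {s : ℂ | 0 < s.re} :=
    (DirichletCharacter.differentiable_LFunction hχ).differentiableOn
  have hG : DifferentiableOn ℂ (fun s => s * gint (Ssum χ) s) {s : ℂ | 0 < s.re} := by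
    intro s hs
    exact (differentiableAt_id.mul
      (differentiableAt_gint _ (measurable_Ssum χ) N hB s hs)).differentiableWithinAt
  have hconv : IsPreconnected {s : ℂ | 0 < s.re} := (convex_halfSpace_re_gt 0).isPreconnected
  have hev : (fun s => χ.LFunction s) =ᶠ[𝓝 (2 : ℂ)] fun s => s * gint (Ssum χ) s := by
    have hopen : {s : ℂ | 1 < s.re} ∈ 𝓝 (2 : ℂ) :=
      (isOpen_lt continuous_const Complex.continuous_re).mem_nhds (by simp)
    filter_upwards [hopen] with s hs
    have hs' : 1 < s.re := hs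
    rw [DirichletCharacter.LFunction_eq_LSeries χ hs']
    exact LSeries_eq_mul_integral (fun n => χ (n : ZMod N)) (r := 0) le_rfl (by linarith)
      (DirichletCharacter.LSeriesSummable_of_one_lt_re χ hs') (by
        refine Asymptotics.IsBigO.of_bound N ?_
        filter_upwards with n
        simpa using norm_sum_Icc_le χ hχ n)
  exact (hF.analyticOnNhd hU).eqOn_of_preconnected_of_eventuallyEq (hG.analyticOnNhd hU) hconv
    (show (2 : ℂ) ∈ {s : ℂ | 0 < s.re} by simp) hev hs

theorem norm_LFunction_le (hχ : χ ≠ 1) (s : ℂ) (hs : 0 < s.re) :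
    ‖χ.LFunction s‖ ≤ N * ‖s‖ / s.re := by
  rw [LFunction_eq_gint χ hχ s hs, norm_mul]
  have h := norm_gint_le (Ssum χ) N (fun t => norm_sum_Icc_le χ hχ _) s hs
  calc ‖s‖ * ‖gint (Ssum χ) s‖ ≤ ‖s‖ * (N / s.re) := by gcongr
    _ = _ := by ring

lemma norm_inv_LFunction_le_three (s : ℂ) (hs : 2 ≤ s.re) : ‖(χ.LFunction s)⁻¹‖ ≤ 3 := by
  have hs1 : 1 < s.re := by linarith
  have h := DirichletCharacter.LSeries.mul_mu_eq_one χ hs1
  rw [DirichletCharacter.LFunction_eq_LSeries χ hs1]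
  have hinv : (LSeries (fun n => χ (n : ZMod N)) s)⁻¹ =
      LSeries ((fun n : ℕ => χ (n : ZMod N)) * fun n : ℕ => ((ArithmeticFunction.moebius n : ℤ) : ℂ))
        s := inv_eq_of_mul_eq_one_right h
  rw [hinv, LSeries]
  have hb : ∀ n : ℕ, ‖LSeries.term ((fun n : ℕ => χ (n : ZMod N)) *
      fun n : ℕ => ((ArithmeticFunction.moebius n : ℤ) : ℂ)) s n‖ ≤ 1 / (n : ℝ) ^ 2 := by
    intro n
    rcases Nat.eq_zero_or_pos n with rfl | hn
    · simp
    · rw [LSeries.norm_term_eq, if_neg hn.ne']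
      have h1 : ‖((fun n : ℕ => χ (n : ZMod N)) *
          fun n : ℕ => ((ArithmeticFunction.moebius n : ℤ) : ℂ)) n‖ ≤ 1 := by
        rw [Pi.mul_apply, norm_mul]
        have h2 : ‖((ArithmeticFunction.moebius n : ℤ) : ℂ)‖ ≤ 1 := by
          rw [Complex.norm_intCast]
          exact_mod_cast ArithmeticFunction.abs_moebius_le_one
        exact mul_le_one₀ (norm_char_le_one χ _) (norm_nonneg _) h2
      have hn1 : (1:ℝ) ≤ n := by exact_mod_cast hn
      have h3 : (n : ℝ) ^ 2 ≤ (n : ℝ) ^ s.re := by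
        rw [← Real.rpow_natCast]
        exact Real.rpow_le_rpow_of_exponent_le hn1 (by push_cast; linarith)
      gcongr
  have hsum := hasSum_zeta_two
  refine (tsum_of_norm_bounded hsum hb).trans ?_
  have := Real.pi_lt_d2
  have hp := Real.pi_pos
  nlinarith

/-- On the disc of radius `3/2` about `2 + i t` the `L`-function has no zeros under GRH. -/
lemma LFunction_ne_zero_of_GRH (h : GRH) (hχ : χ ≠ 1) (s : ℂ) (hs : 1 / 2 < s.re) :
    χ.LFunction s ≠ 0 := by
  intro h0
  by_cases h1 : s.re < 1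
  · have := h N χ s (by linarith) h1 h0
    linarith
  · push Not at h1
    exact DirichletCharacter.LFunction_ne_zero_of_one_le_re χ (Or.inl hχ) h1 h0

theorem norm_inv_LFunction_le (h : GRH) (hχ : χ ≠ 1) (s : ℂ) (hs : 11 / 16 ≤ s.re) :
    ‖(χ.LFunction s)⁻¹‖ ≤ 3 * (6 * N * (|s.im| + 7 / 2)) ^ 14 := by
  have hN : (1:ℝ) ≤ N := by exact_mod_cast NeZero.pos N
  have hbase : 1 ≤ 6 * (N:ℝ) * (|s.im| + 7 / 2) := by
    have := abs_nonneg s.im
    nlinarith
  rcases le_or_gt 2 s.re with h2 | h2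
  · refine (norm_inv_LFunction_le_three χ s h2).trans ?_
    have : (1:ℝ) ≤ (6 * N * (|s.im| + 7 / 2)) ^ 14 := one_le_pow₀ hbase
    linarith
  set t := s.im with ht
  set c : ℂ := 2 + t * I with hc
  -- the shifted function
  set F : ℂ → ℂ := fun w => χ.LFunction (c + w) with hF
  have hcre : c.re = 2 := by simp [hc]
  have hcim : c.im = t := by simp [hc]
  have hdiff : Differentiable ℂ F := by
    intro w
    exact DifferentiableAt.comp w (DirichletCharacter.differentiable_LFunction hχ _)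
      ((differentiableAt_const c).add differentiableAt_id)
  have hre : ∀ w ∈ Metric.ball (0:ℂ) (3 / 2), 1 / 2 < (c + w).re := by
    intro w hw
    rw [mem_ball_zero_iff] at hw
    have := Complex.abs_re_le_norm w
    have := neg_abs_le w.re
    rw [add_re, hcre]
    linarith
  have hne : ∀ w ∈ Metric.ball (0:ℂ) (3 / 2), F w ≠ 0 := fun w hw =>
    LFunction_ne_zero_of_GRH χ h hχ _ (hre w hw)
  have hlog : DifferentiableOn ℂ (fun w => deriv F w / F w) (Metric.ball (0:ℂ) (3 / 2)) := by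
    refine DifferentiableOn.div ?_ hdiff.differentiableOn hne
    exact (hdiff.differentiableOn (s := Metric.ball (0:ℂ) (3 / 2))).deriv Metric.isOpen_ball
  obtain ⟨g₀, hg₀⟩ := hlog.isExactOn_ball
  set g : ℂ → ℂ := fun w => g₀ w - g₀ 0 with hg
  have hg' : ∀ w ∈ Metric.ball (0:ℂ) (3 / 2), HasDerivAt g (deriv F w / F w) w := fun w hw =>
    (hg₀ w hw).sub_const _
  have hg0 : g 0 = 0 := by simp [hg]
  have h0mem : (0:ℂ) ∈ Metric.ball (0:ℂ) (3 / 2) := by simp
  -- F = F 0 * exp g
  have hFexp : ∀ w ∈ Metric.ball (0:ℂ) (3 / 2), F w * cexp (-g w) = F 0 := by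
    intro w hw
    have hder : ∀ x ∈ Metric.ball (0:ℂ) (3 / 2),
        HasDerivWithinAt (fun w => F w * cexp (-g w)) 0 (Metric.ball (0:ℂ) (3 / 2)) x := by
      intro x hx
      have d1 : HasDerivAt F (deriv F x) x := (hdiff x).hasDerivAt
      have d2 : HasDerivAt (fun w => cexp (-g w)) (cexp (-g x) * -(deriv F x / F x)) x :=
        (hg' x hx).neg.cexp
      have d3 := d1.mul d2
      have e : deriv F x * cexp (-g x) + F x * (cexp (-g x) * -(deriv F x / F x)) = 0 := by
        have := hne x hx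
        field_simp
        ring
      rw [e] at d3
      exact d3.hasDerivWithinAt
    have hconv : Convex ℝ (Metric.ball (0:ℂ) (3 / 2)) := convex_ball _ _
    have := hconv.is_const_of_fderivWithin_eq_zero (𝕜 := ℂ) (f := fun w => F w * cexp (-g w))
      (fun x hx => (hder x hx).differentiableWithinAt) (fun x hx => by
        have hu : UniqueDiffWithinAt ℂ (Metric.ball (0:ℂ) (3 / 2)) x :=
          Metric.isOpen_ball.uniqueDiffWithinAt hx
        have h1 := (hder x hx).hasFDerivWithinAt.fderivWithin hu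
        rw [h1]; ext; simp) hw h0mem
    simp only [hg0, neg_zero, Complex.exp_zero, mul_one] at this
    exact this
  have hF0 : F 0 = χ.LFunction c := by simp [hF]
  have hF0inv : ‖(F 0)⁻¹‖ ≤ 3 := by
    rw [hF0]; exact norm_inv_LFunction_le_three χ c (by rw [hcre])
  have htabs := abs_nonneg t
  have hbase1 : 1 < 6 * (N:ℝ) * (|t| + 7 / 2) := by nlinarith
  set M := Real.log (6 * N * (|t| + 7 / 2)) with hM
  have hMpos : 0 < M := Real.log_pos hbase1
  have hexpM : Real.exp M = 6 * N * (|t| + 7 / 2) := Real.exp_log (by linarith)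
  have hF0ne : F 0 ≠ 0 := hne 0 h0mem
  have hmaps : MapsTo g (Metric.ball (0:ℂ) (3 / 2)) {z | z.re ≤ M} := by
    intro w hw
    have e1 := hFexp w hw
    have e2 : cexp (g w) = F w * (F 0)⁻¹ := by
      rw [← e1, Complex.exp_neg]
      have hFw := hne w hw
      have hg1 := Complex.exp_ne_zero (g w)
      field_simp
    have e3 : Real.exp (g w).re = ‖F w‖ * ‖(F 0)⁻¹‖ := by
      rw [← Complex.norm_exp, e2, norm_mul]
    have hw' := hre w hw
    have e4 : ‖F w‖ ≤ 2 * N * (|t| + 7 / 2) := by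
      refine (norm_LFunction_le χ hχ _ (by linarith)).trans ?_
      have hn : ‖c + w‖ ≤ |t| + 7 / 2 := by
        have h1 : ‖c + w‖ ≤ ‖c‖ + ‖w‖ := norm_add_le _ _
        have h2 : ‖c‖ ≤ 2 + |t| := by
          refine (norm_add_le _ _).trans ?_
          simp
        have h3 : ‖w‖ < 3 / 2 := mem_ball_zero_iff.mp hw
        linarith
      rw [div_le_iff₀ (by linarith)]
      have h5 : 0 ≤ 2 * (N:ℝ) * (|t| + 7 / 2) := by positivity
      nlinarith [norm_nonneg (c + w)]
    have e5 : Real.exp (g w).re ≤ Real.exp M := by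
      rw [e3, hexpM]
      calc ‖F w‖ * ‖(F 0)⁻¹‖ ≤ (2 * N * (|t| + 7 / 2)) * 3 := by gcongr
        _ = _ := by ring
    exact Real.exp_le_exp.mp e5
  have hgd : DifferentiableOn ℂ g (Metric.ball (0:ℂ) (3 / 2)) := fun w hw =>
    (hg' w hw).differentiableAt.differentiableWithinAt
  set w₀ : ℂ := ((s.re - 2 : ℝ) : ℂ) with hw₀
  have hsw : c + w₀ = s := by
    apply Complex.ext <;> simp [hc, hw₀, ht]
  have hw₀n : ‖w₀‖ = 2 - s.re := by
    rw [hw₀, Complex.norm_real, Real.norm_of_nonpos (by linarith)]; ring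
  have hw₀mem : w₀ ∈ Metric.ball (0:ℂ) (3 / 2) := by
    rw [mem_ball_zero_iff, hw₀n]; linarith
  have hBC := Complex.borelCaratheodory_zero hMpos hgd hmaps (by norm_num) hw₀mem hg0
  have hg14 : ‖g w₀‖ ≤ 14 * M := by
    refine hBC.trans ?_
    rw [div_le_iff₀ (by rw [hw₀n]; linarith), hw₀n]
    nlinarith
  have e1 := hFexp w₀ hw₀mem
  have e2 : (χ.LFunction s)⁻¹ = cexp (-g w₀) * (F 0)⁻¹ := by
    have hFw := hne w₀ hw₀mem
    have hFs : F w₀ = χ.LFunction s := by simp only [hF]; rw [hsw]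
    rw [← hFs, ← e1]
    have hg1 := Complex.exp_ne_zero (-g w₀)
    field_simp
  rw [e2, norm_mul, Complex.norm_exp]
  have e3 : (-g w₀).re ≤ 14 * M := by
    calc (-g w₀).re ≤ ‖-g w₀‖ := Complex.re_le_norm _
      _ = ‖g w₀‖ := norm_neg _
      _ ≤ _ := hg14
  have e4 : Real.exp (14 * M) = (6 * N * (|t| + 7 / 2)) ^ 14 := by
    rw [← hexpM, ← Real.exp_nat_mul]; norm_num
  calc Real.exp (-g w₀).re * ‖(F 0)⁻¹‖ ≤ Real.exp (14 * M) * 3 := by gcongr
    _ = _ := by rw [e4]; ring

end partialsums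

end Pool.Agent.Ratios
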