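import Mathlib

/-! The Gamma integral with a complex parameter. -/

set_option autoImplicit false

open Complex MeasureTheory Set Filter Topology

namespace Pool.Agent.Ratios

/-- The open right half plane. -/
def rhp : Set ℂ := {z | 0 < z.re}

lemma isOpen_rhp : IsOpen rhp := isOpen_lt continuous_const Complex.continuous_re

lemma convex_rhp : Convex ℝ rhp := convex_halfSpace_re_gt 0

/-- Two functions holomorphic in the right half plane which agree on the positive reals are
equal. -/
lemma eqOn_rhp_of_eq_real {f g : ℂ → ℂ} (hf : DifferentiableOn ℂ f rhp)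
    (hg : DifferentiableOn ℂ g rhp) (h : ∀ x : ℝ, 0 < x → f x = g x) : EqOn f g rhp := by
  have hfa : AnalyticOnNhd ℂ f rhp := hf.analyticOnNhd isOpen_rhp
  have hga : AnalyticOnNhd ℂ g rhp := hg.analyticOnNhd isOpen_rhp
  refine hfa.eqOn_of_preconnected_of_frequently_eq hga convex_rhp.isPreconnected
    (z₀ := 1) (by simp [rhp]) ?_
  rw [frequently_iff]
  intro U hU
  rw [mem_nhdsWithin] at hU
  obtain ⟨V, hV, h1V, hVU⟩ := hU
  have hcont : ContinuousAt (fun x : ℝ => ((1 + x : ℝ) : ℂ)) 0 := by fun_prop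
  have h0 : ((1 + (0:ℝ) : ℝ) : ℂ) ∈ V := by simpa using h1V
  have := hcont.preimage_mem_nhds (hV.mem_nhds h0)
  rw [Metric.mem_nhds_iff] at this
  obtain ⟨ε, hε, hball⟩ := this
  refine ⟨((1 + ε / 2 : ℝ) : ℂ), hVU ⟨?_, ?_⟩, h _ (by linarith)⟩
  · apply hball
    simp [abs_of_pos hε]
    linarith
  · intro heq
    have : ((1 + ε / 2 : ℝ) : ℂ) = ((1 : ℝ) : ℂ) := by simpa using heq
    have := ofReal_injective this
    linarith

lemma integrableOn_rpow_mul_exp (s b : ℝ) (hs : 0 < s) (hb : 0 < b) :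
    IntegrableOn (fun x : ℝ => x ^ (s - 1) * Real.exp (-(b * x))) (Ioi 0) := by
  have h := integrableOn_rpow_mul_exp_neg_mul_rpow (p := 1) (s := s - 1) (b := b)
    (by linarith) one_pos hb
  refine h.congr_fun ?_ measurableSet_Ioi
  intro x _
  simp

lemma norm_cpow_mul_exp (s r : ℂ) (x : ℝ) (hx : 0 < x) :
    ‖(x : ℂ) ^ (s - 1) * cexp (-(r * x))‖ = x ^ (s.re - 1) * Real.exp (-(r.re * x)) := by
  rw [norm_mul, norm_cpow_eq_rpow_re_of_pos hx, Complex.norm_exp]
  simp

lemma aestronglyMeasurable_cpow_mul_exp (s r : ℂ) :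
    AEStronglyMeasurable (fun x : ℝ => (x : ℂ) ^ (s - 1) * cexp (-(r * x)))
      (volume.restrict (Ioi 0)) := by
  refine ContinuousOn.aestronglyMeasurable ?_ measurableSet_Ioi
  intro x hx
  have hx0 : (0:ℝ) < x := hx
  refine ContinuousAt.continuousWithinAt ?_
  refine ContinuousAt.mul ?_ (by fun_prop)
  exact (continuousAt_ofReal_cpow_const _ _ (Or.inr hx0.ne'))

lemma integrableOn_cpow_mul_exp (s r : ℂ) (hs : 0 < s.re) (hr : 0 < r.re) :
    IntegrableOn (fun x : ℝ => (x : ℂ) ^ (s - 1) * cexp (-(r * x))) (Ioi 0) := by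
  refine (integrableOn_rpow_mul_exp s.re r.re hs hr).mono'
    (aestronglyMeasurable_cpow_mul_exp s r) ?_
  rw [ae_restrict_iff' measurableSet_Ioi]
  filter_upwards with x hx
  rw [norm_cpow_mul_exp s r x hx]

lemma differentiableOn_gammaIntegral (s : ℂ) (hs : 0 < s.re) :
    DifferentiableOn ℂ (fun r : ℂ => ∫ x : ℝ in Ioi 0, (x : ℂ) ^ (s - 1) * cexp (-(r * x)))
      rhp := by
  intro r₀ hr₀
  have hr₀' : 0 < r₀.re := hr₀
  refine DifferentiableAt.differentiableWithinAt ?_
  have key := hasDerivAt_integral_of_dominated_loc_of_deriv_le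
    (μ := volume.restrict (Ioi (0:ℝ)))
    (F := fun (r : ℂ) (x : ℝ) => (x : ℂ) ^ (s - 1) * cexp (-(r * x)))
    (F' := fun (r : ℂ) (x : ℝ) => (x : ℂ) ^ (s - 1) * (cexp (-(r * x)) * (-x)))
    (x₀ := r₀) (s := Metric.ball r₀ (r₀.re / 2))
    (bound := fun x : ℝ => x ^ ((s.re + 1) - 1) * Real.exp (-(r₀.re / 2 * x)))
    (Metric.ball_mem_nhds _ (by linarith))
    (Eventually.of_forall fun r => aestronglyMeasurable_cpow_mul_exp s r)
    (integrableOn_cpow_mul_exp s r₀ hs hr₀') ?_ ?_ ?_ ?_
  · exact key.2.differentiableAt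
  · refine ContinuousOn.aestronglyMeasurable ?_ measurableSet_Ioi
    intro x hx
    have hx0 : (0:ℝ) < x := hx
    refine ContinuousAt.continuousWithinAt ?_
    refine ContinuousAt.mul ?_ (by fun_prop)
    exact (continuousAt_ofReal_cpow_const _ _ (Or.inr hx0.ne'))
  · rw [ae_restrict_iff' measurableSet_Ioi]
    filter_upwards with x hx r hr
    have hx0 : (0:ℝ) < x := hx
    have hre : r₀.re / 2 ≤ r.re := by
      have h1 : |(r - r₀).re| ≤ ‖r - r₀‖ := abs_re_le_norm _
      rw [Metric.mem_ball, dist_eq_norm] at hr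
      have h2 := (abs_lt.mp (h1.trans_lt hr)).1
      simp at h2
      linarith
    rw [norm_mul, norm_mul, norm_neg, Complex.norm_real, Real.norm_of_nonneg hx0.le,
      norm_cpow_eq_rpow_re_of_pos hx0, Complex.norm_exp]
    have e1 : x ^ ((s.re + 1) - 1) = x ^ (s.re - 1) * x := by
      rw [← Real.rpow_add_one hx0.ne']; ring_nf
    rw [e1]
    have e2 : (-(r * x)).re = -(r.re * x) := by simp
    have e3 : (s - 1).re = s.re - 1 := by simp
    rw [e2, e3]
    have e4 : Real.exp (-(r.re * x)) ≤ Real.exp (-(r₀.re / 2 * x)) := by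
      apply Real.exp_le_exp.mpr
      have := mul_le_mul_of_nonneg_right hre hx0.le
      linarith
    have hpos : 0 ≤ x ^ (s.re - 1) := Real.rpow_nonneg hx0.le _
    calc x ^ (s.re - 1) * (Real.exp (-(r.re * x)) * x)
        ≤ x ^ (s.re - 1) * (Real.exp (-(r₀.re / 2 * x)) * x) := by gcongr
      _ = _ := by ring
  · exact integrableOn_rpow_mul_exp (s.re + 1) (r₀.re / 2) (by linarith) (by linarith)
  · filter_upwards with x r _
    have h1 : HasDerivAt (fun r : ℂ => -(r * (x : ℂ))) (-(x : ℂ)) r := by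
      have h0 := ((hasDerivAt_id r).mul_const (x : ℂ)).fun_neg
      simp only [id, one_mul] at h0
      exact h0
    exact (h1.cexp).const_mul _

/-- The Gamma integral with complex parameter. -/
lemma integral_cpow_mul_exp_neg_mul_complex (s r : ℂ) (hs : 0 < s.re) (hr : 0 < r.re) :
    ∫ x : ℝ in Ioi 0, (x : ℂ) ^ (s - 1) * cexp (-(r * x)) = (1 / r) ^ s * Gamma s := by
  have h1 := differentiableOn_gammaIntegral s hs
  have h2 : DifferentiableOn ℂ (fun r : ℂ => (1 / r) ^ s * Gamma s) rhp := by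
    intro r hr
    have hr' : 0 < r.re := hr
    have hr0 : r ≠ 0 := by rintro rfl; simp at hr'
    refine DifferentiableAt.differentiableWithinAt ?_
    refine DifferentiableAt.mul_const ?_ _
    refine DifferentiableAt.cpow_const ?_ ?_
    · exact (differentiableAt_const _).div differentiableAt_id hr0
    · left
      rw [one_div, inv_re]
      have : 0 < normSq r := normSq_pos.mpr hr0
      positivity
  refine eqOn_rhp_of_eq_real h1 h2 ?_ hr
  intro x hx
  exact Complex.integral_cpow_mul_exp_neg_mul_Ioi hs hx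

end Pool.Agent.Ratios
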