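import Mathlib

/-! Bounds for the Gamma function on vertical lines. -/

set_option autoImplicit false

open Complex MeasureTheory Set

namespace Pool.Agent.Ratios

lemma norm_Gamma_I_sq (y : ℝ) :
    ‖Gamma (1 + y * I)‖ ^ 2 ≤ (1 + 2 * Real.pi * |y|) * Real.exp (-(Real.pi * |y|)) := by
  rcases eq_or_ne y 0 with rfl | hy
  · simp
  have h1 : Gamma (1 + y * I) = (y * I) * Gamma (y * I) := by
    rw [add_comm, Gamma_add_one]
    simpa using hy
  have hconj : (starRingEnd ℂ) (Gamma (1 + y * I)) = Gamma (1 - y * I) := by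
    rw [← Gamma_conj]
    congr 1
    simp [sub_eq_add_neg]
  have h2 : ((‖Gamma (1 + y * I)‖ ^ 2 : ℝ) : ℂ) = Real.pi * y / Real.sinh (Real.pi * y) := by
    rw [← Complex.normSq_eq_norm_sq, ← Complex.mul_conj, hconj, h1, mul_assoc,
      Gamma_mul_Gamma_one_sub]
    have : (Real.pi : ℂ) * (y * I) = ((Real.pi * y : ℝ) : ℂ) * I := by push_cast; ring
    rw [this, Complex.sin_mul_I, ← Complex.ofReal_sinh]
    have hs : (Real.sinh (Real.pi * y) : ℂ) ≠ 0 := by
      rw [Complex.ofReal_ne_zero]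
      intro h
      rw [Real.sinh_eq_zero] at h
      exact hy (by simpa [Real.pi_ne_zero] using h)
    field_simp
  have h3 : ‖Gamma (1 + y * I)‖ ^ 2 = Real.pi * y / Real.sinh (Real.pi * y) := by
    exact_mod_cast h2
  rw [h3]
  have h4 : Real.pi * y / Real.sinh (Real.pi * y) = Real.pi * |y| / Real.sinh (Real.pi * |y|) := by
    rcases abs_cases y with ⟨h, _⟩ | ⟨h, _⟩
    · rw [h]
    · rw [h]
      simp [Real.sinh_neg]
  rw [h4]
  set t := Real.pi * |y| with ht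
  have htpos : 0 < t := by positivity
  have hsinh : 0 < Real.sinh t := Real.sinh_pos_iff.mpr htpos
  rw [div_le_iff₀ hsinh]
  -- t ≤ (1 + 2 t) * exp (-t) * sinh t
  rw [Real.sinh_eq]
  have he : Real.exp (-t) * Real.exp t = 1 := by rw [← Real.exp_add]; simp
  have he2 : Real.exp (-t) * Real.exp (-t) * (1 + 2 * t) ≤ 1 := by
    rw [← Real.exp_add]
    have : 1 + 2 * t ≤ Real.exp (2 * t) := by linarith [Real.add_one_le_exp (2 * t)]
    calc Real.exp (-t + -t) * (1 + 2 * t) ≤ Real.exp (-t + -t) * Real.exp (2 * t) := by gcongr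
      _ = 1 := by rw [← Real.exp_add]; ring_nf; simp
  have : 2 * Real.pi * |y| = 2 * t := by rw [ht]; ring
  rw [this]
  nlinarith [Real.exp_pos (-t), Real.exp_pos t]

lemma norm_Gamma_one_add_le (y : ℝ) :
    ‖Gamma (1 + y * I)‖ ≤ 7 * (1 + |y|) * Real.exp (-(Real.pi * |y| / 2)) := by
  have h := norm_Gamma_I_sq y
  have hpos : 0 ≤ 7 * (1 + |y|) * Real.exp (-(Real.pi * |y| / 2)) := by positivity
  refine le_of_sq_le_sq ?_ hpos |>.trans le_rfl
  refine h.trans ?_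
  have e : (Real.exp (-(Real.pi * |y| / 2))) ^ 2 = Real.exp (-(Real.pi * |y|)) := by
    rw [← Real.exp_nat_mul]; congr 1; push_cast; ring
  rw [mul_pow, e]
  gcongr
  have hpi : Real.pi ≤ 4 := Real.pi_le_four
  nlinarith [abs_nonneg y, sq_nonneg (|y|)]

lemma norm_betaIntegral_le (u v : ℂ) :
    ‖betaIntegral u v‖ ≤ ‖betaIntegral (u.re : ℂ) (v.re : ℂ)‖ := by
  have key : ∀ x ∈ Ioc (0:ℝ) 1, x ≠ 1 → ‖(x : ℂ) ^ (u - 1) * (1 - (x : ℂ)) ^ (v - 1)‖ =
      x ^ (u.re - 1) * (1 - x) ^ (v.re - 1) := by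
    intro x hx hx1
    have h1 : 0 < 1 - x := by
      rcases lt_or_eq_of_le hx.2 with h | h
      · linarith
      · exact absurd h hx1
    rw [norm_mul, norm_cpow_eq_rpow_re_of_pos hx.1]
    have : (1 - (x : ℂ)) = ((1 - x : ℝ) : ℂ) := by push_cast; ring
    rw [this, norm_cpow_eq_rpow_re_of_pos h1]
    simp
  have hreal : betaIntegral (u.re : ℂ) (v.re : ℂ) =
      ((∫ x in (0:ℝ)..1, x ^ (u.re - 1) * (1 - x) ^ (v.re - 1) : ℝ) : ℂ) := by
    rw [betaIntegral, ← intervalIntegral.integral_ofReal]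
    refine intervalIntegral.integral_congr_ae ?_
    filter_upwards [compl_mem_ae_iff.mpr (measure_singleton (1:ℝ))] with x hx1 hx
    rw [uIoc_of_le zero_le_one] at hx
    have hx1' : x ≠ 1 := hx1
    have h1 : 0 < 1 - x := by
      rcases lt_or_eq_of_le hx.2 with h | h
      · linarith
      · exact absurd h hx1'
    push_cast
    rw [ofReal_cpow hx.1.le, ofReal_cpow h1.le]
    push_cast
    rfl
  have hnonneg : 0 ≤ ∫ x in (0:ℝ)..1, x ^ (u.re - 1) * (1 - x) ^ (v.re - 1) := by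
    refine intervalIntegral.integral_nonneg zero_le_one ?_
    intro x hx
    have : 0 ≤ 1 - x := by linarith [hx.2]
    have := Real.rpow_nonneg hx.1 (u.re - 1)
    have := Real.rpow_nonneg ‹0 ≤ 1 - x› (v.re - 1)
    positivity
  rw [hreal, Complex.norm_real, Real.norm_of_nonneg hnonneg]
  rw [betaIntegral]
  refine (intervalIntegral.norm_integral_le_integral_norm zero_le_one).trans (le_of_eq ?_)
  refine intervalIntegral.integral_congr_ae ?_
  filter_upwards [compl_mem_ae_iff.mpr (measure_singleton (1:ℝ))] with x hx1 hx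
  rw [uIoc_of_le zero_le_one] at hx
  exact key x hx hx1

/-- For `0 < x < 2`: `‖Γ(x+iy)‖ ≤ Γ(x) ‖Γ(2+iy)‖`. -/
lemma norm_Gamma_le_Gamma_two (x y : ℝ) (hx : 0 < x) (hx2 : x < 2) :
    ‖Gamma (x + y * I)‖ ≤ Real.Gamma x * ‖Gamma (2 + y * I)‖ := by
  have hu : 0 < ((x : ℂ) + y * I).re := by simpa using hx
  have hv : 0 < ((2 - x : ℝ) : ℂ).re := by simpa using hx2
  have e1 := Gamma_mul_Gamma_eq_betaIntegral hu hv
  have e2 := Gamma_mul_Gamma_eq_betaIntegral (s := (x : ℂ)) (t := ((2 - x : ℝ) : ℂ))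
    (by simpa using hx) hv
  have s1 : (x : ℂ) + y * I + ((2 - x : ℝ) : ℂ) = 2 + y * I := by push_cast; ring
  have s2 : (x : ℂ) + ((2 - x : ℝ) : ℂ) = 2 := by push_cast; ring
  rw [s1] at e1
  rw [s2] at e2
  have hG2 : Gamma (2 : ℂ) = 1 := by
    have h := Complex.Gamma_nat_eq_factorial 1
    have e : ((1 : ℕ) : ℂ) + 1 = 2 := by norm_num
    rw [e] at h
    simpa using h
  rw [hG2, one_mul] at e2
  have hb := norm_betaIntegral_le ((x : ℂ) + y * I) ((2 - x : ℝ) : ℂ)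
  have s3 : (((x : ℂ) + y * I).re : ℂ) = x := by simp
  have s4 : ((((2 - x : ℝ) : ℂ)).re : ℂ) = ((2 - x : ℝ) : ℂ) := by simp
  rw [s3, s4, ← e2, norm_mul] at hb
  have hpos : 0 < ‖Gamma ((2 - x : ℝ) : ℂ)‖ := by
    rw [norm_pos_iff]
    exact Gamma_ne_zero_of_re_pos hv
  have hgx : ‖Gamma (x : ℂ)‖ = Real.Gamma x := by
    rw [Gamma_ofReal, Complex.norm_real, Real.norm_of_nonneg (Real.Gamma_pos_of_pos hx).le]
  rw [hgx] at hb
  have h5 : ‖Gamma (x + y * I)‖ * ‖Gamma ((2 - x : ℝ) : ℂ)‖ ≤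
      (Real.Gamma x * ‖Gamma (2 + y * I)‖) * ‖Gamma ((2 - x : ℝ) : ℂ)‖ := by
    rw [← norm_mul, e1, norm_mul]
    calc ‖Gamma (2 + y * I)‖ * ‖betaIntegral (x + y * I) ((2 - x : ℝ) : ℂ)‖
        ≤ ‖Gamma (2 + y * I)‖ * (Real.Gamma x * ‖Gamma ((2 - x : ℝ) : ℂ)‖) := by gcongr
      _ = _ := by ring
  exact le_of_mul_le_mul_right h5 hpos

/-- Exponential decay of the Gamma function in the strip `0 < Re s < 2`. -/
lemma norm_Gamma_le (x y : ℝ) (hx : 0 < x) (hx2 : x < 2) :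
    ‖Gamma (x + y * I)‖ ≤
      7 * Real.Gamma x * (1 + |y|) ^ 2 * Real.exp (-(Real.pi * |y| / 2)) := by
  have h := norm_Gamma_le_Gamma_two x y hx hx2
  have h2 : Gamma (2 + y * I) = (1 + y * I) * Gamma (1 + y * I) := by
    have : (2 : ℂ) + y * I = (1 + y * I) + 1 := by ring
    rw [this, Gamma_add_one]
    intro h
    have := congrArg Complex.re h
    simp at this
  have h3 : ‖(1 : ℂ) + y * I‖ ≤ 1 + |y| := by
    refine (norm_add_le _ _).trans ?_
    simp
  have h4 : ‖Gamma (2 + y * I)‖ ≤ (1 + |y|) * (7 * (1 + |y|) * Real.exp (-(Real.pi * |y| / 2))) := by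
    rw [h2, norm_mul]
    have := norm_Gamma_one_add_le y
    gcongr
  have hg := (Real.Gamma_pos_of_pos hx).le
  calc ‖Gamma (x + y * I)‖ ≤ Real.Gamma x * ‖Gamma (2 + y * I)‖ := h
    _ ≤ Real.Gamma x * ((1 + |y|) * (7 * (1 + |y|) * Real.exp (-(Real.pi * |y| / 2)))) := by
        gcongr
    _ = _ := by ring

/-- `Γ` is bounded by `16` on `[1/16, 2]`. -/
lemma Gamma_real_le (x : ℝ) (hx : 1 / 16 ≤ x) (hx2 : x ≤ 2) : Real.Gamma x ≤ 16 := by
  have hx0 : 0 < x := by linarith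
  have hconv := Real.convexOn_Gamma
  -- Γ(x+1) ≤ 1 * ... on [1, 2] by convexity, and Γ(x) = Γ(x+1)/x
  have hG12 : ∀ t : ℝ, 1 ≤ t → t ≤ 2 → Real.Gamma t ≤ 1 := by
    intro t h1 h2
    have h := hconv.2 (show (1:ℝ) ∈ Ioi (0:ℝ) by norm_num [Set.mem_Ioi])
      (show (2:ℝ) ∈ Ioi (0:ℝ) by norm_num [Set.mem_Ioi])
      (show 0 ≤ 2 - t by linarith) (show 0 ≤ t - 1 by linarith) (by ring)
    simp only [smul_eq_mul, Real.Gamma_one, Real.Gamma_two, mul_one] at h
    have e : 2 - t + (t - 1) * 2 = t := by ring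
    rw [e] at h
    linarith
  rcases le_or_gt 1 x with h | h
  · have := hG12 x h hx2
    linarith
  · have e : Real.Gamma (x + 1) = x * Real.Gamma x := Real.Gamma_add_one hx0.ne'
    have h1 := hG12 (x + 1) (by linarith) (by linarith)
    rw [e] at h1
    have hg := (Real.Gamma_pos_of_pos hx0)
    nlinarith

end Pool.Agent.Ratios
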