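import Pool.Agent.Ratios.Defs

/-! Facts on the characters `χ_{8d}`: real, primitive, parity, values. -/

set_option autoImplicit false

open Complex

namespace Pool.Agent.Ratios

lemma chi8_apply_nat (d : ℤ) (n : ℕ) (h : n.Coprime (8 * d.natAbs)) :
    chi8 d (n : ZMod (8 * d.natAbs)) = ((jacobiSym (8 * d) n : ℤ) : ℂ) := by
  classical
  have hu : IsUnit (n : ZMod (8 * d.natAbs)) := (ZMod.isUnit_iff_coprime n _).mpr h
  change (if IsUnit (n : ZMod (8 * d.natAbs)) then _ else _) = _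
  rw [if_pos hu, ZMod.val_natCast, jacobiSym_eight_mul_mod d n (odd_of_coprime_eight_mul _ _ h)]

lemma chi8_apply_not_coprime (d : ℤ) (n : ℕ) (h : ¬ n.Coprime (8 * d.natAbs)) :
    chi8 d (n : ZMod (8 * d.natAbs)) = 0 := by
  have hu : ¬ IsUnit (n : ZMod (8 * d.natAbs)) := fun hu => h ((ZMod.isUnit_iff_coprime n _).mp hu)
  exact (chi8 d).map_nonunit hu

lemma chi8_apply_even (d : ℤ) (n : ℕ) (h : Even n) :
    chi8 d (n : ZMod (8 * d.natAbs)) = 0 := by
  refine chi8_apply_not_coprime d n fun hc => ?_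
  exact (Nat.not_odd_iff_even.mpr h) (odd_of_coprime_eight_mul _ _ hc)

lemma chi8_trichotomy (d : ℤ) (j : ZMod (8 * d.natAbs)) :
    chi8 d j = 0 ∨ chi8 d j = 1 ∨ chi8 d j = -1 := by
  classical
  change (if IsUnit j then _ else _) = (0 : ℂ) ∨ (if IsUnit j then _ else _) = (1 : ℂ) ∨
    (if IsUnit j then _ else _) = (-1 : ℂ)
  by_cases hj : IsUnit j
  · simp only [if_pos hj]
    rcases jacobiSym.trichotomy (8 * d) j.val with h | h | h <;> simp [h]
  · simp [hj]

lemma norm_chi8_le (d : ℤ) (j : ZMod (8 * d.natAbs)) : ‖chi8 d j‖ ≤ 1 := by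
  rcases chi8_trichotomy d j with h | h | h <;> simp [h]

lemma chi8_inv (d : ℤ) : (chi8 d)⁻¹ = chi8 d := by
  ext a
  rw [MulChar.inv_apply_eq_inv']
  rcases chi8_trichotomy d a with h | h | h <;> simp [h]

lemma odd_natAbs (d : Fam) : Odd (d : ℤ).natAbs := Int.natAbs_odd.mpr d.2.1

lemma natAbs_pos (d : Fam) : 0 < (d : ℤ).natAbs := Int.natAbs_pos.mpr d.2.2.ne_zero

/-- For `n ≡ 1 mod 4` coprime to an odd `d`, `(d / n) = (n / |d|)`. -/
lemma jacobiSym_swap (d : ℤ) (hd : Odd d) (n : ℕ) (hn : n % 4 = 1) :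
    jacobiSym d n = jacobiSym (n : ℤ) d.natAbs := by
  have hodd : Odd d.natAbs := Int.natAbs_odd.mpr hd
  have hno : Odd n := Nat.odd_iff.mpr (by omega)
  have key : jacobiSym (d.natAbs : ℤ) n = jacobiSym (n : ℤ) d.natAbs :=
    jacobiSym.quadratic_reciprocity_one_mod_four' hodd hn
  rcases Int.natAbs_eq d with h | h
  · conv_lhs => rw [h]
    exact key
  · conv_lhs => rw [h]
    rw [jacobiSym.neg _ hno, key, ZMod.χ₄_nat_one_mod_four hn, one_mul]

lemma jacobiSym_eight_eval (d : ℤ) (hd : Odd d) (n : ℕ) (hn : n % 4 = 1) :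
    jacobiSym (8 * d) n = jacobiSym 2 n * jacobiSym (n : ℤ) d.natAbs := by
  rw [jacobiSym_eight_mul d n (Nat.odd_iff.mpr (by omega)), jacobiSym.mul_left,
    jacobiSym_swap d hd n hn]

lemma jacobiSym_two_of_mod_eight_one (n : ℕ) (hn : n % 8 = 1) : jacobiSym 2 n = 1 := by
  rw [jacobiSym.at_two (Nat.odd_iff.mpr (by omega)), ZMod.χ₈_nat_mod_eight, hn]
  rfl

lemma jacobiSym_two_of_mod_eight_five (n : ℕ) (hn : n % 8 = 5) : jacobiSym 2 n = -1 := by
  rw [jacobiSym.at_two (Nat.odd_iff.mpr (by omega)), ZMod.χ₈_nat_mod_eight, hn]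
  rfl

lemma jacobiSym_two_of_mod_eight_seven (n : ℕ) (hn : n % 8 = 7) : jacobiSym 2 n = 1 := by
  rw [jacobiSym.at_two (Nat.odd_iff.mpr (by omega)), ZMod.χ₈_nat_mod_eight, hn]
  rfl

/-- If the character factors through a divisor `e` of its level, then it is `1` at integers
congruent to `1` modulo `e` and coprime to the level. -/
lemma eq_one_of_factorsThrough {N e : ℕ} (χ : DirichletCharacter ℂ N)
    (h : χ.FactorsThrough e) (n : ℕ) (hn : n.Coprime N) (h1 : n ≡ 1 [MOD e]) :
    χ (n : ZMod N) = 1 := by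
  obtain ⟨he, χ₀, rfl⟩ := h
  have hc : IsCoprime (n : ℤ) (N : ℤ) := Nat.isCoprime_iff_coprime.mpr hn
  have := DirichletCharacter.changeLevel_eq_cast_of_dvd' χ₀ he hc
  rw [Int.cast_natCast, Int.cast_natCast] at this
  rw [this, (ZMod.natCast_eq_natCast_iff n 1 e).mpr h1, Nat.cast_one, map_one]

/-- There is an integer `n ≡ 1 mod 8|d|/q` with `χ_{8d}(n) = -1`, for every prime `q ∣ 8 d`. -/
lemma exists_chi8_eq_neg_one (d : Fam) (q : ℕ) (hq : q.Prime) (hqd : q ∣ 8 * (d : ℤ).natAbs) :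
    ∃ n : ℕ, n.Coprime (8 * (d : ℤ).natAbs) ∧ n ≡ 1 [MOD (8 * (d : ℤ).natAbs / q)] ∧
      chi8 d (n : ZMod (8 * (d : ℤ).natAbs)) = -1 := by
  set m := (d : ℤ).natAbs with hm
  have hmo : Odd m := odd_natAbs d
  have hmpos : 0 < m := natAbs_pos d
  rcases hq.eq_two_or_odd' with rfl | hqo
  · refine ⟨1 + 4 * m, ?_, ?_, ?_⟩
    · have h1 : (1 + 4 * m).Coprime m := by simp [Nat.coprime_add_mul_right_left]
      have h2 : (1 + 4 * m).Coprime (2 ^ 3) := by
        apply Nat.Coprime.pow_right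
        rw [Nat.coprime_two_right]
        exact Nat.odd_iff.mpr (by omega)
      exact Nat.Coprime.mul_right h2 h1
    · have : 8 * m / 2 = 4 * m := by omega
      rw [this]
      simp [Nat.ModEq]
    · have hc : (1 + 4 * m).Coprime (8 * m) := by
        have h1 : (1 + 4 * m).Coprime m := by simp [Nat.coprime_add_mul_right_left]
        have h2 : (1 + 4 * m).Coprime (2 ^ 3) := by
          apply Nat.Coprime.pow_right
          rw [Nat.coprime_two_right]
          exact Nat.odd_iff.mpr (by omega)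
        exact Nat.Coprime.mul_right h2 h1
      rw [chi8_apply_nat d _ hc, jacobiSym_eight_eval d d.2.1 _ (by omega),
        jacobiSym_two_of_mod_eight_five _ (by obtain ⟨k, hk⟩ := hmo; omega), ← hm]
      have : jacobiSym ((1 + 4 * m : ℕ) : ℤ) m = 1 := by
        rw [← jacobiSym.one_left m]
        apply jacobiSym.mod_left'
        push_cast
        rw [show (1 : ℤ) + 4 * (m : ℤ) = 1 + (m : ℤ) * 4 by ring, Int.add_mul_emod_self_left]
      rw [this]
      norm_num
  · have hqm : q ∣ m := by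
      refine (Nat.Coprime.dvd_of_dvd_mul_left ?_ hqd)
      have : q.Coprime (2 ^ 3) := Nat.Coprime.pow_right _ (Nat.coprime_two_right.mpr hqo)
      exact this
    obtain ⟨m', hm'⟩ := hqm
    have hsq : Squarefree m := Int.squarefree_natAbs.mpr d.2.2
    have hcop : q.Coprime m' := by
      rw [hm'] at hsq
      exact (Nat.squarefree_mul_iff.mp hsq).1
    have hm'pos : 0 < m' := by
      rcases Nat.eq_zero_or_pos m' with h | h
      · rw [h] at hm'; omega
      · exact h
    have hdiv : 8 * m / q = 8 * m' := by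
      rw [hm', show 8 * (q * m') = q * (8 * m') by ring, Nat.mul_div_cancel_left _ hq.pos]
    have hcop8 : q.Coprime (8 * m') := by
      have : q.Coprime (2 ^ 3) := Nat.Coprime.pow_right _ (Nat.coprime_two_right.mpr hqo)
      exact Nat.Coprime.mul_right this hcop
    have : Fact q.Prime := ⟨hq⟩
    have hq2 : ringChar (ZMod q) ≠ 2 := by
      rw [ZMod.ringChar_zmod_n]
      rintro rfl
      exact absurd hqo (by decide)
    obtain ⟨a, ha⟩ := quadraticChar_exists_neg_one hq2
    obtain ⟨n, hn1, hn2⟩ := Nat.chineseRemainder hcop8 a.val 1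
    have hcn : n.Coprime (8 * m') := by
      have h := hn2.gcd_eq
      rw [Nat.Coprime, h]
      simp
    have hleg : jacobiSym (n : ℤ) q = -1 := by
      rw [← jacobiSym.legendreSym.to_jacobiSym, legendreSym]
      have : ((n : ℤ) : ZMod q) = a := by
        rw [Int.cast_natCast, (ZMod.natCast_eq_natCast_iff n a.val q).mpr hn1, ZMod.natCast_zmod_val]
      rw [this, ha]
    have hcq : n.Coprime q := by
      by_contra hcon
      have : jacobiSym (n : ℤ) q = 0 := by
        have : NeZero q := ⟨hq.ne_zero⟩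
        rw [jacobiSym.eq_zero_iff_not_coprime]
        simpa [Int.gcd_natCast_natCast] using hcon
      rw [this] at hleg
      exact absurd hleg (by norm_num)
    have hcm : n.Coprime (8 * m) := by
      rw [hm', show 8 * (q * m') = q * (8 * m') by ring]
      exact Nat.Coprime.mul_right hcq hcn
    have h8 : n % 8 = 1 := by
      have : n ≡ 1 [MOD 8] := hn2.of_dvd ⟨m', rfl⟩
      simpa [Nat.ModEq] using this
    refine ⟨n, hcm, ?_, ?_⟩
    · rw [hdiv]; exact hn2
    · rw [chi8_apply_nat d _ hcm, jacobiSym_eight_eval d d.2.1 _ (by omega),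
        jacobiSym_two_of_mod_eight_one _ h8, ← hm, hm', jacobiSym.mul_right' _ hq.ne_zero
          hm'pos.ne', hleg]
      have : jacobiSym (n : ℤ) m' = 1 := by
        rw [← jacobiSym.one_left m']
        apply jacobiSym.mod_left'
        have : n ≡ 1 [MOD m'] := hn2.of_dvd ⟨8, by ring⟩
        have h := (Int.natCast_modEq_iff (n := m') (a := n) (b := 1)).mpr this
        simpa [Int.ModEq] using h
      rw [this]
      norm_num

theorem isPrimitive_chi8 (d : Fam) : (chi8 (d : ℤ)).IsPrimitive := by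
  rw [DirichletCharacter.IsPrimitive]
  set N := 8 * (d : ℤ).natAbs with hN
  set c := (chi8 (d : ℤ)).conductor with hc
  have hdvd : c ∣ N := DirichletCharacter.conductor_dvd_level _
  obtain ⟨k, hk⟩ := hdvd
  have hNpos : 0 < N := by have := natAbs_pos d; omega
  have hkpos : 0 < k := by
    rcases Nat.eq_zero_or_pos k with h | h
    · rw [h] at hk; omega
    · exact h
  by_contra hne
  have hk1 : k ≠ 1 := by
    rintro rfl
    rw [mul_one] at hk
    exact hne hk.symm
  obtain ⟨q, hq, hqk⟩ := Nat.exists_prime_and_dvd hk1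
  obtain ⟨l, hl⟩ := hqk
  have hqN : q ∣ N := by rw [hk, hl]; exact ⟨c * l, by ring⟩
  have hfac : (chi8 (d : ℤ)).FactorsThrough (N / q) := by
    refine (DirichletCharacter.factorsThrough_conductor _).mono _ ?_ (Nat.div_dvd_of_dvd hqN)
    refine ⟨l, ?_⟩
    rw [← hc, hk, hl, show c * (q * l) = q * (c * l) by ring, Nat.mul_div_cancel_left _ hq.pos]
  obtain ⟨n, hn1, hn2, hn3⟩ := exists_chi8_eq_neg_one d q hq hqN
  rw [eq_one_of_factorsThrough _ hfac n hn1 hn2] at hn3
  norm_num at hn3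

lemma chi8_ne_one (d : Fam) : chi8 (d : ℤ) ≠ 1 := by
  intro h
  have h1 := isPrimitive_chi8 d
  rw [DirichletCharacter.IsPrimitive, h, DirichletCharacter.conductor_one] at h1
  have := natAbs_pos d
  omega

/-- The value at `-1` is the sign of `d`. -/
lemma chi8_neg_one_of_pos (d : Fam) (hd : 0 < (d : ℤ)) : (chi8 (d : ℤ)).Even := by
  set m := (d : ℤ).natAbs with hm
  have hmo : Odd m := odd_natAbs d
  have hmpos : 0 < m := natAbs_pos d
  have hdm : (d : ℤ) = m := (Int.natAbs_of_nonneg hd.le).symm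
  have hcast : ((8 * m - 1 : ℕ) : ZMod (8 * m)) = -1 := by
    rw [Nat.cast_sub (by omega), ZMod.natCast_self]; simp
  have hcop : (8 * m - 1).Coprime (8 * m) := by
    have h := Nat.coprime_self_sub_left (m := 1) (n := 8 * m) (by omega)
    simpa using h.mpr (Nat.coprime_one_left _)
  rw [DirichletCharacter.Even, ← hcast, chi8_apply_nat _ _ hcop,
    jacobiSym_eight_mul _ _ (Nat.odd_iff.mpr (by omega)), jacobiSym.mul_left,
    jacobiSym_two_of_mod_eight_seven _ (by omega), one_mul, hdm]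
  have h3 : (8 * m - 1) % 4 = 3 := by omega
  have hneg : (((8 * m - 1 : ℕ) : ℤ)) % (m : ℤ) = (-1 : ℤ) % (m : ℤ) := by
    rw [Nat.cast_sub (by omega)]
    push_cast
    rw [show (8 : ℤ) * (m : ℤ) - 1 = -1 + (m : ℤ) * 8 by ring, Int.add_mul_emod_self_left]
  have hm4 : m % 4 = 1 ∨ m % 4 = 3 := by obtain ⟨k, hk⟩ := hmo; omega
  rcases hm4 with h | h
  · rw [jacobiSym.quadratic_reciprocity_one_mod_four h (Nat.odd_iff.mpr (by omega)),
      jacobiSym.mod_left' hneg, jacobiSym.at_neg_one hmo, ZMod.χ₄_nat_one_mod_four h]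
    norm_num
  · rw [jacobiSym.quadratic_reciprocity_three_mod_four h h3,
      jacobiSym.mod_left' hneg, jacobiSym.at_neg_one hmo, ZMod.χ₄_nat_three_mod_four h]
    norm_num

lemma chi8_neg_one_of_neg (d : Fam) (hd : (d : ℤ) < 0) : (chi8 (d : ℤ)).Odd := by
  set m := (d : ℤ).natAbs with hm
  have hmo : Odd m := odd_natAbs d
  have hmpos : 0 < m := natAbs_pos d
  have hdm : (d : ℤ) = -m := by omega
  have hcast : ((8 * m - 1 : ℕ) : ZMod (8 * m)) = -1 := by
    rw [Nat.cast_sub (by omega), ZMod.natCast_self]; simp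
  have hcop : (8 * m - 1).Coprime (8 * m) := by
    have h := Nat.coprime_self_sub_left (m := 1) (n := 8 * m) (by omega)
    simpa using h.mpr (Nat.coprime_one_left _)
  have h3 : (8 * m - 1) % 4 = 3 := by omega
  rw [DirichletCharacter.Odd, ← hcast, chi8_apply_nat _ _ hcop,
    jacobiSym_eight_mul _ _ (Nat.odd_iff.mpr (by omega)), jacobiSym.mul_left,
    jacobiSym_two_of_mod_eight_seven _ (by omega), one_mul, hdm,
    jacobiSym.neg _ (Nat.odd_iff.mpr (by omega)), ZMod.χ₄_nat_three_mod_four h3]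
  have hneg : (((8 * m - 1 : ℕ) : ℤ)) % (m : ℤ) = (-1 : ℤ) % (m : ℤ) := by
    rw [Nat.cast_sub (by omega)]
    push_cast
    rw [show (8 : ℤ) * (m : ℤ) - 1 = -1 + (m : ℤ) * 8 by ring, Int.add_mul_emod_self_left]
  have hm4 : m % 4 = 1 ∨ m % 4 = 3 := by obtain ⟨k, hk⟩ := hmo; omega
  rcases hm4 with h | h
  · rw [jacobiSym.quadratic_reciprocity_one_mod_four h (Nat.odd_iff.mpr (by omega)),
      jacobiSym.mod_left' hneg, jacobiSym.at_neg_one hmo, ZMod.χ₄_nat_one_mod_four h]
    norm_num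
  · rw [jacobiSym.quadratic_reciprocity_three_mod_four h h3,
      jacobiSym.mod_left' hneg, jacobiSym.at_neg_one hmo, ZMod.χ₄_nat_three_mod_four h]
    norm_num

end Pool.Agent.Ratios
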