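import Pool.Agent.Ratios.Parseval

/-! The Mellin-Barnes representation on the boundary, and decay of the Mellin transform. -/

set_option autoImplicit false

open Complex MeasureTheory Set Filter Topology

namespace Pool.Agent.Ratios

lemma arg_bounds_of_re_pos (x : ℂ) (hx : 0 < x.re) (φ : ℝ) (h1 : -(Real.pi / 2) < φ)
    (h2 : φ < Real.pi / 2) : -Real.pi < x.arg + φ ∧ x.arg + φ ≤ Real.pi := by
  have := abs_lt.mp (abs_arg_lt_pi_div_two_iff.mpr (Or.inl hx))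
  constructor <;> linarith

lemma one_div_re_pos (x : ℂ) (hx : 0 < x.re) : 0 < (1 / x).re := by
  have hx0 : x ≠ 0 := by rintro rfl; simp at hx
  rw [one_div, inv_re]
  have : 0 < normSq x := normSq_pos.mpr hx0
  positivity

lemma lap_rot (a : ℝ) (ha : 0 < a) (lam q : ℂ) (hq : q.re = 0) (ψ : ℝ)
    (h1 : -(Real.pi / 2) < ψ) (h2 : ψ < Real.pi / 2) :
    lap (rotA a ψ) (rotL lam ψ) (q * cexp (-(ψ * I))) = cexp (ψ * I) * lap a lam q := by
  have hpre : 0 < ((a : ℂ) + q).re := by simp [hq, ha]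
  have hp0 : (a : ℂ) + q ≠ 0 := by intro h; rw [h] at hpre; simp at hpre
  have e0 : rotA a ψ + q * cexp (-(ψ * I)) = ((a : ℂ) + q) * cexp (-(ψ * I)) := by
    rw [rotA]; ring
  have he : cexp (ψ * I) ≠ 0 := Complex.exp_ne_zero _
  have e1 : 1 / (((a : ℂ) + q) * cexp (-(ψ * I))) = (1 / ((a : ℂ) + q)) * cexp (ψ * I) := by
    rw [Complex.exp_neg]
    field_simp
  obtain ⟨b1, b2⟩ := arg_bounds_of_re_pos _ (one_div_re_pos _ hpre) ψ h1 h2
  have e2 : (rotL lam ψ) ^ 2 = lam ^ 2 * cexp (-(ψ * I)) := by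
    rw [rotL, mul_pow, ← Complex.exp_nat_mul]
    congr 2
    push_cast; ring
  have e3 : lam ^ 2 * cexp (-(ψ * I)) / (4 * (((a : ℂ) + q) * cexp (-(ψ * I)))) =
      lam ^ 2 / (4 * ((a : ℂ) + q)) := by
    have : cexp (-(ψ * I)) ≠ 0 := Complex.exp_ne_zero _
    field_simp
  rw [lap, lap, e0, e1, mul_exp_cpow _ (one_div_ne_zero hp0) ψ b1 b2, e2, e3, rotL]
  have e4 : cexp (-(ψ / 2 * I)) * cexp (ψ * I * (3 / 2)) = cexp (ψ * I) := by
    rw [← Complex.exp_add]; congr 1; ring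
  rw [← e4]
  ring

lemma parseval_rot (a : ℝ) (ha : 0 < a) (lam : ℂ) (u : ℝ) (ψ : ℝ)
    (h1 : -(Real.pi / 2) < ψ) (h2 : ψ < Real.pi / 2) (hu : 0 < u * Real.sin ψ) (c : ℝ)
    (hc : -(1 / 2) < c) (hc1 : c < 1) :
    ∫ t : ℝ, mellin (ker a lam) ((c : ℂ) + t * I) *
      ((1 / ((u : ℂ) * I)) ^ (1 - ((c : ℂ) + t * I)) * Gamma (1 - ((c : ℂ) + t * I))) =
      2 * Real.pi * lap a lam (u * I) := by
  have hu0 : u ≠ 0 := by rintro rfl; simp at hu
  have huI : (u : ℂ) * I ≠ 0 := mul_ne_zero (by exact_mod_cast hu0) I_ne_zero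
  set q : ℂ := (u : ℂ) * I * cexp (-(ψ * I)) with hq
  have hqre : 0 < q.re := by
    have : q = (u : ℂ) * I * cexp (((-ψ : ℝ) : ℂ) * I) := by
      rw [hq]; congr 2; push_cast; ring
    rw [this, mul_assoc, Complex.re_ofReal_mul, Complex.mul_re, Complex.exp_ofReal_mul_I_re,
      Complex.exp_ofReal_mul_I_im, Real.sin_neg]
    simpa using hu
  have hA : 0 < (rotA a ψ).re := by
    rw [rotA_re]
    exact mul_pos ha (Real.cos_pos_of_mem_Ioo ⟨h1, h2⟩)
  have key := parseval_ker (rotA a ψ) (rotL lam ψ) hA q hqre c hc hc1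
  rw [hq, lap_rot a ha lam (u * I) (by simp) ψ h1 h2, ← hq] at key
  have he : cexp (ψ * I) ≠ 0 := Complex.exp_ne_zero _
  have h1q : 1 / ((u : ℂ) * I) = (1 / q) * cexp (((-ψ : ℝ) : ℂ) * I) := by
    have e : cexp (((-ψ : ℝ) : ℂ) * I) = cexp (-(ψ * I)) := by congr 1; push_cast; ring
    rw [e, hq]
    have : cexp (-(ψ * I)) ≠ 0 := Complex.exp_ne_zero _
    field_simp
  have hq0 : q ≠ 0 := by intro h; rw [h] at hqre; simp at hqre
  obtain ⟨b1, b2⟩ := arg_bounds_of_re_pos _ (one_div_re_pos _ hqre) (-ψ) (by linarith)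
    (by linarith)
  have hpt : ∀ t : ℝ, mellin (ker a lam) ((c : ℂ) + t * I) *
      ((1 / ((u : ℂ) * I)) ^ (1 - ((c : ℂ) + t * I)) * Gamma (1 - ((c : ℂ) + t * I))) =
      cexp (-(ψ * I)) * (mellin (ker (rotA a ψ) (rotL lam ψ)) ((c : ℂ) + t * I) *
      ((1 / q) ^ (1 - ((c : ℂ) + t * I)) * Gamma (1 - ((c : ℂ) + t * I)))) := by
    intro t
    rw [mellin_ker_rot a ha lam _ (by simpa using hc) ψ h1 h2, h1q,
      mul_exp_cpow _ (one_div_ne_zero hq0) (-ψ) b1 b2]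
    have e : cexp (-(ψ * I * ((c : ℂ) + t * I))) *
        cexp (((-ψ : ℝ) : ℂ) * I * (1 - ((c : ℂ) + t * I))) = cexp (-(ψ * I)) := by
      rw [← Complex.exp_add]; congr 1; push_cast; ring
    rw [← e]
    ring
  simp_rw [hpt]
  rw [integral_const_mul, key, Complex.exp_neg]
  field_simp

/-- Mellin-Barnes representation on the imaginary axis. -/
lemma parseval_boundary (a : ℝ) (ha : 0 < a) (lam : ℂ) (u : ℝ) (hu : u ≠ 0) (c : ℝ)
    (hc : -(1 / 2) < c) (hc1 : c < 1) :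
    ∫ t : ℝ, mellin (ker a lam) ((c : ℂ) + t * I) *
      ((1 / ((u : ℂ) * I)) ^ (1 - ((c : ℂ) + t * I)) * Gamma (1 - ((c : ℂ) + t * I))) =
      2 * Real.pi * lap a lam (u * I) := by
  have hpi := Real.pi_pos
  have hs : 0 < Real.sin (Real.pi / 4) := by
    rw [Real.sin_pi_div_four]; positivity
  rcases lt_or_gt_of_ne hu with h | h
  · refine parseval_rot a ha lam u (-(Real.pi / 4)) (by linarith) (by linarith) ?_ c hc hc1
    rw [Real.sin_neg]
    nlinarith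
  · exact parseval_rot a ha lam u (Real.pi / 4) (by linarith) (by linarith) (by positivity)
      c hc hc1

/-- Exponential decay of the Mellin transform of the kernel, general form. -/
lemma norm_mellin_ker_rot (a : ℝ) (ha : 0 < a) (lam : ℂ) (c t : ℝ) (hc : -(1 / 2) < c) (ψ : ℝ)
    (h1 : -(Real.pi / 2) < ψ) (h2 : ψ < Real.pi / 2) :
    ‖mellin (ker a lam) ((c : ℂ) + t * I)‖ =
      Real.exp (ψ * t) * ‖mellin (ker (rotA a ψ) (rotL lam ψ)) ((c : ℂ) + t * I)‖ := by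
  rw [mellin_ker_rot a ha lam _ (by simpa using hc) ψ h1 h2, norm_mul, Complex.norm_exp]
  congr 2
  simp

end Pool.Agent.Ratios
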