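import Mathlib

/-!
# The one-over-one ratios conjecture for the family of quadratic characters `χ_{8d}`

Definitions used in the statement.
-/

set_option autoImplicit false

open Complex

namespace Pool.Agent.Ratios

/-- The generalized Riemann hypothesis for Dirichlet `L`-functions: every zero of `L(s, χ)` in the
open strip `0 < Re s < 1` has real part `1/2`, for every Dirichlet character `χ` of every
modulus. -/
def GRH : Prop :=
  ∀ (N : ℕ) [NeZero N] (χ : DirichletCharacter ℂ N) (s : ℂ),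
    0 < s.re → s.re < 1 → χ.LFunction s = 0 → s.re = 1 / 2

/-- The family of odd squarefree integers, of either sign. -/
abbrev Fam : Type := {d : ℤ // Odd d ∧ Squarefree d}

lemma odd_of_coprime_eight_mul (m : ℕ) (b : ℕ) (h : b.Coprime (8 * m)) : Odd b := by
  have h2 : b.Coprime 2 := Nat.Coprime.coprime_dvd_right ⟨4 * m, by ring⟩ h
  exact Nat.coprime_two_right.mp h2

lemma jacobiSym_eight_mul (d : ℤ) (b : ℕ) (hb : Odd b) :
    jacobiSym (8 * d) b = jacobiSym (2 * d) b := by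
  have h4 : jacobiSym (2 ^ 2) b = 1 := by
    have hg : Int.gcd 2 (b : ℤ) = 1 := by
      rw [Int.gcd_eq_natAbs]
      simpa using (Nat.coprime_two_left.mpr hb)
    rw [jacobiSym.sq_one' hg]
  have : (8 * d : ℤ) = 2 ^ 2 * (2 * d) := by ring
  rw [this, jacobiSym.mul_left, h4, one_mul]

lemma jacobiSym_eight_mul_mod (d : ℤ) (b : ℕ) (hb : Odd b) :
    jacobiSym (8 * d) (b % (8 * d.natAbs)) = jacobiSym (8 * d) b := by
  have hb' : Odd (b % (8 * d.natAbs)) := by
    rw [Nat.odd_iff, Nat.mod_mod_of_dvd _ ⟨4 * d.natAbs, by ring⟩]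
    exact Nat.odd_iff.mp hb
  rw [jacobiSym_eight_mul d b hb, jacobiSym_eight_mul d _ hb', jacobiSym.mod_right (2 * d) hb]
  congr 2
  rw [Int.natAbs_mul]
  ring

lemma odd_val_of_isUnit (d : ℤ) (hd : d ≠ 0) (j : ZMod (8 * d.natAbs)) (hj : IsUnit j) :
    Odd j.val := by
  have : NeZero (8 * d.natAbs) := ⟨by simpa using hd⟩
  obtain ⟨u, rfl⟩ := hj
  exact odd_of_coprime_eight_mul _ _ (ZMod.val_coe_unit_coprime u)

lemma chi8_aux_mul (d : ℤ) (j k : ZMod (8 * d.natAbs)) (hj : IsUnit j) (hk : IsUnit k) :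
    jacobiSym (8 * d) (j * k).val = jacobiSym (8 * d) j.val * jacobiSym (8 * d) k.val := by
  rcases eq_or_ne d 0 with rfl | hd
  · have key : ∀ x : ZMod (8 * (0 : ℤ).natAbs), IsUnit x → x.val = 1 := by
      intro x hx
      change Int.natAbs x = 1
      exact Int.isUnit_iff_natAbs_eq.mp hx
    rw [key _ (hj.mul hk), key _ hj, key _ hk]
    simp
  · have hN : NeZero (8 * d.natAbs) := ⟨by simpa using hd⟩
    have oj := odd_val_of_isUnit d hd j hj
    have ok := odd_val_of_isUnit d hd k hk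
    rw [ZMod.val_mul, jacobiSym_eight_mul_mod d _ (oj.mul ok)]
    rw [jacobiSym.mul_right' _ (by rintro h; simp [h] at oj) (by rintro h; simp [h] at ok)]

open Classical in
/-- The character `χ_{8d}(n) = (8d / n)` (Kronecker symbol), as a Dirichlet character modulo
`8 |d|`: at a residue class `j` coprime to `8 d`, its value is the Jacobi symbol of `8 d` over the
least positive representative of `j`. -/
noncomputable def chi8 (d : ℤ) : DirichletCharacter ℂ (8 * d.natAbs) where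
  toFun j := if IsUnit j then ((jacobiSym (8 * d) j.val : ℤ) : ℂ) else 0
  map_one' := by
    rcases eq_or_ne d 0 with rfl | hd
    · have : (1 : ZMod (8 * (0 : ℤ).natAbs)).val = 1 := rfl
      simp [this]
    · have : Fact (1 < 8 * d.natAbs) := ⟨by have := Int.natAbs_pos.mpr hd; omega⟩
      simp [ZMod.val_one]
  map_mul' := by
    intro j k
    by_cases hj : IsUnit j
    · by_cases hk : IsUnit k
      · simp only [hj, hk, hj.mul hk, if_true, chi8_aux_mul d j k hj hk]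
        push_cast; ring
      · have : ¬ IsUnit (j * k) := fun h => hk (isUnit_of_mul_isUnit_right h)
        simp [hk, this]
    · have : ¬ IsUnit (j * k) := fun h => hj (isUnit_of_mul_isUnit_left h)
      simp [hj, this]
  map_nonunit' := by
    intro j hj
    simp [hj]

instance (d : Fam) : NeZero (8 * (d : ℤ).natAbs) :=
  ⟨by have h := d.2.2.ne_zero; simpa using h⟩

/-- `L(s, χ_{8d})`, the analytically continued Dirichlet `L`-function. -/
noncomputable def L8 (d : Fam) (s : ℂ) : ℂ := (chi8 (d : ℤ)).LFunction s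

/-- The normalising sum `W^*(X) = ∑_{d} w(d / X)` over odd squarefree `d`. -/
noncomputable def Wstar (w : SchwartzMap ℝ ℝ) (X : ℝ) : ℝ :=
  ∑' d : Fam, w (((d : ℤ) : ℝ) / X)

/-- The weighted average `⟨f⟩_X = W^*(X)⁻¹ ∑_{d} w(d / X) f(d)` over odd squarefree `d`. -/
noncomputable def avg (w : SchwartzMap ℝ ℝ) (X : ℝ) (f : Fam → ℂ) : ℂ :=
  ((Wstar w X : ℝ) : ℂ)⁻¹ * ∑' d : Fam, ((w (((d : ℤ) : ℝ) / X) : ℝ) : ℂ) * f d

/-- `𝔞(d) = 0` for `d > 0` and `𝔞(d) = 1` for `d < 0`. -/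
noncomputable def aa (d : ℤ) : ℂ := if 0 < d then 0 else 1

/-- `X_d(s) = (8|d|/π)^{1/2-s} Γ((1+𝔞(d)-s)/2) Γ((𝔞(d)+s)/2)⁻¹`. -/
noncomputable def Xd (d : ℤ) (s : ℂ) : ℂ :=
  (((8 * |(d : ℝ)| / Real.pi : ℝ)) : ℂ) ^ (1 / 2 - s) * Gamma ((1 + aa d - s) / 2) *
    (Gamma ((aa d + s) / 2))⁻¹

/-- The Euler product `A(α, γ)` of the ratios conjecture. -/
noncomputable def AA (α γ : ℂ) : ℂ :=
  (1 - (2 : ℂ) ^ (-1 - 2 * α)) / (1 - (2 : ℂ) ^ (-1 - α - γ)) *
    ∏' p : {p : ℕ // p.Prime ∧ 2 < p},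
      (1 - ((p : ℕ) + 1 : ℂ)⁻¹ * ((p : ℕ) : ℂ) ^ (-1 - 2 * α)
          - ((p : ℕ) + 1 : ℂ)⁻¹ * ((p : ℕ) : ℂ) ^ (-α - γ)) /
        (1 - ((p : ℕ) : ℂ) ^ (-1 - α - γ))

/-- `Φ(α, γ) = ζ(1+2α) A(α, γ) / ζ(1+α+γ)`. -/
noncomputable def Phi (α γ : ℂ) : ℂ :=
  riemannZeta (1 + 2 * α) * AA α γ / riemannZeta (1 + α + γ)

/-- The difference between the two sides of the ratios conjecture. -/
noncomputable def ratiosDiff (w : SchwartzMap ℝ ℝ) (X : ℝ) (α γ : ℂ) : ℂ :=
  avg w X (fun d => L8 d (1 / 2 + α) / L8 d (1 / 2 + γ)) -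
    (Phi α γ + avg w X (fun d => Xd d (1 / 2 + α)) * Phi (-α) γ)

/-- The asymptotic formula of the ratios conjecture, with error term `O(X^{-1/2+ε})`, uniformly on
the region `-1/4 < Re α < 1/4`, `c₁ / log X ≤ Re γ < 1/4`, `|Im α|, |Im γ| ≤ c₂ X^{1-ε}`. The points
`α = 0`, `α = γ`, `α = -γ`, where the main terms have to be read as limits, are left out. -/
def RatiosBound (w : SchwartzMap ℝ ℝ) (ε c₁ c₂ : ℝ) : Prop :=
  ∃ C X₀ : ℝ, ∀ X : ℝ, X₀ ≤ X → ∀ α γ : ℂ,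
    -(1 / 4) < α.re → α.re < 1 / 4 → c₁ / Real.log X ≤ γ.re → γ.re < 1 / 4 →
    |α.im| ≤ c₂ * X ^ (1 - ε) → |γ.im| ≤ c₂ * X ^ (1 - ε) →
    α ≠ 0 → α ≠ γ → α ≠ -γ →
    ‖ratiosDiff w X α γ‖ ≤ C * X ^ (-(1 / 2) + ε)

end Pool.Agent.Ratios
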