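import Pool.Agent.Ratios.ZetaPart

/-! Dirichlet series expansions of the main terms and of the ratio of `L`-functions. -/

set_option autoImplicit false

open Complex Set Filter Topology

namespace Pool.Agent.Ratios

/-- The multiplicative function whose value at every positive power of `p` is `g p`. -/
noncomputable def mPF (g : ℕ → ℝ) (n : ℕ) : ℝ := ∏ p ∈ n.primeFactors, g p

/-- The multiplicative function supported on squarefree integers with value `- v p` at `p`. -/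
noncomputable def sPF (v : ℕ → ℝ) (n : ℕ) : ℝ :=
  if Squarefree n then ∏ p ∈ n.primeFactors, (-v p) else 0

lemma mPF_one (g : ℕ → ℝ) : mPF g 1 = 1 := by simp [mPF]

lemma mPF_mul (g : ℕ → ℝ) {m n : ℕ} (h : m.Coprime n) : mPF g (m * n) = mPF g m * mPF g n := by
  rw [mPF, mPF, mPF, h.primeFactors_mul, Finset.prod_union h.disjoint_primeFactors]

lemma mPF_prime_pow (g : ℕ → ℝ) {p e : ℕ} (hp : p.Prime) (he : e ≠ 0) : mPF g (p ^ e) = g p := by
  rw [mPF, Nat.primeFactors_prime_pow he hp, Finset.prod_singleton]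

lemma abs_mPF_le_one (g : ℕ → ℝ) (hg : ∀ p, |g p| ≤ 1) (n : ℕ) : |mPF g n| ≤ 1 := by
  rw [mPF, Finset.abs_prod]
  exact Finset.prod_le_one (fun _ _ => abs_nonneg _) fun p _ => hg p

lemma sPF_one (v : ℕ → ℝ) : sPF v 1 = 1 := by simp [sPF]

lemma sPF_zero (v : ℕ → ℝ) : sPF v 0 = 0 := by simp [sPF]

lemma sPF_mul (v : ℕ → ℝ) {m n : ℕ} (h : m.Coprime n) : sPF v (m * n) = sPF v m * sPF v n := by
  rw [sPF, sPF, sPF]
  by_cases hm : Squarefree m
  · by_cases hn : Squarefree n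
    · rw [if_pos (Nat.squarefree_mul_iff.mpr ⟨h, hm, hn⟩), if_pos hm, if_pos hn,
        h.primeFactors_mul, Finset.prod_union h.disjoint_primeFactors]
    · rw [if_neg (fun hc => hn (Nat.squarefree_mul_iff.mp hc).2.2), if_neg hn, mul_zero]
  · rw [if_neg (fun hc => hm (Nat.squarefree_mul_iff.mp hc).2.1), if_neg hm, zero_mul]

lemma sPF_prime (v : ℕ → ℝ) {p : ℕ} (hp : p.Prime) : sPF v p = -v p := by
  rw [sPF, if_pos hp.squarefree, hp.primeFactors, Finset.prod_singleton]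

lemma sPF_prime_pow (v : ℕ → ℝ) {p e : ℕ} (hp : p.Prime) (he : 2 ≤ e) : sPF v (p ^ e) = 0 := by
  rw [sPF, if_neg]
  intro h
  rcases (Nat.squarefree_pow_iff hp.one_lt.ne' (by omega)).mp h with ⟨_, h2⟩
  omega

lemma abs_sPF_le (v : ℕ → ℝ) (hv : ∀ p : ℕ, p.Prime → |v p| ≤ 1 / p) (n : ℕ) :
    |sPF v n| ≤ 1 / n := by
  rw [sPF]
  split_ifs with h
  · rw [Finset.abs_prod]
    have h1 : ∏ p ∈ n.primeFactors, |-v p| ≤ ∏ p ∈ n.primeFactors, (1 / (p : ℝ)) := by
      refine Finset.prod_le_prod (fun _ _ => abs_nonneg _) fun p hp => ?_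
      rw [abs_neg]
      exact hv p (Nat.prime_of_mem_primeFactors hp)
    refine h1.trans (le_of_eq ?_)
    rw [Finset.prod_div_distrib, Finset.prod_const_one, ← Nat.cast_prod,
      Nat.prod_primeFactors_of_squarefree h]
  · simp

/-- Euler product for `mPF g` twisted by a completely multiplicative function. -/
lemma hasProd_mPF (g : ℕ → ℝ) (hg : ∀ p, |g p| ≤ 1) (y : ℕ →*₀ ℂ)
    (hsum : Summable fun n => ‖y n‖) :
    HasProd (fun p : Nat.Primes => 1 + (g p : ℂ) * y p / (1 - y p))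
      (∑' n : ℕ, (mPF g n : ℂ) * y n) := by
  have hs : Summable (fun n : ℕ => ‖(mPF g n : ℂ) * y n‖) := by
    refine hsum.of_nonneg_of_le (fun _ => norm_nonneg _) fun n => ?_
    rw [norm_mul, Complex.norm_real, Real.norm_eq_abs]
    exact mul_le_of_le_one_left (norm_nonneg _) (abs_mPF_le_one g hg n)
  have h := EulerProduct.eulerProduct_hasProd (f := fun n : ℕ => (mPF g n : ℂ) * y n)
    (by simp [mPF_one]) (by
      intro m n hmn
      rw [mPF_mul g hmn, map_mul]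
      push_cast; ring) hs (by simp)
  have e : (fun p : Nat.Primes => ∑' e : ℕ, (mPF g ((p : ℕ) ^ e) : ℂ) * y ((p : ℕ) ^ e)) =
      fun p : Nat.Primes => 1 + (g p : ℂ) * y p / (1 - y p) := by
    funext p
    have hp := p.2
    have hy : ‖y (p : ℕ)‖ < 1 := by
      have := Summable.norm_lt_one (f := (y : ℕ →* ℂ)) hsum.of_norm hp.one_lt
      exact this
    have hsp : Summable (fun e : ℕ => (mPF g ((p : ℕ) ^ e) : ℂ) * y ((p : ℕ) ^ e)) :=
      (hs.comp_injective (Nat.pow_right_injective hp.one_lt)).of_norm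
    rw [hsp.tsum_eq_zero_add]
    have e1 : ∀ e : ℕ, (mPF g ((p : ℕ) ^ (e + 1)) : ℂ) * y ((p : ℕ) ^ (e + 1)) =
        ((g p : ℂ) * y p) * y p ^ e := by
      intro e
      rw [mPF_prime_pow g hp (by omega), map_pow, pow_succ']
      ring
    simp_rw [e1]
    rw [tsum_mul_left, tsum_geometric_of_norm_lt_one hy]
    simp [mPF_one, div_eq_mul_inv]
  rw [e] at h
  exact h

/-- Euler product for `sPF v` twisted by a completely multiplicative function. -/
lemma hasProd_sPF (v : ℕ → ℝ) (y : ℕ →*₀ ℂ)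
    (hs : Summable fun n : ℕ => ‖(sPF v n : ℂ) * y n‖) :
    HasProd (fun p : Nat.Primes => 1 - (v p : ℂ) * y p)
      (∑' n : ℕ, (sPF v n : ℂ) * y n) := by
  have h := EulerProduct.eulerProduct_hasProd (f := fun n : ℕ => (sPF v n : ℂ) * y n)
    (by simp [sPF_one]) (by
      intro m n hmn
      rw [sPF_mul v hmn, map_mul]
      push_cast; ring) hs (by simp)
  have e : (fun p : Nat.Primes => ∑' e : ℕ, (sPF v ((p : ℕ) ^ e) : ℂ) * y ((p : ℕ) ^ e)) =
      fun p : Nat.Primes => 1 - (v p : ℂ) * y p := by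
    funext p
    have hp := p.2
    rw [tsum_eq_sum (s := Finset.range 2)]
    · rw [Finset.sum_range_succ, Finset.sum_range_one, pow_zero, pow_one, sPF_one, sPF_prime v hp,
        map_one]
      push_cast; ring
    · intro e he
      rw [sPF_prime_pow v hp (by have := Finset.mem_range.not.mp he; omega)]
      simp
  rw [e] at h
  exact h

/-- Passing from products over all primes to products over odd primes. -/
lemma hasProd_odd (g : ℕ → ℂ) (P : ℂ)
    (h : HasProd (fun p : Nat.Primes => if (p : ℕ) = 2 then 1 else g p) P) :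
    HasProd (fun p : {p : ℕ // p.Prime ∧ 2 < p} => g p) P := by
  set g' : ℕ → ℂ := fun n => if n = 2 then 1 else g n with hg'
  have h1 : HasProd (g' ∘ ((↑) : {p : ℕ // p.Prime} → ℕ)) P := h
  have h2 : HasProd ({p : ℕ | p.Prime}.mulIndicator g') P :=
    (hasProd_subtype_iff_mulIndicator (s := {p : ℕ | p.Prime})).mp h1
  have e : {p : ℕ | p.Prime}.mulIndicator g' = {p : ℕ | p.Prime ∧ 2 < p}.mulIndicator g := by
    funext n
    by_cases hn : n.Prime
    · by_cases h2n : n = 2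
      · subst h2n
        rw [Set.mulIndicator_of_mem (by exact hn), Set.mulIndicator_of_notMem (by simp)]
        simp [hg']
      · have h3 : 2 < n := lt_of_le_of_ne hn.two_le (Ne.symm h2n)
        rw [Set.mulIndicator_of_mem (by exact hn), Set.mulIndicator_of_mem (by exact ⟨hn, h3⟩)]
        simp [hg', h2n]
    · rw [Set.mulIndicator_of_notMem (by exact hn),
        Set.mulIndicator_of_notMem (by exact fun hc => hn hc.1)]
  rw [e] at h2
  exact (hasProd_subtype_iff_mulIndicator (s := {p : ℕ | p.Prime ∧ 2 < p})).mpr h2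

lemma hasProd_Zf (s : ℂ) (hs : 1 < s.re) :
    HasProd (fun p : Nat.Primes => if (p : ℕ) = 2 then 1 else (1 - (p : ℂ) ^ (-s))⁻¹) (Zf s) := by
  classical
  have h1 := riemannZeta_eulerProduct_hasProd hs
  have h2 : HasProd (fun p : Nat.Primes => if p = ⟨2, Nat.prime_two⟩ then
      (1 - (2 : ℂ) ^ (-s)) else 1) (1 - (2 : ℂ) ^ (-s)) := hasProd_ite_eq _ _
  have h3 := h2.mul h1
  have e : (fun p : Nat.Primes => (if p = ⟨2, Nat.prime_two⟩ then
      (1 - (2 : ℂ) ^ (-s)) else 1) * (1 - (p : ℂ) ^ (-s))⁻¹) =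
      fun p : Nat.Primes => if (p : ℕ) = 2 then 1 else (1 - (p : ℂ) ^ (-s))⁻¹ := by
    funext p
    by_cases hp : (p : ℕ) = 2
    · have hp' : p = ⟨2, Nat.prime_two⟩ := Subtype.ext hp
      rw [if_pos hp', if_pos hp, hp]
      refine mul_inv_cancel₀ ?_
      have hn : ‖(2 : ℂ) ^ (-s)‖ < 1 := by
        have := norm_natCast_cpow_of_pos (n := 2) (by norm_num) (-s)
        push_cast at this
        rw [this, neg_re]
        exact Real.rpow_lt_one_of_one_lt_of_neg (by norm_num) (by linarith)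
      intro h0
      have : (2 : ℂ) ^ (-s) = 1 := by linear_combination -h0
      rw [this, norm_one] at hn
      exact lt_irrefl _ hn
    · have hp' : p ≠ ⟨2, Nat.prime_two⟩ := fun h => hp (congrArg Subtype.val h)
      rw [if_neg hp', if_neg hp, one_mul]
  rw [e] at h3
  exact h3

lemma two_cpow_neg_ne (s : ℂ) (hs : 0 < s.re) : 1 - (2 : ℂ) ^ (-s) ≠ 0 := by
  have hn : ‖(2 : ℂ) ^ (-s)‖ < 1 := by
    have := norm_natCast_cpow_of_pos (n := 2) (by norm_num) (-s)
    push_cast at this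
    rw [this, neg_re]
    exact Real.rpow_lt_one_of_one_lt_of_neg (by norm_num) (by linarith)
  intro h0
  have : (2 : ℂ) ^ (-s) = 1 := by linear_combination -h0
  rw [this, norm_one] at hn
  exact lt_irrefl _ hn

lemma Zf_ne_zero (s : ℂ) (hs : 1 < s.re) : Zf s ≠ 0 :=
  mul_ne_zero (two_cpow_neg_ne s (by linarith)) (riemannZeta_ne_zero_of_one_le_re hs.le)

lemma one_sub_prime_cpow_ne (p : ℕ) (hp : p.Prime) (s : ℂ) (hs : 0 < s.re) :
    1 - (p : ℂ) ^ (-s) ≠ 0 := by
  have hn : ‖(p : ℂ) ^ (-s)‖ < 1 := by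
    rw [norm_natCast_cpow_of_pos hp.pos (-s), neg_re]
    exact Real.rpow_lt_one_of_one_lt_of_neg (by exact_mod_cast hp.one_lt) (by linarith)
  intro h0
  have : (p : ℂ) ^ (-s) = 1 := by linear_combination -h0
  rw [this, norm_one] at hn
  exact lt_irrefl _ hn

/-- Prime values of the coefficients of the second main term. -/
noncomputable def bp (h : ℝ) (p : ℕ) : ℝ :=
  if p = 2 then 0 else (p : ℝ) / (p + 1) * (1 - (p : ℝ) ^ (-h))

lemma rpow_neg_nat_mem (h : ℝ) (hh : 0 < h) (p : ℕ) : 0 ≤ (p : ℝ) ^ (-h) ∧ (p : ℝ) ^ (-h) ≤ 1 := by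
  refine ⟨by positivity, ?_⟩
  rcases Nat.eq_zero_or_pos p with rfl | hp
  · rw [Nat.cast_zero, Real.zero_rpow (by linarith)]; norm_num
  · exact Real.rpow_le_one_of_one_le_of_nonpos (by exact_mod_cast hp) (by linarith)

lemma abs_bp_le (h : ℝ) (hh : 0 < h) (p : ℕ) : |bp h p| ≤ 1 := by
  rw [bp]
  split_ifs
  · simp
  · obtain ⟨h1, h2⟩ := rpow_neg_nat_mem h hh p
    have hp : (0:ℝ) ≤ p := Nat.cast_nonneg p
    have h3 : (p : ℝ) / (p + 1) ≤ 1 := by rw [div_le_one (by positivity)]; linarith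
    have h4 : 0 ≤ (p : ℝ) / (p + 1) := by positivity
    rw [abs_of_nonneg (mul_nonneg h4 (by linarith))]
    exact mul_le_one₀ h3 (by linarith) (by linarith)

/-- Second main term as a Dirichlet series. -/
theorem Phi_two (h : ℝ) (hh : 0 < h) (z : ℂ) (hz : z.re < 1 / 2) :
    Phi (1 / 2 - z) (1 / 2 + h - z) =
      ∑' k : ℕ, (mPF (bp h) k : ℂ) * (k : ℂ) ^ (-(2 - 2 * z)) := by
  set s : ℂ := 2 - 2 * z with hs
  have hsre : 1 < s.re := by
    have : s.re = 2 - 2 * z.re := by rw [hs]; simp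
    linarith
  have hs0 : s ≠ 0 := ne_zero_of_one_lt_re hsre
  have hshre : 1 < (s + h).re := by simp; linarith
  set y : ℕ →*₀ ℂ := riemannZetaSummandHom hs0 with hy
  have hyv : ∀ n : ℕ, y n = (n : ℂ) ^ (-s) := fun n => rfl
  have hsum : Summable fun n => ‖y n‖ := summable_riemannZetaSummand hsre
  have hD := hasProd_mPF (bp h) (abs_bp_le h hh) y hsum
  set D := ∑' n : ℕ, (mPF (bp h) n : ℂ) * y n with hDdef
  have hZ1 := hasProd_Zf s hsre
  have hZ2 := hasProd_Zf (s + h) hshre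
  have hA := (hD.div₀ hZ1 (Zf_ne_zero s hsre)).mul hZ2
  set A : ℕ → ℂ := fun p => (1 - ((p : ℕ) + 1 : ℂ)⁻¹ * (p : ℂ) ^ (-1 - 2 * (1 / 2 - z))
          - ((p : ℕ) + 1 : ℂ)⁻¹ * (p : ℂ) ^ (-(1 / 2 - z) - (1 / 2 + h - z))) /
        (1 - (p : ℂ) ^ (-1 - (1 / 2 - z) - (1 / 2 + h - z))) with hAdef
  have e : (fun p : Nat.Primes => (1 + (bp h p : ℂ) * y p / (1 - y p)) /
      (if (p : ℕ) = 2 then 1 else (1 - (p : ℂ) ^ (-s))⁻¹) *
      (if (p : ℕ) = 2 then 1 else (1 - (p : ℂ) ^ (-(s + h)))⁻¹)) =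
      fun p : Nat.Primes => if (p : ℕ) = 2 then 1 else A p := by
    funext p
    by_cases hp : (p : ℕ) = 2
    · simp [hp, bp]
    · rw [if_neg hp, if_neg hp, if_neg hp, hyv, bp, if_neg hp, hAdef]
      have hp0 : ((p : ℕ) : ℂ) ≠ 0 := by exact_mod_cast p.2.ne_zero
      have hp1 : ((p : ℕ) : ℂ) + 1 ≠ 0 := by exact_mod_cast Nat.succ_ne_zero (p : ℕ)
      have hx := one_sub_prime_cpow_ne p p.2 s (by linarith)
      have hx2 := one_sub_prime_cpow_ne p p.2 (s + h) (by linarith)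
      have e1 : (-1 - 2 * (1 / 2 - z)) = -s := by rw [hs]; ring
      have e2 : (-(1 / 2 - z) - (1 / 2 + h - z)) = -(s + h) + 1 := by rw [hs]; ring
      have e3 : (-1 - (1 / 2 - z) - (1 / 2 + h - z)) = -(s + h) := by rw [hs]; ring
      simp only [e1, e2, e3]
      have e4 : ((p : ℕ) : ℂ) ^ (-(s + h) + 1) = (p : ℂ) ^ (-(s + h)) * p := by
        rw [Complex.cpow_add _ _ hp0, Complex.cpow_one]
      have e5 : ((p : ℕ) : ℂ) ^ (-(s + h)) = (p : ℂ) ^ (-s) * (p : ℂ) ^ (-(h : ℂ)) := by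
        rw [← Complex.cpow_add _ _ hp0]; congr 1; ring
      have e6 : ((((p : ℕ) : ℝ) ^ (-h) : ℝ) : ℂ) = ((p : ℕ) : ℂ) ^ (-(h : ℂ)) := by
        rw [Complex.ofReal_cpow (Nat.cast_nonneg _)]
        push_cast; rfl
      rw [e4]
      rw [e5] at hx2 ⊢
      push_cast
      rw [e6]
      field_simp
      ring
  rw [e] at hA
  have hodd := hasProd_odd A _ hA
  have hZs := Zf_ne_zero s hsre
  have hZsh := Zf_ne_zero (s + h) hshre
  have h2s := two_cpow_neg_ne s (by linarith)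
  have h2sh := two_cpow_neg_ne (s + h) (by linarith)
  have hz1 := riemannZeta_ne_zero_of_one_le_re hsre.le
  have hz2 := riemannZeta_ne_zero_of_one_le_re hshre.le
  rw [Phi, AA]
  have ht : ∏' p : {p : ℕ // p.Prime ∧ 2 < p},
      (1 - (((p : ℕ) : ℕ) + 1 : ℂ)⁻¹ * ((p : ℕ) : ℂ) ^ (-1 - 2 * (1 / 2 - z))
          - ((p : ℕ) + 1 : ℂ)⁻¹ * ((p : ℕ) : ℂ) ^ (-(1 / 2 - z) - (1 / 2 + h - z))) /
        (1 - ((p : ℕ) : ℂ) ^ (-1 - (1 / 2 - z) - (1 / 2 + h - z))) =
      D / Zf s * Zf (s + h) := hodd.tprod_eq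
  rw [ht]
  have f1 : (1 : ℂ) + 2 * (1 / 2 - z) = s := by rw [hs]; ring
  have f2 : (-1 - 2 * (1 / 2 - z)) = -s := by rw [hs]; ring
  have f3 : (-1 - (1 / 2 - z) - (1 / 2 + h - z)) = -(s + h) := by rw [hs]; ring
  have f4 : (1 : ℂ) + (1 / 2 - z) + (1 / 2 + h - z) = s + h := by rw [hs]; ring
  rw [f1, f2, f3, f4]
  simp only [hDdef, hyv]
  unfold Zf
  field_simp

end Pool.Agent.Ratios
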