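import Pool.Agent.Ratios.DirSeries

/-! The first main term and the ratio of `L`-functions as Dirichlet series. -/

set_option autoImplicit false

open Complex Set Filter Topology

namespace Pool.Agent.Ratios

/-- Prime values entering the coefficients of the first main term. -/
noncomputable def vp (h : ℝ) (p : ℕ) : ℝ :=
  if p = 2 then 0 else 1 / ((p : ℝ) + 1 - (p : ℝ) ^ (-h))

lemma abs_vp_le (h : ℝ) (hh : 0 < h) (p : ℕ) (hp : p.Prime) : |vp h p| ≤ 1 / p := by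
  have hp0 : (0:ℝ) < p := by exact_mod_cast hp.pos
  rw [vp]
  split_ifs
  · simp
  · obtain ⟨h1, h2⟩ := rpow_neg_nat_mem h hh p
    have : (p : ℝ) ≤ (p : ℝ) + 1 - (p : ℝ) ^ (-h) := by linarith
    rw [abs_of_nonneg (by
      apply div_nonneg zero_le_one; linarith)]
    gcongr

/-- The Dirichlet series in the first main term. -/
noncomputable def S1 (h : ℝ) (w : ℂ) : ℂ := ∑' k : ℕ, (sPF (vp h) k : ℂ) * (k : ℂ) ^ (-w)

lemma norm_sPF_cpow_le (h : ℝ) (hh : 0 < h) (w : ℂ) (_hw : 0 < w.re) (k : ℕ) :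
    ‖(sPF (vp h) k : ℂ) * (k : ℂ) ^ (-w)‖ ≤ 1 / (k : ℝ) ^ (1 + w.re) := by
  rcases Nat.eq_zero_or_pos k with rfl | hk
  · rw [sPF_zero]
    simp
    positivity
  · have hk0 : (0:ℝ) < k := by exact_mod_cast hk
    rw [norm_mul, Complex.norm_real, Real.norm_eq_abs, norm_natCast_cpow_of_pos hk, neg_re]
    have h1 := abs_sPF_le (vp h) (fun p hp => abs_vp_le h hh p hp) k
    calc |sPF (vp h) k| * (k : ℝ) ^ (-w.re) ≤ 1 / k * (k : ℝ) ^ (-w.re) := by gcongr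
      _ = _ := by
        rw [Real.rpow_add hk0, Real.rpow_one, Real.rpow_neg hk0.le]
        field_simp

lemma summable_norm_sPF (h : ℝ) (hh : 0 < h) (w : ℂ) (hw : 0 < w.re) :
    Summable fun k : ℕ => ‖(sPF (vp h) k : ℂ) * (k : ℂ) ^ (-w)‖ := by
  have h1 : Summable fun k : ℕ => 1 / (k : ℝ) ^ (1 + w.re) :=
    Real.summable_one_div_nat_rpow.mpr (by linarith)
  exact h1.of_nonneg_of_le (fun _ => norm_nonneg _) (norm_sPF_cpow_le h hh w hw)

lemma hasProd_S1 (h : ℝ) (hh : 0 < h) (w : ℂ) (hw : 0 < w.re) :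
    HasProd (fun p : Nat.Primes => 1 - (vp h p : ℂ) * (p : ℂ) ^ (-w)) (S1 h w) := by
  have hw0 : w ≠ 0 := by rintro rfl; simp at hw
  exact hasProd_sPF (vp h) (riemannZetaSummandHom hw0) (summable_norm_sPF h hh w hw)

lemma norm_S1_le (h : ℝ) (hh : 0 < h) (w : ℂ) (hw : 1 / 2 ≤ w.re) :
    ‖S1 h w‖ ≤ ∑' k : ℕ, 1 / (k : ℝ) ^ (3 / 2 : ℝ) := by
  have h1 : Summable fun k : ℕ => 1 / (k : ℝ) ^ (3 / 2 : ℝ) :=
    Real.summable_one_div_nat_rpow.mpr (by norm_num)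
  refine tsum_of_norm_bounded h1.hasSum fun k => ?_
  refine (norm_sPF_cpow_le h hh w (by linarith) k).trans ?_
  rcases Nat.eq_zero_or_pos k with rfl | hk
  · rw [Nat.cast_zero, Real.zero_rpow (by linarith), Real.zero_rpow (by norm_num)]
  · have hk1 : (1:ℝ) ≤ k := by exact_mod_cast hk
    gcongr
    linarith

/-- The value at `1 + h` stays away from zero. -/
lemma norm_S1_ge (h : ℝ) (hh : 0 < h) : 1 / 4 ≤ ‖S1 h (1 + h)‖ := by
  have hre : ((1 : ℂ) + h).re = 1 + h := by simp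
  have hs := (summable_norm_sPF h hh (1 + h) (by rw [hre]; linarith)).of_norm
  have hterm : ∀ k : ℕ, ‖(sPF (vp h) (k + 2) : ℂ) * ((k + 2 : ℕ) : ℂ) ^ (-((1 : ℂ) + h))‖ ≤
      1 / ((k + 2 : ℕ) : ℝ) ^ 2 := by
    intro k
    refine (norm_sPF_cpow_le h hh _ (by rw [hre]; linarith) (k + 2)).trans ?_
    rw [hre]
    have h2 : (1:ℝ) ≤ ((k + 2 : ℕ) : ℝ) := by push_cast; linarith [(Nat.cast_nonneg k : (0:ℝ) ≤ k)]
    have h3 : (((k + 2 : ℕ) : ℝ)) ^ 2 ≤ ((k + 2 : ℕ) : ℝ) ^ (1 + (1 + h)) := by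
      rw [← Real.rpow_natCast]
      exact Real.rpow_le_rpow_of_exponent_le h2 (by push_cast; linarith)
    gcongr
  have hz := hasSum_zeta_two
  have hz2 : HasSum (fun k : ℕ => 1 / ((k + 2 : ℕ) : ℝ) ^ 2) (Real.pi ^ 2 / 6 - 1) := by
    have := (hasSum_nat_add_iff' (f := fun n : ℕ => 1 / (n : ℝ) ^ 2) 2).mpr hz
    simpa [Finset.sum_range_succ] using this
  have hsplit : S1 h (1 + h) = 1 + ∑' k : ℕ, (sPF (vp h) (k + 2) : ℂ) *
      ((k + 2 : ℕ) : ℂ) ^ (-((1 : ℂ) + h)) := by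
    rw [S1, ← hs.sum_add_tsum_nat_add 2]
    rw [Finset.sum_range_succ, Finset.sum_range_one, sPF_zero, sPF_one]
    simp
  have htail : ‖∑' k : ℕ, (sPF (vp h) (k + 2) : ℂ) *
      ((k + 2 : ℕ) : ℂ) ^ (-((1 : ℂ) + h))‖ ≤ Real.pi ^ 2 / 6 - 1 :=
    tsum_of_norm_bounded hz2 hterm
  have hpi := Real.pi_lt_d2
  have hpi0 := Real.pi_pos
  have h4 : Real.pi ^ 2 / 6 - 1 ≤ 3 / 4 := by nlinarith
  rw [hsplit]
  have h5 := norm_sub_norm_le (1 : ℂ) (-(∑' k : ℕ, (sPF (vp h) (k + 2) : ℂ) *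
      ((k + 2 : ℕ) : ℂ) ^ (-((1 : ℂ) + h))))
  rw [sub_neg_eq_add, norm_neg, norm_one] at h5
  linarith

/-- The constant in the first main term. -/
noncomputable def Ch (h : ℝ) : ℂ := (Zf (1 + h))⁻¹ / S1 h (1 + h)

lemma norm_Zf_one_add_ge (h : ℝ) (hh : 0 < h) : 1 / (2 * h) ≤ ‖Zf (1 + h)‖ := by
  have hre : ((1 : ℂ) + h).re = 1 + h := by simp
  have hne : (1 : ℂ) + h ≠ 1 := by
    intro h0
    have : (h : ℂ) = 0 := by linear_combination h0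
    exact hh.ne' (by exact_mod_cast this)
  rw [Zf_eq _ (by rw [hre]; linarith) hne]
  have hg := norm_gint_le BoddC (1 / 2) norm_BoddC_le (1 + h) (by rw [hre]; linarith)
  rw [hre] at hg
  have hn : ‖(1 : ℂ) + h‖ = 1 + h := by
    have : ((1 + h : ℝ) : ℂ) = 1 + h := by push_cast; rfl
    rw [← this, Complex.norm_real, Real.norm_of_nonneg (by linarith)]
  have e1 : ((1 : ℂ) + h) / (2 * ((1 : ℂ) + h - 1)) = (((1 + h) / (2 * h) : ℝ) : ℂ) := by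
    push_cast
    congr 1
    ring
  rw [e1]
  have h5 := norm_sub_norm_le ((((1 + h) / (2 * h) : ℝ) : ℂ)) (-(((1 : ℂ) + h) *
    gint BoddC (1 + h)))
  rw [sub_neg_eq_add, norm_neg, Complex.norm_real, Real.norm_of_nonneg (by positivity),
    norm_mul, hn, add_comm ((((1 + h) / (2 * h) : ℝ) : ℂ))] at h5
  have h6 : (1 + h) * ‖gint BoddC (1 + h)‖ ≤ 1 / 2 := by
    calc (1 + h) * ‖gint BoddC (1 + h)‖ ≤ (1 + h) * (1 / 2 / (1 + h)) := by gcongr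
      _ = 1 / 2 := by field_simp
  have h7 : (1 + h) / (2 * h) - 1 / 2 = 1 / (2 * h) := by field_simp; ring
  linarith

lemma norm_Ch_le (h : ℝ) (hh : 0 < h) : ‖Ch h‖ ≤ 8 * h := by
  have h1 := norm_Zf_one_add_ge h hh
  have h2 := norm_S1_ge h hh
  rw [Ch, norm_div, norm_inv]
  have h3 : ‖Zf (1 + h)‖⁻¹ ≤ 2 * h := by
    rw [inv_le_comm₀ (lt_of_lt_of_le (by positivity) h1) (by positivity)]
    simpa using h1
  rw [div_le_iff₀ (by linarith)]
  nlinarith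

lemma hasProd_Ch (h : ℝ) (hh : 0 < h) :
    HasProd (fun p : Nat.Primes => if (p : ℕ) = 2 then (1 : ℂ) else
      1 - (p : ℂ) ^ (-(h : ℂ)) / ((p : ℂ) + 1)) (Ch h) := by
  have hre : ((1 : ℂ) + h).re = 1 + h := by simp
  have hZ := (hasProd_Zf (1 + h) (by rw [hre]; linarith)).inv₀
    (Zf_ne_zero _ (by rw [hre]; linarith))
  have hS := hasProd_S1 h hh (1 + h) (by rw [hre]; linarith)
  have hSne : S1 h (1 + h) ≠ 0 := by
    intro h0
    have := norm_S1_ge h hh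
    rw [h0, norm_zero] at this
    linarith
  have hD := hZ.div₀ hS hSne
  have e : (fun p : Nat.Primes => (if (p : ℕ) = 2 then (1 : ℂ) else
      (1 - (p : ℂ) ^ (-((1 : ℂ) + h)))⁻¹)⁻¹ / (1 - (vp h p : ℂ) * (p : ℂ) ^ (-((1 : ℂ) + h)))) =
      fun p : Nat.Primes => if (p : ℕ) = 2 then (1 : ℂ) else
      1 - (p : ℂ) ^ (-(h : ℂ)) / ((p : ℂ) + 1) := by
    funext p
    by_cases hp : (p : ℕ) = 2
    · simp [hp, vp]
    · rw [if_neg hp, if_neg hp, vp, if_neg hp, inv_inv]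
      have hp0 : ((p : ℕ) : ℂ) ≠ 0 := by exact_mod_cast p.2.ne_zero
      have hp1 : ((p : ℕ) : ℂ) + 1 ≠ 0 := by exact_mod_cast Nat.succ_ne_zero (p : ℕ)
      obtain ⟨hq1, hq2⟩ := rpow_neg_nat_mem h hh (p : ℕ)
      have e6 : ((((p : ℕ) : ℝ) ^ (-h) : ℝ) : ℂ) = ((p : ℕ) : ℂ) ^ (-(h : ℂ)) := by
        rw [Complex.ofReal_cpow (Nat.cast_nonneg _)]
        push_cast; rfl
      set q : ℝ := ((p : ℕ) : ℝ) ^ (-h) with hq
      have hpr : (2:ℝ) ≤ ((p : ℕ) : ℝ) := by exact_mod_cast p.2.two_le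
      have e5 : ((p : ℕ) : ℂ) ^ (-((1 : ℂ) + h)) = (q : ℂ) / p := by
        rw [e6, show -((1 : ℂ) + h) = -(h : ℂ) + -1 by ring, Complex.cpow_add _ _ hp0,
          Complex.cpow_neg_one]
        rfl
      rw [e5, ← e6]
      have d1 : ((p : ℕ) : ℂ) + 1 - q ≠ 0 := by
        have : (((p : ℕ) : ℝ) + 1 - q : ℝ) ≠ 0 := by
          have : 0 < ((p : ℕ) : ℝ) + 1 - q := by linarith
          exact this.ne'
        exact_mod_cast this
      have d2 : ((p : ℕ) : ℂ) - q ≠ 0 := by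
        have : (((p : ℕ) : ℝ) - q : ℝ) ≠ 0 := by
          have : 0 < ((p : ℕ) : ℝ) - q := by linarith
          exact this.ne'
        exact_mod_cast this
      have d3 : (1 : ℂ) - ((1 / (((p : ℕ) : ℝ) + 1 - q) : ℝ) : ℂ) * ((q : ℂ) / p) ≠ 0 := by
        have : (1 : ℂ) - ((1 / (((p : ℕ) : ℝ) + 1 - q) : ℝ) : ℂ) * ((q : ℂ) / p) =
          (((p : ℕ) : ℂ) + 1) * (((p : ℕ) : ℂ) - q) / (((p : ℕ) : ℂ) * (((p : ℕ) : ℂ) + 1 - q)) := by
          push_cast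
          field_simp
          ring
        rw [this]
        exact div_ne_zero (mul_ne_zero hp1 d2) (mul_ne_zero hp0 d1)
      rw [div_eq_iff d3]
      push_cast
      field_simp
      ring
  rw [e] at hD
  exact hD

/-- First main term as a Dirichlet series. -/
theorem Phi_one (h : ℝ) (hh : 0 < h) (z : ℂ) (hz : 0 < z.re) :
    Phi (z - 1 / 2) (1 / 2 + h - z) = Zf (2 * z) * (Ch h * S1 h (2 * z)) := by
  have hre : ((1 : ℂ) + h).re = 1 + h := by simp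
  have h2z : 0 < (2 * z).re := by simp; linarith
  have hA := ((hasProd_Ch h hh).mul (hasProd_S1 h hh (2 * z) h2z)).mul
    (hasProd_Zf (1 + h) (by rw [hre]; linarith))
  set A : ℕ → ℂ := fun p => (1 - ((p : ℕ) + 1 : ℂ)⁻¹ * (p : ℂ) ^ (-1 - 2 * (z - 1 / 2))
          - ((p : ℕ) + 1 : ℂ)⁻¹ * (p : ℂ) ^ (-(z - 1 / 2) - (1 / 2 + h - z))) /
        (1 - (p : ℂ) ^ (-1 - (z - 1 / 2) - (1 / 2 + h - z))) with hAdef
  have e : (fun p : Nat.Primes => ((if (p : ℕ) = 2 then (1 : ℂ) else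
      1 - (p : ℂ) ^ (-(h : ℂ)) / ((p : ℂ) + 1)) * (1 - (vp h p : ℂ) * (p : ℂ) ^ (-(2 * z)))) *
      (if (p : ℕ) = 2 then 1 else (1 - (p : ℂ) ^ (-((1 : ℂ) + h)))⁻¹)) =
      fun p : Nat.Primes => if (p : ℕ) = 2 then 1 else A p := by
    funext p
    by_cases hp : (p : ℕ) = 2
    · simp [hp, vp]
    · rw [if_neg hp, if_neg hp, if_neg hp, vp, if_neg hp, hAdef]
      have hp0 : ((p : ℕ) : ℂ) ≠ 0 := by exact_mod_cast p.2.ne_zero
      have hp1 : ((p : ℕ) : ℂ) + 1 ≠ 0 := by exact_mod_cast Nat.succ_ne_zero (p : ℕ)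
      have hx2 := one_sub_prime_cpow_ne p p.2 (1 + h) (by rw [hre]; linarith)
      have e1 : (-1 - 2 * (z - 1 / 2)) = -(2 * z) := by ring
      have e2 : (-(z - 1 / 2) - (1 / 2 + (h : ℂ) - z)) = -(h : ℂ) := by ring
      have e3 : (-1 - (z - 1 / 2) - (1 / 2 + (h : ℂ) - z)) = -((1 : ℂ) + h) := by ring
      simp only [e1, e2, e3]
      obtain ⟨hq1, hq2⟩ := rpow_neg_nat_mem h hh (p : ℕ)
      have e6 : ((((p : ℕ) : ℝ) ^ (-h) : ℝ) : ℂ) = ((p : ℕ) : ℂ) ^ (-(h : ℂ)) := by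
        rw [Complex.ofReal_cpow (Nat.cast_nonneg _)]
        push_cast; rfl
      set q : ℝ := ((p : ℕ) : ℝ) ^ (-h) with hq
      have hpr : (2:ℝ) ≤ ((p : ℕ) : ℝ) := by exact_mod_cast p.2.two_le
      rw [← e6]
      have d1 : ((p : ℕ) : ℂ) + 1 - q ≠ 0 := by
        have : (((p : ℕ) : ℝ) + 1 - q : ℝ) ≠ 0 := by
          have : 0 < ((p : ℕ) : ℝ) + 1 - q := by linarith
          exact this.ne'
        exact_mod_cast this
      push_cast
      field_simp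
      ring
  rw [e] at hA
  have hodd := hasProd_odd A _ hA
  rw [Phi, AA]
  have ht : ∏' p : {p : ℕ // p.Prime ∧ 2 < p},
      (1 - (((p : ℕ) : ℕ) + 1 : ℂ)⁻¹ * ((p : ℕ) : ℂ) ^ (-1 - 2 * (z - 1 / 2))
          - ((p : ℕ) + 1 : ℂ)⁻¹ * ((p : ℕ) : ℂ) ^ (-(z - 1 / 2) - (1 / 2 + h - z))) /
        (1 - ((p : ℕ) : ℂ) ^ (-1 - (z - 1 / 2) - (1 / 2 + h - z))) =
      Ch h * S1 h (2 * z) * Zf (1 + h) := hodd.tprod_eq
  rw [ht]
  have f1 : (1 : ℂ) + 2 * (z - 1 / 2) = 2 * z := by ring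
  have f2 : (-1 - 2 * (z - 1 / 2)) = -(2 * z) := by ring
  have f3 : (-1 - (z - 1 / 2) - (1 / 2 + (h : ℂ) - z)) = -((1 : ℂ) + h) := by ring
  have f4 : (1 : ℂ) + (z - 1 / 2) + (1 / 2 + h - z) = 1 + h := by ring
  rw [f1, f2, f3, f4]
  have h2sh := two_cpow_neg_ne (1 + h) (by rw [hre]; linarith)
  have hz2 : riemannZeta (1 + h) ≠ 0 :=
    riemannZeta_ne_zero_of_one_le_re (by rw [hre]; linarith)
  have hZ : Zf (1 + h) = (1 - (2 : ℂ) ^ (-((1 : ℂ) + h))) * riemannZeta (1 + h) := rfl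
  rw [hZ, Zf]
  field_simp

/-- Prime values of the coefficients of `L(s) / L(s + h)`. -/
noncomputable def jp (h : ℝ) (p : ℕ) : ℝ := 1 - (p : ℝ) ^ (-h)

lemma abs_jp_le (h : ℝ) (hh : 0 < h) (p : ℕ) : |jp h p| ≤ 1 := by
  obtain ⟨h1, h2⟩ := rpow_neg_nat_mem h hh p
  rw [jp, abs_of_nonneg (by linarith)]
  linarith

/-- The ratio of `L`-functions as a Dirichlet series. -/
theorem L_ratio {N : ℕ} [NeZero N] (χ : DirichletCharacter ℂ N) (h : ℝ) (hh : 0 < h) (s : ℂ)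
    (hs : 1 < s.re) :
    χ.LFunction s / χ.LFunction (s + h) =
      ∑' n : ℕ, (mPF (jp h) n : ℂ) * (χ (n : ZMod N) * (n : ℂ) ^ (-s)) := by
  have hshre : 1 < (s + h).re := by simp; linarith
  have hs0 : s ≠ 0 := ne_zero_of_one_lt_re hs
  rw [DirichletCharacter.LFunction_eq_LSeries χ hs, DirichletCharacter.LFunction_eq_LSeries χ hshre]
  have h1 := DirichletCharacter.LSeries_eulerProduct_hasProd χ hs
  have h2 := DirichletCharacter.LSeries_eulerProduct_hasProd χ hshre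
  have h3 := h1.div₀ h2 (DirichletCharacter.LSeries_ne_zero_of_one_lt_re χ hshre)
  have h4 := hasProd_mPF (jp h) (abs_jp_le h hh) (dirichletSummandHom χ hs0)
    (summable_dirichletSummand χ hs)
  have hyv : ∀ n : ℕ, dirichletSummandHom χ hs0 n = χ (n : ZMod N) * (n : ℂ) ^ (-s) :=
    fun n => rfl
  have e : (fun p : Nat.Primes => (1 - χ ((p : ℕ) : ZMod N) * (p : ℂ) ^ (-s))⁻¹ /
      (1 - χ ((p : ℕ) : ZMod N) * (p : ℂ) ^ (-(s + h)))⁻¹) =
      fun p : Nat.Primes => 1 + (jp h p : ℂ) * dirichletSummandHom χ hs0 p /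
        (1 - dirichletSummandHom χ hs0 p) := by
    funext p
    rw [hyv, jp]
    have hp0 : ((p : ℕ) : ℂ) ≠ 0 := by exact_mod_cast p.2.ne_zero
    have e5 : ((p : ℕ) : ℂ) ^ (-(s + h)) = (p : ℂ) ^ (-s) * (p : ℂ) ^ (-(h : ℂ)) := by
      rw [← Complex.cpow_add _ _ hp0]; congr 1; ring
    have e6 : ((((p : ℕ) : ℝ) ^ (-h) : ℝ) : ℂ) = ((p : ℕ) : ℂ) ^ (-(h : ℂ)) := by
      rw [Complex.ofReal_cpow (Nat.cast_nonneg _)]
      push_cast; rfl
    have hnorm : ‖χ ((p : ℕ) : ZMod N) * (p : ℂ) ^ (-s)‖ < 1 := by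
      rw [norm_mul]
      have a1 : ‖χ ((p : ℕ) : ZMod N)‖ ≤ 1 := DirichletCharacter.norm_le_one χ _
      have a2 : ‖((p : ℕ) : ℂ) ^ (-s)‖ < 1 := by
        rw [norm_natCast_cpow_of_pos p.2.pos (-s), neg_re]
        exact Real.rpow_lt_one_of_one_lt_of_neg (by exact_mod_cast p.2.one_lt) (by linarith)
      calc _ ≤ 1 * ‖((p : ℕ) : ℂ) ^ (-s)‖ := by gcongr
        _ < 1 := by rw [one_mul]; exact a2
    have hne : 1 - χ ((p : ℕ) : ZMod N) * (p : ℂ) ^ (-s) ≠ 0 := by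
      intro h0
      have : χ ((p : ℕ) : ZMod N) * (p : ℂ) ^ (-s) = 1 := by linear_combination -h0
      rw [this, norm_one] at hnorm
      exact lt_irrefl _ hnorm
    rw [e5]
    push_cast
    rw [e6]
    field_simp
    ring
  rw [e] at h3
  rw [h3.unique h4]
  rfl

lemma mPF_jp_three (h : ℝ) : mPF (jp h) 3 = 1 - (3:ℝ) ^ (-h) := by
  have := mPF_prime_pow (jp h) Nat.prime_three one_ne_zero
  rw [pow_one] at this
  rw [this, jp]
  norm_num

end Pool.Agent.Ratios
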