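import Pool.Agent.Ratios.KernelQuant

/-! Estimates of the explicit Laplace transform with the parameters of the argument. -/

set_option autoImplicit false

open Complex MeasureTheory Set Filter Topology

namespace Pool.Agent.Ratios

/-- `a + q` for the parameters of the argument. -/
lemma pa_add (K R z₀ y : ℝ) (hR : 0 < R) :
    ((pa K R : ℝ) : ℂ) + (((z₀ / R ^ 2 * y : ℝ) : ℂ) * I) =
      ((1 / R ^ 2 : ℝ) : ℂ) * ((K : ℂ) + ((z₀ * y : ℝ) : ℂ) * I) := by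
  have hR0 : (R : ℂ) ≠ 0 := by exact_mod_cast hR.ne'
  rw [pa]
  push_cast
  field_simp

lemma norm_K_add (K u : ℝ) : ‖(K : ℂ) + (u : ℂ) * I‖ = Real.sqrt (K ^ 2 + u ^ 2) :=
  Complex.norm_add_mul_I K u

lemma K_add_ne (K u : ℝ) (hK : 0 < K) : (K : ℂ) + (u : ℂ) * I ≠ 0 := by
  intro h
  have := congrArg Complex.re h
  simp at this
  linarith

/-- The exponent. -/
lemma pl_sq_div (K R z₀ y : ℝ) (hK : 0 < K) (hR : 0 < R) :
    (pl K R z₀) ^ 2 / (4 * (((pa K R : ℝ) : ℂ) + (((z₀ / R ^ 2 * y : ℝ) : ℂ) * I))) =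
      ((K : ℂ) + (z₀ : ℂ) * I) ^ 2 / ((K : ℂ) + ((z₀ * y : ℝ) : ℂ) * I) := by
  have hR0 : (R : ℂ) ≠ 0 := by exact_mod_cast hR.ne'
  have hw := K_add_ne K (z₀ * y) hK
  rw [pa_add K R z₀ y hR, pl]
  rw [div_eq_div_iff (by
    refine mul_ne_zero (by norm_num) (mul_ne_zero ?_ hw)
    exact_mod_cast (by positivity : (1 / R ^ 2 : ℝ) ≠ 0)) hw]
  push_cast
  field_simp
  ring

lemma re_exponent (K z₀ y : ℝ) (hK : 0 < K) :
    (((K : ℂ) + (z₀ : ℂ) * I) ^ 2 / ((K : ℂ) + ((z₀ * y : ℝ) : ℂ) * I)).re =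
      K - K * z₀ ^ 2 * (y - 1) ^ 2 / (K ^ 2 + z₀ ^ 2 * y ^ 2) := by
  have hpos : 0 < K ^ 2 + z₀ ^ 2 * y ^ 2 := by positivity
  have hpos' : 0 < K ^ 2 + (z₀ * y) ^ 2 := by positivity
  rw [Complex.div_re]
  have e1 : (((K : ℂ) + (z₀ : ℂ) * I) ^ 2).re = K ^ 2 - z₀ ^ 2 := by
    rw [pow_two, Complex.mul_re]; simp; ring
  have e2 : (((K : ℂ) + (z₀ : ℂ) * I) ^ 2).im = 2 * K * z₀ := by
    rw [pow_two, Complex.mul_im]; simp; ring
  have e3 : ((K : ℂ) + ((z₀ * y : ℝ) : ℂ) * I).re = K := by simp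
  have e4 : ((K : ℂ) + ((z₀ * y : ℝ) : ℂ) * I).im = z₀ * y := by simp
  have e5 : Complex.normSq ((K : ℂ) + ((z₀ * y : ℝ) : ℂ) * I) = K ^ 2 + z₀ ^ 2 * y ^ 2 := by
    rw [Complex.normSq_apply, e3, e4]; ring
  rw [e1, e2, e3, e4, e5]
  field_simp
  ring

lemma norm_cpow_three_half (w : ℂ) :
    ‖w ^ (3 / 2 : ℂ)‖ = ‖w‖ ^ (3 / 2 : ℝ) := by
  have : (3 / 2 : ℂ) = ((3 / 2 : ℝ) : ℂ) := by push_cast; ring
  rw [this, Complex.norm_cpow_real]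

/-- Exact norm of the Laplace transform. -/
lemma norm_lap_eq (K R z₀ y : ℝ) (hK : 0 < K) (hR : 0 < R) :
    ‖lap (pa K R) (pl K R z₀) (((z₀ / R ^ 2 * y : ℝ) : ℂ) * I)‖ =
      Real.sqrt Real.pi * Real.sqrt (K ^ 2 + z₀ ^ 2) / R *
        (R ^ 2 / Real.sqrt (K ^ 2 + (z₀ * y) ^ 2)) ^ (3 / 2 : ℝ) *
        Real.exp (K - K * z₀ ^ 2 * (y - 1) ^ 2 / (K ^ 2 + z₀ ^ 2 * y ^ 2)) := by
  rw [lap, norm_mul, norm_mul, Complex.norm_exp, pl_sq_div K R z₀ y hK hR, re_exponent K z₀ y hK]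
  congr 2
  · rw [norm_div, norm_mul, pl, norm_mul, norm_K_add, Complex.norm_real, Complex.norm_real,
      Real.norm_of_nonneg (by positivity), Real.norm_of_nonneg (by positivity)]
    simp
    ring
  · rw [pa_add K R z₀ y hR, norm_cpow_three_half, norm_div, norm_mul, norm_K_add,
      Complex.norm_real, Real.norm_of_nonneg (by positivity)]
    congr 1
    simp
    rw [mul_comm, div_eq_mul_inv, mul_comm]

/-- Upper bound for the Laplace transform. -/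
lemma norm_lap_le (K R z₀ y : ℝ) (hK : 1 ≤ K) (hR : 0 < R) (hz : 10 * K ≤ z₀) (hy : y ≠ 0) :
    ‖lap (pa K R) (pl K R z₀) (((z₀ / R ^ 2 * y : ℝ) : ℂ) * I)‖ ≤
      2 * R ^ 2 * |y| ^ (-(3 / 2) : ℝ) * z₀ ^ (-(1 / 2) : ℝ) *
        Real.exp (K - K * z₀ ^ 2 * (y - 1) ^ 2 / (K ^ 2 + z₀ ^ 2 * y ^ 2)) := by
  have hK0 : 0 < K := by linarith
  have hz0 : 0 < z₀ := by linarith
  have hy0 : 0 < |y| := abs_pos.mpr hy
  rw [norm_lap_eq K R z₀ y hK0 hR]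
  refine mul_le_mul_of_nonneg_right ?_ (Real.exp_pos _).le
  -- the two pieces
  have h1 : Real.sqrt Real.pi * Real.sqrt (K ^ 2 + z₀ ^ 2) ≤ 2 * z₀ := by
    rw [← Real.sqrt_mul Real.pi_pos.le]
    refine Real.sqrt_le_iff.mpr ⟨by positivity, ?_⟩
    have hpi : Real.pi ≤ 3.15 := by linarith [Real.pi_lt_d2]
    have hKz : K ^ 2 ≤ z₀ ^ 2 / 100 := by nlinarith
    have : Real.pi * (K ^ 2 + z₀ ^ 2) ≤ 3.15 * (z₀ ^ 2 / 100 + z₀ ^ 2) := by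
      gcongr
    nlinarith [sq_nonneg z₀]
  have h2 : z₀ * |y| ≤ Real.sqrt (K ^ 2 + (z₀ * y) ^ 2) := by
    rw [show z₀ * |y| = |z₀ * y| by rw [abs_mul, abs_of_pos hz0]]
    exact Real.abs_le_sqrt (by nlinarith [sq_nonneg K])
  have h3 : (R ^ 2 / Real.sqrt (K ^ 2 + (z₀ * y) ^ 2)) ^ (3 / 2 : ℝ) ≤
      (R ^ 2 / (z₀ * |y|)) ^ (3 / 2 : ℝ) := by
    refine Real.rpow_le_rpow (by positivity) ?_ (by norm_num)
    gcongr
  have h4 : (R ^ 2 / (z₀ * |y|)) ^ (3 / 2 : ℝ) =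
      R ^ 3 * (z₀ ^ (-(3 / 2) : ℝ) * |y| ^ (-(3 / 2) : ℝ)) := by
    rw [Real.div_rpow (by positivity) (by positivity), Real.mul_rpow hz0.le hy0.le,
      Real.rpow_neg hz0.le, Real.rpow_neg hy0.le, ← Real.rpow_natCast R 2, ← Real.rpow_mul hR.le]
    have : ((2 : ℕ) : ℝ) * (3 / 2) = (3 : ℕ) := by norm_num
    rw [this, Real.rpow_natCast]
    field_simp
  have h5 : z₀ * z₀ ^ (-(3 / 2) : ℝ) = z₀ ^ (-(1 / 2) : ℝ) := by
    rw [← Real.rpow_one_add' hz0.le (by norm_num)]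
    norm_num
  calc Real.sqrt Real.pi * Real.sqrt (K ^ 2 + z₀ ^ 2) / R *
        (R ^ 2 / Real.sqrt (K ^ 2 + (z₀ * y) ^ 2)) ^ (3 / 2 : ℝ)
      ≤ 2 * z₀ / R * (R ^ 3 * (z₀ ^ (-(3 / 2) : ℝ) * |y| ^ (-(3 / 2) : ℝ))) := by
        rw [← h4]
        gcongr
    _ = 2 * R ^ 2 * |y| ^ (-(3 / 2) : ℝ) * (z₀ * z₀ ^ (-(3 / 2) : ℝ)) := by
        field_simp
    _ = _ := by rw [h5]

/-- The Laplace transform away from the peak. -/
lemma norm_lap_far (K R z₀ y : ℝ) (hK : 1 ≤ K) (hR : 0 < R) (hz : 50 * K ≤ z₀)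
    (hy : (y ≤ 2 / 5 ∧ y ≠ 0 ∧ 1 / 4 ≤ |y|) ∨ 3 / 2 ≤ y) :
    ‖lap (pa K R) (pl K R z₀) (((z₀ / R ^ 2 * y : ℝ) : ℂ) * I)‖ ≤
      2 * R ^ 2 * |y| ^ (-(3 / 2) : ℝ) * z₀ ^ (-(1 / 2) : ℝ) * Real.exp (0.89 * K) := by
  have hy0 : y ≠ 0 := by
    rcases hy with ⟨_, h, _⟩ | h
    · exact h
    · linarith
  have hz0 : 0 < z₀ := by linarith
  refine (norm_lap_le K R z₀ y hK hR (by linarith) hy0).trans ?_
  refine mul_le_mul_of_nonneg_left ?_ (by positivity)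
  refine Real.exp_le_exp.mpr ?_
  have hpos : 0 < K ^ 2 + z₀ ^ 2 * y ^ 2 := by positivity
  have key : 0.11 ≤ z₀ ^ 2 * (y - 1) ^ 2 / (K ^ 2 + z₀ ^ 2 * y ^ 2) := by
    rw [le_div_iff₀ hpos]
    have hKz : K ^ 2 ≤ z₀ ^ 2 / 2500 := by nlinarith
    have h1 : 0.11 / 2500 + 0.11 * y ^ 2 ≤ (y - 1) ^ 2 := by
      rcases hy with ⟨h, _, _⟩ | h
      · nlinarith [sq_nonneg (y - 2 / 5), sq_nonneg y]
      · nlinarith [sq_nonneg (y - 3 / 2)]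
    have h2 := mul_le_mul_of_nonneg_left h1 (sq_nonneg z₀)
    nlinarith
  have e : K * z₀ ^ 2 * (y - 1) ^ 2 / (K ^ 2 + z₀ ^ 2 * y ^ 2) =
      K * (z₀ ^ 2 * (y - 1) ^ 2 / (K ^ 2 + z₀ ^ 2 * y ^ 2)) := by ring
  rw [e]
  nlinarith

/-- The relative error in the approximation of the Laplace transform near the peak. -/
noncomputable def lapErr (K z₀ r : ℝ) : ℂ :=
  log (1 + -((K / z₀ : ℝ) * I)) - 3 / 2 * log (1 + -((r * (K / z₀) : ℝ) * I)) +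
    ((K ^ 2 * (1 - r) ^ 2 : ℝ) : ℂ) / ((K : ℂ) + ((z₀ * (1 / r) : ℝ) : ℂ) * I)

/-- The main term of the Laplace transform near the peak. -/
noncomputable def lapMain (K R z₀ r : ℝ) : ℂ :=
  ((Real.sqrt Real.pi * R ^ 2 * z₀ ^ (-(1 / 2) : ℝ) * r ^ (3 / 2 : ℝ) *
    Real.exp (K - K * (1 - r) ^ 2) : ℝ) : ℂ) * cexp (-(Real.pi / 4) * I) *
    cexp (((r * z₀ : ℝ) : ℂ) * I)

lemma exponent_eq (K z₀ r : ℝ) (hK : 0 < K) (hr : 0 < r) :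
    ((K : ℂ) + (z₀ : ℂ) * I) ^ 2 / ((K : ℂ) + ((z₀ * (1 / r) : ℝ) : ℂ) * I) =
      ((K - K * (1 - r) ^ 2 : ℝ) : ℂ) + ((r * z₀ : ℝ) : ℂ) * I +
        ((K ^ 2 * (1 - r) ^ 2 : ℝ) : ℂ) / ((K : ℂ) + ((z₀ * (1 / r) : ℝ) : ℂ) * I) := by
  have hw := K_add_ne K (z₀ * (1 / r)) hK
  have hr0 : (r : ℂ) ≠ 0 := by exact_mod_cast hr.ne'
  rw [div_eq_iff hw, add_mul _ _ ((K : ℂ) + ((z₀ * (1 / r) : ℝ) : ℂ) * I), div_mul_cancel₀ _ hw]
  push_cast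
  field_simp
  ring

/-- The Laplace transform is the main term times the exponential of the relative error. -/
lemma lap_eq_main (K R z₀ r : ℝ) (hK : 0 < K) (hR : 0 < R) (hz : 0 < z₀) (hr : 0 < r) :
    lap (pa K R) (pl K R z₀) (((z₀ / R ^ 2 * (1 / r) : ℝ) : ℂ) * I) =
      lapMain K R z₀ r * cexp (lapErr K z₀ r) := by
  have hpi := Real.pi_pos
  have hR0 : (R : ℂ) ≠ 0 := by exact_mod_cast hR.ne'
  have hz0 : (z₀ : ℂ) ≠ 0 := by exact_mod_cast hz.ne'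
  have hr0 : (r : ℂ) ≠ 0 := by exact_mod_cast hr.ne'
  have hI : I ^ 2 = -1 := Complex.I_sq
  have hII : I * I = -1 := Complex.I_mul_I
  set θ : ℂ := -((K / z₀ : ℝ) * I) with hθ
  set η : ℂ := -((r * (K / z₀) : ℝ) * I) with hη
  have re1 : ∀ c : ℝ, 0 < (1 + -((c : ℂ) * I)).re := by intro c; simp
  have hθ0 : 1 + θ ≠ 0 := by
    intro h; have := re1 (K / z₀); rw [← hθ, h] at this; simp at this
  have hη0 : 1 + η ≠ 0 := by
    intro h; have := re1 (r * (K / z₀)); rw [← hη, h] at this; simp at this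
  have hargη : |(1 + η).arg| < Real.pi / 2 :=
    Complex.abs_arg_lt_pi_div_two_iff.mpr (Or.inl (re1 _))
  have hargη' : (1 + η).arg ≠ Real.pi := by
    intro h; rw [h, abs_of_pos hpi] at hargη; linarith
  -- the prefactor
  have e1 : pl K R z₀ * (Real.sqrt Real.pi : ℂ) / 2 =
      ((Real.sqrt Real.pi * z₀ / R : ℝ) : ℂ) * cexp (Real.pi / 2 * I) * cexp (log (1 + θ)) := by
    rw [Complex.exp_log hθ0, Complex.exp_pi_div_two_mul_I, pl, hθ]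
    push_cast
    field_simp
    ring_nf
    rw [hI]
    ring
  -- the power
  have e2 : 1 / (((pa K R : ℝ) : ℂ) + (((z₀ / R ^ 2 * (1 / r) : ℝ) : ℂ) * I)) =
      ((R ^ 2 * r / z₀ : ℝ) : ℂ) * (-I * (1 + η)⁻¹) := by
    rw [pa_add K R z₀ (1 / r) hR]
    have hw := K_add_ne K (z₀ * (1 / r)) hK
    have e3 : (K : ℂ) + ((z₀ * (1 / r) : ℝ) : ℂ) * I = (z₀ / r : ℂ) * I * (1 + η) := by
      rw [hη]
      push_cast
      field_simp
      ring_nf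
      rw [hI]
      ring
    rw [e3]
    have hI0 : I ≠ 0 := Complex.I_ne_zero
    push_cast
    field_simp
    rw [hI]
    norm_num
  have e4 : log (1 / (((pa K R : ℝ) : ℂ) + (((z₀ / R ^ 2 * (1 / r) : ℝ) : ℂ) * I))) =
      (Real.log (R ^ 2 * r / z₀) : ℂ) + (-(Real.pi / 2) * I - log (1 + η)) := by
    have hI0 : (-I : ℂ) ≠ 0 := neg_ne_zero.mpr Complex.I_ne_zero
    have hinv : (1 + η)⁻¹ ≠ 0 := inv_ne_zero hη0
    rw [e2, Complex.log_ofReal_mul (by positivity) (mul_ne_zero hI0 hinv)]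
    congr 1
    have harg : (-I : ℂ).arg + ((1 + η)⁻¹).arg ∈ Ioc (-Real.pi) Real.pi := by
      rw [Complex.arg_neg_I, Complex.arg_inv, if_neg hargη']
      have := abs_lt.mp hargη
      constructor <;> linarith
    rw [Complex.log_mul hI0 hinv harg, Complex.log_neg_I, Complex.log_inv _ hargη']
    ring
  have hne : 1 / (((pa K R : ℝ) : ℂ) + (((z₀ / R ^ 2 * (1 / r) : ℝ) : ℂ) * I)) ≠ 0 := by
    rw [e2]
    refine mul_ne_zero ?_ (mul_ne_zero (neg_ne_zero.mpr Complex.I_ne_zero) (inv_ne_zero hη0))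
    exact_mod_cast (by positivity : R ^ 2 * r / z₀ ≠ 0)
  have e5 : (1 / (((pa K R : ℝ) : ℂ) + (((z₀ / R ^ 2 * (1 / r) : ℝ) : ℂ) * I))) ^ (3 / 2 : ℂ) =
      ((R ^ 3 * r ^ (3 / 2 : ℝ) * z₀ ^ (-(3 / 2) : ℝ) : ℝ) : ℂ) *
        cexp (-(Real.pi / 2) * I * (3 / 2)) * cexp (-(3 / 2) * log (1 + η)) := by
    rw [Complex.cpow_def_of_ne_zero hne, e4, add_mul, Complex.exp_add, sub_mul, Complex.exp_sub,
      div_eq_mul_inv (cexp _) (cexp _), ← Complex.exp_neg]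
    have e6 : cexp ((Real.log (R ^ 2 * r / z₀) : ℂ) * (3 / 2)) =
        ((R ^ 3 * r ^ (3 / 2 : ℝ) * z₀ ^ (-(3 / 2) : ℝ) : ℝ) : ℂ) := by
      have h1 : (Real.log (R ^ 2 * r / z₀) : ℂ) * (3 / 2) =
          ((Real.log (R ^ 2 * r / z₀) * (3 / 2 : ℝ) : ℝ) : ℂ) := by push_cast; ring
      rw [h1, ← Complex.ofReal_exp, ← Real.rpow_def_of_pos (by positivity),
        Real.div_rpow (by positivity) hz.le, Real.mul_rpow (by positivity) hr.le,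
        ← Real.rpow_natCast R 2, ← Real.rpow_mul hR.le]
      have h2 : ((2 : ℕ) : ℝ) * (3 / 2) = (3 : ℕ) := by norm_num
      rw [h2, Real.rpow_natCast, Real.rpow_neg hz.le]
      rfl
    rw [e6]
    rw [show -(log (1 + η) * (3 / 2)) = -(3 / 2) * log (1 + η) by ring]
    ring
  have h7 : z₀ * z₀ ^ (-(3 / 2) : ℝ) = z₀ ^ (-(1 / 2) : ℝ) := by
    rw [← Real.rpow_one_add' hz.le (by norm_num)]
    norm_num
  have e8 : ((Real.sqrt Real.pi * R ^ 2 * z₀ ^ (-(1 / 2) : ℝ) * r ^ (3 / 2 : ℝ) *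
      Real.exp (K - K * (1 - r) ^ 2) : ℝ) : ℂ) =
      ((Real.sqrt Real.pi * z₀ / R : ℝ) : ℂ) *
      ((R ^ 3 * r ^ (3 / 2 : ℝ) * z₀ ^ (-(3 / 2) : ℝ) : ℝ) : ℂ) *
        cexp ((K - K * (1 - r) ^ 2 : ℝ) : ℂ) := by
    rw [← Complex.ofReal_exp, ← Complex.ofReal_mul, ← Complex.ofReal_mul, ← h7]
    congr 1
    field_simp
  rw [lap, e5, e1, pl_sq_div K R z₀ (1 / r) hK hR, exponent_eq K z₀ r hK hr, lapMain, lapErr, e8,
    ← hθ, ← hη]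
  have e9 : cexp (-(Real.pi / 4) * I) = cexp (Real.pi / 2 * I) *
      cexp (-(Real.pi / 2) * I * (3 / 2)) := by
    rw [← Complex.exp_add]; congr 1; ring
  rw [e9, Complex.exp_add, Complex.exp_add, Complex.exp_add, Complex.exp_sub,
    show -(3 / 2) * log (1 + η) = -(3 / 2 * log (1 + η)) by ring, Complex.exp_neg]
  ring

lemma norm_lapErr_le (K z₀ r : ℝ) (hK : 1 ≤ K) (hz : K ^ 2 ≤ z₀) (hz' : 50 * K ≤ z₀)
    (hr1 : 9 / 10 ≤ r) (hr2 : r ≤ 11 / 10) :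
    ‖lapErr K z₀ r‖ ≤ 4 * (K ^ 2 / z₀) ∧ ‖lapErr K z₀ r‖ ≤ 1 := by
  have hK0 : 0 < K := by linarith
  have hz0 : 0 < z₀ := by linarith
  have hr0 : 0 < r := by linarith
  have hε : K / z₀ ≤ 1 / 50 := by
    rw [div_le_div_iff₀ hz0 (by norm_num)]; linarith
  have hε0 : 0 < K / z₀ := by positivity
  have hεK : K / z₀ ≤ K ^ 2 / z₀ := by
    gcongr; nlinarith
  have hKz1 : K ^ 2 / z₀ ≤ 1 := by rw [div_le_one hz0]; exact hz
  have n1 : ‖-(((K / z₀ : ℝ) : ℂ) * I)‖ = K / z₀ := by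
    rw [norm_neg, norm_mul, Complex.norm_I, mul_one, Complex.norm_real,
      Real.norm_of_nonneg hε0.le]
  have n2 : ‖-(((r * (K / z₀) : ℝ) : ℂ) * I)‖ = r * (K / z₀) := by
    rw [norm_neg, norm_mul, Complex.norm_I, mul_one, Complex.norm_real,
      Real.norm_of_nonneg (by positivity)]
  have hrε : r * (K / z₀) ≤ 11 / 10 * (K / z₀) := by gcongr
  have b1 : ‖log (1 + -(((K / z₀ : ℝ) : ℂ) * I))‖ ≤ 3 / 2 * (K / z₀) := by
    have := Complex.norm_log_one_add_half_le_self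
      (z := -(((K / z₀ : ℝ) : ℂ) * I)) (by rw [n1]; linarith)
    rwa [n1] at this
  have b2 : ‖log (1 + -(((r * (K / z₀) : ℝ) : ℂ) * I))‖ ≤ 3 / 2 * (11 / 10 * (K / z₀)) := by
    have := Complex.norm_log_one_add_half_le_self
      (z := -(((r * (K / z₀) : ℝ) : ℂ) * I)) (by rw [n2]; linarith)
    rw [n2] at this
    linarith
  have b3 : ‖((K ^ 2 * (1 - r) ^ 2 : ℝ) : ℂ) / ((K : ℂ) + ((z₀ * (1 / r) : ℝ) : ℂ) * I)‖ ≤
      11 / 1000 * (K ^ 2 / z₀) := by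
    rw [norm_div, Complex.norm_real, Real.norm_of_nonneg (by positivity), norm_K_add]
    have h1 : z₀ * (1 / r) ≤ Real.sqrt (K ^ 2 + (z₀ * (1 / r)) ^ 2) :=
      Real.le_sqrt_of_sq_le (by nlinarith [sq_nonneg K])
    have h2 : (1 - r) ^ 2 ≤ 1 / 100 := by nlinarith
    calc K ^ 2 * (1 - r) ^ 2 / Real.sqrt (K ^ 2 + (z₀ * (1 / r)) ^ 2)
        ≤ K ^ 2 * (1 / 100) / (z₀ * (1 / r)) := by gcongr
      _ = r / 100 * (K ^ 2 / z₀) := by field_simp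
      _ ≤ 11 / 1000 * (K ^ 2 / z₀) :=
          mul_le_mul_of_nonneg_right (by linarith) (by positivity)
  have hle : ‖lapErr K z₀ r‖ ≤ 3 / 2 * (K / z₀) + 3 / 2 * (3 / 2 * (11 / 10 * (K / z₀))) +
      11 / 1000 * (K ^ 2 / z₀) := by
    rw [lapErr]
    refine (norm_add_le _ _).trans (add_le_add ((norm_sub_le _ _).trans (add_le_add b1 ?_)) b3)
    rw [norm_mul]
    have : ‖(3 / 2 : ℂ)‖ = 3 / 2 := by
      rw [show (3 / 2 : ℂ) = ((3 / 2 : ℝ) : ℂ) by push_cast; ring, Complex.norm_real]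
      norm_num
    rw [this]
    gcongr
  constructor
  · refine hle.trans ?_
    nlinarith
  · refine hle.trans ?_
    nlinarith

lemma norm_lapMain (K R z₀ r : ℝ) (hR : 0 < R) (hz : 0 < z₀) (hr : 0 < r) :
    ‖lapMain K R z₀ r‖ = Real.sqrt Real.pi * R ^ 2 * z₀ ^ (-(1 / 2) : ℝ) * r ^ (3 / 2 : ℝ) *
      Real.exp (K - K * (1 - r) ^ 2) := by
  have e : cexp (-(Real.pi / 4) * I) = cexp (((-(Real.pi / 4) : ℝ) : ℂ) * I) := by
    congr 1; push_cast; ring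
  rw [lapMain, norm_mul, norm_mul, e, Complex.norm_exp_ofReal_mul_I,
    Complex.norm_exp_ofReal_mul_I, Complex.norm_real, Real.norm_of_nonneg (by positivity)]
  ring

/-- Approximation of the Laplace transform near the peak. -/
lemma norm_lap_sub_main_le (K R z₀ r : ℝ) (hK : 1 ≤ K) (hR : 0 < R) (hz : K ^ 2 ≤ z₀)
    (hz' : 50 * K ≤ z₀) (hr1 : 9 / 10 ≤ r) (hr2 : r ≤ 11 / 10) :
    ‖lap (pa K R) (pl K R z₀) (((z₀ / R ^ 2 * (1 / r) : ℝ) : ℂ) * I) -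
      ((Real.sqrt Real.pi * R ^ 2 * z₀ ^ (-(1 / 2) : ℝ) * r ^ (3 / 2 : ℝ) *
        Real.exp (K - K * (1 - r) ^ 2) : ℝ) : ℂ) * cexp (-(Real.pi / 4) * I) *
        cexp (((r * z₀ : ℝ) : ℂ) * I)‖ ≤
      20 * R ^ 2 * z₀ ^ (-(1 / 2) : ℝ) * (K ^ 2 / z₀) * Real.exp K := by
  have hK0 : 0 < K := by linarith
  have hz0 : 0 < z₀ := by linarith
  have hr0 : 0 < r := by linarith
  obtain ⟨h1, h2⟩ := norm_lapErr_le K z₀ r hK hz hz' hr1 hr2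
  have h3 := Complex.norm_exp_sub_one_le h2
  have e : lap (pa K R) (pl K R z₀) (((z₀ / R ^ 2 * (1 / r) : ℝ) : ℂ) * I) -
      ((Real.sqrt Real.pi * R ^ 2 * z₀ ^ (-(1 / 2) : ℝ) * r ^ (3 / 2 : ℝ) *
        Real.exp (K - K * (1 - r) ^ 2) : ℝ) : ℂ) * cexp (-(Real.pi / 4) * I) *
        cexp (((r * z₀ : ℝ) : ℂ) * I) = lapMain K R z₀ r * (cexp (lapErr K z₀ r) - 1) := by
    rw [lap_eq_main K R z₀ r hK0 hR hz0 hr0, mul_sub, mul_one]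
    rfl
  rw [e, norm_mul, norm_lapMain K R z₀ r hR hz0 hr0]
  have hsp : Real.sqrt Real.pi ≤ 1.8 := by
    rw [Real.sqrt_le_iff]
    refine ⟨by norm_num, ?_⟩
    have := Real.pi_lt_d2
    norm_num at this ⊢
    linarith
  have hrp : r ^ (3 / 2 : ℝ) ≤ 1.3 := by
    have h4 : r ^ (3 / 2 : ℝ) ≤ (11 / 10 : ℝ) ^ (3 / 2 : ℝ) :=
      Real.rpow_le_rpow hr0.le hr2 (by norm_num)
    have h5 : (11 / 10 : ℝ) ^ (3 / 2 : ℝ) ≤ (11 / 10 : ℝ) ^ (2 : ℝ) :=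
      Real.rpow_le_rpow_of_exponent_le (by norm_num) (by norm_num)
    rw [Real.rpow_two] at h5
    norm_num at h5 ⊢
    linarith
  have hexp : Real.exp (K - K * (1 - r) ^ 2) ≤ Real.exp K := by
    refine Real.exp_le_exp.mpr ?_
    nlinarith [mul_nonneg hK0.le (sq_nonneg (1 - r))]
  calc Real.sqrt Real.pi * R ^ 2 * z₀ ^ (-(1 / 2) : ℝ) * r ^ (3 / 2 : ℝ) *
        Real.exp (K - K * (1 - r) ^ 2) * ‖cexp (lapErr K z₀ r) - 1‖
      ≤ 1.8 * R ^ 2 * z₀ ^ (-(1 / 2) : ℝ) * 1.3 * Real.exp K * (2 * (4 * (K ^ 2 / z₀))) := by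
        gcongr
        linarith
    _ = 18.72 * (R ^ 2 * z₀ ^ (-(1 / 2) : ℝ) * (K ^ 2 / z₀) * Real.exp K) := by ring
    _ ≤ 20 * (R ^ 2 * z₀ ^ (-(1 / 2) : ℝ) * (K ^ 2 / z₀) * Real.exp K) := by
        refine mul_le_mul_of_nonneg_right (by norm_num) (by positivity)
    _ = _ := by ring

end Pool.Agent.Ratios
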