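import Pool.Agent.Ratios.Params
import Pool.Agent.Ratios.LapBound

/-! The contribution of the frequencies far from the peak. -/

set_option autoImplicit false

open Complex MeasureTheory Set Filter Topology

namespace Pool.Agent.Ratios

/-- The normalised frequency. -/
noncomputable def yf (p : ℕ) (D : ℤ) (n : ℕ) : ℝ := n * (p : ℝ) ^ 20 / (3 * |(D : ℝ)|)

lemma freq_eq (p : ℕ) (hp : 2 ≤ p) (D : ℤ) (hD : D ≠ 0) (n : ℕ) :
    2 * Real.pi * (n / (8 * |(D : ℝ)|)) = zp p / Rp p ^ 2 * yf p D n := by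
  have hp0 := p_pos p hp
  have hD' : 0 < |(D : ℝ)| := abs_pos.mpr (by exact_mod_cast hD)
  rw [zp_div_Rp_sq p hp, yf]
  field_simp
  ring

lemma zp_rpow_le (p : ℕ) (hp : 2 ≤ p) : zp p ^ (-(1 / 2) : ℝ) ≤ ((p : ℝ) ^ 9)⁻¹ := by
  have hp0 := p_pos p hp
  have h1 : (p : ℝ) ^ 18 ≤ zp p := by
    have := zp_ge p hp
    have h2 : 0 < (p : ℝ) ^ 18 := by positivity
    linarith
  have h3 : zp p ^ (-(1 / 2) : ℝ) ≤ ((p : ℝ) ^ 18) ^ (-(1 / 2) : ℝ) :=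
    Real.rpow_le_rpow_of_nonpos (by positivity) h1 (by norm_num)
  refine h3.trans (le_of_eq ?_)
  rw [← Real.rpow_natCast (p : ℝ) 18, ← Real.rpow_mul hp0.le]
  have : ((18 : ℕ) : ℝ) * (-(1 / 2)) = -((9 : ℕ) : ℝ) := by norm_num
  rw [this, Real.rpow_neg hp0.le, Real.rpow_natCast]

lemma exp_far_le (p : ℕ) (hp : 2 ≤ p) : Real.exp (0.89 * Kp p) ≤ (p : ℝ) ^ 27 := by
  have hp0 := p_pos p hp
  have h2 := one_le_p p hp
  have hl : 0 ≤ Real.log p := Real.log_nonneg (by linarith)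
  have e : (p : ℝ) ^ 27 = Real.exp (27 * Real.log p) := by
    rw [mul_comm, Real.exp_mul, Real.exp_log hp0]
    exact_mod_cast (Real.rpow_natCast (p : ℝ) 27).symm
  rw [e]
  refine Real.exp_le_exp.mpr ?_
  unfold Kp
  linarith

/-- Passing from the Laplace transform to the transform of the archimedean factor. -/
lemma norm_Id_le (p : ℕ) (hp : 2 ≤ p) (D : ℤ) (hD : (p : ℝ) ^ 20 ≤ 8 * |(D : ℝ)|) (n : ℕ) (B : ℝ)
    (h1 : ‖lap (ap p) (lp p) (((zp p / Rp p ^ 2 * yf p D n : ℝ) : ℂ) * I)‖ ≤ B)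
    (h2 : ‖lap (ap p) (lp p) (((zp p / Rp p ^ 2 * (-yf p D n) : ℝ) : ℂ) * I)‖ ≤ B) :
    ‖Id (ap p) (lp p) D n‖ ≤ ((p : ℝ) ^ 10)⁻¹ * (2 * B) := by
  have hp0 := p_pos p hp
  have hD0 : D ≠ 0 := by
    rintro rfl
    have : 0 < (p : ℝ) ^ 20 := by positivity
    simp at hD
    linarith
  have hs : (Real.sqrt (8 * |(D : ℝ)|))⁻¹ ≤ ((p : ℝ) ^ 10)⁻¹ := by
    refine inv_anti₀ (by positivity) ?_
    refine Real.le_sqrt_of_sq_le ?_
    calc ((p : ℝ) ^ 10) ^ 2 = (p : ℝ) ^ 20 := by ring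
      _ ≤ _ := hD
  have hs0 : 0 ≤ (Real.sqrt (8 * |(D : ℝ)|))⁻¹ := by positivity
  have e1 := freq_eq p hp D hD0 n
  have e2 : -(2 * Real.pi * (n / (8 * |(D : ℝ)|))) = zp p / Rp p ^ 2 * (-yf p D n) := by
    rw [e1]; ring
  have hn : ‖(((Real.sqrt (8 * |(D : ℝ)|))⁻¹ : ℝ) : ℂ)‖ = (Real.sqrt (8 * |(D : ℝ)|))⁻¹ := by
    rw [Complex.norm_real, Real.norm_of_nonneg hs0]
  have hB : 0 ≤ B := (norm_nonneg _).trans h1
  rw [Id, e2, e1]
  split_ifs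
  · rw [norm_mul, hn]
    refine mul_le_mul hs ((norm_add_le _ _).trans ?_) (norm_nonneg _) (by positivity)
    linarith
  · rw [norm_mul, norm_mul, hn, Complex.norm_I, mul_one]
    refine mul_le_mul hs ((norm_sub_le _ _).trans ?_) (norm_nonneg _) (by positivity)
    linarith

section

variable (p : ℕ) (hp : 2 ≤ p) (d : Fam) (hd : wd (Xp p) d ≠ 0)

include hp hd

lemma supp_Xp : 9 / 10 * (p : ℝ) ^ 20 < |((d : ℤ) : ℝ)| ∧
    |((d : ℤ) : ℝ)| < 11 / 10 * (p : ℝ) ^ 20 := by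
  have := wd_support (Xp p) (Xp_pos p hp) d hd
  rwa [Xp_cast p] at this

lemma yf_bounds (n : ℕ) (hn : 0 < n) :
    (n : ℝ) * (10 / 33) < yf p d n ∧ yf p d n < (n : ℝ) * (10 / 27) := by
  obtain ⟨h1, h2⟩ := supp_Xp p hp d hd
  have hp0 := p_pos p hp
  have hX : 0 < (p : ℝ) ^ 20 := by positivity
  have hn0 : (0:ℝ) < n := by exact_mod_cast hn
  have hD : 0 < |((d : ℤ) : ℝ)| := by linarith
  unfold yf
  constructor
  · rw [lt_div_iff₀ (by positivity)]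
    nlinarith
  · rw [div_lt_iff₀ (by positivity)]
    nlinarith

lemma eight_mul_ge : (p : ℝ) ^ 20 ≤ 8 * |((d : ℤ) : ℝ)| := by
  obtain ⟨h1, h2⟩ := supp_Xp p hp d hd
  have hp0 := p_pos p hp
  have hX : 0 < (p : ℝ) ^ 20 := by positivity
  linarith

lemma yf_rpow_le (n : ℕ) (hn : 0 < n) :
    |yf p d n| ^ (-(3 / 2) : ℝ) ≤ 6 * (n : ℝ) ^ (-(3 / 2) : ℝ) := by
  obtain ⟨h1, h2⟩ := yf_bounds p hp d hd n hn
  have hn0 : (0:ℝ) < n := by exact_mod_cast hn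
  have h3 : (n : ℝ) * (10 / 33) ≤ |yf p d n| := h1.le.trans (le_abs_self _)
  refine (Real.rpow_le_rpow_of_nonpos (by positivity) h3 (by norm_num)).trans ?_
  rw [Real.mul_rpow hn0.le (by norm_num), mul_comm]
  refine mul_le_mul_of_nonneg_right ?_ (by positivity)
  have e : ((10:ℝ) / 33) ^ (-(3 / 2) : ℝ) = (33 / 10) ^ (3 / 2 : ℝ) := by
    rw [Real.rpow_neg (by norm_num), ← Real.inv_rpow (by norm_num)]
    norm_num
  rw [e]
  have h6 : (((33:ℝ) / 10) ^ (3 / 2 : ℝ)) ^ (2 : ℕ) ≤ (6 : ℝ) ^ (2 : ℕ) := by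
    rw [← Real.rpow_natCast (((33:ℝ) / 10) ^ (3 / 2 : ℝ)) 2, ← Real.rpow_mul (by norm_num)]
    have : (3 / 2 : ℝ) * ((2 : ℕ) : ℝ) = ((3 : ℕ) : ℝ) := by norm_num
    rw [this, Real.rpow_natCast]
    norm_num
  exact le_of_pow_le_pow_left₀ (by norm_num) (by norm_num) h6

/-- Far from the peak. -/
lemma norm_Id_far (n : ℕ) (hn : Odd n) (h3 : n ≠ 3) :
    ‖Id (ap p) (lp p) (d : ℤ) n‖ ≤ 30 * (p : ℝ) ^ 46 * (n : ℝ) ^ (-(3 / 2) : ℝ) := by
  have hp0 := p_pos p hp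
  have hn0 : 0 < n := hn.pos
  have hn0' : (0:ℝ) < n := by exact_mod_cast hn0
  obtain ⟨h1, h2⟩ := yf_bounds p hp d hd n hn0
  have hK := one_le_Kp p hp
  have hR := Rp_pos p hp
  have hz := zp_ge_50K p hp
  have hzr := zp_rpow_le p hp
  have hex := exp_far_le p hp
  have hy := yf_rpow_le p hp d hd n hn0
  have hcase : n = 1 ∨ 5 ≤ n := by
    rcases hn with ⟨k, hk⟩
    omega
  have hpos : 0 < yf p d n := by
    have : 0 < (n : ℝ) * (10 / 33) := by positivity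
    linarith
  have key : ∀ y : ℝ, |y| = |yf p d n| →
      ((y ≤ 2 / 5 ∧ y ≠ 0 ∧ 1 / 4 ≤ |y|) ∨ 3 / 2 ≤ y) →
      ‖lap (ap p) (lp p) (((zp p / Rp p ^ 2 * y : ℝ) : ℂ) * I)‖ ≤
        2 * (8 / 9 * (p : ℝ) ^ 38) * (6 * (n : ℝ) ^ (-(3 / 2) : ℝ)) * ((p : ℝ) ^ 9)⁻¹ *
          (p : ℝ) ^ 27 := by
    intro y hyy hc
    have h := norm_lap_far (Kp p) (Rp p) (zp p) y hK hR hz hc
    rw [Rp_sq p] at h
    unfold ap lp
    rw [Rp_sq p]
    refine h.trans ?_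
    rw [hyy]
    have hz0 := zp_pos p hp
    gcongr
  have k1 := key (yf p d n) rfl (by
    rcases hcase with h | h
    · left
      rw [h] at h1 h2
      norm_num at h1 h2
      rw [h]
      refine ⟨by linarith, by
        have := hpos; rw [h] at this; exact this.ne', ?_⟩
      rw [abs_of_pos (by rw [h] at hpos; exact hpos)]
      linarith
    · right
      have h5 : (5:ℝ) ≤ n := by exact_mod_cast h
      linarith)
  have k2 := key (-yf p d n) (abs_neg _) (by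
    left
    refine ⟨by linarith, by simpa using hpos.ne', ?_⟩
    rw [abs_neg, abs_of_pos hpos]
    have h5 : (1:ℝ) ≤ n := by exact_mod_cast hn0
    linarith)
  refine (norm_Id_le p hp d (eight_mul_ge p hp d hd) n _ k1 k2).trans ?_
  have e : ((p : ℝ) ^ 10)⁻¹ * (2 * (2 * (8 / 9 * (p : ℝ) ^ 38) * (6 * (n : ℝ) ^ (-(3 / 2) : ℝ)) *
      ((p : ℝ) ^ 9)⁻¹ * (p : ℝ) ^ 27)) = 64 / 3 * ((p : ℝ) ^ 46 * (n : ℝ) ^ (-(3 / 2) : ℝ)) := by
    field_simp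
    ring
  rw [e]
  have : 0 ≤ (p : ℝ) ^ 46 * (n : ℝ) ^ (-(3 / 2) : ℝ) := by positivity
  linarith

/-- At the peak. -/
lemma norm_Id_three_le : ‖Id (ap p) (lp p) (d : ℤ) 3‖ ≤ 6 * (p : ℝ) ^ 49 := by
  have hp0 := p_pos p hp
  obtain ⟨h1, h2⟩ := yf_bounds p hp d hd 3 (by norm_num)
  have hK := one_le_Kp p hp
  have hR := Rp_pos p hp
  have hz := zp_ge_50K p hp
  have hzr := zp_rpow_le p hp
  have hz0 := zp_pos p hp
  push_cast at h1 h2
  have hpos : 0 < yf p d 3 := by linarith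
  have hy : |yf p d 3| ^ (-(3 / 2) : ℝ) ≤ 1.5 := by
    have h3 : (10 / 11 : ℝ) ≤ |yf p d 3| := by
      refine le_trans ?_ (le_abs_self _)
      linarith
    refine (Real.rpow_le_rpow_of_nonpos (by norm_num) h3 (by norm_num)).trans ?_
    have e : ((10:ℝ) / 11) ^ (-(3 / 2) : ℝ) = (11 / 10) ^ (3 / 2 : ℝ) := by
      rw [Real.rpow_neg (by norm_num), ← Real.inv_rpow (by norm_num)]
      norm_num
    rw [e]
    have h5 : (11 / 10 : ℝ) ^ (3 / 2 : ℝ) ≤ (11 / 10 : ℝ) ^ (2 : ℝ) :=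
      Real.rpow_le_rpow_of_exponent_le (by norm_num) (by norm_num)
    rw [Real.rpow_two] at h5
    norm_num at h5 ⊢
    linarith
  have key : ∀ y : ℝ, |y| = |yf p d 3| → y ≠ 0 →
      ‖lap (ap p) (lp p) (((zp p / Rp p ^ 2 * y : ℝ) : ℂ) * I)‖ ≤
        2 * (8 / 9 * (p : ℝ) ^ 38) * 1.5 * ((p : ℝ) ^ 9)⁻¹ * (p : ℝ) ^ 30 := by
    intro y hyy hc
    have h := norm_lap_le (Kp p) (Rp p) (zp p) y hK hR (by linarith) hc
    have hex : Real.exp (Kp p - Kp p * zp p ^ 2 * (y - 1) ^ 2 /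
        (Kp p ^ 2 + zp p ^ 2 * y ^ 2)) ≤ (p : ℝ) ^ 30 := by
      rw [← exp_Kp p hp]
      refine Real.exp_le_exp.mpr ?_
      have hK0 : 0 ≤ Kp p := by linarith
      have : 0 ≤ Kp p * zp p ^ 2 * (y - 1) ^ 2 / (Kp p ^ 2 + zp p ^ 2 * y ^ 2) := by positivity
      linarith
    rw [Rp_sq p] at h
    unfold ap lp
    rw [Rp_sq p]
    refine h.trans ?_
    rw [hyy]
    gcongr
  have k1 := key (yf p d 3) rfl hpos.ne'
  have k2 := key (-yf p d 3) (abs_neg _) (by simpa using hpos.ne')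
  refine (norm_Id_le p hp d (eight_mul_ge p hp d hd) 3 _ k1 k2).trans ?_
  have e : ((p : ℝ) ^ 10)⁻¹ * (2 * (2 * (8 / 9 * (p : ℝ) ^ 38) * 1.5 *
      ((p : ℝ) ^ 9)⁻¹ * (p : ℝ) ^ 30)) = 16 / 3 * (p : ℝ) ^ 49 := by
    field_simp
    ring
  rw [e]
  have : 0 ≤ (p : ℝ) ^ 49 := by positivity
  linarith

end

lemma norm_Id_three : ∃ C : ℝ, 0 ≤ C ∧ ∀ p : ℕ, 2 ≤ p → ∀ d : Fam, wd (Xp p) d ≠ 0 →
    ‖Id (ap p) (lp p) (d : ℤ) 3‖ ≤ C * (p : ℝ) ^ 49 :=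
  ⟨6, by norm_num, fun p hp d hd => norm_Id_three_le p hp d hd⟩

/-- The sum of the far frequencies. -/
theorem far_L : ∃ C : ℝ, 0 ≤ C ∧ ∀ p : ℕ, 2 ≤ p → ∀ d : Fam, wd (Xp p) d ≠ 0 →
    ‖(∑' n : ℕ, (mPF (jp h16) n : ℂ) * chi8 (d : ℤ) (n : ZMod (8 * (d : ℤ).natAbs)) *
        (2 * Real.pi * Id (ap p) (lp p) d n)) -
      (mPF (jp h16) 3 : ℂ) * chi8 (d : ℤ) ((3 : ℕ) : ZMod (8 * (d : ℤ).natAbs)) *
        (2 * Real.pi * Id (ap p) (lp p) d 3)‖ ≤ C * (p : ℝ) ^ 46 := by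
  have hsum : Summable (fun n : ℕ => (n : ℝ) ^ (-(3 / 2) : ℝ)) :=
    Real.summable_nat_rpow.mpr (by norm_num)
  set S : ℝ := ∑' n : ℕ, (n : ℝ) ^ (-(3 / 2) : ℝ) with hS
  have hS0 : 0 ≤ S := tsum_nonneg fun n => by positivity
  have hpi := Real.pi_pos
  refine ⟨60 * Real.pi * S, by positivity, fun p hp d hd => ?_⟩
  have hp0 := p_pos p hp
  set f : ℕ → ℂ := fun n => (mPF (jp h16) n : ℂ) *
    chi8 (d : ℤ) (n : ZMod (8 * (d : ℤ).natAbs)) * (2 * Real.pi * Id (ap p) (lp p) d n) with hf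
  have hbound : ∀ n : ℕ, n ≠ 3 → ‖f n‖ ≤ 60 * Real.pi * (p : ℝ) ^ 46 *
      (n : ℝ) ^ (-(3 / 2) : ℝ) := by
    intro n hn
    rcases Nat.even_or_odd n with he | ho
    · simp only [hf]
      rw [chi8_apply_even (d : ℤ) n he]
      simp only [mul_zero, zero_mul, norm_zero]
      positivity
    · have h1 := norm_Id_far p hp d hd n ho hn
      have h2 := abs_mPF_le_one (jp h16) (abs_jp_le h16 h16_pos) n
      have h3 := norm_chi8_le (d : ℤ) (n : ZMod (8 * (d : ℤ).natAbs))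
      simp only [hf]
      rw [norm_mul, norm_mul, norm_mul, norm_mul, Complex.norm_real, Complex.norm_real,
        Real.norm_of_nonneg hpi.le, Real.norm_eq_abs]
      have e2 : ‖(2 : ℂ)‖ = 2 := by simp
      rw [e2]
      calc |mPF (jp h16) n| * ‖chi8 (d : ℤ) (n : ZMod (8 * (d : ℤ).natAbs))‖ *
            (2 * Real.pi * ‖Id (ap p) (lp p) d n‖)
          ≤ 1 * 1 * (2 * Real.pi * (30 * (p : ℝ) ^ 46 * (n : ℝ) ^ (-(3 / 2) : ℝ))) := by
            gcongr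
        _ = _ := by ring
  have hf3 : Summable (fun n : ℕ => if n = 3 then 0 else f n) := by
    refine Summable.of_norm_bounded (hsum.mul_left (60 * Real.pi * (p : ℝ) ^ 46)) fun n => ?_
    split_ifs with h
    · rw [norm_zero]; positivity
    · exact hbound n h
  have hfs : Summable f := by
    have h1 : Summable (fun n : ℕ => (if n = 3 then 0 else f n) + (if n = 3 then f 3 else 0)) :=
      hf3.add (summable_of_ne_finset_zero (s := {3}) (fun n hn => by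
        rw [if_neg (by simpa using hn)]))
    refine h1.congr fun n => ?_
    by_cases h : n = 3
    · simp [h]
    · simp [h]
  have e1 : (∑' n, f n) - f 3 = ∑' n, (if n = 3 then 0 else f n) := by
    rw [hfs.tsum_eq_add_tsum_ite 3]
    ring
  have e2 : (mPF (jp h16) 3 : ℂ) * chi8 (d : ℤ) ((3 : ℕ) : ZMod (8 * (d : ℤ).natAbs)) *
        (2 * Real.pi * Id (ap p) (lp p) d 3) = f 3 := rfl
  rw [e2, e1]
  refine (norm_tsum_le_tsum_norm hf3.norm).trans ?_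
  calc ∑' n, ‖(if n = 3 then 0 else f n)‖ ≤
      ∑' n : ℕ, 60 * Real.pi * (p : ℝ) ^ 46 * (n : ℝ) ^ (-(3 / 2) : ℝ) := by
        refine Summable.tsum_le_tsum (fun n => ?_) hf3.norm
          (hsum.mul_left (60 * Real.pi * (p : ℝ) ^ 46))
        split_ifs with h
        · rw [norm_zero]; positivity
        · exact hbound n h
    _ = 60 * Real.pi * S * (p : ℝ) ^ 46 := by
        rw [tsum_mul_left, ← hS]; ring

/-- The second main term has only far frequencies. -/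
theorem far_b : ∃ C : ℝ, 0 ≤ C ∧ ∀ p : ℕ, 2 ≤ p → ∀ d : Fam, wd (Xp p) d ≠ 0 →
    ‖∑' k : ℕ, cb k * (2 * Real.pi * Id (ap p) (lp p) d (k ^ 2))‖ ≤ C * (p : ℝ) ^ 46 := by
  have hsum : Summable (fun n : ℕ => (n : ℝ) ^ (-(3 / 2) : ℝ)) :=
    Real.summable_nat_rpow.mpr (by norm_num)
  set S : ℝ := ∑' n : ℕ, (n : ℝ) ^ (-(3 / 2) : ℝ) with hS
  have hS0 : 0 ≤ S := tsum_nonneg fun n => by positivity
  have hpi := Real.pi_pos
  refine ⟨60 * Real.pi * S, by positivity, fun p hp d hd => ?_⟩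
  have hp0 := p_pos p hp
  have hbound : ∀ k : ℕ, ‖cb k * (2 * Real.pi * Id (ap p) (lp p) d (k ^ 2))‖ ≤
      60 * Real.pi * (p : ℝ) ^ 46 * (k : ℝ) ^ (-(3 / 2) : ℝ) := by
    intro k
    rcases Nat.even_or_odd k with he | ho
    · rw [cb_even k he, zero_mul, norm_zero]
      positivity
    · have hk0 : 0 < k := ho.pos
      have hk1 : (1:ℝ) ≤ k := by exact_mod_cast hk0
      have hne : k ^ 2 ≠ 3 := by
        intro h
        have h1 : k < 2 := by nlinarith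
        interval_cases k
        omega
      have h1 := norm_Id_far p hp d hd (k ^ 2) ho.pow hne
      have h2 := norm_cb_le k
      have h4 : (((k ^ 2 : ℕ) : ℕ) : ℝ) ^ (-(3 / 2) : ℝ) ≤ (k : ℝ) ^ (-(3 / 2) : ℝ) := by
        refine Real.rpow_le_rpow_of_nonpos (by linarith) ?_ (by norm_num)
        push_cast
        nlinarith
      have h5 : ‖Id (ap p) (lp p) (d : ℤ) (k ^ 2)‖ ≤
          30 * (p : ℝ) ^ 46 * (k : ℝ) ^ (-(3 / 2) : ℝ) := by
        refine h1.trans ?_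
        gcongr
      rw [norm_mul, norm_mul, norm_mul, Complex.norm_real, Real.norm_of_nonneg hpi.le]
      have e2 : ‖(2 : ℂ)‖ = 2 := by simp
      rw [e2]
      calc ‖cb k‖ * (2 * Real.pi * ‖Id (ap p) (lp p) (d : ℤ) (k ^ 2)‖)
          ≤ 1 * (2 * Real.pi * (30 * (p : ℝ) ^ 46 * (k : ℝ) ^ (-(3 / 2) : ℝ))) := by gcongr
        _ = _ := by ring
  have hs : Summable (fun k : ℕ => cb k * (2 * Real.pi * Id (ap p) (lp p) d (k ^ 2))) :=
    Summable.of_norm_bounded (hsum.mul_left (60 * Real.pi * (p : ℝ) ^ 46)) hbound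
  refine (norm_tsum_le_tsum_norm hs.norm).trans ?_
  calc ∑' k, ‖cb k * (2 * Real.pi * Id (ap p) (lp p) d (k ^ 2))‖ ≤
      ∑' n : ℕ, 60 * Real.pi * (p : ℝ) ^ 46 * (n : ℝ) ^ (-(3 / 2) : ℝ) :=
        Summable.tsum_le_tsum hbound hs.norm (hsum.mul_left (60 * Real.pi * (p : ℝ) ^ 46))
    _ = 60 * Real.pi * S * (p : ℝ) ^ 46 := by
        rw [tsum_mul_left, ← hS]; ring

end Pool.Agent.Ratios
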