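import Pool.Agent.Ratios.JPart

/-! The contribution of the first main term: exact formula for truncations and a bound. -/

set_option autoImplicit false

open Complex MeasureTheory Set Filter Topology

namespace Pool.Agent.Ratios

/-- The point `3/8 + i t`. -/
noncomputable def zt (t : ℝ) : ℂ := ((3 / 8 : ℝ) : ℂ) + t * I

lemma zt_re (t : ℝ) : (zt t).re = 3 / 8 := by simp [zt]
lemma zt_im (t : ℝ) : (zt t).im = t := by simp [zt]

lemma continuous_zt : Continuous zt := by unfold zt; fun_prop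

lemma norm_zt_le (t : ℝ) : ‖zt t‖ ≤ 1 + |t| := by
  rw [zt]
  refine (norm_add_le _ _).trans ?_
  rw [Complex.norm_real, norm_mul, Complex.norm_I, Complex.norm_real, mul_one, Real.norm_eq_abs,
    Real.norm_eq_abs, abs_of_pos (by norm_num : (0:ℝ) < 3 / 8)]
  linarith

lemma cpow_sq (x y : ℝ) (hx : 0 < x) (hy : 0 < y) (z : ℂ) :
    (x : ℂ) ^ (-(2 * z)) * (y : ℂ) ^ (-(2 * z)) = (((x * y) ^ 2 : ℝ) : ℂ) ^ (-z) := by
  have h1 : ∀ (x : ℝ), 0 < x → ∀ s : ℂ, (x : ℂ) ^ s = cexp ((Real.log x : ℝ) * s) := by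
    intro x hx s
    rw [cpow_def_of_ne_zero (by exact_mod_cast hx.ne'), Complex.ofReal_log hx.le]
  rw [h1 x hx, h1 y hy, h1 _ (by positivity), ← Complex.exp_add, Real.log_pow,
    Real.log_mul hx.ne' hy.ne']
  congr 1
  push_cast
  ring

lemma integrable_mellin_cpow (a : ℝ) (ha : 0 < a) (lam : ℂ) (y : ℝ) (hy : 0 < y) :
    Integrable (fun t : ℝ => mellin (ker a lam) (zt t) * (y : ℂ) ^ (-(zt t))) := by
  obtain ⟨C, hC, hdec⟩ := mellin_ker_decay a ha lam (3 / 8) (3 / 8) (by norm_num) le_rfl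
  have hc1 : Continuous (fun t : ℝ => mellin (ker a lam) (zt t)) :=
    continuous_mellin_ker_vertical a (by simpa using ha) lam (3 / 8) (by norm_num)
  have hc2 : Continuous (fun t : ℝ => (y : ℂ) ^ (-(zt t))) :=
    continuous_zt.neg.const_cpow (Or.inl (by exact_mod_cast hy.ne'))
  refine ((integrable_exp_neg_mul_abs 1 one_pos).const_mul (C * y ^ (-(3 / 8) : ℝ))).mono'
    (hc1.mul hc2).aestronglyMeasurable ?_
  filter_upwards with t
  rw [norm_mul, norm_cpow_eq_rpow_re_of_pos hy, Complex.neg_re, zt_re]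
  have h := hdec (3 / 8) le_rfl le_rfl t
  have hyp : 0 ≤ y ^ (-(3 / 8) : ℝ) := Real.rpow_nonneg hy.le _
  calc ‖mellin (ker a lam) (zt t)‖ * y ^ (-(3 / 8) : ℝ)
      ≤ (C * Real.exp (-|t|)) * y ^ (-(3 / 8) : ℝ) := by
        gcongr
        exact h
    _ = _ := by rw [one_mul]; ring

lemma integral_mellin_cpow (a : ℝ) (ha : 0 < a) (lam : ℂ) (y : ℝ) (hy : 0 < y) :
    ∫ t : ℝ, mellin (ker a lam) (zt t) * (y : ℂ) ^ (-(zt t)) = 2 * Real.pi * ker a lam y :=
  mellin_inversion_ker a ha lam (3 / 8) (by norm_num) y hy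

lemma integrable_prod_aux (a : ℝ) (ha : 0 < a) (lam : ℂ) (k : ℝ) (hk : 0 < k) (Y : ℝ)
    (hY : 0 < Y) :
    Integrable (Function.uncurry fun (t : ℝ) (x : ℝ) => mellin (ker a lam) (zt t) *
      ((k : ℂ) ^ (-(2 * zt t)) * (x : ℂ) ^ (-(2 * zt t))))
      (volume.prod (volume.restrict (Ioc 0 Y))) := by
  obtain ⟨C, hC, hdec⟩ := mellin_ker_decay a ha lam (3 / 8) (3 / 8) (by norm_num) le_rfl
  have hc1 : Continuous (fun t : ℝ => mellin (ker a lam) (zt t)) :=
    continuous_mellin_ker_vertical a (by simpa using ha) lam (3 / 8) (by norm_num)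
  have hc2 : Continuous (fun t : ℝ => (k : ℂ) ^ (-(2 * zt t))) :=
    (continuous_const.mul continuous_zt).neg.const_cpow (Or.inl (by exact_mod_cast hk.ne'))
  have hI : IntegrableOn (fun x : ℝ => x ^ (-(3 / 4) : ℝ)) (Ioc 0 Y) := by
    have := (intervalIntegral.intervalIntegrable_rpow' (a := 0) (b := Y) (r := -(3 / 4))
      (by norm_num))
    exact (intervalIntegrable_iff_integrableOn_Ioc_of_le hY.le).mp this
  have hE := (integrable_exp_neg_mul_abs 1 one_pos).const_mul (C * k ^ (-(3 / 4) : ℝ))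
  refine (hE.mul_prod hI).mono' ?_ ?_
  · refine Measurable.aestronglyMeasurable ?_
    have m1 : Measurable (fun q : ℝ × ℝ => mellin (ker a lam) (zt q.1)) :=
      hc1.measurable.comp measurable_fst
    have m2 : Measurable (fun q : ℝ × ℝ => (k : ℂ) ^ (-(2 * zt q.1))) :=
      hc2.measurable.comp measurable_fst
    have m3 : Measurable (fun q : ℝ × ℝ => ((q.2 : ℝ) : ℂ) ^ (-(2 * zt q.1))) :=
      (Complex.measurable_ofReal.comp measurable_snd).pow
        ((measurable_const.mul (continuous_zt.measurable.comp measurable_fst)).neg)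
    exact m1.mul (m2.mul m3)
  · have hae : ∀ᵐ q : ℝ × ℝ ∂(volume.prod (volume.restrict (Ioc (0:ℝ) Y))), q.2 ∈ Ioc (0:ℝ) Y := by
      have h1 : ∀ᵐ x : ℝ ∂(volume.restrict (Ioc (0:ℝ) Y)), x ∈ Ioc (0:ℝ) Y :=
        ae_restrict_mem measurableSet_Ioc
      exact Measure.quasiMeasurePreserving_snd.ae h1
    filter_upwards [hae] with q hq
    have hq0 : 0 < q.2 := hq.1
    simp only [Function.uncurry]
    have e1 : (-(2 * zt q.1)).re = -(3 / 4) := by
      have : (2 * zt q.1).re = 2 * (zt q.1).re := by simp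
      rw [Complex.neg_re, this, zt_re]; norm_num
    rw [norm_mul, norm_mul, norm_cpow_eq_rpow_re_of_pos hk, norm_cpow_eq_rpow_re_of_pos hq0, e1]
    have h := hdec (3 / 8) le_rfl le_rfl q.1
    have hyp : 0 ≤ k ^ (-(3 / 4) : ℝ) := Real.rpow_nonneg hk.le _
    have hyp2 : 0 ≤ q.2 ^ (-(3 / 4) : ℝ) := Real.rpow_nonneg hq0.le _
    calc ‖mellin (ker a lam) (zt q.1)‖ * (k ^ (-(3 / 4) : ℝ) * q.2 ^ (-(3 / 4) : ℝ))
        ≤ (C * Real.exp (-|q.1|)) * (k ^ (-(3 / 4) : ℝ) * q.2 ^ (-(3 / 4) : ℝ)) := by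
          gcongr
          exact h
      _ = _ := by rw [one_mul]; ring

/-- Exact formula for the truncated transforms. -/
lemma integral_mellin_ZM (a : ℝ) (ha : 0 < a) (lam : ℂ) (k : ℝ) (hk : 0 < k) (M : ℕ) :
    ∫ t : ℝ, mellin (ker a lam) (zt t) * ((k : ℂ) ^ (-(2 * zt t)) * ZM M (2 * zt t)) =
      2 * Real.pi * (∑ m ∈ Finset.range M, ker a lam ((k * Yt m) ^ 2) +
        (1 / 2) * ker a lam ((k * Yt M) ^ 2) -
        (1 / 2) * ∫ x in (0:ℝ)..(Yt M), ker a lam ((k * x) ^ 2)) := by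
  have hYM := Yt_pos M
  have i1 : ∀ m : ℕ, Integrable (fun t : ℝ => mellin (ker a lam) (zt t) *
      ((((k * Yt m) ^ 2 : ℝ) : ℂ)) ^ (-(zt t))) := fun m =>
    integrable_mellin_cpow a ha lam _ (by have := Yt_pos m; positivity)
  have hprod := integrable_prod_aux a ha lam k hk (Yt M) hYM
  have i2 : Integrable (fun t : ℝ => ∫ x in Ioc (0:ℝ) (Yt M), mellin (ker a lam) (zt t) *
      ((k : ℂ) ^ (-(2 * zt t)) * (x : ℂ) ^ (-(2 * zt t)))) := hprod.integral_prod_left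
  have e : ∀ t : ℝ, mellin (ker a lam) (zt t) * ((k : ℂ) ^ (-(2 * zt t)) * ZM M (2 * zt t)) =
      (∑ m ∈ Finset.range M, mellin (ker a lam) (zt t) *
        ((((k * Yt m) ^ 2 : ℝ) : ℂ)) ^ (-(zt t)) +
      (1 / 2) * (mellin (ker a lam) (zt t) * ((((k * Yt M) ^ 2 : ℝ) : ℂ)) ^ (-(zt t)))) -
      (1 / 2) * ∫ x in Ioc (0:ℝ) (Yt M), mellin (ker a lam) (zt t) *
      ((k : ℂ) ^ (-(2 * zt t)) * (x : ℂ) ^ (-(2 * zt t))) := by
    intro t
    rw [ZM, integral_const_mul, integral_const_mul, intervalIntegral.integral_of_le hYM.le]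
    have h1 : ∀ m : ℕ, ((((k * Yt m) ^ 2 : ℝ) : ℂ)) ^ (-(zt t)) =
        (k : ℂ) ^ (-(2 * zt t)) * ((Yt m : ℝ) : ℂ) ^ (-(2 * zt t)) := fun m =>
      (cpow_sq k (Yt m) hk (Yt_pos m) (zt t)).symm
    have hsum : ∑ m ∈ Finset.range M, mellin (ker a lam) (zt t) *
        ((((k * Yt m) ^ 2 : ℝ) : ℂ)) ^ (-(zt t)) = mellin (ker a lam) (zt t) *
        ((k : ℂ) ^ (-(2 * zt t)) * ∑ m ∈ Finset.range M, ((Yt m : ℝ) : ℂ) ^ (-(2 * zt t))) := by
      rw [Finset.mul_sum, Finset.mul_sum]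
      exact Finset.sum_congr rfl fun m _ => by rw [h1 m]
    rw [hsum, h1 M]
    ring
  simp_rw [e]
  have hA : Integrable (fun t : ℝ => ∑ m ∈ Finset.range M, mellin (ker a lam) (zt t) *
      ((((k * Yt m) ^ 2 : ℝ) : ℂ)) ^ (-(zt t))) := integrable_finsetSum _ fun m _ => i1 m
  have hB : Integrable (fun t : ℝ => (1 / 2 : ℂ) * (mellin (ker a lam) (zt t) *
      ((((k * Yt M) ^ 2 : ℝ) : ℂ)) ^ (-(zt t)))) := (i1 M).const_mul _
  have hC : Integrable (fun t : ℝ => (1 / 2 : ℂ) * ∫ x in Ioc (0:ℝ) (Yt M),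
      mellin (ker a lam) (zt t) * ((k : ℂ) ^ (-(2 * zt t)) * (x : ℂ) ^ (-(2 * zt t)))) :=
    i2.const_mul _
  have hAB : Integrable (fun t : ℝ => ∑ m ∈ Finset.range M, mellin (ker a lam) (zt t) *
      ((((k * Yt m) ^ 2 : ℝ) : ℂ)) ^ (-(zt t)) + (1 / 2 : ℂ) * (mellin (ker a lam) (zt t) *
      ((((k * Yt M) ^ 2 : ℝ) : ℂ)) ^ (-(zt t)))) := hA.add hB
  rw [integral_sub hAB hC, integral_add hA hB, integral_finsetSum _ fun m _ => i1 m,
    integral_const_mul, integral_const_mul]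
  have h2 : ∀ m : ℕ, ∫ t : ℝ, mellin (ker a lam) (zt t) *
      ((((k * Yt m) ^ 2 : ℝ) : ℂ)) ^ (-(zt t)) = 2 * Real.pi * ker a lam ((k * Yt m) ^ 2) :=
    fun m => integral_mellin_cpow a ha lam _ (by have := Yt_pos m; positivity)
  rw [Finset.sum_congr rfl fun m _ => h2 m, h2 M, ← Finset.mul_sum]
  have h3 : ∫ t : ℝ, ∫ x in Ioc (0:ℝ) (Yt M), mellin (ker a lam) (zt t) *
      ((k : ℂ) ^ (-(2 * zt t)) * (x : ℂ) ^ (-(2 * zt t))) =
      2 * Real.pi * ∫ x in (0:ℝ)..(Yt M), ker a lam ((k * x) ^ 2) := by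
    rw [integral_integral_swap hprod, intervalIntegral.integral_of_le hYM.le,
      ← integral_const_mul]
    refine setIntegral_congr_fun measurableSet_Ioc ?_
    intro x hx
    simp only
    rw [← integral_mellin_cpow a ha lam _ (by have := hx.1; positivity)]
    refine integral_congr_ae ?_
    filter_upwards with t
    rw [cpow_sq k x hk hx.1]
  rw [h3]
  ring

/-- The transform of the first main term attached to `k`. -/
noncomputable def Jk (a : ℝ) (lam : ℂ) (k : ℝ) : ℂ :=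
  ∫ t : ℝ, mellin (ker a lam) (zt t) * ((k : ℂ) ^ (-(2 * zt t)) * Zf (2 * zt t))

lemma two_zt_re (t : ℝ) : (2 * zt t).re = 3 / 4 := by
  have : (2 * zt t).re = 2 * (zt t).re := by simp
  rw [this, zt_re]; norm_num

lemma norm_two_zt_le (t : ℝ) : ‖2 * zt t‖ ≤ 2 * (1 + |t|) := by
  rw [norm_mul]
  have := norm_zt_le t
  simp only [Complex.norm_ofNat]
  linarith

lemma norm_ZM_zt_le (M : ℕ) (t : ℝ) : ‖ZM M (2 * zt t)‖ ≤ 6 * (1 + |t|) := by
  refine (norm_ZM_le M _ (by rw [two_zt_re]; norm_num) (by rw [two_zt_re]; norm_num)).trans ?_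
  rw [two_zt_re]
  have := norm_zt_le t
  have h2 := abs_nonneg t
  norm_num
  nlinarith

lemma norm_Zf_zt_le (t : ℝ) : ‖Zf (2 * zt t)‖ ≤ 6 * (1 + |t|) := by
  refine (norm_Zf_le _ (by rw [two_zt_re]; norm_num) (by rw [two_zt_re]; norm_num)).trans ?_
  rw [two_zt_re]
  have := norm_zt_le t
  have h2 := abs_nonneg t
  norm_num
  nlinarith

lemma one_add_abs_mul_exp_le (t : ℝ) : (1 + |t|) * Real.exp (-|t|) ≤ 2 * Real.exp (-(|t| / 2)) := by
  have ht : 0 ≤ |t| := abs_nonneg t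
  have h := Real.add_one_le_exp (|t| / 2)
  have h5 : Real.exp (-|t|) = Real.exp (-(|t| / 2)) * Real.exp (-(|t| / 2)) := by
    rw [← Real.exp_add]; congr 1; ring
  have h6 : Real.exp (|t| / 2) * Real.exp (-(|t| / 2)) = 1 := by
    rw [← Real.exp_add]; simp
  calc (1 + |t|) * Real.exp (-|t|) ≤ (2 * Real.exp (|t| / 2)) * Real.exp (-|t|) := by
        gcongr; linarith
    _ = 2 * (Real.exp (|t| / 2) * Real.exp (-(|t| / 2))) * Real.exp (-(|t| / 2)) := by
        rw [h5]; ring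
    _ = _ := by rw [h6]; ring

lemma tendsto_integral_ZM (a : ℝ) (ha : 0 < a) (lam : ℂ) (k : ℝ) (hk : 0 < k) :
    Tendsto (fun M : ℕ => ∫ t : ℝ, mellin (ker a lam) (zt t) *
      ((k : ℂ) ^ (-(2 * zt t)) * ZM M (2 * zt t))) atTop (𝓝 (Jk a lam k)) := by
  obtain ⟨C, hC, hdec⟩ := mellin_ker_decay a ha lam (3 / 8) (3 / 8) (by norm_num) le_rfl
  have hc1 : Continuous (fun t : ℝ => mellin (ker a lam) (zt t)) :=
    continuous_mellin_ker_vertical a (by simpa using ha) lam (3 / 8) (by norm_num)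
  have hc2 : Continuous (fun t : ℝ => (k : ℂ) ^ (-(2 * zt t))) :=
    (continuous_const.mul continuous_zt).neg.const_cpow (Or.inl (by exact_mod_cast hk.ne'))
  have hkp : 0 ≤ k ^ (-(3 / 4) : ℝ) := Real.rpow_nonneg hk.le _
  refine tendsto_integral_of_dominated_convergence
    (fun t => (C * k ^ (-(3 / 4) : ℝ) * 12) * Real.exp (-(1 / 2 * |t|))) ?_ ?_ ?_ ?_
  · intro M
    refine (hc1.measurable.mul (hc2.measurable.mul ?_)).aestronglyMeasurable
    have : (fun t : ℝ => ZM M (2 * zt t)) = fun t : ℝ =>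
        ∑ m ∈ Finset.range M, ((Yt m : ℝ) : ℂ) ^ (-(2 * zt t)) +
          (1 / 2) * ((Yt M : ℝ) : ℂ) ^ (-(2 * zt t)) -
          (1 / 2) * ((((Yt M : ℝ) : ℂ) ^ (-(2 * zt t) + 1)) / (-(2 * zt t) + 1)) := by
      funext t
      have hne : -(2 * zt t) + 1 ≠ 0 := by
        intro h
        have h2 := congrArg Complex.re h
        rw [add_re, neg_re, two_zt_re] at h2
        norm_num at h2
      rw [ZM, integral_cpow (Or.inl (by rw [neg_re, two_zt_re]; norm_num)), Complex.ofReal_zero,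
        zero_cpow hne, sub_zero]
    rw [this]
    have hz2 : Measurable (fun t : ℝ => -(2 * zt t)) :=
      (measurable_const.mul continuous_zt.measurable).neg
    refine Measurable.sub (Measurable.add ?_ ?_) ?_
    · exact Finset.measurable_sum _ fun m _ => measurable_const.pow hz2
    · exact measurable_const.mul (measurable_const.pow hz2)
    · exact measurable_const.mul ((measurable_const.pow (hz2.add_const 1)).div (hz2.add_const 1))
  · exact (integrable_exp_neg_mul_abs (1 / 2) (by norm_num)).const_mul _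
  · intro M
    filter_upwards with t
    have e1 : (-(2 * zt t)).re = -(3 / 4) := by rw [Complex.neg_re, two_zt_re]
    rw [norm_mul, norm_mul, norm_cpow_eq_rpow_re_of_pos hk, e1]
    have h := hdec (3 / 8) le_rfl le_rfl t
    have hz := norm_ZM_zt_le M t
    calc ‖mellin (ker a lam) (zt t)‖ * (k ^ (-(3 / 4) : ℝ) * ‖ZM M (2 * zt t)‖)
        ≤ (C * Real.exp (-|t|)) * (k ^ (-(3 / 4) : ℝ) * (6 * (1 + |t|))) := by
          gcongr
          exact h
      _ = (C * k ^ (-(3 / 4) : ℝ) * 6) * ((1 + |t|) * Real.exp (-|t|)) := by ring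
      _ ≤ (C * k ^ (-(3 / 4) : ℝ) * 6) * (2 * Real.exp (-(|t| / 2))) :=
          mul_le_mul_of_nonneg_left (one_add_abs_mul_exp_le t) (by positivity)
      _ = _ := by rw [show 1 / 2 * |t| = |t| / 2 by ring]; ring
  · filter_upwards with t
    exact ((tendsto_ZM _ (by rw [two_zt_re]; norm_num) (by rw [two_zt_re]; norm_num)).const_mul
      _).const_mul _

/-- Bound for the transform of the first main term. -/
theorem norm_Jk_le (a : ℝ) (ha : 0 < a) (lam : ℂ) (k : ℝ) (hk : 0 < k) (A₁ A₂ : ℝ)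
    (h1 : ∀ M : ℕ, ‖∑ m ∈ Finset.range M, ker a lam ((k * Yt m) ^ 2)‖ ≤ A₁)
    (h2 : ∀ Y : ℝ, 0 < Y → ‖∫ x in (0:ℝ)..Y, ker a lam ((k * x) ^ 2)‖ ≤ A₂) :
    ‖Jk a lam k‖ ≤ 2 * Real.pi * (A₁ + A₂ / 2) := by
  have hpi := Real.pi_pos
  refine le_of_tendsto (tendsto_integral_ZM a ha lam k hk).norm ?_
  filter_upwards with M
  rw [integral_mellin_ZM a ha lam k hk M]
  have e : ∑ m ∈ Finset.range M, ker a lam ((k * Yt m) ^ 2) +
        (1 / 2) * ker a lam ((k * Yt M) ^ 2) =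
      (1 / 2) * (∑ m ∈ Finset.range M, ker a lam ((k * Yt m) ^ 2)) +
      (1 / 2) * (∑ m ∈ Finset.range (M + 1), ker a lam ((k * Yt m) ^ 2)) := by
    rw [Finset.sum_range_succ]; ring
  rw [e, norm_mul, norm_mul, Complex.norm_real, Real.norm_of_nonneg hpi.le]
  simp only [Complex.norm_ofNat]
  gcongr
  refine (norm_sub_le _ _).trans ?_
  refine (add_le_add (norm_add_le _ _) le_rfl).trans ?_
  rw [norm_mul, norm_mul, norm_mul]
  have b1 := h1 M
  have b2 := h1 (M + 1)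
  have b3 := h2 (Yt M) (Yt_pos M)
  have b4 : ‖(1 / 2 : ℂ)‖ = 1 / 2 := by simp
  rw [b4]
  linarith

end Pool.Agent.Ratios
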