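import Pool.Agent.Ratios.XdBound
import Pool.Agent.Ratios.LBound
import Pool.Agent.Ratios.DirSeries2
import Pool.Agent.Ratios.JSum

/-! Series against the archimedean factor; contour shift for the ratio of `L`-functions. -/

set_option autoImplicit false

open Complex MeasureTheory Set Filter Topology

namespace Pool.Agent.Ratios

lemma continuous_Xd_vertical (d : ℤ) (hd : d ≠ 0) (c : ℝ) (hc : c < 1) :
    Continuous (fun t : ℝ => Xd d ((c : ℂ) + t * I)) := by
  rw [continuous_iff_continuousAt]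
  intro t
  have h := (differentiableAt_Xd d hd ((c : ℂ) + t * I) (by simpa using hc)).continuousAt
  exact ContinuousAt.comp (f := fun t : ℝ => (c : ℂ) + t * I) h (by fun_prop)

lemma integrable_mellin_Xd (a : ℝ) (ha : 0 < a) (lam : ℂ) (d : ℤ) (hd : d ≠ 0) (c : ℝ)
    (hc : -(1 / 2) < c) (hc1 : c < 1) :
    Integrable (fun t : ℝ => mellin (ker a lam) ((c : ℂ) + t * I) *
      Xd d ((c : ℂ) + t * I)) := by
  have hN := cond_pos d hd
  obtain ⟨C, hC, hdec⟩ := mellin_ker_decay a ha lam c c hc le_rfl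
  have hcont := (continuous_mellin_ker_vertical a (by simpa using ha) lam c hc).mul
    (continuous_Xd_vertical d hd c hc1)
  have hGp : 0 < Real.Gamma (1 - c) := Real.Gamma_pos_of_pos (by linarith)
  refine ((integrable_exp_neg_mul_abs (1 / 2) (by norm_num)).const_mul
    (C * (14 * (8 * |(d : ℝ)|) ^ (1 / 2 - c) * Real.Gamma (1 - c)) * 8)).mono'
    hcont.aestronglyMeasurable ?_
  filter_upwards with t
  rw [norm_mul]
  have h1 := hdec c le_rfl le_rfl t
  have h2 := norm_Xd_le d hd ((c : ℂ) + t * I) (by simpa using hc1) (by simp; linarith)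
  have e1 : ((c : ℂ) + t * I).re = c := by simp
  have e2 : ((c : ℂ) + t * I).im = t := by simp
  rw [e1, e2] at h2
  calc ‖mellin (ker a lam) ((c : ℂ) + t * I)‖ * ‖Xd d ((c : ℂ) + t * I)‖
      ≤ (C * Real.exp (-|t|)) *
        (14 * (8 * |(d : ℝ)|) ^ (1 / 2 - c) * Real.Gamma (1 - c) * (1 + |t|) ^ 2) := by
        gcongr
    _ = C * (14 * (8 * |(d : ℝ)|) ^ (1 / 2 - c) * Real.Gamma (1 - c)) *
        ((1 + |t|) ^ 2 * Real.exp (-|t|)) := by ring
    _ ≤ C * (14 * (8 * |(d : ℝ)|) ^ (1 / 2 - c) * Real.Gamma (1 - c)) *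
        (8 * Real.exp (-(|t| / 2))) :=
        mul_le_mul_of_nonneg_left (sq_mul_exp_neg_le t) (by positivity)
    _ = _ := by
        rw [show 1 / 2 * |t| = |t| / 2 by ring]; ring

/-- Series against the archimedean factor. -/
theorem hasSum_integral_mellin_Xd (a : ℝ) (ha : 0 < a) (lam : ℂ) (d : ℤ) (hd : d ≠ 0) (c : ℝ)
    (hc : -(1 / 2) < c) (hc1 : c < 1) (ν : ℕ → ℕ) (coef : ℕ → ℂ)
    (h0 : ∀ n, ν n = 0 → coef n = 0)
    (hsum : Summable fun n => ‖coef n‖ * (ν n : ℝ) ^ (c - 1)) :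
    HasSum (fun n => coef n * (2 * Real.pi * Id a lam d (ν n)))
      (∫ t : ℝ, mellin (ker a lam) ((c : ℂ) + t * I) * (Xd d ((c : ℂ) + t * I) *
        ∑' n, coef n * (ν n : ℂ) ^ ((c : ℂ) + t * I - 1))) := by
  set B : ℝ → ℂ := fun t => mellin (ker a lam) ((c : ℂ) + t * I) * Xd d ((c : ℂ) + t * I) with hB
  have hBi : Integrable B := integrable_mellin_Xd a ha lam d hd c hc hc1
  set F : ℕ → ℝ → ℂ := fun n t => B t * (coef n * (ν n : ℂ) ^ ((c : ℂ) + t * I - 1)) with hF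
  have hpow : ∀ n, ν n ≠ 0 → ∀ t : ℝ, ‖(ν n : ℂ) ^ ((c : ℂ) + t * I - 1)‖ = (ν n : ℝ) ^ (c - 1) := by
    intro n hn t
    rw [norm_natCast_cpow_of_pos (Nat.pos_of_ne_zero hn)]
    congr 1
    simp
  have hnorm : ∀ n t, ‖F n t‖ = (‖coef n‖ * (ν n : ℝ) ^ (c - 1)) * ‖B t‖ := by
    intro n t
    simp only [hF]
    by_cases hn : ν n = 0
    · rw [h0 n hn]; simp
    · rw [norm_mul (B t), norm_mul (coef n), hpow n hn]; ring
  have hFc : ∀ n, Continuous (fun t : ℝ => coef n * (ν n : ℂ) ^ ((c : ℂ) + t * I - 1)) := by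
    intro n
    by_cases hn : ν n = 0
    · rw [h0 n hn]; simp only [zero_mul]; exact continuous_const
    · refine continuous_const.mul (Continuous.const_cpow (by fun_prop) (Or.inl ?_))
      exact_mod_cast hn
  have hFi : ∀ n, Integrable (F n) := by
    intro n
    refine (hBi.norm.const_mul (‖coef n‖ * (ν n : ℝ) ^ (c - 1))).mono' ?_ ?_
    · exact hBi.aestronglyMeasurable.mul (hFc n).aestronglyMeasurable
    · filter_upwards with t
      rw [hnorm n t]
  have hFs : Summable fun n => ∫ t, ‖F n t‖ := by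
    simp_rw [hnorm, integral_const_mul]
    exact hsum.mul_right _
  have key := hasSum_integral_of_summable_integral_norm hFi hFs
  have e1 : ∀ n, ∫ t, F n t = coef n * (2 * Real.pi * Id a lam d (ν n)) := by
    intro n
    by_cases hn : ν n = 0
    · simp only [hF, h0 n hn]; simp
    · rw [← integral_mellin_Xd a ha lam d hd (ν n) (Nat.pos_of_ne_zero hn) c hc hc1,
        ← integral_const_mul]
      refine integral_congr_ae ?_
      filter_upwards with t
      simp only [hF, hB]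
      ring
  have e2 : (∫ t : ℝ, mellin (ker a lam) ((c : ℂ) + t * I) * (Xd d ((c : ℂ) + t * I) *
        ∑' n, coef n * (ν n : ℂ) ^ ((c : ℂ) + t * I - 1))) = ∫ t, ∑' n, F n t := by
    refine integral_congr_ae ?_
    filter_upwards with t
    simp only [hF, hB]
    rw [tsum_mul_left]
    ring
  rw [e2]
  have e3 : (fun n => coef n * (2 * Real.pi * Id a lam d (ν n))) = fun n => ∫ t, F n t := by
    funext n; exact (e1 n).symm
  rw [e3]
  exact key

lemma level_natCast_real (d : ℤ) : ((8 * d.natAbs : ℕ) : ℝ) = 8 * |(d : ℝ)| := by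
  push_cast
  rw [Nat.cast_natAbs]
  push_cast
  rfl

/-- Growth of the `L`-function to the left of the critical line. -/
lemma norm_L8_left (d : Fam) (z : ℂ) (h1 : -(1 / 4) ≤ z.re) (h2 : z.re ≤ 3 / 8) :
    ‖L8 d z‖ ≤ 1000 * (8 * |((d : ℤ) : ℝ)|) ^ 2 * (1 + |z.im|) ^ 3 := by
  have hd0 : (d : ℤ) ≠ 0 := d.2.2.ne_zero
  have hN := cond_pos _ hd0
  set N := 8 * |((d : ℤ) : ℝ)| with hNdef
  have hN1 : 1 ≤ N := by
    have : (1:ℝ) ≤ |((d : ℤ) : ℝ)| := by
      have : 1 ≤ |(d : ℤ)| := Int.one_le_abs hd0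
      exact_mod_cast this
    rw [hNdef]; linarith
  rw [L8_functional d z (by linarith), norm_mul, norm_mul]
  have hrn : ‖rn d‖ = 1 := by rcases rn_eq d with h | h <;> simp [h]
  rw [hrn, one_mul]
  have hX := norm_Xd_le (d : ℤ) hd0 z (by linarith) (by linarith)
  rw [← hNdef] at hX
  have hG := Gamma_real_le (1 - z.re) (by linarith) (by linarith)
  have hGp : 0 < Real.Gamma (1 - z.re) := Real.Gamma_pos_of_pos (by linarith)
  have hNp : N ^ (1 / 2 - z.re) ≤ N := by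
    calc N ^ (1 / 2 - z.re) ≤ N ^ (1:ℝ) :=
          Real.rpow_le_rpow_of_exponent_le hN1 (by linarith)
      _ = N := Real.rpow_one _
  have hL := norm_LFunction_le (chi8 (d : ℤ)) (chi8_ne_one d) (1 - z) (by simp; linarith)
  rw [level_natCast_real, ← hNdef] at hL
  have hre : (1 - z).re = 1 - z.re := by simp
  rw [hre] at hL
  have hn : ‖1 - z‖ ≤ 5 / 4 + |z.im| := by
    have := Complex.norm_le_abs_re_add_abs_im (1 - z)
    have h3 : |(1 - z).re| ≤ 5 / 4 := by rw [hre, abs_le]; constructor <;> linarith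
    have h4 : |(1 - z).im| = |z.im| := by simp
    linarith
  have him := abs_nonneg z.im
  have hL2 : ‖L8 d (1 - z)‖ ≤ 2 * N * (1 + |z.im|) := by
    refine hL.trans ?_
    rw [div_le_iff₀ (by linarith)]
    have h5 : 5 / 8 ≤ 1 - z.re := by linarith
    have h6 : 0 ≤ 2 * N * (1 + |z.im|) := by positivity
    nlinarith [mul_le_mul_of_nonneg_left h5 h6, mul_le_mul_of_nonneg_left hn hN.le]
  calc ‖Xd (d : ℤ) z‖ * ‖L8 d (1 - z)‖
      ≤ (14 * N * 16 * (1 + |z.im|) ^ 2) * (2 * N * (1 + |z.im|)) := by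
        gcongr
        refine hX.trans ?_
        gcongr
    _ = 448 * (N ^ 2 * (1 + |z.im|) ^ 3) := by ring
    _ ≤ 1000 * (N ^ 2 * (1 + |z.im|) ^ 3) := by
        have : 0 ≤ N ^ 2 * (1 + |z.im|) ^ 3 := by positivity
        nlinarith
    _ = _ := by ring

lemma norm_inv_L8_le (hG : GRH) (d : Fam) (s : ℂ) (hs : 11 / 16 ≤ s.re) :
    ‖(L8 d s)⁻¹‖ ≤ 3 * 21 ^ 14 * (8 * |((d : ℤ) : ℝ)|) ^ 14 * (1 + |s.im|) ^ 14 := by
  have hN := cond_pos (d : ℤ) d.2.2.ne_zero
  refine (norm_inv_LFunction_le (chi8 (d : ℤ)) hG (chi8_ne_one d) s hs).trans ?_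
  rw [level_natCast_real]
  have him := abs_nonneg s.im
  have h1 : (6 * (8 * |((d : ℤ) : ℝ)|) * (|s.im| + 7 / 2)) ^ 14 ≤
      (21 * (8 * |((d : ℤ) : ℝ)|) * (1 + |s.im|)) ^ 14 := by
    apply pow_le_pow_left₀ (by positivity)
    nlinarith
  calc 3 * (6 * (8 * |((d : ℤ) : ℝ)|) * (|s.im| + 7 / 2)) ^ 14
      ≤ 3 * (21 * (8 * |((d : ℤ) : ℝ)|) * (1 + |s.im|)) ^ 14 := by linarith
    _ = _ := by rw [mul_pow, mul_pow]; ring

lemma L8_ne_zero (hG : GRH) (d : Fam) (s : ℂ) (hs : 1 / 2 < s.re) : L8 d s ≠ 0 :=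
  LFunction_ne_zero_of_GRH (chi8 (d : ℤ)) hG (chi8_ne_one d) s hs

/-- The exponent shift used throughout. -/
noncomputable def h16 : ℝ := 1 / 16

lemma h16_pos : 0 < h16 := by unfold h16; norm_num

/-- Contour shift for the ratio of `L`-functions. -/
theorem integral_L_ratio (hG : GRH) (a : ℝ) (ha : 0 < a) (lam : ℂ) (d : Fam) :
    HasSum (fun n : ℕ => (mPF (jp h16) n : ℂ) * chi8 (d : ℤ) (n : ZMod (8 * (d : ℤ).natAbs)) *
        (2 * Real.pi * Id a lam d n))
      (rn d * ∫ t : ℝ, mellin (ker a lam) (zt t) * (L8 d (zt t) / L8 d (1 + h16 - zt t))) := by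
  have hd0 : (d : ℤ) ≠ 0 := d.2.2.ne_zero
  have hN := cond_pos _ hd0
  set F : ℂ → ℂ := fun z => mellin (ker a lam) z * (L8 d z / L8 d (1 + h16 - z)) with hF
  have hshre : ∀ z : ℂ, (1 + (h16 : ℂ) - z).re = 17 / 16 - z.re := by
    intro z; simp [h16]; ring
  have hshim : ∀ z : ℂ, |(1 + (h16 : ℂ) - z).im| = |z.im| := by
    intro z; simp
  obtain ⟨C, hC, hdec⟩ := mellin_ker_decay a ha lam (-(1 / 4)) (3 / 8) (by norm_num) (by norm_num)
  have hLd : Differentiable ℂ (L8 d) := DirichletCharacter.differentiable_LFunction (chi8_ne_one d)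
  have hFd : ∀ z : ℂ, -(1 / 4) ≤ z.re → z.re ≤ 3 / 8 → DifferentiableAt ℂ F z := by
    intro z h1 h2
    refine (differentiableAt_mellin_ker a (by simpa using ha) lam z (by linarith)).mul ?_
    refine (hLd z).div ?_ ?_
    · exact DifferentiableAt.comp z (hLd _) ((differentiableAt_const _).sub differentiableAt_id)
    · exact L8_ne_zero hG d _ (by rw [hshre]; linarith)
  set N := 8 * |((d : ℤ) : ℝ)| with hNdef
  set C1 : ℝ := (1000 * N ^ 2) * (3 * 21 ^ 14 * N ^ 14) with hC1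
  have hC1p : 0 ≤ C1 := by positivity
  set C2 : ℝ := ((Nat.factorial 17 : ℕ) : ℝ) * (2 / 1) ^ 17 * Real.exp (1 / 2) with hC2
  have hFb : ∀ z : ℂ, -(1 / 4) ≤ z.re → z.re ≤ 3 / 8 →
      ‖F z‖ ≤ (C * C1 * C2) * Real.exp (-((1 / 2) * |z.im|)) := by
    intro z h1 h2
    have b1 : ‖mellin (ker a lam) z‖ ≤ C * Real.exp (-|z.im|) := by
      have := hdec z.re h1 h2 z.im
      rwa [Complex.re_add_im] at this
    have b2 := norm_L8_left d z h1 h2
    have b3 := norm_inv_L8_le hG d (1 + h16 - z) (by rw [hshre]; linarith)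
    rw [hshim] at b3
    have b4 := pow_mul_exp_le 17 1 one_pos |z.im| (abs_nonneg _)
    simp only [one_mul] at b4
    simp only [hF]
    rw [norm_mul, norm_div, div_eq_mul_inv, ← norm_inv]
    calc ‖mellin (ker a lam) z‖ * (‖L8 d z‖ * ‖(L8 d (1 + h16 - z))⁻¹‖)
        ≤ (C * Real.exp (-|z.im|)) * ((1000 * N ^ 2 * (1 + |z.im|) ^ 3) *
          (3 * 21 ^ 14 * N ^ 14 * (1 + |z.im|) ^ 14)) := by gcongr
      _ = (C * C1) * ((1 + |z.im|) ^ 17 * Real.exp (-|z.im|)) := by rw [hC1]; ring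
      _ ≤ (C * C1) * (C2 * Real.exp (-(1 / 2 * |z.im|))) := by
          refine mul_le_mul_of_nonneg_left ?_ (by positivity)
          exact b4
      _ = _ := by ring
  have hshift := integral_vertical_shift F (-(1 / 4)) (3 / 8) (by norm_num) (C * C1 * C2) (1 / 2)
    (by norm_num) hFd hFb
  have hcoef : ∀ n : ℕ, ‖(mPF (jp h16) n : ℂ) *
      chi8 (d : ℤ) (n : ZMod (8 * (d : ℤ).natAbs))‖ ≤ 1 := by
    intro n
    rw [norm_mul, Complex.norm_real, Real.norm_eq_abs]
    exact mul_le_one₀ (abs_mPF_le_one _ (abs_jp_le h16 h16_pos) n) (norm_nonneg _)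
      (norm_chi8_le _ _)
  have hsum : Summable fun n : ℕ => ‖(mPF (jp h16) n : ℂ) *
      chi8 (d : ℤ) (n : ZMod (8 * (d : ℤ).natAbs))‖ * (n : ℝ) ^ ((-(1 / 4) : ℝ) - 1) := by
    have h1 : Summable fun n : ℕ => (n : ℝ) ^ ((-(1 / 4) : ℝ) - 1) :=
      Real.summable_nat_rpow.mpr (by norm_num)
    refine h1.of_nonneg_of_le (fun n => by positivity) fun n => ?_
    exact mul_le_of_le_one_left (by positivity) (hcoef n)
  have hs := hasSum_integral_mellin_Xd a ha lam d hd0 (-(1 / 4)) (by norm_num) (by norm_num)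
    (fun n => n) (fun n => (mPF (jp h16) n : ℂ) *
      chi8 (d : ℤ) (n : ZMod (8 * (d : ℤ).natAbs))) (by
        intro n hn
        rw [hn, chi8_apply_even (d : ℤ) 0 (by simp), mul_zero]) hsum
  have hint : (∫ t : ℝ, mellin (ker a lam) (zt t) * (L8 d (zt t) / L8 d (1 + h16 - zt t))) =
      rn d * ∫ t : ℝ, mellin (ker a lam) (((-(1 / 4) : ℝ) : ℂ) + t * I) *
        (Xd d (((-(1 / 4) : ℝ) : ℂ) + t * I) *
        ∑' n : ℕ, (mPF (jp h16) n : ℂ) * chi8 (d : ℤ) (n : ZMod (8 * (d : ℤ).natAbs)) *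
          ((n : ℕ) : ℂ) ^ ((((-(1 / 4) : ℝ) : ℂ)) + t * I - 1)) := by
    have h1 : (∫ t : ℝ, mellin (ker a lam) (zt t) * (L8 d (zt t) / L8 d (1 + h16 - zt t))) =
        ∫ t : ℝ, F (((3 / 8 : ℝ) : ℂ) + t * I) := rfl
    rw [h1, hshift, ← integral_const_mul]
    refine integral_congr_ae ?_
    filter_upwards with t
    simp only [hF]
    set z : ℂ := ((-(1 / 4) : ℝ) : ℂ) + t * I with hz
    have hzre : z.re = -(1 / 4) := by simp [hz]
    have hratio := L_ratio (chi8 (d : ℤ)) h16 h16_pos (1 - z) (by simp [hzre])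
    have hfe := L8_functional d z (by rw [hzre]; norm_num)
    have e1 : L8 d z / L8 d (1 + h16 - z) = rn d * Xd (d : ℤ) z *
        (L8 d (1 - z) / L8 d (1 - z + h16)) := by
      rw [hfe, show (1 : ℂ) + h16 - z = 1 - z + h16 by ring]
      ring
    rw [e1]
    have e2 : L8 d (1 - z) / L8 d (1 - z + h16) = ∑' n : ℕ, (mPF (jp h16) n : ℂ) *
        chi8 (d : ℤ) (n : ZMod (8 * (d : ℤ).natAbs)) * ((n : ℕ) : ℂ) ^ (z - 1) := by
      unfold L8
      rw [hratio]
      refine tsum_congr fun n => ?_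
      rw [show -(1 - z) = z - 1 by ring]
      ring
    rw [e2]
    ring
  rw [hint, ← mul_assoc, ← pow_two, rn_sq, one_mul]
  exact hs

end Pool.Agent.Ratios
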