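import Pool.Agent.Ratios.Weight
import Pool.Agent.Ratios.LPart

/-! The formula of the conjecture near `α = - γ` controls the members with root number `-1`. -/

set_option autoImplicit false

open Complex MeasureTheory Set Filter Topology

namespace Pool.Agent.Ratios

lemma tendsto_bp_zero (p : ℕ) (hp : p.Prime) :
    Tendsto (fun h : ℝ => bp h p) (𝓝[>] 0) (𝓝 0) := by
  unfold bp
  split_ifs with h2
  · exact tendsto_const_nhds
  · have hp0 : (0:ℝ) < p := by exact_mod_cast hp.pos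
    have h1 : Tendsto (fun h : ℝ => (p : ℝ) ^ (-h)) (𝓝[>] 0) (𝓝 ((p : ℝ) ^ (-(0:ℝ)))) := by
      have hc : Continuous (fun h : ℝ => (p : ℝ) ^ (-h)) := by
        refine continuous_const.rpow continuous_neg fun x => Or.inl hp0.ne'
      exact (hc.tendsto 0).mono_left nhdsWithin_le_nhds
    rw [neg_zero, Real.rpow_zero] at h1
    have h3 := (h1.const_sub 1).const_mul ((p : ℝ) / (p + 1))
    simpa using h3

lemma tendsto_mPF_bp (k : ℕ) (hk : 2 ≤ k) :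
    Tendsto (fun h : ℝ => mPF (bp h) k) (𝓝[>] 0) (𝓝 0) := by
  unfold mPF
  have h1 : Tendsto (fun h : ℝ => ∏ p ∈ k.primeFactors, bp h p) (𝓝[>] 0)
      (𝓝 (∏ p ∈ k.primeFactors, (0:ℝ))) :=
    tendsto_finsetProd _ fun p hp => tendsto_bp_zero p (Nat.prime_of_mem_primeFactors hp)
  have hne : k.primeFactors.Nonempty := Nat.nonempty_primeFactors.mpr (by omega)
  obtain ⟨q, hq⟩ := hne
  rwa [Finset.prod_eq_zero hq rfl] at h1

/-- The second main term tends to `1`. -/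
lemma tendsto_Phi_two :
    Tendsto (fun h : ℝ => Phi (3 / 16 - h) (3 / 16)) (𝓝[>] 0) (𝓝 1) := by
  have hlt : ∀ᶠ h : ℝ in 𝓝[>] 0, h ∈ Ioo (0:ℝ) (1 / 16) := Ioo_mem_nhdsGT (by norm_num)
  set f : ℝ → ℕ → ℂ := fun h k => (mPF (bp h) k : ℂ) *
    (k : ℂ) ^ (-(2 - 2 * (((5 / 16 + h : ℝ)) : ℂ))) with hf
  have hre : ∀ h : ℝ, (-(2 - 2 * (((5 / 16 + h : ℝ)) : ℂ))).re = -(11 / 8) + 2 * h := by
    intro h
    have : (-(2 - 2 * (((5 / 16 + h : ℝ)) : ℂ))) = (((-(11 / 8) + 2 * h : ℝ)) : ℂ) := by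
      push_cast; ring
    rw [this, Complex.ofReal_re]
  have e : (fun h : ℝ => Phi (3 / 16 - h) (3 / 16)) =ᶠ[𝓝[>] 0] fun h => ∑' k, f h k := by
    filter_upwards [hlt] with h hh
    have h1 := Phi_two h hh.1 (((5 / 16 + h : ℝ)) : ℂ) (by
      rw [Complex.ofReal_re]; linarith [hh.2])
    rw [← h1]
    congr 1
    · push_cast; ring
    · push_cast; ring
  refine Tendsto.congr' e.symm ?_
  have hg : ∑' k : ℕ, (if k = 1 then (1 : ℂ) else 0) = 1 := tsum_ite_eq 1 _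
  rw [← hg]
  refine tendsto_tsum_of_dominated_convergence (bound := fun k : ℕ => (k : ℝ) ^ (-(5 / 4) : ℝ))
    (Real.summable_nat_rpow.mpr (by norm_num)) ?_ ?_
  · intro k
    rcases Nat.lt_or_ge k 2 with hk | hk
    · interval_cases k
      · simp only [hf]
        have : (fun h : ℝ => (mPF (bp h) 0 : ℂ) * ((0 : ℕ) : ℂ) ^
            (-(2 - 2 * (((5 / 16 + h : ℝ)) : ℂ)))) =ᶠ[𝓝[>] 0] fun _ => 0 := by
          filter_upwards [hlt] with h hh
          rw [Nat.cast_zero, zero_cpow, mul_zero]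
          intro h0
          have := hre h
          rw [h0] at this
          simp at this
          linarith [hh.2]
        refine Tendsto.congr' this.symm ?_
        simp
      · simp only [hf, mPF_one]
        simp
    · have hk1 : k ≠ 1 := by omega
      rw [if_neg hk1]
      simp only [hf]
      have h1 : Tendsto (fun h : ℝ => (mPF (bp h) k : ℂ)) (𝓝[>] 0) (𝓝 ((0 : ℝ) : ℂ)) :=
        (Complex.continuous_ofReal.tendsto 0).comp (tendsto_mPF_bp k hk)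
      have h2 : Tendsto (fun h : ℝ => (k : ℂ) ^ (-(2 - 2 * (((5 / 16 + h : ℝ)) : ℂ)))) (𝓝[>] 0)
          (𝓝 ((k : ℂ) ^ (-(2 - 2 * (((5 / 16 + 0 : ℝ)) : ℂ))))) := by
        have hc : Continuous (fun h : ℝ => (k : ℂ) ^ (-(2 - 2 * (((5 / 16 + h : ℝ)) : ℂ)))) := by
          refine Continuous.const_cpow (by fun_prop) (Or.inl ?_)
          have : k ≠ 0 := by omega
          exact_mod_cast this
        exact (hc.tendsto 0).mono_left nhdsWithin_le_nhds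
      have h3 := h1.mul h2
      rwa [Complex.ofReal_zero, zero_mul] at h3
  · filter_upwards [hlt] with h hh k
    simp only [hf]
    rcases Nat.eq_zero_or_pos k with rfl | hk
    · rw [Nat.cast_zero, zero_cpow, mul_zero, norm_zero]
      · positivity
      · intro h0
        have := hre h
        rw [h0] at this
        simp at this
        linarith [hh.2]
    · rw [norm_mul, Complex.norm_real, Real.norm_eq_abs, norm_natCast_cpow_of_pos hk, hre]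
      have h1 := abs_mPF_le_one (bp h) (abs_bp_le h hh.1) k
      have hk1 : (1:ℝ) ≤ k := by exact_mod_cast hk
      have h2 : (k : ℝ) ^ (-(11 / 8) + 2 * h) ≤ (k : ℝ) ^ (-(5 / 4) : ℝ) :=
        Real.rpow_le_rpow_of_exponent_le hk1 (by linarith [hh.2])
      calc |mPF (bp h) k| * (k : ℝ) ^ (-(11 / 8) + 2 * h) ≤ 1 * (k : ℝ) ^ (-(5 / 4) : ℝ) := by
            gcongr
        _ = _ := one_mul _

/-- The first main term tends to `0`. -/
lemma tendsto_Phi_one :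
    Tendsto (fun h : ℝ => Phi (((-(3 / 16) + h : ℝ)) : ℂ) (3 / 16)) (𝓝[>] 0) (𝓝 0) := by
  have hlt : ∀ᶠ h : ℝ in 𝓝[>] 0, h ∈ Ioo (0:ℝ) (1 / 16) := Ioo_mem_nhdsGT (by norm_num)
  set B := ∑' k : ℕ, 1 / (k : ℝ) ^ (3 / 2 : ℝ) with hB
  have hB0 : 0 ≤ B := tsum_nonneg fun k => by positivity
  have key : ∀ᶠ h : ℝ in 𝓝[>] 0, ‖Phi (((-(3 / 16) + h : ℝ)) : ℂ) (3 / 16)‖ ≤ (24 * B) * h := by
    filter_upwards [hlt] with h hh
    have hz : (((5 / 16 + h : ℝ)) : ℂ).re = 5 / 16 + h := Complex.ofReal_re _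
    have h1 := Phi_one h hh.1 (((5 / 16 + h : ℝ)) : ℂ) (by rw [hz]; linarith [hh.1])
    have e1 : (((5 / 16 + h : ℝ)) : ℂ) - 1 / 2 = (((-(3 / 16) + h : ℝ)) : ℂ) := by
      push_cast; ring
    have e2 : (1 / 2 : ℂ) + h - (((5 / 16 + h : ℝ)) : ℂ) = 3 / 16 := by push_cast; ring
    rw [e1, e2] at h1
    rw [h1, norm_mul, norm_mul]
    have e3 : (2 : ℂ) * (((5 / 16 + h : ℝ)) : ℂ) = (((5 / 8 + 2 * h : ℝ)) : ℂ) := by
      push_cast; ring
    have h2re : ((2 : ℂ) * (((5 / 16 + h : ℝ)) : ℂ)).re = 5 / 8 + 2 * h := by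
      rw [e3, Complex.ofReal_re]
    have hZ : ‖Zf (2 * (((5 / 16 + h : ℝ)) : ℂ))‖ ≤ 3 := by
      refine (norm_Zf_le _ (by rw [h2re]; linarith [hh.1]) (by rw [h2re]; linarith [hh.2])).trans ?_
      rw [h2re]
      have hn : ‖(2 : ℂ) * (((5 / 16 + h : ℝ)) : ℂ)‖ = 5 / 8 + 2 * h := by
        rw [e3, Complex.norm_real, Real.norm_of_nonneg (by linarith [hh.1])]
      rw [hn]
      have a1 : 1 / (2 * (5 / 8 + 2 * h)) ≤ 4 / 5 := by
        rw [div_le_div_iff₀ (by linarith [hh.1]) (by norm_num)]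
        linarith [hh.1]
      have a2 : 1 / (2 * (1 - (5 / 8 + 2 * h))) ≤ 2 := by
        rw [div_le_iff₀ (by linarith [hh.2])]
        linarith [hh.2]
      have a3 : 0 ≤ 1 / (2 * (5 / 8 + 2 * h)) := by have := hh.1; positivity
      have a4 : 5 / 8 + 2 * h ≤ 1 := by linarith [hh.2]
      calc (5 / 8 + 2 * h) * (1 / (2 * (5 / 8 + 2 * h)) + 1 / (2 * (1 - (5 / 8 + 2 * h))))
          ≤ 1 * (4 / 5 + 2) := by
            have : 0 < 1 - (5 / 8 + 2 * h) := by linarith [hh.2]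
            gcongr
        _ ≤ 3 := by norm_num
    have hC := norm_Ch_le h hh.1
    have hS := norm_S1_le h hh.1 (2 * (((5 / 16 + h : ℝ)) : ℂ)) (by rw [h2re]; linarith [hh.1])
    have hh0 := hh.1
    calc _ ≤ 3 * ((8 * h) * B) := by gcongr
      _ = _ := by ring
  have hlim : Tendsto (fun h : ℝ => (24 * B) * h) (𝓝[>] 0) (𝓝 0) := by
    have hc : Continuous (fun h : ℝ => (24 * B) * h) := by fun_prop
    have := (hc.tendsto 0).mono_left (nhdsWithin_le_nhds (s := Ioi 0))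
    simpa using this
  exact squeeze_zero_norm' key hlim

/-- The archimedean factor at `5/16` is positive. -/
lemma Xd_five_sixteenths : ∃ κ : ℝ, 0 < κ ∧ ∀ d : ℤ, d ≠ 0 → ∃ x : ℝ,
    κ * |(d : ℝ)| ^ (3 / 16 : ℝ) ≤ x ∧ Xd d (5 / 16) = (x : ℂ) := by
  set κ₀ : ℝ := Real.Gamma (11 / 32) / Real.Gamma (5 / 32) with hκ₀
  set κ₁ : ℝ := Real.Gamma (27 / 32) / Real.Gamma (21 / 32) with hκ₁
  have p0 : 0 < κ₀ := div_pos (Real.Gamma_pos_of_pos (by norm_num))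
    (Real.Gamma_pos_of_pos (by norm_num))
  have p1 : 0 < κ₁ := div_pos (Real.Gamma_pos_of_pos (by norm_num))
    (Real.Gamma_pos_of_pos (by norm_num))
  refine ⟨min κ₀ κ₁, lt_min p0 p1, fun d hd => ?_⟩
  have hd' : (0:ℝ) < |(d : ℝ)| := abs_pos.mpr (by exact_mod_cast hd)
  have hpi := Real.pi_pos
  have hbase : |(d : ℝ)| ≤ 8 * |(d : ℝ)| / Real.pi := by
    rw [le_div_iff₀ hpi]
    have := Real.pi_lt_d2
    nlinarith
  have hpow : |(d : ℝ)| ^ (3 / 16 : ℝ) ≤ (8 * |(d : ℝ)| / Real.pi) ^ (3 / 16 : ℝ) :=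
    Real.rpow_le_rpow hd'.le hbase (by norm_num)
  have hexp : (((8 * |(d : ℝ)| / Real.pi : ℝ)) : ℂ) ^ ((1 : ℂ) / 2 - 5 / 16) =
      (((8 * |(d : ℝ)| / Real.pi) ^ (3 / 16 : ℝ) : ℝ) : ℂ) := by
    rw [Complex.ofReal_cpow (by positivity)]
    congr 1
    push_cast; norm_num
  have hppos : 0 ≤ |(d : ℝ)| ^ (3 / 16 : ℝ) := by positivity
  by_cases h0 : 0 < d
  · refine ⟨(8 * |(d : ℝ)| / Real.pi) ^ (3 / 16 : ℝ) * κ₀, ?_, ?_⟩
    · calc min κ₀ κ₁ * |(d : ℝ)| ^ (3 / 16 : ℝ) ≤ κ₀ * (8 * |(d : ℝ)| / Real.pi) ^ (3 / 16 : ℝ) := by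
            gcongr
            exact min_le_left _ _
        _ = _ := by ring
    · rw [Xd, aa, if_pos h0, hexp]
      have g1 : Gamma ((1 + 0 - 5 / 16) / 2) = ((Real.Gamma (11 / 32) : ℝ) : ℂ) := by
        rw [← Complex.Gamma_ofReal]; congr 1; push_cast; norm_num
      have g2 : Gamma ((0 + 5 / 16) / 2) = ((Real.Gamma (5 / 32) : ℝ) : ℂ) := by
        rw [← Complex.Gamma_ofReal]; congr 1; push_cast; norm_num
      rw [g1, g2, hκ₀]
      push_cast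
      rw [div_eq_mul_inv]
      ring
  · refine ⟨(8 * |(d : ℝ)| / Real.pi) ^ (3 / 16 : ℝ) * κ₁, ?_, ?_⟩
    · calc min κ₀ κ₁ * |(d : ℝ)| ^ (3 / 16 : ℝ) ≤ κ₁ * (8 * |(d : ℝ)| / Real.pi) ^ (3 / 16 : ℝ) := by
            gcongr
            exact min_le_right _ _
        _ = _ := by ring
    · rw [Xd, aa, if_neg h0, hexp]
      have g1 : Gamma ((1 + 1 - 5 / 16) / 2) = ((Real.Gamma (27 / 32) : ℝ) : ℂ) := by
        rw [← Complex.Gamma_ofReal]; congr 1; push_cast; norm_num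
      have g2 : Gamma ((1 + 5 / 16) / 2) = ((Real.Gamma (21 / 32) : ℝ) : ℂ) := by
        rw [← Complex.Gamma_ofReal]; congr 1; push_cast; norm_num
      rw [g1, g2, hκ₁]
      push_cast
      rw [div_eq_mul_inv]
      ring

/-- The conjectured bound at `α = -3/16`, `γ = 3/16` in the limit. -/
lemma norm_sum_root_le (hG : GRH) (X : ℕ) (hX : 0 < X) (hW : Wstar wS X ≠ 0) (B : ℝ)
    (hb : ∀ᶠ h : ℝ in 𝓝[>] 0,
      ‖ratiosDiff wS X (((-(3 / 16) + h : ℝ)) : ℂ) (3 / 16)‖ ≤ B) :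
    ‖∑ d ∈ FS X, (wd X d : ℂ) * ((rn d - 1) * Xd d (5 / 16))‖ ≤ Wstar wS X * B := by
  set G : ℝ → ℂ := fun h => ((Wstar wS X : ℝ) : ℂ) *
    ratiosDiff wS X (((-(3 / 16) + h : ℝ)) : ℂ) (3 / 16) with hGdef
  have hGb : ∀ᶠ h : ℝ in 𝓝[>] 0, ‖G h‖ ≤ Wstar wS X * B := by
    filter_upwards [hb] with h hh
    simp only [hGdef]
    rw [norm_mul, Complex.norm_real, Real.norm_of_nonneg (Wstar_nonneg X hX)]
    exact mul_le_mul_of_nonneg_left hh (Wstar_nonneg X hX)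
  have hGlim : Tendsto G (𝓝[>] 0)
      (𝓝 (∑ d ∈ FS X, (wd X d : ℂ) * ((rn d - 1) * Xd d (5 / 16)))) := by
    have e : G = fun h : ℝ => ∑ d ∈ FS X, (wd X d : ℂ) *
        (L8 d (1 / 2 + (((-(3 / 16) + h : ℝ)) : ℂ)) / L8 d (1 / 2 + 3 / 16)) -
      ((Wstar wS X : ℝ) : ℂ) * Phi (((-(3 / 16) + h : ℝ)) : ℂ) (3 / 16) -
      (∑ d ∈ FS X, (wd X d : ℂ) * Xd d (1 / 2 + (((-(3 / 16) + h : ℝ)) : ℂ))) *
        Phi (3 / 16 - h) (3 / 16) := by
      funext h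
      simp only [hGdef]
      rw [mul_ratiosDiff X hX hW]
      congr 3
      push_cast; ring
    rw [e]
    have hα : Tendsto (fun h : ℝ => 1 / 2 + (((-(3 / 16) + h : ℝ)) : ℂ)) (𝓝[>] 0)
        (𝓝 (5 / 16 : ℂ)) := by
      have hc : Continuous (fun h : ℝ => 1 / 2 + (((-(3 / 16) + h : ℝ)) : ℂ)) := by fun_prop
      have h1 := (hc.tendsto 0).mono_left (nhdsWithin_le_nhds (s := Ioi 0))
      have e2 : (1 / 2 : ℂ) + (((-(3 / 16) + 0 : ℝ)) : ℂ) = 5 / 16 := by push_cast; norm_num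
      rwa [e2] at h1
    have h516 : ((5 : ℂ) / 16).re = 5 / 16 := by
      have : (5 : ℂ) / 16 = ((5 / 16 : ℝ) : ℂ) := by push_cast; rfl
      rw [this, Complex.ofReal_re]
    have t1 : ∀ d : Fam, Tendsto (fun h : ℝ => L8 d (1 / 2 + (((-(3 / 16) + h : ℝ)) : ℂ)))
        (𝓝[>] 0) (𝓝 (L8 d (5 / 16))) := fun d => by
      have hLd : Differentiable ℂ (L8 d) :=
        DirichletCharacter.differentiable_LFunction (chi8_ne_one d)
      exact (hLd.continuous.tendsto _).comp hα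
    have t3 : ∀ d : Fam, Tendsto (fun h : ℝ => Xd d (1 / 2 + (((-(3 / 16) + h : ℝ)) : ℂ)))
        (𝓝[>] 0) (𝓝 (Xd d (5 / 16))) := fun d => by
      have hd0 : (d : ℤ) ≠ 0 := d.2.2.ne_zero
      have hc := (differentiableAt_Xd d hd0 (5 / 16) (by rw [h516]; norm_num)).continuousAt
      exact hc.tendsto.comp hα
    have lim1 : Tendsto (fun h : ℝ => ∑ d ∈ FS X, (wd X d : ℂ) *
        (L8 d (1 / 2 + (((-(3 / 16) + h : ℝ)) : ℂ)) / L8 d (1 / 2 + 3 / 16))) (𝓝[>] 0)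
        (𝓝 (∑ d ∈ FS X, (wd X d : ℂ) * (L8 d (5 / 16) / L8 d (1 / 2 + 3 / 16)))) :=
      tendsto_finsetSum _ fun d _ => ((t1 d).div_const _).const_mul _
    have lim3 : Tendsto (fun h : ℝ => ∑ d ∈ FS X, (wd X d : ℂ) *
        Xd d (1 / 2 + (((-(3 / 16) + h : ℝ)) : ℂ))) (𝓝[>] 0)
        (𝓝 (∑ d ∈ FS X, (wd X d : ℂ) * Xd d (5 / 16))) :=
      tendsto_finsetSum _ fun d _ => (t3 d).const_mul _
    have lim := (lim1.sub (tendsto_Phi_one.const_mul ((Wstar wS X : ℝ) : ℂ))).sub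
      (lim3.mul tendsto_Phi_two)
    have et : ∑ d ∈ FS X, (wd X d : ℂ) * (L8 d (5 / 16) / L8 d (1 / 2 + 3 / 16)) -
        ((Wstar wS X : ℝ) : ℂ) * 0 - (∑ d ∈ FS X, (wd X d : ℂ) * Xd d (5 / 16)) * 1 =
        ∑ d ∈ FS X, (wd X d : ℂ) * ((rn d - 1) * Xd d (5 / 16)) := by
      rw [mul_zero, sub_zero, mul_one, ← Finset.sum_sub_distrib]
      refine Finset.sum_congr rfl fun d _ => ?_
      have hfe := L8_functional d (5 / 16) (by rw [h516]; norm_num)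
      have e1 : (1 : ℂ) - 5 / 16 = 1 / 2 + 3 / 16 := by norm_num
      rw [e1] at hfe
      have hne : L8 d (1 / 2 + 3 / 16) ≠ 0 := by
        apply L8_ne_zero hG d
        have : (1 : ℂ) / 2 + 3 / 16 = ((11 / 16 : ℝ) : ℂ) := by push_cast; norm_num
        rw [this, Complex.ofReal_re]; norm_num
      rw [hfe, mul_div_assoc, div_self hne, mul_one]
      ring
    rw [et] at lim
    exact lim
  exact le_of_tendsto hGlim.norm hGb

/-- Members with root number `-1` are rare. -/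
theorem root_number_bound (hG : GRH) (ε c₁ c₂ : ℝ) (hc₂ : 0 < c₂)
    (hR : RatiosBound wS ε c₁ c₂) : ∃ C : ℝ, 0 ≤ C ∧ ∃ X₁ : ℕ, ∀ X : ℕ, X₁ ≤ X →
      Wstar wS X ≠ 0 →
      ∑ d ∈ FS X, (if rn d = -1 then wd X d else 0) ≤ C * (X : ℝ) ^ (5 / 16 + ε) := by
  obtain ⟨C, X₀, hC⟩ := hR
  obtain ⟨κ, hκ, hXd⟩ := Xd_five_sixteenths
  -- the threshold
  have hlog : ∀ᶠ X : ℕ in atTop, c₁ / Real.log X ≤ 3 / 16 ∧ X₀ ≤ (X : ℝ) ∧ 2 ≤ X := by
    have h1 : Tendsto (fun X : ℕ => c₁ / Real.log (X : ℝ)) atTop (𝓝 0) :=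
      (Real.tendsto_log_atTop.comp tendsto_natCast_atTop_atTop).const_div_atTop c₁
    have h2 := h1.eventually (ge_mem_nhds (show (0:ℝ) < 3 / 16 by norm_num))
    have h3 := tendsto_natCast_atTop_atTop.eventually (eventually_ge_atTop X₀)
    filter_upwards [h2, h3, eventually_ge_atTop 2] with X a b c
    exact ⟨a, b, c⟩
  obtain ⟨X₁, hX₁⟩ := eventually_atTop.mp hlog
  refine ⟨10 * |C| / κ, by positivity, X₁, fun X hX hW => ?_⟩
  obtain ⟨hl, hX0, hX2⟩ := hX₁ X hX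
  have hXpos : 0 < X := by omega
  have hXr : (0:ℝ) < X := by exact_mod_cast hXpos
  have hb : ∀ᶠ h : ℝ in 𝓝[>] 0, ‖ratiosDiff wS X (((-(3 / 16) + h : ℝ)) : ℂ) (3 / 16)‖ ≤
      C * (X : ℝ) ^ (-(1 / 2) + ε) := by
    have hlt : ∀ᶠ h : ℝ in 𝓝[>] 0, h ∈ Ioo (0:ℝ) (1 / 16) := Ioo_mem_nhdsGT (by norm_num)
    filter_upwards [hlt] with h hh
    have g1 : ((3 : ℂ) / 16) = ((3 / 16 : ℝ) : ℂ) := by push_cast; rfl
    have gre : ((3 : ℂ) / 16).re = 3 / 16 := by rw [g1, Complex.ofReal_re]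
    have gim : ((3 : ℂ) / 16).im = 0 := by rw [g1, Complex.ofReal_im]
    have hXe : 0 ≤ c₂ * (X : ℝ) ^ (1 - ε) := by positivity
    refine hC X hX0 (((-(3 / 16) + h : ℝ)) : ℂ) (3 / 16) ?_ ?_ ?_ ?_ ?_ ?_ ?_ ?_ ?_
    · rw [Complex.ofReal_re]; linarith [hh.1]
    · rw [Complex.ofReal_re]; linarith [hh.2]
    · rw [gre]; exact hl
    · rw [gre]; norm_num
    · rw [Complex.ofReal_im, abs_zero]; exact hXe
    · rw [gim, abs_zero]; exact hXe
    · intro h0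
      have := congrArg Complex.re h0
      rw [Complex.ofReal_re, Complex.zero_re] at this
      linarith [hh.2]
    · intro h0
      have := congrArg Complex.re h0
      rw [Complex.ofReal_re, gre] at this
      linarith [hh.2]
    · intro h0
      have := congrArg Complex.re h0
      rw [Complex.ofReal_re, Complex.neg_re, gre] at this
      linarith [hh.1]
  have hmain := norm_sum_root_le hG X hXpos hW _ hb
  -- rewrite the sum
  choose x hx1 hx2 using hXd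
  set xx : Fam → ℝ := fun d => x d d.2.2.ne_zero with hxx
  have hxx1 : ∀ d : Fam, κ * |((d : ℤ) : ℝ)| ^ (3 / 16 : ℝ) ≤ xx d := fun d => hx1 d d.2.2.ne_zero
  have hxx2 : ∀ d : Fam, Xd (d : ℤ) (5 / 16) = (xx d : ℂ) := fun d => hx2 d d.2.2.ne_zero
  have e1 : ∑ d ∈ FS X, (wd X d : ℂ) * ((rn d - 1) * Xd d (5 / 16)) =
      ((-(2 * ∑ d ∈ FS X, (if rn d = -1 then wd X d * xx d else 0)) : ℝ) : ℂ) := by
    push_cast
    rw [Finset.mul_sum, ← Finset.sum_neg_distrib]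
    refine Finset.sum_congr rfl fun d _ => ?_
    rw [hxx2 d]
    rcases rn_eq d with h | h
    · rw [h, if_neg (by norm_num)]; simp
    · rw [h, if_pos rfl]; push_cast; ring
  have hxnn : ∀ d : Fam, 0 ≤ xx d := fun d => le_trans (by positivity) (hxx1 d)
  have hnn : 0 ≤ ∑ d ∈ FS X, (if rn d = -1 then wd X d * xx d else 0) := by
    refine Finset.sum_nonneg fun d _ => ?_
    split_ifs
    · exact mul_nonneg (wd_nonneg X d) (hxnn d)
    · exact le_rfl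
  rw [e1, Complex.norm_real, norm_neg, Real.norm_of_nonneg (by linarith)] at hmain
  have hterm : ∀ d ∈ FS X, (κ / 2 * (X : ℝ) ^ (3 / 16 : ℝ)) * (if rn d = -1 then wd X d else 0) ≤
      (if rn d = -1 then wd X d * xx d else 0) := by
    intro d _
    split_ifs with h
    · by_cases hw : wd X d = 0
      · rw [hw]; simp
      · have hsup := (wd_support X hXpos d hw).1
        have h1 : (1 / 2 : ℝ) * (X : ℝ) ^ (3 / 16 : ℝ) ≤ |((d : ℤ) : ℝ)| ^ (3 / 16 : ℝ) := by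
          have h2 : (9 / 10 * (X : ℝ)) ^ (3 / 16 : ℝ) ≤ |((d : ℤ) : ℝ)| ^ (3 / 16 : ℝ) :=
            Real.rpow_le_rpow (by positivity) hsup.le (by norm_num)
          rw [Real.mul_rpow (by norm_num) hXr.le] at h2
          have h3 : (1 / 2 : ℝ) ≤ (9 / 10 : ℝ) ^ (3 / 16 : ℝ) := by
            calc (1 / 2 : ℝ) ≤ (9 / 10 : ℝ) ^ (1 : ℝ) := by norm_num
              _ ≤ (9 / 10 : ℝ) ^ (3 / 16 : ℝ) :=
                Real.rpow_le_rpow_of_exponent_ge (by norm_num) (by norm_num) (by norm_num)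
          have h4 : 0 ≤ (X : ℝ) ^ (3 / 16 : ℝ) := by positivity
          nlinarith
        have h5 := hxx1 d
        have hw0 := wd_nonneg X d
        calc κ / 2 * (X : ℝ) ^ (3 / 16 : ℝ) * wd X d
            = wd X d * (κ * (1 / 2 * (X : ℝ) ^ (3 / 16 : ℝ))) := by ring
          _ ≤ wd X d * (κ * |((d : ℤ) : ℝ)| ^ (3 / 16 : ℝ)) := by gcongr
          _ ≤ wd X d * xx d := by gcongr
    · simp
  have hsum := Finset.sum_le_sum hterm
  rw [← Finset.mul_sum] at hsum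
  set S := ∑ d ∈ FS X, (if rn d = -1 then wd X d else 0) with hS
  have hWle := Wstar_le X hXpos
  have hWnn := Wstar_nonneg X hXpos
  have hpw : 0 < (X : ℝ) ^ (-(1 / 2) + ε) := by positivity
  have h6 : κ * (X : ℝ) ^ (3 / 16 : ℝ) * S ≤ 5 * X * (|C| * (X : ℝ) ^ (-(1 / 2) + ε)) := by
    calc κ * (X : ℝ) ^ (3 / 16 : ℝ) * S = 2 * (κ / 2 * (X : ℝ) ^ (3 / 16 : ℝ) * S) := by ring
      _ ≤ 2 * ∑ d ∈ FS X, (if rn d = -1 then wd X d * xx d else 0) := by gcongr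
      _ ≤ Wstar wS X * (C * (X : ℝ) ^ (-(1 / 2) + ε)) := hmain
      _ ≤ Wstar wS X * (|C| * (X : ℝ) ^ (-(1 / 2) + ε)) := by
          gcongr
          exact le_abs_self C
      _ ≤ _ := by gcongr
  have h7 : (X : ℝ) * (X : ℝ) ^ (-(1 / 2) + ε) = (X : ℝ) ^ (3 / 16 : ℝ) * (X : ℝ) ^ (5 / 16 + ε) := by
    have h71 : (X : ℝ) * (X : ℝ) ^ (-(1 / 2) + ε) = (X : ℝ) ^ (1 + (-(1 / 2) + ε)) := by
      rw [Real.rpow_add hXr 1, Real.rpow_one]
    rw [h71, ← Real.rpow_add hXr]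
    congr 1; ring
  have h8 : 0 < (X : ℝ) ^ (3 / 16 : ℝ) := by positivity
  have h9 : (X : ℝ) ^ (3 / 16 : ℝ) * (κ * S) ≤
      (X : ℝ) ^ (3 / 16 : ℝ) * (5 * |C| * (X : ℝ) ^ (5 / 16 + ε)) := by
    calc _ = κ * (X : ℝ) ^ (3 / 16 : ℝ) * S := by ring
      _ ≤ _ := h6
      _ = 5 * |C| * ((X : ℝ) * (X : ℝ) ^ (-(1 / 2) + ε)) := by ring
      _ = _ := by rw [h7]; ring
  have h10 := le_of_mul_le_mul_left h9 h8
  rw [div_mul_eq_mul_div, le_div_iff₀ hκ]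
  have h11 : 0 ≤ |C| * (X : ℝ) ^ (5 / 16 + ε) := by positivity
  nlinarith

end Pool.Agent.Ratios
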