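import Pool.Agent.Ratios.Params

/-! Upper bound for the integral of the difference, from the conjectured bound. -/

set_option autoImplicit false

open Complex MeasureTheory Set Filter Topology

namespace Pool.Agent.Ratios

lemma integral_exp_neg_mul_abs (δ : ℝ) (hδ : 0 < δ) :
    ∫ t : ℝ, Real.exp (-(δ * |t|)) = 2 / δ := by
  rw [integral_comp_abs (f := fun x => Real.exp (-(δ * x)))]
  have h := integral_exp_mul_Ioi (a := -δ) (by linarith) 0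
  have e : ∀ x : ℝ, Real.exp (-(δ * x)) = Real.exp (-δ * x) := fun x => by ring_nf
  simp_rw [e]
  rw [h]
  simp
  field_simp

/-- The conjectured bound on the central segment. -/
lemma norm_Gf_central (ε c₁ c₂ : ℝ) (hε : ε ≤ 1 / 40) (hc₂ : 0 < c₂)
    (hR : RatiosBound wS ε c₁ c₂) : ∃ C : ℝ, 0 ≤ C ∧ ∃ p₀ : ℕ, 2 ≤ p₀ ∧ ∀ p : ℕ, p₀ ≤ p →
      ∀ t : ℝ, |t| ≤ (p : ℝ) ^ 19 → ‖Gf (Xp p) t‖ ≤ C * (p : ℝ) ^ 11 := by
  obtain ⟨C, X₀, hC⟩ := hR
  have hev : ∀ᶠ p : ℕ in atTop, 2 ≤ p ∧ X₀ ≤ (p : ℝ) ∧ c₁ / Real.log ((p : ℝ) ^ 20) ≤ 3 / 16 ∧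
      1 / c₂ ≤ (p : ℝ) ^ (1 / 2 : ℝ) := by
    have hnat : Tendsto (fun p : ℕ => (p : ℝ)) atTop atTop := tendsto_natCast_atTop_atTop
    have h1 : Tendsto (fun p : ℕ => c₁ / Real.log ((p : ℝ) ^ 20)) atTop (𝓝 0) :=
      (Real.tendsto_log_atTop.comp ((tendsto_pow_atTop (by norm_num)).comp
        hnat)).const_div_atTop c₁
    have h2 := h1.eventually (ge_mem_nhds (show (0:ℝ) < 3 / 16 by norm_num))
    have h3 : Tendsto (fun p : ℕ => (p : ℝ) ^ (1 / 2 : ℝ)) atTop atTop :=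
      (tendsto_rpow_atTop (by norm_num)).comp hnat
    filter_upwards [eventually_ge_atTop 2, hnat.eventually (eventually_ge_atTop X₀), h2,
      h3.eventually (eventually_ge_atTop (1 / c₂))] with p a b c d
    exact ⟨a, b, c, d⟩
  obtain ⟨p₀, hp₀⟩ := eventually_atTop.mp hev
  refine ⟨5 * |C|, by positivity, max p₀ 2, le_max_right _ _, fun p hp t ht => ?_⟩
  obtain ⟨hp2, hX0, hlog, hc2⟩ := hp₀ p ((le_max_left _ _).trans hp)
  have hpr := one_le_p p hp2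
  have hpp := p_pos p hp2
  have hXpos := Xp_pos p hp2
  have hXc : ((Xp p : ℕ) : ℝ) = (p : ℝ) ^ 20 := Xp_cast p
  have hX1 : (1:ℝ) ≤ (p : ℝ) ^ 20 := one_le_pow₀ (by linarith)
  have hX20 : X₀ ≤ (p : ℝ) ^ 20 := hX0.trans (le_self_pow₀ (by linarith) (by norm_num))
  have hpow : (p : ℝ) ^ 19 ≤ c₂ * ((p : ℝ) ^ 20) ^ (1 - ε) := by
    have h1 : ((p : ℝ) ^ 20) ^ (39 / 40 : ℝ) ≤ ((p : ℝ) ^ 20) ^ (1 - ε) :=
      Real.rpow_le_rpow_of_exponent_le hX1 (by linarith)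
    have h2 : ((p : ℝ) ^ 20) ^ (39 / 40 : ℝ) = (p : ℝ) ^ 19 * (p : ℝ) ^ (1 / 2 : ℝ) := by
      rw [← Real.rpow_natCast (p : ℝ) 20, ← Real.rpow_mul hpp.le, ← Real.rpow_natCast (p : ℝ) 19,
        ← Real.rpow_add hpp]
      norm_num
    have h3 : 1 ≤ c₂ * (p : ℝ) ^ (1 / 2 : ℝ) := by
      rw [div_le_iff₀ hc₂] at hc2
      linarith
    calc (p : ℝ) ^ 19 = (p : ℝ) ^ 19 * 1 := (mul_one _).symm
      _ ≤ (p : ℝ) ^ 19 * (c₂ * (p : ℝ) ^ (1 / 2 : ℝ)) := by gcongr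
      _ = c₂ * ((p : ℝ) ^ 20) ^ (39 / 40 : ℝ) := by rw [h2]; ring
      _ ≤ _ := by gcongr
  have are : (zt t - 1 / 2).re = -(1 / 8) := by
    have : (zt t - 1 / 2).re = (zt t).re - 1 / 2 := by simp
    rw [this, zt_re]; norm_num
  have aim : (zt t - 1 / 2).im = t := by simp [zt_im]
  have gre : (1 / 2 + (h16 : ℂ) - zt t).re = 3 / 16 := by
    have : (1 / 2 + (h16 : ℂ) - zt t).re = 1 / 2 + h16 - (zt t).re := by simp
    rw [this, zt_re, h16]; norm_num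
  have gim : (1 / 2 + (h16 : ℂ) - zt t).im = -t := by simp [zt_im]
  have hmain := hC ((p : ℝ) ^ 20) hX20 (zt t - 1 / 2) (1 / 2 + h16 - zt t)
    (by rw [are]; norm_num) (by rw [are]; norm_num) (by rw [gre]; exact hlog)
    (by rw [gre]; norm_num) (by rw [aim]; linarith) (by rw [gim, abs_neg]; linarith)
    (by intro h; have h2 := congrArg Complex.re h; rw [are] at h2; norm_num at h2)
    (by intro h; have h2 := congrArg Complex.re h; rw [are, gre] at h2; norm_num at h2)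
    (by intro h; have h2 := congrArg Complex.re h; rw [are, Complex.neg_re, gre] at h2
        norm_num at h2)
  rw [Gf, norm_mul, Complex.norm_real, Real.norm_of_nonneg (Wstar_nonneg _ hXpos), hXc]
  have hWle := Wstar_le _ hXpos
  rw [hXc] at hWle
  have hWnn := Wstar_nonneg _ hXpos
  rw [hXc] at hWnn
  have hpw : 0 < ((p : ℝ) ^ 20) ^ (-(1 / 2) + ε) := by positivity
  have e1 : (p : ℝ) ^ 20 * ((p : ℝ) ^ 20) ^ (-(1 / 2) + ε) ≤ (p : ℝ) ^ 11 := by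
    have h1 : ((p : ℝ) ^ 20) ^ (-(1 / 2) + ε) ≤ ((p : ℝ) ^ 20) ^ (-(9 / 20) : ℝ) :=
      Real.rpow_le_rpow_of_exponent_le hX1 (by linarith)
    have h2 : ((p : ℝ) ^ 20) ^ (-(9 / 20) : ℝ) = (p : ℝ) ^ (-9 : ℝ) := by
      rw [← Real.rpow_natCast (p : ℝ) 20, ← Real.rpow_mul hpp.le]
      norm_num
    calc (p : ℝ) ^ 20 * ((p : ℝ) ^ 20) ^ (-(1 / 2) + ε) ≤ (p : ℝ) ^ 20 * (p : ℝ) ^ (-9 : ℝ) := by
          rw [← h2]; gcongr
      _ = (p : ℝ) ^ 11 := by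
          rw [← Real.rpow_natCast (p : ℝ) 20, ← Real.rpow_add hpp, ← Real.rpow_natCast (p : ℝ) 11]
          norm_num
  calc Wstar wS ((p : ℝ) ^ 20) * ‖ratiosDiff wS ((p : ℝ) ^ 20) (zt t - 1 / 2)
        (1 / 2 + h16 - zt t)‖
      ≤ (5 * (p : ℝ) ^ 20) * (|C| * ((p : ℝ) ^ 20) ^ (-(1 / 2) + ε)) := by
        gcongr
        refine hmain.trans ?_
        gcongr
        exact le_abs_self C
    _ = 5 * |C| * ((p : ℝ) ^ 20 * ((p : ℝ) ^ 20) ^ (-(1 / 2) + ε)) := by ring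
    _ ≤ _ := by gcongr

/-- The tail of the integral. -/
lemma tail_bound (hG : GRH) : ∃ C : ℝ, 0 ≤ C ∧ ∀ p : ℕ, 300 ≤ p → Wstar wS (Xp p) ≠ 0 →
    ∀ t : ℝ, (p : ℝ) ^ 19 < |t| →
      ‖mellin (ker (ap p) (lp p)) (zt t) * Gf (Xp p) t‖ ≤
        C * (Kp p / zp p) * Real.exp (-(Kp p / zp p / 3 * |t|)) := by
  obtain ⟨C₀, hC₀, hG0⟩ := norm_Gf_le hG
  refine ⟨40 * C₀ * ((Nat.factorial 17 : ℕ) : ℝ) * 6 ^ 17 * 3 ^ 18 * 2, by positivity,
    fun p hp hW t ht => ?_⟩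
  have hp2 : 2 ≤ p := by omega
  have hpp := p_pos p hp2
  have hpr : (300:ℝ) ≤ p := by exact_mod_cast hp
  have hK := one_le_Kp p hp2
  have hRpos := Rp_pos p hp2
  have hz := zp_pos p hp2
  have h50 := zp_ge_50K p hp2
  have hzle := zp_le p hp2
  set κ := Kp p / zp p with hκ
  have hκpos : 0 < κ := by positivity
  have hκle : κ ≤ 1 / 50 := by
    rw [hκ, div_le_iff₀ hz]; linarith
  have h1 := norm_ft_le (Kp p) (Rp p) (zp p) hK hRpos (by linarith) t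
  have hmf : ‖mellin (ker (ap p) (lp p)) (zt t)‖ ≤
      40 * Rp p ^ (3 / 4 : ℝ) * Real.exp (3 * Kp p) * Real.exp (-(κ * |t|)) := h1
  have h2 := hG0 (Xp p) (Xp_pos p hp2) hW t
  have h3 := pow_mul_exp_le 17 (κ / 3) (by positivity) |t| (abs_nonneg t)
  have habs := abs_nonneg t
  rw [norm_mul]
  -- powers of p
  have hR34 : Rp p ^ (3 / 4 : ℝ) ≤ (p : ℝ) ^ 15 := by
    calc Rp p ^ (3 / 4 : ℝ) ≤ ((p : ℝ) ^ 19) ^ (3 / 4 : ℝ) :=
          Real.rpow_le_rpow hRpos.le (Rp_le p hp2) (by norm_num)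
      _ = (p : ℝ) ^ (57 / 4 : ℝ) := by
          rw [← Real.rpow_natCast (p : ℝ) 19, ← Real.rpow_mul hpp.le]; norm_num
      _ ≤ (p : ℝ) ^ (15 : ℝ) := Real.rpow_le_rpow_of_exponent_le (by linarith) (by norm_num)
      _ = (p : ℝ) ^ 15 := by exact_mod_cast Real.rpow_natCast (p : ℝ) 15
  have he3K : Real.exp (3 * Kp p) = (p : ℝ) ^ 90 := by
    have : Real.exp (3 * Kp p) = Real.exp (Kp p) ^ 3 := by
      rw [← Real.exp_nat_mul]; norm_num
    rw [this, exp_Kp p hp2]; ring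
  have hX17 : ((Xp p : ℕ) : ℝ) ^ 17 = (p : ℝ) ^ 340 := by rw [Xp_cast]; ring
  have hκinv : 1 / κ ≤ 3 * (p : ℝ) ^ 18 := by
    rw [hκ, one_div_div, div_le_iff₀ (by linarith)]
    have : 0 < (p : ℝ) ^ 18 := by positivity
    nlinarith
  have hexp6 : Real.exp (κ / 3 / 2) ≤ 2 := by
    have h5 : κ / 3 / 2 ≤ 1 / 2 := by linarith
    calc Real.exp (κ / 3 / 2) ≤ Real.exp (1 / 2) := Real.exp_le_exp.mpr h5
      _ ≤ 2 := by
        have h6 := Real.exp_one_lt_d9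
        have h7 : Real.exp (1 / 2) ^ 2 = Real.exp 1 := by rw [← Real.exp_nat_mul]; norm_num
        nlinarith [Real.exp_pos (1 / 2)]
  -- the middle exponential is tiny
  have hmid : Real.exp (-(κ / 3 * |t|)) ≤ 1 / (p : ℝ) ^ 800 := by
    have hlogp : 0 < Real.log p := Real.log_pos (by linarith)
    have h8 : 800 * Real.log p ≤ κ / 3 * |t| := by
      have h9 : κ / 3 * |t| ≥ κ / 3 * (p : ℝ) ^ 19 := by gcongr
      have h10 : Kp p / (3 * (p : ℝ) ^ 18) ≤ κ := by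
        rw [hκ]
        gcongr
      have h11 : Kp p / (3 * (p : ℝ) ^ 18) / 3 * (p : ℝ) ^ 19 = 10 / 3 * (p : ℝ) * Real.log p := by
        unfold Kp
        field_simp
        ring
      have h12 : κ / 3 * (p : ℝ) ^ 19 ≥ Kp p / (3 * (p : ℝ) ^ 18) / 3 * (p : ℝ) ^ 19 := by gcongr
      nlinarith
    rw [one_div, ← Real.exp_log (show (0:ℝ) < (p : ℝ) ^ 800 by positivity), ← Real.exp_neg,
      Real.log_pow]
    apply Real.exp_le_exp.mpr
    push_cast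
    linarith
  have hsplit : Real.exp (-(κ * |t|)) = Real.exp (-(κ / 3 * |t|)) * Real.exp (-(κ / 3 * |t|)) *
      Real.exp (-(κ / 3 * |t|)) := by
    rw [← Real.exp_add, ← Real.exp_add]; congr 1; ring
  set E := Real.exp (-(κ / 3 * |t|)) with hE
  have hEpos : 0 < E := Real.exp_pos _
  have h3' : (1 + |t|) ^ 17 * E ≤ ((Nat.factorial 17 : ℕ) : ℝ) * (6 * (3 * (p : ℝ) ^ 18)) ^ 17 * 2 := by
    refine h3.trans ?_
    have h5 : Real.exp (-(κ / 3 / 2 * |t|)) ≤ 1 := by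
      rw [Real.exp_le_one_iff]
      have : 0 ≤ κ / 3 / 2 * |t| := by positivity
      linarith
    have h6 : 2 / (κ / 3) ≤ 6 * (3 * (p : ℝ) ^ 18) := by
      have : 2 / (κ / 3) = 6 * (1 / κ) := by field_simp; norm_num
      rw [this]; gcongr
    calc ((Nat.factorial 17 : ℕ) : ℝ) * (2 / (κ / 3)) ^ 17 * Real.exp (κ / 3 / 2) *
          Real.exp (-(κ / 3 / 2 * |t|))
        ≤ ((Nat.factorial 17 : ℕ) : ℝ) * (6 * (3 * (p : ℝ) ^ 18)) ^ 17 * 2 * 1 := by gcongr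
      _ = _ := mul_one _
  have h1k : 1 ≤ (3 * (p : ℝ) ^ 18) * κ := by
    rw [div_le_iff₀ hκpos] at hκinv
    linarith
  calc ‖mellin (ker (ap p) (lp p)) (zt t)‖ * ‖Gf (Xp p) t‖
      ≤ (40 * (p : ℝ) ^ 15 * (p : ℝ) ^ 90 * (E * E * E)) *
        (C₀ * (p : ℝ) ^ 340 * (1 + |t|) ^ 17) := by
        rw [he3K, hsplit] at hmf
        rw [hX17] at h2
        gcongr
        refine hmf.trans ?_
        gcongr
    _ = 40 * C₀ * (p : ℝ) ^ 445 * ((1 + |t|) ^ 17 * E) * E * E := by ring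
    _ ≤ 40 * C₀ * (p : ℝ) ^ 445 * (((Nat.factorial 17 : ℕ) : ℝ) *
        (6 * (3 * (p : ℝ) ^ 18)) ^ 17 * 2) * (1 / (p : ℝ) ^ 800) * E := by gcongr
    _ = (40 * C₀ * ((Nat.factorial 17 : ℕ) : ℝ) * 6 ^ 17 * 3 ^ 17 * 2) *
        ((p : ℝ) ^ 751 * (1 / (p : ℝ) ^ 800)) * E := by ring
    _ ≤ (40 * C₀ * ((Nat.factorial 17 : ℕ) : ℝ) * 6 ^ 17 * 3 ^ 17 * 2) *
        (3 * κ) * E := by
        have h13 : (p : ℝ) ^ 751 * (1 / (p : ℝ) ^ 800) ≤ 3 * κ := by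
          have h14 : (p : ℝ) ^ 751 * (1 / (p : ℝ) ^ 800) = 1 / (p : ℝ) ^ 49 := by
            rw [mul_one_div, div_eq_div_iff (by positivity) (by positivity)]
            ring
          rw [h14, div_le_iff₀ (by positivity)]
          have h15 : (p : ℝ) ^ 18 ≤ (p : ℝ) ^ 49 :=
            pow_le_pow_right₀ (by linarith) (by norm_num)
          nlinarith
        gcongr
    _ = _ := by ring

lemma continuous_Gf (hG : GRH) (X : ℕ) (hX : 0 < X) (hW : Wstar wS X ≠ 0) :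
    Continuous (Gf X) := by
  have e : Gf X = fun t => ∑ d ∈ FS X, (wd X d : ℂ) * (L8 d (zt t) / L8 d (1 + h16 - zt t)) -
      ((Wstar wS X : ℝ) : ℂ) * P1 t - (∑ d ∈ FS X, (wd X d : ℂ) * Xd d (zt t)) * P2 t := by
    funext t; exact Gf_eq X hX hW t
  rw [e]
  refine Continuous.sub (Continuous.sub ?_ ?_) (Continuous.mul ?_ continuous_P2)
  · exact continuous_finsetSum _ fun d _ => continuous_const.mul (continuous_L_ratio_line hG d)
  · exact continuous_const.mul continuous_P1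
  · exact continuous_finsetSum _ fun d _ => continuous_const.mul
      (continuous_Xd_vertical (d : ℤ) d.2.2.ne_zero (3 / 8) (by norm_num))

/-- Upper bound for the integral. -/
theorem upper_bound (hG : GRH) (ε c₁ c₂ : ℝ) (hε : ε ≤ 1 / 40) (hc₂ : 0 < c₂)
    (hR : RatiosBound wS ε c₁ c₂) : ∃ C : ℝ, 0 ≤ C ∧ ∃ p₀ : ℕ, 2 ≤ p₀ ∧ ∀ p : ℕ, p₀ ≤ p →
      Wstar wS (Xp p) ≠ 0 →
      ‖∫ t : ℝ, mellin (ker (ap p) (lp p)) (zt t) * Gf (Xp p) t‖ ≤ C * (p : ℝ) ^ 66 := by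
  obtain ⟨C₁, hC₁, p₁, hp₁, hcen⟩ := norm_Gf_central ε c₁ c₂ hε hc₂ hR
  obtain ⟨C₂, hC₂, htail⟩ := tail_bound hG
  obtain ⟨C₀, hC₀, hG0⟩ := norm_Gf_le hG
  refine ⟨40 * C₁ + 6 * C₂, by positivity, max p₁ 300,
    le_trans (by norm_num) (le_max_right _ _), fun p hp hW => ?_⟩
  have hpa : p₁ ≤ p := (le_max_left _ _).trans hp
  have hpb : 300 ≤ p := (le_max_right _ _).trans hp
  have hp2 : 2 ≤ p := by omega
  have hpp := p_pos p hp2
  have hpr := one_le_p p hp2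
  have hK := one_le_Kp p hp2
  have hRpos := Rp_pos p hp2
  have hz := zp_pos p hp2
  have hXpos := Xp_pos p hp2
  set T : ℝ := (p : ℝ) ^ 19 with hT
  have hTpos : 0 < T := by positivity
  set f : ℝ → ℂ := fun t => mellin (ker (ap p) (lp p)) (zt t) * Gf (Xp p) t with hf
  have hfi : Integrable f := by
    refine integrable_mellin_mul (ap p) (ap_pos p hp2) (lp p) _
      (continuous_Gf hG _ hXpos hW) (C₀ * ((Xp p : ℕ) : ℝ) ^ 17) fun t => ?_
    exact hG0 (Xp p) hXpos hW t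
  have hmfi : Integrable (fun t : ℝ => ‖mellin (ker (ap p) (lp p)) (zt t)‖) := by
    have h1 := (integrable_mellin_mul (ap p) (ap_pos p hp2) (lp p) (fun _ => (1:ℂ))
      continuous_const 1 (fun t => by
        rw [norm_one, one_mul]
        exact one_le_pow₀ (by linarith [abs_nonneg t]))).norm
    simpa using h1
  have hsplit : ∫ t, ‖f t‖ = (∫ t in Icc (-T) T, ‖f t‖) + ∫ t in (Icc (-T) T)ᶜ, ‖f t‖ :=
    (integral_add_compl measurableSet_Icc hfi.norm).symm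
  have hcentral : ∫ t in Icc (-T) T, ‖f t‖ ≤ 40 * C₁ * (p : ℝ) ^ 66 := by
    have h1 : ∫ t in Icc (-T) T, ‖f t‖ ≤ ∫ t in Icc (-T) T,
        (C₁ * (p : ℝ) ^ 11) * ‖mellin (ker (ap p) (lp p)) (zt t)‖ := by
      refine setIntegral_mono_on hfi.norm.integrableOn (hmfi.integrableOn.const_mul _)
        measurableSet_Icc fun t ht => ?_
      simp only [hf]
      rw [norm_mul, mul_comm]
      have := hcen p hpa t (abs_le.mpr ht)
      gcongr
    refine h1.trans ?_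
    rw [integral_const_mul]
    have h2 := integral_norm_ft_le (Kp p) (Rp p) (zp p) T hK hRpos hTpos
    have h3 : ∫ t in Icc (-T) T, ‖mellin (ker (ap p) (lp p)) (zt t)‖ ≤
        40 * (p : ℝ) ^ 10 * ((p : ℝ) ^ 30 * (p : ℝ) ^ 15) := by
      refine h2.trans ?_
      have hs : Real.sqrt T ≤ (p : ℝ) ^ 10 := by
        rw [Real.sqrt_le_left (by positivity), hT, ← pow_mul]
        exact pow_le_pow_right₀ (by linarith) (by norm_num)
      have hR34 : Rp p ^ (3 / 4 : ℝ) ≤ (p : ℝ) ^ 15 := by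
        calc Rp p ^ (3 / 4 : ℝ) ≤ ((p : ℝ) ^ 19) ^ (3 / 4 : ℝ) :=
              Real.rpow_le_rpow hRpos.le (Rp_le p hp2) (by norm_num)
          _ = (p : ℝ) ^ (57 / 4 : ℝ) := by
              rw [← Real.rpow_natCast (p : ℝ) 19, ← Real.rpow_mul hpp.le]; norm_num
          _ ≤ (p : ℝ) ^ (15 : ℝ) :=
              Real.rpow_le_rpow_of_exponent_le (by linarith) (by norm_num)
          _ = (p : ℝ) ^ 15 := by exact_mod_cast Real.rpow_natCast (p : ℝ) 15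
      rw [exp_Kp p hp2]
      gcongr
    calc C₁ * (p : ℝ) ^ 11 * ∫ t in Icc (-T) T, ‖mellin (ker (ap p) (lp p)) (zt t)‖
        ≤ C₁ * (p : ℝ) ^ 11 * (40 * (p : ℝ) ^ 10 * ((p : ℝ) ^ 30 * (p : ℝ) ^ 15)) := by gcongr
      _ = _ := by ring
  have htl : ∫ t in (Icc (-T) T)ᶜ, ‖f t‖ ≤ 6 * C₂ := by
    set κ := Kp p / zp p with hκ
    have hκpos : 0 < κ := by positivity
    have hgi : Integrable (fun t : ℝ => C₂ * κ * Real.exp (-(κ / 3 * |t|))) :=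
      (integrable_exp_neg_mul_abs (κ / 3) (by positivity)).const_mul _
    have h1 : ∫ t in (Icc (-T) T)ᶜ, ‖f t‖ ≤
        ∫ t in (Icc (-T) T)ᶜ, C₂ * κ * Real.exp (-(κ / 3 * |t|)) := by
      refine setIntegral_mono_on hfi.norm.integrableOn hgi.integrableOn
        measurableSet_Icc.compl fun t ht => ?_
      have ht' : T < |t| := by
        by_contra hcon
        push Not at hcon
        exact ht (abs_le.mp hcon)
      exact htail p hpb hW t ht'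
    have h2 : ∫ t in (Icc (-T) T)ᶜ, C₂ * κ * Real.exp (-(κ / 3 * |t|)) ≤
        ∫ t : ℝ, C₂ * κ * Real.exp (-(κ / 3 * |t|)) := by
      refine setIntegral_le_integral hgi ?_
      filter_upwards with t
      positivity
    refine h1.trans (h2.trans (le_of_eq ?_))
    rw [integral_const_mul, integral_exp_neg_mul_abs _ (by positivity)]
    field_simp
    ring
  have hp66 : 1 ≤ (p : ℝ) ^ 66 := one_le_pow₀ (by linarith)
  calc ‖∫ t, f t‖ ≤ ∫ t, ‖f t‖ := norm_integral_le_integral_norm _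
    _ ≤ 40 * C₁ * (p : ℝ) ^ 66 + 6 * C₂ := by rw [hsplit]; linarith
    _ ≤ 40 * C₁ * (p : ℝ) ^ 66 + 6 * C₂ * (p : ℝ) ^ 66 := by nlinarith
    _ = _ := by ring

end Pool.Agent.Ratios
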