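import Pool.Agent.Ratios.MainTerm
import Pool.Agent.Ratios.UpperBound
import Pool.Agent.Ratios.RootNumber

/-! The contradiction. -/

set_option autoImplicit false

open Complex MeasureTheory Set Filter Topology

namespace Pool.Agent.Ratios

lemma norm_rn_le (d : Fam) : ‖rn d‖ ≤ 1 := by
  rcases rn_eq d with h | h <;> rw [h] <;> simp

lemma sum_wd_le (p : ℕ) (hp : 2 ≤ p) : ∑ d ∈ FS (Xp p), wd (Xp p) d ≤ 5 * (p : ℝ) ^ 20 := by
  have h := Wstar_le (Xp p) (Xp_pos p hp)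
  rwa [Wstar_eq _ (Xp_pos p hp), Xp_cast p] at h

lemma norm_wsum_le (p : ℕ) (hp : 2 ≤ p) (f : Fam → ℂ) (B : ℝ) (hB : 0 ≤ B)
    (hf : ∀ d : Fam, wd (Xp p) d ≠ 0 → ‖f d‖ ≤ B) :
    ‖∑ d ∈ FS (Xp p), (wd (Xp p) d : ℂ) * f d‖ ≤ 5 * (p : ℝ) ^ 20 * B := by
  refine (norm_sum_le _ _).trans ?_
  calc ∑ d ∈ FS (Xp p), ‖(wd (Xp p) d : ℂ) * f d‖ ≤ ∑ d ∈ FS (Xp p), wd (Xp p) d * B := by
        refine Finset.sum_le_sum fun d _ => ?_
        rw [norm_mul, Complex.norm_real, Real.norm_of_nonneg (wd_nonneg _ d)]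
        by_cases h : wd (Xp p) d = 0
        · rw [h, zero_mul, zero_mul]
        · exact mul_le_mul_of_nonneg_left (hf d h) (wd_nonneg _ d)
    _ = (∑ d ∈ FS (Xp p), wd (Xp p) d) * B := by rw [Finset.sum_mul]
    _ ≤ _ := by
        have := sum_wd_le p hp
        gcongr

/-- The series over frequencies. -/
noncomputable def LS (p : ℕ) (d : Fam) : ℂ :=
  ∑' n : ℕ, (mPF (jp h16) n : ℂ) * chi8 (d : ℤ) (n : ZMod (8 * (d : ℤ).natAbs)) *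
    (2 * Real.pi * Id (ap p) (lp p) d n)

/-- The third term of the series over frequencies. -/
noncomputable def LT (p : ℕ) (d : Fam) : ℂ :=
  (mPF (jp h16) 3 : ℂ) * chi8 (d : ℤ) ((3 : ℕ) : ZMod (8 * (d : ℤ).natAbs)) *
    (2 * Real.pi * Id (ap p) (lp p) d 3)

lemma sum_T3 (p : ℕ) : ∑ d ∈ FS (Xp p), T3 p (d : ℤ) =
    ∑ d ∈ FS (Xp p), (wd (Xp p) d : ℂ) * LT p d :=
  Finset.sum_congr rfl fun d _ => T3_eq p d

lemma norm_LT_le (p : ℕ) (d : Fam) (B : ℝ) (hB : ‖Id (ap p) (lp p) (d : ℤ) 3‖ ≤ B) :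
    ‖LT p d‖ ≤ 7 * B := by
  have h1 : ‖(mPF (jp h16) 3 : ℂ)‖ ≤ 1 := by
    rw [Complex.norm_real, Real.norm_eq_abs]
    exact abs_mPF_le_one _ (abs_jp_le h16 h16_pos) 3
  have h2 := norm_chi8_le (d : ℤ) ((3 : ℕ) : ZMod (8 * (d : ℤ).natAbs))
  have hpi : ‖(2 * (Real.pi : ℂ))‖ ≤ 7 := by
    rw [norm_mul, Complex.norm_real, Real.norm_of_nonneg Real.pi_pos.le]
    simp
    linarith [Real.pi_lt_d2]
  have hB0 : 0 ≤ B := (norm_nonneg _).trans hB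
  rw [LT, norm_mul, norm_mul, norm_mul]
  calc ‖(mPF (jp h16) 3 : ℂ)‖ * ‖chi8 (d : ℤ) ((3 : ℕ) : ZMod (8 * (d : ℤ).natAbs))‖ *
        (‖(2 * (Real.pi : ℂ))‖ * ‖Id (ap p) (lp p) (d : ℤ) 3‖) ≤ 1 * 1 * (7 * B) := by gcongr
    _ = 7 * B := by ring

/-- Replacing the root number by `1`. -/
lemma norm_rn_sum_le (p : ℕ) (B E : ℝ) (hB : 0 ≤ B)
    (hI : ∀ d : Fam, wd (Xp p) d ≠ 0 → ‖Id (ap p) (lp p) (d : ℤ) 3‖ ≤ B)
    (hE : ∑ d ∈ FS (Xp p), (if rn d = -1 then wd (Xp p) d else 0) ≤ E) :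
    ‖∑ d ∈ FS (Xp p), (wd (Xp p) d : ℂ) * ((rn d - 1) * LT p d)‖ ≤ 14 * B * E := by
  refine (norm_sum_le _ _).trans ?_
  calc ∑ d ∈ FS (Xp p), ‖(wd (Xp p) d : ℂ) * ((rn d - 1) * LT p d)‖
      ≤ ∑ d ∈ FS (Xp p), (14 * B) * (if rn d = -1 then wd (Xp p) d else 0) := by
        refine Finset.sum_le_sum fun d _ => ?_
        rcases rn_eq d with h | h
        · rw [h, sub_self, zero_mul, mul_zero, norm_zero]
          refine mul_nonneg (by positivity) ?_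
          split_ifs
          · exact wd_nonneg _ d
          · exact le_rfl
        · rw [if_pos h, norm_mul, norm_mul, h, Complex.norm_real,
            Real.norm_of_nonneg (wd_nonneg _ d)]
          by_cases hw : wd (Xp p) d = 0
          · rw [hw, zero_mul, mul_zero]
          · have h1 := norm_LT_le p d B (hI d hw)
            have h2 : ‖(-1 - 1 : ℂ)‖ = 2 := by norm_num
            rw [h2]
            have h3 := wd_nonneg (Xp p) d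
            nlinarith
    _ = 14 * B * ∑ d ∈ FS (Xp p), (if rn d = -1 then wd (Xp p) d else 0) := by
        rw [Finset.mul_sum]
    _ ≤ _ := by gcongr

lemma Xp_rpow_le (p : ℕ) (hp : 2 ≤ p) (ε : ℝ) (hε : ε ≤ 1 / 40) :
    ((Xp p : ℕ) : ℝ) ^ (5 / 16 + ε) ≤ (p : ℝ) ^ 7 := by
  have hpp := p_pos p hp
  have hpr := one_le_p p hp
  rw [Xp_cast p, ← Real.rpow_natCast, ← Real.rpow_mul hpp.le, ← Real.rpow_natCast]
  apply Real.rpow_le_rpow_of_exponent_le (by linarith)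
  push_cast
  linarith

/-- A square root of the logarithm cannot dominate. -/
lemma no_bound (c C : ℝ) (hc : 0 < c) (hC : 0 ≤ C) (p : ℕ) (hp : 2 ≤ p)
    (hbig : (C / c) ^ 2 < p)
    (h : c * (p : ℝ) ^ 67 / Real.sqrt (Real.log p) ≤ C * (p : ℝ) ^ 66) : False := by
  have hpp := p_pos p hp
  have hpr := one_le_p p hp
  have hlog : 0 < Real.log p := Real.log_pos (by linarith)
  have hs : 0 < Real.sqrt (Real.log p) := Real.sqrt_pos.mpr hlog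
  rw [div_le_iff₀ hs] at h
  have h1 : c * p ≤ C * Real.sqrt (Real.log p) := by
    have h66 : 0 < (p : ℝ) ^ 66 := by positivity
    have h2 : (c * p) * (p : ℝ) ^ 66 ≤ (C * Real.sqrt (Real.log p)) * (p : ℝ) ^ 66 := by
      calc (c * p) * (p : ℝ) ^ 66 = c * (p : ℝ) ^ 67 := by ring
        _ ≤ C * (p : ℝ) ^ 66 * Real.sqrt (Real.log p) := h
        _ = _ := by ring
    exact le_of_mul_le_mul_right h2 h66
  have h2 : Real.log p ≤ p := by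
    have := Real.log_le_sub_one_of_pos hpp
    linarith
  have h3 : Real.sqrt (Real.log p) ≤ Real.sqrt p := Real.sqrt_le_sqrt h2
  have h4 : (p : ℝ) = Real.sqrt p ^ 2 := (Real.sq_sqrt hpp.le).symm
  have hsp : 0 < Real.sqrt p := Real.sqrt_pos.mpr hpp
  have h5 : c * Real.sqrt p ≤ C := by
    have : c * Real.sqrt p * Real.sqrt p ≤ C * Real.sqrt p := by
      calc c * Real.sqrt p * Real.sqrt p = c * (Real.sqrt p ^ 2) := by ring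
        _ = c * p := by rw [← h4]
        _ ≤ C * Real.sqrt (Real.log p) := h1
        _ ≤ C * Real.sqrt p := by gcongr
    exact le_of_mul_le_mul_right this hsp
  have h6 : Real.sqrt p ≤ C / c := by
    rw [le_div_iff₀ hc]; linarith
  have h7 : Real.sqrt p ^ 2 ≤ (C / c) ^ 2 := by gcongr
  rw [← h4] at h7
  linarith

theorem ratios_false_of (hG : GRH)
    (hJ : ∃ C : ℝ, 0 ≤ C ∧ ∀ p : ℕ, 2 ≤ p → ‖((Wstar wS (Xp p) : ℝ) : ℂ) *
      ∑' k : ℕ, Ch h16 * ((sPF (vp h16) k : ℂ) * Jk (ap p) (lp p) k)‖ ≤ C * (p : ℝ) ^ 66)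
    (hI : ∃ C : ℝ, 0 ≤ C ∧ ∀ p : ℕ, 2 ≤ p → ∀ d : Fam, wd (Xp p) d ≠ 0 →
      ‖Id (ap p) (lp p) (d : ℤ) 3‖ ≤ C * (p : ℝ) ^ 49)
    (hL : ∃ C : ℝ, 0 ≤ C ∧ ∀ p : ℕ, 2 ≤ p → ∀ d : Fam, wd (Xp p) d ≠ 0 →
      ‖LS p d - LT p d‖ ≤ C * (p : ℝ) ^ 46)
    (hb : ∃ C : ℝ, 0 ≤ C ∧ ∀ p : ℕ, 2 ≤ p → ∀ d : Fam, wd (Xp p) d ≠ 0 →
      ‖∑' k : ℕ, cb k * (2 * Real.pi * Id (ap p) (lp p) d (k ^ 2))‖ ≤ C * (p : ℝ) ^ 46)
    (ε c₁ c₂ : ℝ) (hε : ε ≤ 1 / 40) (hc₂ : 0 < c₂) : ¬ RatiosBound wS ε c₁ c₂ := by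
  intro hR
  obtain ⟨C₁, hC₁, p₁, hp₁, hup⟩ := upper_bound hG ε c₁ c₂ hε hc₂ hR
  obtain ⟨C₂, hC₂, X₂, hroot⟩ := root_number_bound hG ε c₁ c₂ hc₂ hR
  obtain ⟨C₃, hC₃, hJ⟩ := hJ
  obtain ⟨C₄, hC₄, hI⟩ := hI
  obtain ⟨C₅, hC₅, hL⟩ := hL
  obtain ⟨C₆, hC₆, hb⟩ := hb
  obtain ⟨c, hc, p₀, hp₀, hlow⟩ := main_lower
  set C : ℝ := C₁ + C₃ + 14 * C₄ * C₂ + 5 * C₅ + 5 * C₆ + 420000 with hCdef
  have hC : 0 ≤ C := by positivity
  obtain ⟨p, hpge, hprime⟩ := Nat.exists_infinite_primes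
    (max (max p₀ p₁) (max X₂ (⌈(C / c) ^ 2⌉₊ + 1)))
  have hpa : p₀ ≤ p := (le_max_left _ _).trans ((le_max_left _ _).trans hpge)
  have hpb : p₁ ≤ p := (le_max_right _ _).trans ((le_max_left _ _).trans hpge)
  have hpc : X₂ ≤ p := (le_max_left _ _).trans ((le_max_right _ _).trans hpge)
  have hpd : ⌈(C / c) ^ 2⌉₊ + 1 ≤ p := (le_max_right _ _).trans ((le_max_right _ _).trans hpge)
  have hp : 2 ≤ p := hp₀.trans hpa
  have hpp := p_pos p hp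
  have hpr := one_le_p p hp
  have hbig : (C / c) ^ 2 < p := by
    have h1 := Nat.le_ceil ((C / c) ^ 2)
    have h2 : ((⌈(C / c) ^ 2⌉₊ + 1 : ℕ) : ℝ) ≤ p := by exact_mod_cast hpd
    push_cast at h2
    linarith
  obtain ⟨hW, hlow⟩ := hlow p hpa hprime
  have hX2 : X₂ ≤ Xp p := by
    refine hpc.trans ?_
    unfold Xp
    exact Nat.le_self_pow (by norm_num) p
  have hroot := hroot (Xp p) hX2 hW
  have hroot2 : ∑ d ∈ FS (Xp p), (if rn d = -1 then wd (Xp p) d else 0) ≤ C₂ * (p : ℝ) ^ 7 := by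
    refine hroot.trans ?_
    have := Xp_rpow_le p hp ε hε
    gcongr
  have hup := hup p hpb hW
  have hid := integral_identity hG (ap p) (ap_pos p hp) (lp p) (Xp p) (Xp_pos p hp) hW
  have e1 : ∑ d ∈ FS (Xp p), (wd (Xp p) d : ℂ) * (rn d * LS p d) =
      ∑ d ∈ FS (Xp p), T3 p (d : ℤ) +
      ∑ d ∈ FS (Xp p), (wd (Xp p) d : ℂ) * ((rn d - 1) * LT p d) +
      ∑ d ∈ FS (Xp p), (wd (Xp p) d : ℂ) * (rn d * (LS p d - LT p d)) := by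
    rw [sum_T3, ← Finset.sum_add_distrib, ← Finset.sum_add_distrib]
    refine Finset.sum_congr rfl fun d _ => ?_
    ring
  have b1 := norm_rn_sum_le p (C₄ * (p : ℝ) ^ 49) (C₂ * (p : ℝ) ^ 7) (by positivity)
    (hI p hp) hroot2
  have b2 := norm_wsum_le p hp (fun d => rn d * (LS p d - LT p d)) (C₅ * (p : ℝ) ^ 46)
    (by positivity) (fun d hd => by
      rw [norm_mul]
      calc ‖rn d‖ * ‖LS p d - LT p d‖ ≤ 1 * (C₅ * (p : ℝ) ^ 46) :=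
            mul_le_mul (norm_rn_le d) (hL p hp d hd) (norm_nonneg _) zero_le_one
        _ = _ := one_mul _)
  have b3 := norm_wsum_le p hp
    (fun d => ∑' k : ℕ, cb k * (2 * Real.pi * Id (ap p) (lp p) d (k ^ 2))) (C₆ * (p : ℝ) ^ 46)
    (by positivity) (hb p hp)
  have b4 := hJ p hp
  have e2 : ∑ d ∈ FS (Xp p), T3 p (d : ℤ) =
      (∫ t : ℝ, mellin (ker (ap p) (lp p)) (zt t) * Gf (Xp p) t) +
      ((Wstar wS (Xp p) : ℝ) : ℂ) *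
        ∑' k : ℕ, Ch h16 * ((sPF (vp h16) k : ℂ) * Jk (ap p) (lp p) k) +
      (∑ d ∈ FS (Xp p), (wd (Xp p) d : ℂ) *
        ∑' k : ℕ, cb k * (2 * Real.pi * Id (ap p) (lp p) d (k ^ 2))) -
      (∑ d ∈ FS (Xp p), (wd (Xp p) d : ℂ) * ((rn d - 1) * LT p d)) -
      (∑ d ∈ FS (Xp p), (wd (Xp p) d : ℂ) * (rn d * (LS p d - LT p d))) := by
    have e3 : (∑ d ∈ FS (Xp p), (wd (Xp p) d : ℂ) * (rn d * ∑' n : ℕ, (mPF (jp h16) n : ℂ) *
        chi8 (d : ℤ) (n : ZMod (8 * (d : ℤ).natAbs)) *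
          (2 * Real.pi * Id (ap p) (lp p) d n))) =
        ∑ d ∈ FS (Xp p), (wd (Xp p) d : ℂ) * (rn d * LS p d) := rfl
    rw [e3, e1] at hid
    rw [hid]
    ring
  have h56 : (p : ℝ) ^ 56 ≤ (p : ℝ) ^ 66 := pow_le_pow_right₀ (by linarith) (by norm_num)
  have hfin : ‖∑ d ∈ FS (Xp p), T3 p (d : ℤ)‖ ≤
      (C₁ + C₃ + 14 * C₄ * C₂ + 5 * C₅ + 5 * C₆) * (p : ℝ) ^ 66 := by
    rw [e2]
    refine (norm_sub_le _ _).trans ?_
    refine (add_le_add ((norm_sub_le _ _).trans (add_le_add ((norm_add_le _ _).trans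
      (add_le_add ((norm_add_le _ _).trans (add_le_add hup b4)) b3)) b1)) b2).trans ?_
    have e5 : C₁ * (p : ℝ) ^ 66 + C₃ * (p : ℝ) ^ 66 + 5 * (p : ℝ) ^ 20 * (C₆ * (p : ℝ) ^ 46) +
        14 * (C₄ * (p : ℝ) ^ 49) * (C₂ * (p : ℝ) ^ 7) +
        5 * (p : ℝ) ^ 20 * (C₅ * (p : ℝ) ^ 46) =
        (C₁ + C₃ + 5 * C₅ + 5 * C₆) * (p : ℝ) ^ 66 + 14 * C₄ * C₂ * (p : ℝ) ^ 56 := by ring
    rw [e5]
    have : 14 * C₄ * C₂ * (p : ℝ) ^ 56 ≤ 14 * C₄ * C₂ * (p : ℝ) ^ 66 := by gcongr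
    linarith
  refine no_bound c C hc hC p hp hbig ?_
  refine hlow.trans ?_
  rw [hCdef]
  linarith

end Pool.Agent.Ratios
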