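import Pool.Agent.Ratios.Boundary

/-! Quantitative bounds for the Mellin transform of the kernel. -/

set_option autoImplicit false

open Complex MeasureTheory Set Filter Topology
open scoped FourierTransform InnerProductSpace

namespace Pool.Agent.Ratios

/-- Plancherel's theorem for a continuous integrable function with integrable Fourier
transform. -/
lemma plancherel_of_integrable (g : ℝ → ℂ) (hg : Integrable g) (hc : Continuous g)
    (hFg : Integrable (𝓕 g)) : ∫ ξ, ‖𝓕 g ξ‖ ^ 2 = ∫ x, ‖g x‖ ^ 2 := by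
  have h := VectorFourier.integral_sesq_fourierIntegral_eq_neg_flip (μ := (volume : Measure ℝ))
    (ν := (volume : Measure ℝ)) (L := innerₗ ℝ) (f := g) (g := 𝓕 g)
    (innerSL ℂ) Real.continuous_fourierChar continuous_inner hg hFg
  have h2 : ∀ x, VectorFourier.fourierIntegral Real.fourierChar (volume : Measure ℝ)
      (-(innerₗ ℝ).flip) (𝓕 g) x = g x := by
    intro x
    have h3 := congrFun (hc.fourierInv_fourier_eq hg hFg) x
    rw [← h3]
    rw [Real.fourierInv_eq]
    simp [VectorFourier.fourierIntegral]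
  simp_rw [h2] at h
  change ∫ ξ, (innerSL ℂ) (𝓕 g ξ) (𝓕 g ξ) = _ at h
  apply Complex.ofRealLI.injective
  simp only [innerSL_apply_apply, inner_self_eq_norm_sq_to_K] at h
  simpa [← LinearIsometry.integral_comp_comm] using h

/-- Uniform exponential decay in a vertical strip. -/
lemma mellin_ker_decay (a : ℝ) (ha : 0 < a) (lam : ℂ) (c₂ c₁ : ℝ) (hc₂ : -(1 / 2) < c₂)
    (hc : c₂ ≤ c₁) : ∃ C : ℝ, 0 ≤ C ∧ ∀ c : ℝ, c₂ ≤ c → c ≤ c₁ → ∀ t : ℝ,
      ‖mellin (ker a lam) ((c : ℂ) + t * I)‖ ≤ C * Real.exp (-|t|) := by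
  have hpi : 1 < Real.pi / 2 := by linarith [Real.pi_gt_three]
  -- bound for a fixed rotated kernel
  have key : ∀ ψ : ℝ, -(Real.pi / 2) < ψ → ψ < Real.pi / 2 → ∃ C : ℝ, 0 ≤ C ∧
      ∀ c : ℝ, c₂ ≤ c → c ≤ c₁ → ∀ t : ℝ,
      ‖mellin (ker (rotA a ψ) (rotL lam ψ)) ((c : ℂ) + t * I)‖ ≤ C := by
    intro ψ h1 h2
    have hA : 0 < (rotA a ψ).re := by
      rw [rotA_re]
      exact mul_pos ha (Real.cos_pos_of_mem_Ioo ⟨h1, h2⟩)
    set J : ℝ → ℝ := fun c => ∫ x in Ioi (0:ℝ), x ^ (c - 1) *
      (x ^ (1 / 2 : ℝ) * Real.exp (-((rotA a ψ).re / 2 * x))) with hJ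
    have hJnn : ∀ c, 0 ≤ J c := by
      intro c
      refine setIntegral_nonneg measurableSet_Ioi ?_
      intro x hx
      have hx0 : (0:ℝ) < x := hx
      positivity
    refine ⟨kerC (rotA a ψ) (rotL lam ψ) * (J c₂ + J c₁), ?_, ?_⟩
    · exact mul_nonneg (kerC_nonneg _ _) (add_nonneg (hJnn _) (hJnn _))
    · intro c h2c hc1 t
      have hzre : ((c : ℂ) + t * I).re = c := by simp
      refine (norm_mellin_ker_le _ _ _ hA (by rw [hzre]; linarith)).trans ?_
      rw [hzre]
      refine mul_le_mul_of_nonneg_left ?_ (kerC_nonneg _ _)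
      simp only [hJ]
      have i1 := integrableOn_kerMajorant ((rotA a ψ).re / 2) c (by linarith) (by linarith)
      have i2 := integrableOn_kerMajorant ((rotA a ψ).re / 2) c₂ (by linarith) (by linarith)
      have i3 := integrableOn_kerMajorant ((rotA a ψ).re / 2) c₁ (by linarith) (by linarith)
      rw [← integral_add i2 i3]
      refine setIntegral_mono_on i1 (i2.add i3) measurableSet_Ioi ?_
      intro x hx
      have hx0 : (0:ℝ) < x := hx
      rw [← add_mul]
      refine mul_le_mul_of_nonneg_right ?_ (by positivity)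
      have p1 : 0 < x ^ (c₂ - 1) := Real.rpow_pos_of_pos hx0 _
      have p2 : 0 < x ^ (c₁ - 1) := Real.rpow_pos_of_pos hx0 _
      rcases le_or_gt 1 x with h | h
      · have := Real.rpow_le_rpow_of_exponent_le h (show c - 1 ≤ c₁ - 1 by linarith)
        linarith
      · have := Real.rpow_le_rpow_of_exponent_ge hx0 h.le (show c₂ - 1 ≤ c - 1 by linarith)
        linarith
  obtain ⟨C1, hC1, h1⟩ := key 1 (by linarith) hpi
  obtain ⟨C2, hC2, h2⟩ := key (-1) (by linarith) (by linarith)
  refine ⟨C1 + C2, by linarith, ?_⟩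
  intro c h2c hc1 t
  rcases le_or_gt 0 t with ht | ht
  · rw [norm_mellin_ker_rot a ha lam c t (by linarith) (-1) (by linarith) (by linarith),
      abs_of_nonneg ht]
    have := h2 c h2c hc1 t
    have e : Real.exp (-1 * t) = Real.exp (-t) := by ring_nf
    rw [e]
    have hp := Real.exp_pos (-t)
    nlinarith
  · rw [norm_mellin_ker_rot a ha lam c t (by linarith) 1 (by linarith) hpi,
      abs_of_neg ht]
    have := h1 c h2c hc1 t
    have e : Real.exp (1 * t) = Real.exp (- -t) := by ring_nf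
    rw [e]
    have hp := Real.exp_pos (- -t)
    nlinarith

lemma differentiableAt_mellin_ker (a : ℂ) (ha : 0 < a.re) (lam z : ℂ) (hz : -(1 / 2) < z.re) :
    DifferentiableAt ℂ (mellin (ker a lam)) z := by
  refine mellin_differentiableAt_of_isBigO_rpow_exp (a := a.re / 4) (b := -(1/2)) (by linarith)
    ((continuous_ker a lam).continuousOn.locallyIntegrableOn measurableSet_Ioi) ?_ ?_ hz
  · refine Asymptotics.IsBigO.of_bound (kerC a lam * (1 + 4 / a.re)) ?_
    filter_upwards [eventually_ge_atTop 1] with x hx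
    have hx0 : 0 < x := by linarith
    refine (norm_ker_le a lam ha x hx0).trans ?_
    rw [Real.norm_of_nonneg (Real.exp_pos _).le, mul_assoc]
    refine mul_le_mul_of_nonneg_left ?_ (kerC_nonneg _ _)
    have h1 : x ^ (1 / 2 : ℝ) ≤ x := by
      calc x ^ (1 / 2 : ℝ) ≤ x ^ (1:ℝ) := Real.rpow_le_rpow_of_exponent_le hx (by norm_num)
        _ = x := Real.rpow_one x
    have h2 : x ≤ (4 / a.re) * Real.exp (a.re / 4 * x) := by
      have := Real.add_one_le_exp (a.re / 4 * x)
      have h3 : (4 / a.re) * (a.re / 4 * x) = x := by field_simp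
      have h4 : 0 < 4 / a.re := by positivity
      nlinarith
    have e : Real.exp (-(a.re / 2 * x)) = Real.exp (-(a.re / 4) * x) * Real.exp (-(a.re / 4 * x)) := by
      rw [← Real.exp_add]; congr 1; ring
    rw [e]
    have h5 : Real.exp (a.re / 4 * x) * Real.exp (-(a.re / 4 * x)) = 1 := by
      rw [← Real.exp_add]; simp
    have hp := Real.exp_pos (-(a.re / 4) * x)
    have hp2 := Real.exp_pos (-(a.re / 4 * x))
    calc x ^ (1 / 2 : ℝ) * (Real.exp (-(a.re / 4) * x) * Real.exp (-(a.re / 4 * x)))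
        ≤ ((4 / a.re) * Real.exp (a.re / 4 * x)) *
          (Real.exp (-(a.re / 4) * x) * Real.exp (-(a.re / 4 * x))) := by
          gcongr
          exact h1.trans h2
      _ = (4 / a.re) * Real.exp (-(a.re / 4) * x) *
          (Real.exp (a.re / 4 * x) * Real.exp (-(a.re / 4 * x))) := by ring
      _ = (4 / a.re) * Real.exp (-(a.re / 4) * x) := by rw [h5, mul_one]
      _ ≤ (1 + 4 / a.re) * Real.exp (-(a.re / 4) * x) := by
          nlinarith
  · refine Asymptotics.IsBigO.of_bound (kerC a lam) ?_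
    filter_upwards [self_mem_nhdsWithin] with x hx
    have hx0 : (0:ℝ) < x := hx
    refine (norm_ker_le a lam ha x hx0).trans ?_
    rw [neg_neg, Real.norm_of_nonneg (Real.rpow_nonneg hx0.le _)]
    refine mul_le_mul_of_nonneg_left ?_ (kerC_nonneg _ _)
    have : Real.exp (-(a.re / 2 * x)) ≤ 1 := Real.exp_le_one_iff.mpr (by
      have : 0 ≤ a.re / 2 * x := by positivity
      linarith)
    have h0 := Real.rpow_nonneg hx0.le (1 / 2)
    nlinarith

lemma continuous_mellin_ker_vertical (a : ℂ) (ha : 0 < a.re) (lam : ℂ) (c : ℝ)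
    (hc : -(1 / 2) < c) : Continuous (fun t : ℝ => mellin (ker a lam) ((c : ℂ) + t * I)) := by
  rw [continuous_iff_continuousAt]
  intro t
  have h := (differentiableAt_mellin_ker a ha lam ((c : ℂ) + t * I) (by simpa using hc)).continuousAt
  exact ContinuousAt.comp (f := fun t : ℝ => (c : ℂ) + t * I) h (by fun_prop)

lemma integral_exp_neg_comp (h : ℝ → ℝ) :
    ∫ v : ℝ, Real.exp (-v) * h (Real.exp (-v)) = ∫ x in Ioi (0:ℝ), h x := by
  have h1 : (fun v : ℝ => Real.exp (-v)) '' univ = Ioi 0 := by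
    ext x
    simp only [image_univ, mem_range, mem_Ioi]
    constructor
    · rintro ⟨v, rfl⟩; exact Real.exp_pos _
    · intro hx; exact ⟨-Real.log x, by simp [Real.exp_log hx]⟩
  rw [← h1, integral_image_eq_integral_abs_deriv_smul MeasurableSet.univ
    (f := fun v : ℝ => Real.exp (-v)) (f' := fun v : ℝ => -Real.exp (-v))]
  · simp
  · intro x _
    have := (hasDerivAt_neg x).exp
    simpa using this
  · intro x _ y _ hxy
    have := Real.exp_injective hxy
    linarith


/-- `L²` identity for the Mellin transform of the kernel on a vertical line. -/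
lemma integral_sq_mellin_ker (a : ℝ) (ha : 0 < a) (lam : ℂ) (c : ℝ) (hc : -(1 / 2) < c) :
    ∫ t : ℝ, ‖mellin (ker a lam) ((c : ℂ) + t * I)‖ ^ 2 =
      2 * Real.pi * ∫ x in Ioi (0:ℝ), x ^ (2 * c - 1) * ‖ker a lam x‖ ^ 2 := by
  set g : ℝ → ℂ := fun v => Real.exp (-c * v) • ker a lam (Real.exp (-v)) with hg
  have hgc : Continuous g := by
    have h1 : Continuous fun v : ℝ => Real.exp (-c * v) := by fun_prop
    exact h1.smul ((continuous_ker a lam).comp (by fun_prop))
  have hmel : ∀ t : ℝ, mellin (ker a lam) ((c : ℂ) + t * I) = 𝓕 g (t / (2 * Real.pi)) := by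
    intro t
    rw [mellin_eq_fourier]
    simp [hg]
  have hpi := Real.pi_pos
  have hmel2 : ∀ ξ : ℝ, 𝓕 g ξ = mellin (ker a lam) ((c : ℂ) + (2 * Real.pi * ξ : ℝ) * I) := by
    intro ξ
    rw [hmel]
    congr 1
    field_simp
  have hint : Integrable g := by
    have hconv := mellinConvergent_ker a lam c (by simpa using ha) (by simpa using hc)
    have h1 : (fun v : ℝ => Real.exp (-v)) '' univ = Ioi 0 := by
      ext x
      simp only [image_univ, mem_range, mem_Ioi]
      constructor
      · rintro ⟨v, rfl⟩; exact Real.exp_pos _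
      · intro hx; exact ⟨-Real.log x, by simp [Real.exp_log hx]⟩
    rw [MellinConvergent, ← h1, integrableOn_image_iff_integrableOn_abs_deriv_smul
      MeasurableSet.univ (f := fun v : ℝ => Real.exp (-v)) (f' := fun v : ℝ => -Real.exp (-v))]
      at hconv
    · rw [integrableOn_univ] at hconv
      refine hconv.congr ?_
      filter_upwards with v
      simp only [hg, abs_neg, abs_of_pos (Real.exp_pos (-v)), Complex.real_smul]
      rw [smul_eq_mul, ← mul_assoc]
      congr 1
      have hv := Real.exp_pos (-v)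
      rw [show ((c : ℂ) - 1) = ((c - 1 : ℝ) : ℂ) by push_cast; ring, ← ofReal_cpow hv.le,
        ← ofReal_mul]
      congr 1
      rw [← Real.exp_log hv, Real.log_exp, ← Real.exp_mul, ← Real.exp_add]
      congr 1
      ring
    · intro x _
      have := (hasDerivAt_neg x).exp
      simpa using this
    · intro x _ y _ hxy
      have := Real.exp_injective hxy
      linarith
  have hFint : Integrable (𝓕 g) := by
    obtain ⟨C, hC, hdec⟩ := mellin_ker_decay a ha lam c c hc le_rfl
    have hcontF : Continuous (𝓕 g) := by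
      have : (𝓕 g) = fun ξ : ℝ => mellin (ker a lam) ((c : ℂ) + (2 * Real.pi * ξ : ℝ) * I) :=
        funext hmel2
      rw [this]
      exact (continuous_mellin_ker_vertical a (by simpa using ha) lam c hc).comp (by fun_prop)
    refine ((integrable_exp_neg_mul_abs (2 * Real.pi) (by positivity)).const_mul C).mono'
      hcontF.aestronglyMeasurable ?_
    filter_upwards with ξ
    rw [hmel2]
    refine (hdec c le_rfl le_rfl _).trans (le_of_eq ?_)
    rw [abs_mul, abs_of_pos (show (0:ℝ) < 2 * Real.pi by positivity)]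
  have hpl := plancherel_of_integrable g hint hgc hFint
  have e1 : ∫ t : ℝ, ‖mellin (ker a lam) ((c : ℂ) + t * I)‖ ^ 2 =
      2 * Real.pi * ∫ ξ : ℝ, ‖𝓕 g ξ‖ ^ 2 := by
    simp_rw [hmel]
    have := Measure.integral_comp_div (fun ξ : ℝ => ‖𝓕 g ξ‖ ^ 2) (2 * Real.pi)
    rw [this, abs_of_pos (by positivity), smul_eq_mul]
  rw [e1, hpl]
  congr 1
  have e2 : ∀ v : ℝ, ‖g v‖ ^ 2 = Real.exp (-v) * ((Real.exp (-v)) ^ (2 * c - 1) *
      ‖ker a lam (Real.exp (-v))‖ ^ 2) := by
    intro v
    simp only [hg]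
    rw [norm_smul, Real.norm_of_nonneg (Real.exp_pos _).le, mul_pow, ← mul_assoc]
    congr 1
    rw [← Real.exp_mul, ← Real.exp_add, ← Real.exp_nat_mul]
    congr 1
    push_cast; ring
  simp_rw [e2]
  exact integral_exp_neg_comp (fun x => x ^ (2 * c - 1) * ‖ker a lam x‖ ^ 2)

end Pool.Agent.Ratios
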