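import Pool.Agent.Ratios.CharFacts
import Pool.Agent.Ratios.Boundary
import Pool.Agent.Ratios.KernelBounds

/-! The functional equation in the form `L(z) = W X(z) L(1 - z)`, and the archimedean factor. -/

set_option autoImplicit false

open Complex MeasureTheory Set Filter Topology

namespace Pool.Agent.Ratios

/-- The root number of `χ_{8d}`. -/
noncomputable def rn (d : Fam) : ℂ := (chi8 (d : ℤ)).rootNumber

lemma ofReal_cpow_eq_exp (x : ℝ) (hx : 0 < x) (s : ℂ) :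
    (x : ℂ) ^ s = cexp ((Real.log x : ℝ) * s) := by
  rw [cpow_def_of_ne_zero (by exact_mod_cast hx.ne'), Complex.ofReal_log hx.le]

/-- The conductor as a real number. -/
lemma cond_pos (d : ℤ) (hd : d ≠ 0) : 0 < 8 * |(d : ℝ)| := by
  have : (0:ℝ) < |(d : ℝ)| := abs_pos.mpr (by exact_mod_cast hd)
  positivity

lemma level_cast (d : ℤ) : (((8 * d.natAbs : ℕ) : ℕ) : ℂ) = ((8 * |(d : ℝ)| : ℝ) : ℂ) := by
  push_cast
  rw [← Complex.ofReal_natCast, Nat.cast_natAbs]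
  push_cast
  rfl

lemma Xd_eq_of_pos (d : ℤ) (hd : 0 < d) (z : ℂ) :
    Xd d z = ((8 * |(d : ℝ)| : ℝ) : ℂ) ^ (1 / 2 - z) * (Gammaℝ (1 - z) * (Gammaℝ z)⁻¹) := by
  have hN := cond_pos d hd.ne'
  have hpi := Real.pi_pos
  rw [Xd, aa, if_pos hd, Gammaℝ_def, Gammaℝ_def, ofReal_cpow_eq_exp _ (by positivity),
    ofReal_cpow_eq_exp _ hN, ofReal_cpow_eq_exp _ hpi, ofReal_cpow_eq_exp _ hpi,
    Real.log_div hN.ne' hpi.ne', mul_inv, ← Complex.exp_neg]
  have e : cexp (((Real.log (8 * |(d : ℝ)|) - Real.log Real.pi : ℝ) : ℂ) * (1 / 2 - z)) =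
      cexp ((Real.log (8 * |(d : ℝ)|) : ℝ) * (1 / 2 - z)) *
      (cexp ((Real.log Real.pi : ℝ) * (-(1 - z) / 2)) *
        cexp (-((Real.log Real.pi : ℝ) * (-z / 2)))) := by
    rw [← Complex.exp_add, ← Complex.exp_add]
    congr 1
    push_cast
    ring
  rw [e]
  rw [show (1 : ℂ) + 0 - z = 1 - z by ring, show (0 : ℂ) + z = z by ring]
  ring

lemma Xd_eq_of_neg (d : ℤ) (hd : d < 0) (z : ℂ) :
    Xd d z = ((8 * |(d : ℝ)| : ℝ) : ℂ) ^ (1 / 2 - z) * (Gammaℝ (2 - z) * (Gammaℝ (z + 1))⁻¹) := by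
  have hN := cond_pos d hd.ne
  have hpi := Real.pi_pos
  rw [Xd, aa, if_neg (by omega), Gammaℝ_def, Gammaℝ_def, ofReal_cpow_eq_exp _ (by positivity),
    ofReal_cpow_eq_exp _ hN, ofReal_cpow_eq_exp _ hpi, ofReal_cpow_eq_exp _ hpi,
    Real.log_div hN.ne' hpi.ne', mul_inv, ← Complex.exp_neg]
  have e : cexp (((Real.log (8 * |(d : ℝ)|) - Real.log Real.pi : ℝ) : ℂ) * (1 / 2 - z)) =
      cexp ((Real.log (8 * |(d : ℝ)|) : ℝ) * (1 / 2 - z)) *
      (cexp ((Real.log Real.pi : ℝ) * (-(2 - z) / 2)) *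
        cexp (-((Real.log Real.pi : ℝ) * (-(z + 1) / 2)))) := by
    rw [← Complex.exp_add, ← Complex.exp_add]
    congr 1
    push_cast
    ring
  rw [e]
  rw [show (1 : ℂ) + 1 - z = 2 - z by ring, show (1 : ℂ) + z = z + 1 by ring]
  ring

lemma completed_one_sub (d : Fam) (s : ℂ) :
    (chi8 (d : ℤ)).completedLFunction (1 - s) =
      ((8 * |((d : ℤ) : ℝ)| : ℝ) : ℂ) ^ (s - 1 / 2) * rn d *
        (chi8 (d : ℤ)).completedLFunction s := by
  have h := (isPrimitive_chi8 d).completedLFunction_one_sub s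
  rw [chi8_inv, level_cast] at h
  exact h

/-- The functional equation in asymmetric form. -/
theorem L8_functional (d : Fam) (z : ℂ) (hz : z.re < 1) :
    L8 d z = rn d * Xd (d : ℤ) z * L8 d (1 - z) := by
  have hd0 : (d : ℤ) ≠ 0 := d.2.2.ne_zero
  have hN1 : (8 * (d : ℤ).natAbs) ≠ 1 := by have := natAbs_pos d; omega
  have hre : 0 < (1 - z).re := by simp; linarith
  have h1 : L8 d z = (chi8 (d : ℤ)).completedLFunction z / (chi8 (d : ℤ)).gammaFactor z :=
    DirichletCharacter.LFunction_eq_completed_div_gammaFactor _ _ (Or.inr hN1)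
  have h2 : L8 d (1 - z) = (chi8 (d : ℤ)).completedLFunction (1 - z) /
      (chi8 (d : ℤ)).gammaFactor (1 - z) :=
    DirichletCharacter.LFunction_eq_completed_div_gammaFactor _ _ (Or.inr hN1)
  have h3 := completed_one_sub d (1 - z)
  rw [show (1 : ℂ) - (1 - z) = z by ring, show (1 : ℂ) - z - 1 / 2 = 1 / 2 - z by ring] at h3
  rcases lt_or_gt_of_ne hd0 with hneg | hpos
  · have hodd := chi8_neg_one_of_neg d hneg
    have hg1 : (chi8 (d : ℤ)).gammaFactor (1 - z) = Gammaℝ (2 - z) := by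
      rw [hodd.gammaFactor_def, show (1 : ℂ) - z + 1 = 2 - z by ring]
    have hg2 : (chi8 (d : ℤ)).gammaFactor z = Gammaℝ (z + 1) := hodd.gammaFactor_def _
    have hne : Gammaℝ (2 - z) ≠ 0 := Gammaℝ_ne_zero_of_re_pos (by simp; linarith)
    rw [h1, h2, h3, hg1, hg2, Xd_eq_of_neg _ hneg, div_eq_mul_inv, div_eq_mul_inv]
    field_simp
  · have heven := chi8_neg_one_of_pos d hpos
    have hg1 : (chi8 (d : ℤ)).gammaFactor (1 - z) = Gammaℝ (1 - z) := heven.gammaFactor_def _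
    have hg2 : (chi8 (d : ℤ)).gammaFactor z = Gammaℝ z := heven.gammaFactor_def _
    have hne : Gammaℝ (1 - z) ≠ 0 := Gammaℝ_ne_zero_of_re_pos hre
    rw [h1, h2, h3, hg1, hg2, Xd_eq_of_pos _ hpos, div_eq_mul_inv, div_eq_mul_inv]
    field_simp

lemma rn_sq (d : Fam) : rn d ^ 2 = 1 := by
  have hd0 : (d : ℤ) ≠ 0 := d.2.2.ne_zero
  have hN := cond_pos _ hd0
  have hN1 : (8 * (d : ℤ).natAbs) ≠ 1 := by have := natAbs_pos d; omega
  have h1 := completed_one_sub d 2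
  have h2 := completed_one_sub d (1 - 2)
  rw [show (1 : ℂ) - (1 - 2) = 2 by ring, h1] at h2
  have hL : L8 d 2 ≠ 0 :=
    DirichletCharacter.LFunction_ne_zero_of_one_le_re _ (Or.inr (by norm_num)) (by norm_num)
  have h3 : L8 d 2 = (chi8 (d : ℤ)).completedLFunction 2 / (chi8 (d : ℤ)).gammaFactor 2 :=
    DirichletCharacter.LFunction_eq_completed_div_gammaFactor _ _ (Or.inr hN1)
  have hC : (chi8 (d : ℤ)).completedLFunction 2 ≠ 0 := by
    intro h0
    rw [h0, zero_div] at h3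
    exact hL h3
  have hpow : ((8 * |((d : ℤ) : ℝ)| : ℝ) : ℂ) ^ ((1 : ℂ) - 2 - 1 / 2) *
      ((8 * |((d : ℤ) : ℝ)| : ℝ) : ℂ) ^ ((2 : ℂ) - 1 / 2) = 1 := by
    rw [← cpow_add _ _ (by exact_mod_cast hN.ne')]
    norm_num
  have h4 : (chi8 (d : ℤ)).completedLFunction 2 * 1 =
      (chi8 (d : ℤ)).completedLFunction 2 * rn d ^ 2 := by
    linear_combination h2 + hpow * ((chi8 (d : ℤ)).completedLFunction 2 * rn d ^ 2)
  exact (mul_left_cancel₀ hC h4).symm

lemma rn_eq (d : Fam) : rn d = 1 ∨ rn d = -1 := by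
  have h := rn_sq d
  have h2 : (rn d - 1) * (rn d + 1) = 0 := by linear_combination h
  rcases mul_eq_zero.mp h2 with h | h
  · left; linear_combination h
  · right; linear_combination h

/-- `1 / (v I)` to a power, `v > 0`. -/
lemma one_div_mul_I_cpow_pos (v : ℝ) (hv : 0 < v) (s : ℂ) :
    (1 / ((v : ℂ) * I)) ^ s = cexp (-((Real.log v : ℝ) * s)) * cexp (-(Real.pi / 2 * I * s)) := by
  have hpi := Real.pi_pos
  have e : (1 / ((v : ℂ) * I)) = ((v⁻¹ : ℝ) : ℂ) * cexp (((-(Real.pi / 2) : ℝ) : ℂ) * I) := by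
    have : cexp (((-(Real.pi / 2) : ℝ) : ℂ) * I) = -I := by
      rw [show ((-(Real.pi / 2) : ℝ) : ℂ) * I = -(Real.pi / 2 * I) by push_cast; ring,
        Complex.exp_neg, Complex.exp_pi_div_two_mul_I, Complex.inv_I]
    rw [this]
    have hv0 : (v : ℂ) ≠ 0 := by exact_mod_cast hv.ne'
    push_cast
    field_simp
    rw [Complex.I_sq]
    ring
  rw [e, real_mul_exp_cpow _ (by positivity) _ (by linarith) (by linarith),
    ofReal_cpow_eq_exp _ (by positivity), Real.log_inv]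
  congr 2
  · push_cast; ring
  · push_cast; ring

lemma one_div_mul_I_cpow_neg (v : ℝ) (hv : 0 < v) (s : ℂ) :
    (1 / (((-v : ℝ) : ℂ) * I)) ^ s =
      cexp (-((Real.log v : ℝ) * s)) * cexp (Real.pi / 2 * I * s) := by
  have hpi := Real.pi_pos
  have e : (1 / (((-v : ℝ) : ℂ) * I)) =
      ((v⁻¹ : ℝ) : ℂ) * cexp (((Real.pi / 2 : ℝ) : ℂ) * I) := by
    have : cexp (((Real.pi / 2 : ℝ) : ℂ) * I) = I := by
      rw [show ((Real.pi / 2 : ℝ) : ℂ) * I = Real.pi / 2 * I by push_cast; ring,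
        Complex.exp_pi_div_two_mul_I]
    rw [this]
    have hv0 : (v : ℂ) ≠ 0 := by exact_mod_cast hv.ne'
    push_cast
    field_simp
    rw [Complex.I_sq]
  rw [e, real_mul_exp_cpow _ (by positivity) _ (by linarith) (by linarith),
    ofReal_cpow_eq_exp _ (by positivity), Real.log_inv]
  congr 2
  · push_cast; ring
  · push_cast; ring

/-- The Mellin multiplier attached to the frequency `v`. -/
noncomputable def mlt (v : ℝ) (z : ℂ) : ℂ := (1 / ((v : ℂ) * I)) ^ (1 - z) * Gamma (1 - z)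

/-- The archimedean factor times a power, even case. -/
lemma Xd_mul_cpow_pos (d : ℤ) (hd : 0 < d) (n : ℕ) (hn : 0 < n) (z : ℂ) (hz : z.re < 1) :
    Xd d z * (n : ℂ) ^ (z - 1) = (((Real.sqrt (8 * |(d : ℝ)|))⁻¹ : ℝ) : ℂ) *
      (mlt (2 * Real.pi * (n / (8 * |(d : ℝ)|))) z +
        mlt (-(2 * Real.pi * (n / (8 * |(d : ℝ)|)))) z) := by
  have hN := cond_pos d hd.ne'
  have hpi := Real.pi_pos
  have hn' : (0:ℝ) < n := by exact_mod_cast hn
  set N := 8 * |(d : ℝ)| with hNdef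
  have hs : ∀ m : ℕ, (1 : ℂ) - z ≠ -(2 * m + 1) := by
    intro m h
    have h2 := congrArg Complex.re h
    simp at h2
    have : (0:ℝ) ≤ m := Nat.cast_nonneg m
    linarith
  have hlog : Real.log (2 * Real.pi * (n / N)) =
      Real.log (2 * Real.pi) + (Real.log (n : ℝ) - Real.log N) := by
    rw [Real.log_mul (by positivity) (by positivity), Real.log_div hn'.ne' hN.ne']
  have h1 := Gammaℝ_div_Gammaℝ_one_sub hs
  rw [show (1 : ℂ) - (1 - z) = z by ring, div_eq_mul_inv] at h1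
  rw [Xd_eq_of_pos d hd, ← hNdef, h1, Gammaℂ_def, mlt, mlt, one_div_mul_I_cpow_pos _ (by positivity),
    one_div_mul_I_cpow_neg _ (by positivity), Complex.cos, ← Complex.ofReal_natCast n,
    ofReal_cpow_eq_exp _ hn', ofReal_cpow_eq_exp _ hN,
    show (2 * (Real.pi : ℂ)) = ((2 * Real.pi : ℝ) : ℂ) by push_cast; ring,
    ofReal_cpow_eq_exp _ (by positivity), hlog]
  have hsq : (((Real.sqrt N)⁻¹ : ℝ) : ℂ) = cexp (-((Real.log N : ℝ) * (1 / 2))) := by
    have : (Real.sqrt N)⁻¹ = Real.exp (-(Real.log N * (1 / 2))) := by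
      rw [Real.sqrt_eq_rpow, ← Real.rpow_neg hN.le, Real.rpow_def_of_pos hN]
      ring_nf
    rw [this]
    push_cast
    rfl
  rw [hsq]
  have e1 : (Real.pi : ℂ) * (1 - z) / 2 * I = Real.pi / 2 * I * (1 - z) := by ring
  have e2 : -((Real.pi : ℂ) * (1 - z) / 2) * I = -(Real.pi / 2 * I * (1 - z)) := by ring
  rw [e1, e2]
  have e3 : cexp ((Real.log N : ℝ) * (1 / 2 - z)) * cexp ((Real.log (2 * Real.pi) : ℝ) * -(1 - z))
      * cexp ((Real.log (n : ℝ) : ℝ) * (z - 1)) =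
      cexp (-((Real.log N : ℝ) * (1 / 2))) *
      cexp (-(((Real.log (2 * Real.pi) + (Real.log (n : ℝ) - Real.log N) : ℝ) : ℂ) * (1 - z))) := by
    rw [← Complex.exp_add, ← Complex.exp_add, ← Complex.exp_add]
    congr 1
    push_cast
    ring
  linear_combination (Gamma (1 - z) * (cexp (Real.pi / 2 * I * (1 - z)) +
    cexp (-(Real.pi / 2 * I * (1 - z))))) * e3

/-- The archimedean factor times a power, odd case. -/
lemma Xd_mul_cpow_neg (d : ℤ) (hd : d < 0) (n : ℕ) (hn : 0 < n) (z : ℂ) (hz : z.re < 1) :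
    Xd d z * (n : ℂ) ^ (z - 1) = (((Real.sqrt (8 * |(d : ℝ)|))⁻¹ : ℝ) : ℂ) * I *
      (mlt (2 * Real.pi * (n / (8 * |(d : ℝ)|))) z -
        mlt (-(2 * Real.pi * (n / (8 * |(d : ℝ)|)))) z) := by
  have hN := cond_pos d hd.ne
  have hpi := Real.pi_pos
  have hn' : (0:ℝ) < n := by exact_mod_cast hn
  set N := 8 * |(d : ℝ)| with hNdef
  have hs : ∀ m : ℕ, (1 : ℂ) - z ≠ -m := by
    intro m h
    have h2 := congrArg Complex.re h
    simp at h2
    have : (0:ℝ) ≤ m := Nat.cast_nonneg m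
    linarith
  have hlog : Real.log (2 * Real.pi * (n / N)) =
      Real.log (2 * Real.pi) + (Real.log (n : ℝ) - Real.log N) := by
    rw [Real.log_mul (by positivity) (by positivity), Real.log_div hn'.ne' hN.ne']
  have h1 := inv_Gammaℝ_two_sub hs
  rw [show (2 : ℂ) - (1 - z) = z + 1 by ring, show (1 : ℂ) - z + 1 = 2 - z by ring] at h1
  have hne : Gammaℝ (2 - z) ≠ 0 := Gammaℝ_ne_zero_of_re_pos (by simp; linarith)
  have h2 : Gammaℝ (2 - z) * (Gammaℝ (z + 1))⁻¹ =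
      Gammaℂ (1 - z) * Complex.sin (Real.pi * (1 - z) / 2) := by
    rw [h1]
    field_simp
  rw [Xd_eq_of_neg d hd, ← hNdef, h2, Gammaℂ_def, mlt, mlt, one_div_mul_I_cpow_pos _ (by positivity),
    one_div_mul_I_cpow_neg _ (by positivity), Complex.sin, ← Complex.ofReal_natCast n,
    ofReal_cpow_eq_exp _ hn', ofReal_cpow_eq_exp _ hN,
    show (2 * (Real.pi : ℂ)) = ((2 * Real.pi : ℝ) : ℂ) by push_cast; ring,
    ofReal_cpow_eq_exp _ (by positivity), hlog]
  have hsq : (((Real.sqrt N)⁻¹ : ℝ) : ℂ) = cexp (-((Real.log N : ℝ) * (1 / 2))) := by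
    have : (Real.sqrt N)⁻¹ = Real.exp (-(Real.log N * (1 / 2))) := by
      rw [Real.sqrt_eq_rpow, ← Real.rpow_neg hN.le, Real.rpow_def_of_pos hN]
      ring_nf
    rw [this]
    push_cast
    rfl
  rw [hsq]
  have e1 : (Real.pi : ℂ) * (1 - z) / 2 * I = Real.pi / 2 * I * (1 - z) := by ring
  have e2 : -((Real.pi : ℂ) * (1 - z) / 2) * I = -(Real.pi / 2 * I * (1 - z)) := by ring
  rw [e1, e2]
  have e3 : cexp ((Real.log N : ℝ) * (1 / 2 - z)) * cexp ((Real.log (2 * Real.pi) : ℝ) * -(1 - z))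
      * cexp ((Real.log (n : ℝ) : ℝ) * (z - 1)) =
      cexp (-((Real.log N : ℝ) * (1 / 2))) *
      cexp (-(((Real.log (2 * Real.pi) + (Real.log (n : ℝ) - Real.log N) : ℝ) : ℂ) * (1 - z))) := by
    rw [← Complex.exp_add, ← Complex.exp_add, ← Complex.exp_add]
    congr 1
    push_cast
    ring
  linear_combination (Gamma (1 - z) * (cexp (-(Real.pi / 2 * I * (1 - z))) -
    cexp (Real.pi / 2 * I * (1 - z))) * I) * e3

end Pool.Agent.Ratios
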