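import Pool.Agent.Ratios.RootNumber

/-! The exact identity obtained by integrating the difference against the kernel. -/

set_option autoImplicit false

open Complex MeasureTheory Set Filter Topology

namespace Pool.Agent.Ratios

/-- The difference in the conjecture, times the total weight, on the line `Re z = 3/8`. -/
noncomputable def Gf (X : ℕ) (t : ℝ) : ℂ :=
  ((Wstar wS X : ℝ) : ℂ) * ratiosDiff wS X (zt t - 1 / 2) (1 / 2 + h16 - zt t)

/-- The first main term on the line. -/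
noncomputable def P1 (t : ℝ) : ℂ := Zf (2 * zt t) * (Ch h16 * S1 h16 (2 * zt t))

/-- Coefficients of the second main term. -/
noncomputable def cb (k : ℕ) : ℂ := if k = 0 then 0 else (mPF (bp h16) k : ℂ)

/-- The second main term on the line. -/
noncomputable def P2 (t : ℝ) : ℂ := ∑' k : ℕ, cb k * ((k ^ 2 : ℕ) : ℂ) ^ (zt t - 1)

lemma norm_cb_le (k : ℕ) : ‖cb k‖ ≤ 1 := by
  rw [cb]
  split_ifs
  · simp
  · rw [Complex.norm_real, Real.norm_eq_abs]
    exact abs_mPF_le_one _ (abs_bp_le h16 h16_pos) k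

lemma cb_even (k : ℕ) (hk : Even k) : cb k = 0 := by
  rw [cb]
  split_ifs with h
  · rfl
  · have h2 : 2 ∈ k.primeFactors :=
      Nat.mem_primeFactors.mpr ⟨Nat.prime_two, hk.two_dvd, h⟩
    have : mPF (bp h16) k = 0 := by
      rw [mPF]
      exact Finset.prod_eq_zero h2 (by simp [bp])
    rw [this]; simp

lemma Phi_one_line (t : ℝ) : Phi (zt t - 1 / 2) (1 / 2 + h16 - zt t) = P1 t :=
  Phi_one h16 h16_pos (zt t) (by rw [zt_re]; norm_num)

lemma natCast_sq_cpow (k : ℕ) (hk : 0 < k) (w : ℂ) : ((k ^ 2 : ℕ) : ℂ) ^ w = (k : ℂ) ^ (2 * w) := by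
  have hk' : (0:ℝ) < k := by exact_mod_cast hk
  have e1 : ((k ^ 2 : ℕ) : ℂ) = (((k : ℝ) ^ 2 : ℝ) : ℂ) := by push_cast; rfl
  rw [e1, ← Complex.ofReal_natCast k, ofReal_cpow_eq_exp _ (by positivity),
    ofReal_cpow_eq_exp _ hk', Real.log_pow]
  congr 1
  push_cast
  ring

lemma Phi_two_line (t : ℝ) : Phi (1 / 2 - zt t) (1 / 2 + h16 - zt t) = P2 t := by
  rw [Phi_two h16 h16_pos (zt t) (by rw [zt_re]; norm_num), P2]
  refine tsum_congr fun k => ?_
  rcases Nat.eq_zero_or_pos k with rfl | hk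
  · have hne : -(2 - 2 * zt t) ≠ 0 := by
      intro h
      have h2 := congrArg Complex.re h
      rw [neg_re, sub_re, two_zt_re] at h2
      norm_num at h2
    rw [Nat.cast_zero, zero_cpow hne, mul_zero, cb, if_pos rfl, zero_mul]
  · rw [cb, if_neg hk.ne', natCast_sq_cpow k hk]
    congr 2
    ring

/-- The three pieces. -/
lemma Gf_eq (X : ℕ) (hX : 0 < X) (hW : Wstar wS X ≠ 0) (t : ℝ) :
    Gf X t = ∑ d ∈ FS X, (wd X d : ℂ) * (L8 d (zt t) / L8 d (1 + h16 - zt t)) -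
      ((Wstar wS X : ℝ) : ℂ) * P1 t - (∑ d ∈ FS X, (wd X d : ℂ) * Xd d (zt t)) * P2 t := by
  have e1 : (1 : ℂ) / 2 + (zt t - 1 / 2) = zt t := by ring
  have e2 : (1 : ℂ) / 2 + (1 / 2 + h16 - zt t) = 1 + h16 - zt t := by ring
  rw [Gf, mul_ratiosDiff X hX hW, Phi_one_line, neg_sub, Phi_two_line, e1, e2]

/-! Continuity and bounds on the line. -/

lemma continuous_L_ratio_line (hG : GRH) (d : Fam) :
    Continuous (fun t : ℝ => L8 d (zt t) / L8 d (1 + h16 - zt t)) := by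
  have hLd : Differentiable ℂ (L8 d) := DirichletCharacter.differentiable_LFunction (chi8_ne_one d)
  refine Continuous.div (hLd.continuous.comp continuous_zt)
    (hLd.continuous.comp (continuous_const.sub continuous_zt)) fun t => ?_
  apply L8_ne_zero hG d
  simp [zt_re, h16]
  norm_num

lemma norm_L_ratio_line (hG : GRH) (X : ℕ) (d : Fam) (hd : d ∈ FS X) (t : ℝ) :
    ‖L8 d (zt t) / L8 d (1 + h16 - zt t)‖ ≤
      (1000 * 3 * 21 ^ 14 * 16 ^ 16) * (X : ℝ) ^ 16 * (1 + |t|) ^ 17 := by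
  have hdX : 8 * |((d : ℤ) : ℝ)| ≤ 16 * X := by
    have := (mem_FS X d).mp hd
    have h2 : ((|(d : ℤ)| : ℤ) : ℝ) ≤ (((2 * X : ℕ) : ℤ) : ℝ) := by exact_mod_cast this
    push_cast at h2
    linarith
  have h1 := norm_L8_left d (zt t) (by rw [zt_re]; norm_num) (by rw [zt_re])
  have hre : (1 + (h16 : ℂ) - zt t).re = 11 / 16 := by simp [zt_re, h16]; norm_num
  have him : |(1 + (h16 : ℂ) - zt t).im| = |t| := by simp [zt_im]
  have h2 := norm_inv_L8_le hG d (1 + h16 - zt t) (by rw [hre])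
  rw [him] at h2
  rw [zt_im] at h1
  rw [div_eq_mul_inv, norm_mul]
  have hN := cond_pos (d : ℤ) d.2.2.ne_zero
  set N := 8 * |((d : ℤ) : ℝ)|
  calc ‖L8 d (zt t)‖ * ‖(L8 d (1 + h16 - zt t))⁻¹‖
      ≤ (1000 * N ^ 2 * (1 + |t|) ^ 3) * (3 * 21 ^ 14 * N ^ 14 * (1 + |t|) ^ 14) := by gcongr
    _ = (1000 * 3 * 21 ^ 14) * N ^ 16 * (1 + |t|) ^ 17 := by ring
    _ ≤ (1000 * 3 * 21 ^ 14) * (16 * X) ^ 16 * (1 + |t|) ^ 17 := by gcongr
    _ = _ := by rw [mul_pow]; ring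

/-- The constant bounding the series. -/
noncomputable def Bz : ℝ := ∑' k : ℕ, (k : ℝ) ^ (-(5 / 4) : ℝ)

lemma summable_Bz : Summable fun k : ℕ => (k : ℝ) ^ (-(5 / 4) : ℝ) :=
  Real.summable_nat_rpow.mpr (by norm_num)

lemma Bz_nonneg : 0 ≤ Bz := tsum_nonneg fun k => by positivity

lemma norm_sPF_line (k : ℕ) (t : ℝ) :
    ‖(sPF (vp h16) k : ℂ) * (k : ℂ) ^ (-(2 * zt t))‖ ≤ (k : ℝ) ^ (-(5 / 4) : ℝ) := by
  refine (norm_sPF_cpow_le h16 h16_pos (2 * zt t) (by rw [two_zt_re]; norm_num) k).trans ?_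
  rw [two_zt_re]
  rcases Nat.eq_zero_or_pos k with rfl | hk
  · rw [Nat.cast_zero, Real.zero_rpow (by norm_num), Real.zero_rpow (by norm_num)]; simp
  · have hk1 : (1:ℝ) ≤ k := by exact_mod_cast hk
    have hk0 : (0:ℝ) < k := by linarith
    rw [one_div, ← Real.rpow_neg hk0.le]
    exact Real.rpow_le_rpow_of_exponent_le hk1 (by norm_num)

lemma norm_cb_line (k : ℕ) (t : ℝ) :
    ‖cb k * ((k ^ 2 : ℕ) : ℂ) ^ (zt t - 1)‖ ≤ (k : ℝ) ^ (-(5 / 4) : ℝ) := by
  rcases Nat.eq_zero_or_pos k with rfl | hk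
  · rw [cb, if_pos rfl, zero_mul, norm_zero]; positivity
  · have hk0 : (0:ℝ) < k := by exact_mod_cast hk
    rw [natCast_sq_cpow k hk, norm_mul, norm_natCast_cpow_of_pos hk]
    have e : (2 * (zt t - 1)).re = -(5 / 4) := by
      have : 2 * (zt t - 1) = 2 * zt t - 2 := by ring
      rw [this, sub_re, two_zt_re]
      norm_num
    rw [e]
    have h1 := norm_cb_le k
    have h2 : 0 ≤ (k : ℝ) ^ (-(5 / 4) : ℝ) := by positivity
    nlinarith

lemma continuous_S1_line : Continuous (fun t : ℝ => S1 h16 (2 * zt t)) := by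
  unfold S1
  refine continuous_tsum (u := fun k : ℕ => (k : ℝ) ^ (-(5 / 4) : ℝ)) (fun k => ?_) summable_Bz
    (fun k t => norm_sPF_line k t)
  rcases Nat.eq_zero_or_pos k with rfl | hk
  · simp only [sPF_zero]; simp only [Complex.ofReal_zero, zero_mul]; exact continuous_const
  · refine continuous_const.mul (Continuous.const_cpow ?_ (Or.inl ?_))
    · exact (continuous_const.mul continuous_zt).neg
    · exact_mod_cast hk.ne'

lemma continuous_P2 : Continuous P2 := by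
  unfold P2
  refine continuous_tsum (u := fun k : ℕ => (k : ℝ) ^ (-(5 / 4) : ℝ)) (fun k => ?_) summable_Bz
    (fun k t => norm_cb_line k t)
  rcases Nat.eq_zero_or_pos k with rfl | hk
  · simp only [cb, if_true, zero_mul]; exact continuous_const
  · refine continuous_const.mul (Continuous.const_cpow ?_ (Or.inl ?_))
    · exact continuous_zt.sub continuous_const
    · have : k ^ 2 ≠ 0 := by positivity
      exact_mod_cast this

lemma norm_S1_line (t : ℝ) : ‖S1 h16 (2 * zt t)‖ ≤ Bz :=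
  tsum_of_norm_bounded summable_Bz.hasSum fun k => norm_sPF_line k t

lemma norm_P2_le (t : ℝ) : ‖P2 t‖ ≤ Bz :=
  tsum_of_norm_bounded summable_Bz.hasSum fun k => norm_cb_line k t

lemma continuous_Zf_line : Continuous (fun t : ℝ => Zf (2 * zt t)) := by
  have e : (fun t : ℝ => Zf (2 * zt t)) = fun t : ℝ => (2 * zt t) * gint BoddC (2 * zt t) +
      (2 * zt t) / (2 * (2 * zt t - 1)) := by
    funext t
    refine Zf_eq _ (by rw [two_zt_re]; norm_num) ?_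
    intro h
    have h2 := congrArg Complex.re h
    rw [two_zt_re] at h2
    norm_num at h2
  rw [e]
  have hc : Continuous (fun t : ℝ => 2 * zt t) := continuous_const.mul continuous_zt
  refine Continuous.add (hc.mul ?_) (hc.div (continuous_const.mul (hc.sub continuous_const)) ?_)
  · rw [continuous_iff_continuousAt]
    intro t
    have h := (differentiableAt_gint BoddC measurable_BoddC (1 / 2) norm_BoddC_le (2 * zt t)
      (by rw [two_zt_re]; norm_num)).continuousAt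
    exact ContinuousAt.comp (f := fun t : ℝ => 2 * zt t) h hc.continuousAt
  · intro t h
    have h2 := congrArg Complex.re h
    have e2 : (2 * (2 * zt t - 1)).re = 2 * ((2 * zt t).re - 1) := by simp
    rw [e2, two_zt_re] at h2
    norm_num at h2

lemma continuous_P1 : Continuous P1 :=
  continuous_Zf_line.mul (continuous_const.mul continuous_S1_line)

lemma norm_P1_le (t : ℝ) : ‖P1 t‖ ≤ (3 * Bz) * (1 + |t|) := by
  rw [P1, norm_mul, norm_mul]
  have h1 := norm_Zf_zt_le t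
  have h2 := norm_Ch_le h16 h16_pos
  have h3 := norm_S1_line t
  have h4 : 8 * h16 = 1 / 2 := by unfold h16; norm_num
  rw [h4] at h2
  have h5 := Bz_nonneg
  have h6 : 0 ≤ 1 + |t| := by positivity
  calc ‖Zf (2 * zt t)‖ * (‖Ch h16‖ * ‖S1 h16 (2 * zt t)‖) ≤ (6 * (1 + |t|)) * (1 / 2 * Bz) := by
        gcongr
    _ = _ := by ring

lemma norm_Xd_line (X : ℕ) (hX : 0 < X) (d : Fam) (hd : d ∈ FS X) (t : ℝ) :
    ‖Xd d (zt t)‖ ≤ 14 * 16 * 16 * X * (1 + |t|) ^ 2 := by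
  have hdX : 8 * |((d : ℤ) : ℝ)| ≤ 16 * X := by
    have := (mem_FS X d).mp hd
    have h2 : ((|(d : ℤ)| : ℤ) : ℝ) ≤ (((2 * X : ℕ) : ℤ) : ℝ) := by exact_mod_cast this
    push_cast at h2
    linarith
  have hX' : (1:ℝ) ≤ X := by exact_mod_cast hX
  have h1 := norm_Xd_le (d : ℤ) d.2.2.ne_zero (zt t) (by rw [zt_re]; norm_num)
    (by rw [zt_re]; norm_num)
  rw [zt_re, zt_im] at h1
  have hG := Gamma_real_le (1 - 3 / 8) (by norm_num) (by norm_num)
  have hGp : 0 < Real.Gamma (1 - 3 / 8) := Real.Gamma_pos_of_pos (by norm_num)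
  have hN := cond_pos (d : ℤ) d.2.2.ne_zero
  have h2 : (8 * |((d : ℤ) : ℝ)|) ^ (1 / 2 - 3 / 8 : ℝ) ≤ 16 * X := by
    calc (8 * |((d : ℤ) : ℝ)|) ^ (1 / 2 - 3 / 8 : ℝ) ≤ (16 * X : ℝ) ^ (1 / 2 - 3 / 8 : ℝ) :=
          Real.rpow_le_rpow hN.le hdX (by norm_num)
      _ ≤ (16 * X : ℝ) ^ (1 : ℝ) :=
          Real.rpow_le_rpow_of_exponent_le (by linarith) (by norm_num)
      _ = _ := Real.rpow_one _
  calc _ ≤ _ := h1
    _ ≤ 14 * (16 * X) * 16 * (1 + |t|) ^ 2 := by gcongr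
    _ = _ := by ring

/-- Crude polynomial bound for the difference. -/
theorem norm_Gf_le (hG : GRH) : ∃ C₀ : ℝ, 0 ≤ C₀ ∧ ∀ X : ℕ, 0 < X → Wstar wS X ≠ 0 → ∀ t : ℝ,
    ‖Gf X t‖ ≤ C₀ * (X : ℝ) ^ 17 * (1 + |t|) ^ 17 := by
  have hBz := Bz_nonneg
  refine ⟨5 * (1000 * 3 * 21 ^ 14 * 16 ^ 16) + 5 * (3 * Bz) + 5 * (14 * 16 * 16) * Bz,
    by positivity, fun X hX hW t => ?_⟩
  have hX' : (1:ℝ) ≤ X := by exact_mod_cast hX
  have ht : 1 ≤ 1 + |t| := by linarith [abs_nonneg t]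
  rw [Gf_eq X hX hW]
  have hWs := Wstar_eq X hX
  have hWle := Wstar_le X hX
  have hWnn := Wstar_nonneg X hX
  have b1 : ‖∑ d ∈ FS X, (wd X d : ℂ) * (L8 d (zt t) / L8 d (1 + h16 - zt t))‖ ≤
      (5 * X) * ((1000 * 3 * 21 ^ 14 * 16 ^ 16) * (X : ℝ) ^ 16 * (1 + |t|) ^ 17) := by
    refine (norm_sum_le _ _).trans ?_
    have h1 : ∀ d ∈ FS X, ‖(wd X d : ℂ) * (L8 d (zt t) / L8 d (1 + h16 - zt t))‖ ≤
        wd X d * ((1000 * 3 * 21 ^ 14 * 16 ^ 16) * (X : ℝ) ^ 16 * (1 + |t|) ^ 17) := by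
      intro d hd
      rw [norm_mul, Complex.norm_real, Real.norm_of_nonneg (wd_nonneg X d)]
      exact mul_le_mul_of_nonneg_left (norm_L_ratio_line hG X d hd t) (wd_nonneg X d)
    refine (Finset.sum_le_sum h1).trans ?_
    rw [← Finset.sum_mul, ← hWs]
    gcongr
  have b2 : ‖((Wstar wS X : ℝ) : ℂ) * P1 t‖ ≤ (5 * X) * ((3 * Bz) * (1 + |t|)) := by
    rw [norm_mul, Complex.norm_real, Real.norm_of_nonneg hWnn]
    gcongr
    exact norm_P1_le t
  have b3 : ‖(∑ d ∈ FS X, (wd X d : ℂ) * Xd d (zt t)) * P2 t‖ ≤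
      ((5 * X) * (14 * 16 * 16 * X * (1 + |t|) ^ 2)) * Bz := by
    rw [norm_mul]
    refine mul_le_mul ?_ (norm_P2_le t) (norm_nonneg _) (by positivity)
    refine (norm_sum_le _ _).trans ?_
    have h1 : ∀ d ∈ FS X, ‖(wd X d : ℂ) * Xd d (zt t)‖ ≤
        wd X d * (14 * 16 * 16 * X * (1 + |t|) ^ 2) := by
      intro d hd
      rw [norm_mul, Complex.norm_real, Real.norm_of_nonneg (wd_nonneg X d)]
      exact mul_le_mul_of_nonneg_left (norm_Xd_line X hX d hd t) (wd_nonneg X d)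
    refine (Finset.sum_le_sum h1).trans ?_
    rw [← Finset.sum_mul, ← hWs]
    gcongr
  have e2 : (X : ℝ) * (1 + |t|) ≤ (X : ℝ) ^ 17 * (1 + |t|) ^ 17 := by
    gcongr
    · exact le_self_pow₀ hX' (by norm_num)
    · exact le_self_pow₀ ht (by norm_num)
  have e3 : (X : ℝ) ^ 2 * (1 + |t|) ^ 2 ≤ (X : ℝ) ^ 17 * (1 + |t|) ^ 17 :=
    mul_le_mul (pow_le_pow_right₀ hX' (by norm_num)) (pow_le_pow_right₀ ht (by norm_num))
      (by positivity) (by positivity)
  calc _ ≤ (5 * X) * ((1000 * 3 * 21 ^ 14 * 16 ^ 16) * (X : ℝ) ^ 16 * (1 + |t|) ^ 17) +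
        (5 * X) * ((3 * Bz) * (1 + |t|)) +
        ((5 * X) * (14 * 16 * 16 * X * (1 + |t|) ^ 2)) * Bz :=
        (norm_sub_le _ _).trans (add_le_add ((norm_sub_le _ _).trans (add_le_add b1 b2)) b3)
    _ = 5 * (1000 * 3 * 21 ^ 14 * 16 ^ 16) * ((X : ℝ) ^ 17 * (1 + |t|) ^ 17) +
        5 * (3 * Bz) * ((X : ℝ) * (1 + |t|)) +
        5 * (14 * 16 * 16) * Bz * ((X : ℝ) ^ 2 * (1 + |t|) ^ 2) := by ring
    _ ≤ 5 * (1000 * 3 * 21 ^ 14 * 16 ^ 16) * ((X : ℝ) ^ 17 * (1 + |t|) ^ 17) +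
        5 * (3 * Bz) * ((X : ℝ) ^ 17 * (1 + |t|) ^ 17) +
        5 * (14 * 16 * 16) * Bz * ((X : ℝ) ^ 17 * (1 + |t|) ^ 17) := by gcongr
    _ = _ := by ring

end Pool.Agent.Ratios
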