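import Pool.Agent.Ratios.Identity

/-! The exact identity. -/

set_option autoImplicit false

open Complex MeasureTheory Set Filter Topology

namespace Pool.Agent.Ratios

lemma continuous_mellin_zt (a : ℝ) (ha : 0 < a) (lam : ℂ) :
    Continuous (fun t : ℝ => mellin (ker a lam) (zt t)) :=
  continuous_mellin_ker_vertical a (by simpa using ha) lam (3 / 8) (by norm_num)

lemma integrable_mellin_mul (a : ℝ) (ha : 0 < a) (lam : ℂ) (g : ℝ → ℂ) (hg : Continuous g)
    (C : ℝ) (hb : ∀ t, ‖g t‖ ≤ C * (1 + |t|) ^ 17) :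
    Integrable (fun t : ℝ => mellin (ker a lam) (zt t) * g t) := by
  obtain ⟨C', hC', hdec⟩ := mellin_ker_decay a ha lam (3 / 8) (3 / 8) (by norm_num) le_rfl
  refine ((integrable_pow_mul_exp 17 1 one_pos).const_mul (C' * C)).mono'
    ((continuous_mellin_zt a ha lam).mul hg).aestronglyMeasurable ?_
  filter_upwards with t
  rw [norm_mul]
  have h1 := hdec (3 / 8) le_rfl le_rfl t
  have h2 := hb t
  calc ‖mellin (ker a lam) (zt t)‖ * ‖g t‖
      ≤ (C' * Real.exp (-|t|)) * (C * (1 + |t|) ^ 17) := by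
        gcongr
        exact h1
    _ = _ := by rw [one_mul]; ring

lemma integrable_L_ratio (hG : GRH) (a : ℝ) (ha : 0 < a) (lam : ℂ) (X : ℕ) (d : Fam)
    (hd : d ∈ FS X) :
    Integrable (fun t : ℝ => mellin (ker a lam) (zt t) *
      (L8 d (zt t) / L8 d (1 + h16 - zt t))) :=
  integrable_mellin_mul a ha lam _ (continuous_L_ratio_line hG d) _
    (norm_L_ratio_line hG X d hd)

lemma pow_le_pow_17 (t : ℝ) (n : ℕ) (hn : n ≤ 17) : (1 + |t|) ^ n ≤ (1 + |t|) ^ 17 :=
  pow_le_pow_right₀ (by linarith [abs_nonneg t]) hn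

lemma integrable_P1 (a : ℝ) (ha : 0 < a) (lam : ℂ) :
    Integrable (fun t : ℝ => mellin (ker a lam) (zt t) * P1 t) := by
  refine integrable_mellin_mul a ha lam _ continuous_P1 (3 * Bz) fun t => ?_
  refine (norm_P1_le t).trans ?_
  have h1 := pow_le_pow_17 t 1 (by norm_num)
  rw [pow_one] at h1
  have := Bz_nonneg
  gcongr

lemma integrable_XP2 (a : ℝ) (ha : 0 < a) (lam : ℂ) (X : ℕ) (hX : 0 < X) (d : Fam)
    (hd : d ∈ FS X) :
    Integrable (fun t : ℝ => mellin (ker a lam) (zt t) * (Xd d (zt t) * P2 t)) := by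
  refine integrable_mellin_mul a ha lam _
    ((continuous_Xd_vertical (d : ℤ) d.2.2.ne_zero (3 / 8) (by norm_num)).mul continuous_P2)
    ((14 * 16 * 16 * X) * Bz) fun t => ?_
  rw [norm_mul]
  have h1 := norm_Xd_line X hX d hd t
  have h2 := norm_P2_le t
  have h3 := pow_le_pow_17 t 2 (by norm_num)
  have h4 := Bz_nonneg
  calc ‖Xd d (zt t)‖ * ‖P2 t‖ ≤ (14 * 16 * 16 * X * (1 + |t|) ^ 2) * Bz := by gcongr
    _ ≤ (14 * 16 * 16 * X * (1 + |t|) ^ 17) * Bz := by gcongr
    _ = _ := by ring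

/-- First main term: series. -/
theorem hasSum_P1 (a : ℝ) (ha : 0 < a) (lam : ℂ) :
    HasSum (fun k : ℕ => Ch h16 * ((sPF (vp h16) k : ℂ) * Jk a lam k))
      (∫ t : ℝ, mellin (ker a lam) (zt t) * P1 t) := by
  set F : ℕ → ℝ → ℂ := fun k t => mellin (ker a lam) (zt t) *
    (Zf (2 * zt t) * (Ch h16 * ((sPF (vp h16) k : ℂ) * (k : ℂ) ^ (-(2 * zt t))))) with hF
  have hpow : ∀ k : ℕ, Continuous (fun t : ℝ => (sPF (vp h16) k : ℂ) *
      (k : ℂ) ^ (-(2 * zt t))) := by
    intro k
    rcases Nat.eq_zero_or_pos k with rfl | hk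
    · simp only [sPF_zero, Complex.ofReal_zero, zero_mul]; exact continuous_const
    · refine continuous_const.mul (Continuous.const_cpow ?_ (Or.inl ?_))
      · exact (continuous_const.mul continuous_zt).neg
      · exact_mod_cast hk.ne'
  have hFc : ∀ k, Continuous (F k) := fun k =>
    (continuous_mellin_zt a ha lam).mul (continuous_Zf_line.mul
      (continuous_const.mul (hpow k)))
  set H : ℝ → ℝ := fun t => ‖mellin (ker a lam) (zt t)‖ * (6 * (1 + |t|) * (1 / 2)) with hH
  have hHi : Integrable H := by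
    have h1 := (integrable_mellin_mul a ha lam (fun t => ((6 * (1 + |t|) * (1 / 2) : ℝ) : ℂ))
      (by fun_prop) 3 (fun t => by
        rw [Complex.norm_real, Real.norm_of_nonneg (by positivity)]
        have h1 := pow_le_pow_17 t 1 (by norm_num)
        rw [pow_one] at h1
        linarith)).norm
    refine h1.congr ?_
    filter_upwards with t
    rw [norm_mul, Complex.norm_real, Real.norm_of_nonneg (by positivity)]
  have hbound : ∀ k t, ‖F k t‖ ≤ (k : ℝ) ^ (-(5 / 4) : ℝ) * H t := by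
    intro k t
    simp only [hF, hH]
    rw [norm_mul, norm_mul, norm_mul (Ch h16)]
    have h1 := norm_Zf_zt_le t
    have h2 := norm_Ch_le h16 h16_pos
    have h3 := norm_sPF_line k t
    have h4 : 8 * h16 = 1 / 2 := by unfold h16; norm_num
    rw [h4] at h2
    have h5 : 0 ≤ 1 + |t| := by positivity
    calc ‖mellin (ker a lam) (zt t)‖ * (‖Zf (2 * zt t)‖ *
          (‖Ch h16‖ * ‖(sPF (vp h16) k : ℂ) * (k : ℂ) ^ (-(2 * zt t))‖))
        ≤ ‖mellin (ker a lam) (zt t)‖ * ((6 * (1 + |t|)) *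
          (1 / 2 * (k : ℝ) ^ (-(5 / 4) : ℝ))) := by gcongr
      _ = _ := by ring
  have hFi : ∀ k, Integrable (F k) := fun k =>
    (hHi.const_mul ((k : ℝ) ^ (-(5 / 4) : ℝ))).mono' (hFc k).aestronglyMeasurable
      (Filter.Eventually.of_forall (hbound k))
  have hFs : Summable fun k => ∫ t, ‖F k t‖ := by
    refine Summable.of_nonneg_of_le (fun k => integral_nonneg fun t => norm_nonneg _)
      (fun k => ?_) (summable_Bz.mul_right (∫ t, H t))
    rw [← integral_const_mul]
    exact integral_mono (hFi k).norm (hHi.const_mul _) (hbound k)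
  have key := hasSum_integral_of_summable_integral_norm hFi hFs
  have e1 : (fun k : ℕ => Ch h16 * ((sPF (vp h16) k : ℂ) * Jk a lam k)) =
      fun k => ∫ t, F k t := by
    funext k
    rw [Jk, ← integral_const_mul, ← integral_const_mul]
    refine integral_congr_ae ?_
    filter_upwards with t
    simp only [hF]
    push_cast
    ring
  have e2 : (∫ t : ℝ, mellin (ker a lam) (zt t) * P1 t) = ∫ t, ∑' k, F k t := by
    refine integral_congr_ae ?_
    filter_upwards with t
    simp only [hF, P1, S1]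
    rw [tsum_mul_left, tsum_mul_left, tsum_mul_left]
  rw [e1, e2]
  exact key

/-- Second main term: series. -/
theorem hasSum_XP2 (a : ℝ) (ha : 0 < a) (lam : ℂ) (d : Fam) :
    HasSum (fun k : ℕ => cb k * (2 * Real.pi * Id a lam d (k ^ 2)))
      (∫ t : ℝ, mellin (ker a lam) (zt t) * (Xd d (zt t) * P2 t)) := by
  refine hasSum_integral_mellin_Xd a ha lam (d : ℤ) d.2.2.ne_zero (3 / 8) (by norm_num)
    (by norm_num) (fun k => k ^ 2) cb ?_ ?_
  · intro n hn
    have : n = 0 := by simpa using hn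
    rw [this, cb, if_pos rfl]
  · refine summable_Bz.of_nonneg_of_le (fun k => by positivity) fun k => ?_
    rcases Nat.eq_zero_or_pos k with rfl | hk
    · rw [cb, if_pos rfl, norm_zero, zero_mul]; positivity
    · have hk0 : (0:ℝ) < k := by exact_mod_cast hk
      have h1 := norm_cb_le k
      have e : (((k ^ 2 : ℕ) : ℕ) : ℝ) ^ ((3 / 8 : ℝ) - 1) = (k : ℝ) ^ (-(5 / 4) : ℝ) := by
        push_cast
        rw [← Real.rpow_natCast, ← Real.rpow_mul hk0.le]
        norm_num
      rw [e]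
      exact mul_le_of_le_one_left (by positivity) h1

/-- The exact identity. -/
theorem integral_identity (hG : GRH) (a : ℝ) (ha : 0 < a) (lam : ℂ) (X : ℕ) (hX : 0 < X)
    (hW : Wstar wS X ≠ 0) :
    ∫ t : ℝ, mellin (ker a lam) (zt t) * Gf X t =
      ∑ d ∈ FS X, (wd X d : ℂ) * (rn d * ∑' n : ℕ, (mPF (jp h16) n : ℂ) *
        chi8 (d : ℤ) (n : ZMod (8 * (d : ℤ).natAbs)) * (2 * Real.pi * Id a lam d n)) -
      ((Wstar wS X : ℝ) : ℂ) * ∑' k : ℕ, Ch h16 * ((sPF (vp h16) k : ℂ) * Jk a lam k) -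
      ∑ d ∈ FS X, (wd X d : ℂ) * ∑' k : ℕ, cb k * (2 * Real.pi * Id a lam d (k ^ 2)) := by
  have e : ∀ t : ℝ, mellin (ker a lam) (zt t) * Gf X t =
      ∑ d ∈ FS X, (wd X d : ℂ) * (mellin (ker a lam) (zt t) *
        (L8 d (zt t) / L8 d (1 + h16 - zt t))) -
      ((Wstar wS X : ℝ) : ℂ) * (mellin (ker a lam) (zt t) * P1 t) -
      ∑ d ∈ FS X, (wd X d : ℂ) * (mellin (ker a lam) (zt t) * (Xd d (zt t) * P2 t)) := by
    intro t
    rw [Gf_eq X hX hW, mul_sub, mul_sub, Finset.mul_sum, Finset.sum_mul, Finset.mul_sum]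
    congr 1
    · congr 1
      · refine Finset.sum_congr rfl fun d _ => ?_
        ring
      · ring
    · refine Finset.sum_congr rfl fun d _ => ?_
      ring
  simp_rw [e]
  have i1 : ∀ d ∈ FS X, Integrable (fun t : ℝ => (wd X d : ℂ) * (mellin (ker a lam) (zt t) *
        (L8 d (zt t) / L8 d (1 + h16 - zt t)))) := fun d hd =>
    (integrable_L_ratio hG a ha lam X d hd).const_mul _
  have i2 : Integrable (fun t : ℝ => ((Wstar wS X : ℝ) : ℂ) *
      (mellin (ker a lam) (zt t) * P1 t)) := (integrable_P1 a ha lam).const_mul _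
  have i3 : ∀ d ∈ FS X, Integrable (fun t : ℝ => (wd X d : ℂ) *
      (mellin (ker a lam) (zt t) * (Xd d (zt t) * P2 t))) := fun d hd =>
    (integrable_XP2 a ha lam X hX d hd).const_mul _
  have j1 : Integrable (fun t : ℝ => ∑ d ∈ FS X, (wd X d : ℂ) * (mellin (ker a lam) (zt t) *
        (L8 d (zt t) / L8 d (1 + h16 - zt t)))) := integrable_finsetSum _ i1
  have j3 : Integrable (fun t : ℝ => ∑ d ∈ FS X, (wd X d : ℂ) *
      (mellin (ker a lam) (zt t) * (Xd d (zt t) * P2 t))) := integrable_finsetSum _ i3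
  have j12 : Integrable (fun t : ℝ => ∑ d ∈ FS X, (wd X d : ℂ) * (mellin (ker a lam) (zt t) *
        (L8 d (zt t) / L8 d (1 + h16 - zt t))) -
      ((Wstar wS X : ℝ) : ℂ) * (mellin (ker a lam) (zt t) * P1 t)) := j1.sub i2
  rw [integral_sub j12 j3, integral_sub j1 i2, integral_finsetSum _ i1, integral_finsetSum _ i3,
    integral_const_mul, ← (hasSum_P1 a ha lam).tsum_eq]
  congr 1
  · congr 1
    refine Finset.sum_congr rfl fun d _ => ?_
    rw [integral_const_mul, (integral_L_ratio hG a ha lam d).tsum_eq, ← mul_assoc (rn d),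
      ← pow_two, rn_sq, one_mul]
  · refine Finset.sum_congr rfl fun d _ => ?_
    rw [integral_const_mul, (hasSum_XP2 a ha lam d).tsum_eq]

end Pool.Agent.Ratios
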