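import Pool.Agent.Ratios.KernelBounds

/-! The kernel with the parameters of the argument: `a = K/R²`, `λ = (2/R)(K + i z₀)`. -/

set_option autoImplicit false

open Complex MeasureTheory Set Filter Topology

namespace Pool.Agent.Ratios

/-- The parameter `a = K / R²`. -/
noncomputable def pa (K R : ℝ) : ℝ := K / R ^ 2

/-- The parameter `λ = (2/R)(K + i z₀)`. -/
noncomputable def pl (K R z₀ : ℝ) : ℂ := ((2 / R : ℝ) : ℂ) * ((K : ℂ) + (z₀ : ℂ) * I)

/-- The Mellin transform of the kernel with the parameters of the argument. -/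
noncomputable def ft (K R z₀ : ℝ) (z : ℂ) : ℂ := mellin (ker (pa K R) (pl K R z₀)) z

lemma pl_re (K R z₀ : ℝ) : (pl K R z₀).re = 2 * K / R := by
  rw [pl, Complex.re_ofReal_mul]
  simp
  ring

lemma pl_im (K R z₀ : ℝ) : (pl K R z₀).im = 2 * z₀ / R := by
  rw [pl, Complex.im_ofReal_mul]
  simp
  ring

lemma pa_pos (K R : ℝ) (hK : 0 < K) (hR : 0 < R) : 0 < pa K R := by
  unfold pa; positivity

lemma norm_ker_sq_le (K R z₀ : ℝ) (hK : 1 ≤ K) (hR : 0 < R) (x : ℝ) (hx : 0 < x) :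
    ‖ker (pa K R) (pl K R z₀) x‖ ^ 2 ≤
      Real.exp (2 * K + 2) * Real.exp (-(1 / R ^ 2 * x)) := by
  have h := norm_ker_le_exp (pa K R) (pl K R z₀) x
  rw [pl_re, Complex.ofReal_re] at h
  have hs : 0 ≤ Real.sqrt x := Real.sqrt_nonneg x
  have hsq : Real.sqrt x ^ 2 = x := Real.sq_sqrt hx.le
  set s := Real.sqrt x / R with hsdef
  have e1 : -(pa K R * x) + |2 * K / R| * Real.sqrt x = K * (2 * s - s ^ 2) := by
    have e0 : pa K R * x = K * s ^ 2 := by
      rw [pa, hsdef, div_pow, hsq]; ring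
    rw [abs_of_nonneg (by positivity), e0, hsdef]
    ring
  rw [e1] at h
  have e2 : K * (2 * s - s ^ 2) ≤ K + 1 - s ^ 2 / 2 := by
    nlinarith [sq_nonneg (1 - s), sq_nonneg (s - 2)]
  have h2 : ‖ker (pa K R) (pl K R z₀) x‖ ≤ Real.exp (K + 1 - s ^ 2 / 2) :=
    h.trans (Real.exp_le_exp.mpr e2)
  calc ‖ker (pa K R) (pl K R z₀) x‖ ^ 2 ≤ (Real.exp (K + 1 - s ^ 2 / 2)) ^ 2 := by gcongr
    _ = _ := by
      rw [← Real.exp_nat_mul, ← Real.exp_add]
      congr 1
      have : s ^ 2 = 1 / R ^ 2 * x := by rw [hsdef, div_pow, hsq]; ring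
      rw [← this]
      push_cast; ring

/-- `L²` bound on the line `Re z = 3/8`. -/
lemma integral_sq_ft_le (K R z₀ : ℝ) (hK : 1 ≤ K) (hR : 0 < R) :
    ∫ t : ℝ, ‖ft K R z₀ (((3 / 8 : ℝ) : ℂ) + t * I)‖ ^ 2 ≤
      800 * (Real.exp K * R ^ (3 / 4 : ℝ)) ^ 2 := by
  unfold ft
  rw [integral_sq_mellin_ker _ (pa_pos K R (by linarith) hR) _ _ (by norm_num)]
  have hb : (0:ℝ) < 1 / R ^ 2 := by positivity
  have hint := (integrableOn_rpow_mul_exp (3 / 4) (1 / R ^ 2) (by norm_num) hb).const_mul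
    (Real.exp (2 * K + 2))
  have h1 : ∫ x in Ioi (0:ℝ), x ^ (2 * (3 / 8 : ℝ) - 1) * ‖ker (pa K R) (pl K R z₀) x‖ ^ 2 ≤
      ∫ x in Ioi (0:ℝ), Real.exp (2 * K + 2) * (x ^ ((3 / 4 : ℝ) - 1) *
        Real.exp (-(1 / R ^ 2 * x))) := by
    refine integral_mono_of_nonneg ?_ hint ?_
    · rw [EventuallyLE, ae_restrict_iff' measurableSet_Ioi]
      filter_upwards with x hx
      have hx0 : (0:ℝ) < x := hx
      simp only [Pi.zero_apply]
      positivity
    · rw [EventuallyLE, ae_restrict_iff' measurableSet_Ioi]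
      filter_upwards with x hx
      have hx0 : (0:ℝ) < x := hx
      have h := norm_ker_sq_le K R z₀ hK hR x hx0
      have e : (2 * (3 / 8 : ℝ) - 1) = (3 / 4 : ℝ) - 1 := by norm_num
      rw [e]
      have hp : 0 ≤ x ^ ((3 / 4 : ℝ) - 1) := Real.rpow_nonneg hx0.le _
      calc x ^ ((3 / 4 : ℝ) - 1) * ‖ker (pa K R) (pl K R z₀) x‖ ^ 2
          ≤ x ^ ((3 / 4 : ℝ) - 1) * (Real.exp (2 * K + 2) * Real.exp (-(1 / R ^ 2 * x))) := by
            gcongr
        _ = _ := by ring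
  rw [integral_const_mul, Real.integral_rpow_mul_exp_neg_mul_Ioi (by norm_num) hb] at h1
  have h2 : (1 / (1 / R ^ 2)) ^ (3 / 4 : ℝ) = (R ^ (3 / 4 : ℝ)) ^ 2 := by
    rw [one_div_one_div, ← Real.rpow_natCast (R ^ (3 / 4 : ℝ)) 2, ← Real.rpow_mul hR.le,
      ← Real.rpow_natCast R 2, ← Real.rpow_mul hR.le]
    norm_num
  rw [h2] at h1
  have h3 : Real.Gamma (3 / 4) ≤ 16 := Gamma_real_le _ (by norm_num) (by norm_num)
  have h4 : Real.exp (2 * K + 2) = Real.exp K ^ 2 * Real.exp 2 := by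
    rw [← Real.exp_nat_mul, ← Real.exp_add]; push_cast; ring_nf
  have h5 : Real.exp 2 ≤ 7.4 := by
    have := Real.exp_one_lt_d9
    have e : Real.exp 2 = Real.exp 1 ^ 2 := by rw [← Real.exp_nat_mul]; norm_num
    rw [e]
    nlinarith [Real.exp_pos 1]
  have hpi : Real.pi ≤ 3.15 := by linarith [Real.pi_lt_d2]
  have hpi0 := Real.pi_pos
  have hGp : 0 < Real.Gamma (3 / 4) := Real.Gamma_pos_of_pos (by norm_num)
  have he2 := Real.exp_pos 2
  calc 2 * Real.pi * ∫ x in Ioi (0:ℝ), x ^ (2 * (3 / 8 : ℝ) - 1) *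
        ‖ker (pa K R) (pl K R z₀) x‖ ^ 2
      ≤ 2 * Real.pi * (Real.exp (2 * K + 2) * ((R ^ (3 / 4 : ℝ)) ^ 2 * Real.Gamma (3 / 4))) := by
        gcongr
    _ = (2 * Real.pi * Real.exp 2 * Real.Gamma (3 / 4)) *
        (Real.exp K * R ^ (3 / 4 : ℝ)) ^ 2 := by rw [h4]; ring
    _ ≤ 800 * (Real.exp K * R ^ (3 / 4 : ℝ)) ^ 2 := by
        refine mul_le_mul_of_nonneg_right ?_ (by positivity)
        calc 2 * Real.pi * Real.exp 2 * Real.Gamma (3 / 4) ≤ 2 * 3.15 * 7.4 * 16 := by gcongr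
          _ ≤ 800 := by norm_num

lemma cos_ge_of_abs_le (x : ℝ) (h : |x| ≤ 1 / 10) : 9 / 10 ≤ Real.cos x := by
  have h1 := Real.one_sub_sq_div_two_le_cos (x := x)
  have h2 : x ^ 2 ≤ (1 / 10) ^ 2 := by
    rw [← sq_abs]
    gcongr
  linarith

/-- Pointwise exponential decay of the Mellin transform on the line `Re z = 3/8`. -/
lemma norm_ft_le (K R z₀ : ℝ) (hK : 1 ≤ K) (hR : 0 < R) (hz : 10 * K ≤ z₀) (t : ℝ) :
    ‖ft K R z₀ (((3 / 8 : ℝ) : ℂ) + t * I)‖ ≤
      40 * R ^ (3 / 4 : ℝ) * Real.exp (3 * K) * Real.exp (-(K / z₀ * |t|)) := by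
  have hz0 : 0 < z₀ := by linarith
  have hpi := Real.pi_gt_three
  have hd : K / z₀ ≤ 1 / 10 := by
    rw [div_le_div_iff₀ hz0 (by norm_num)]; linarith
  have hdpos : 0 < K / z₀ := by positivity
  -- key estimate for a rotation by a small angle
  have key : ∀ ψ : ℝ, |ψ| = K / z₀ →
      ‖mellin (ker (rotA (pa K R) ψ) (rotL (pl K R z₀) ψ)) (((3 / 8 : ℝ) : ℂ) + t * I)‖ ≤
        40 * R ^ (3 / 4 : ℝ) * Real.exp (3 * K) := by
    intro ψ hψ
    have hψ' : |ψ| ≤ 1 / 10 := by rw [hψ]; exact hd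
    have hA : 9 / 10 * (K / R ^ 2) ≤ (rotA (pa K R) ψ).re := by
      rw [rotA_re, pa]
      have := cos_ge_of_abs_le ψ hψ'
      have h0 : 0 < K / R ^ 2 := by positivity
      nlinarith
    have hL : |(rotL (pl K R z₀) ψ).re| ≤ 3 * K / R := by
      rw [rotL_re, pl_re, pl_im]
      have h1 : |2 * K / R * Real.cos (ψ / 2)| ≤ 2 * K / R := by
        rw [abs_mul, abs_of_nonneg (show 0 ≤ 2 * K / R by positivity)]
        have := Real.abs_cos_le_one (ψ / 2)
        have h0 : 0 ≤ 2 * K / R := by positivity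
        nlinarith
      have h2 : |2 * z₀ / R * Real.sin (ψ / 2)| ≤ K / R := by
        rw [abs_mul, abs_of_nonneg (show 0 ≤ 2 * z₀ / R by positivity)]
        have h3 : |Real.sin (ψ / 2)| ≤ |ψ / 2| := Real.abs_sin_le_abs
        have h4 : |ψ / 2| = K / z₀ / 2 := by rw [abs_div, hψ]; norm_num
        rw [h4] at h3
        calc 2 * z₀ / R * |Real.sin (ψ / 2)| ≤ 2 * z₀ / R * (K / z₀ / 2) := by gcongr
          _ = K / R := by field_simp
      calc |2 * K / R * Real.cos (ψ / 2) + 2 * z₀ / R * Real.sin (ψ / 2)|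
          ≤ |2 * K / R * Real.cos (ψ / 2)| + |2 * z₀ / R * Real.sin (ψ / 2)| := abs_add_le _ _
        _ ≤ 2 * K / R + K / R := by linarith
        _ = 3 * K / R := by ring
    rw [mellin]
    set b := K / (10 * R ^ 2) with hb
    have hbpos : 0 < b := by positivity
    have hint := (integrableOn_rpow_mul_exp (3 / 8) b (by norm_num) hbpos).const_mul
      (Real.exp (3 * K))
    have hle : ‖∫ x in Ioi (0:ℝ), (x : ℂ) ^ (((3 / 8 : ℝ) : ℂ) + t * I - 1) •
        ker (rotA (pa K R) ψ) (rotL (pl K R z₀) ψ) x‖ ≤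
        ∫ x in Ioi (0:ℝ), Real.exp (3 * K) * (x ^ ((3 / 8 : ℝ) - 1) * Real.exp (-(b * x))) := by
      refine norm_integral_le_of_norm_le hint ?_
      rw [ae_restrict_iff' measurableSet_Ioi]
      filter_upwards with x hx
      have hx0 : (0:ℝ) < x := hx
      rw [norm_smul, norm_cpow_eq_rpow_re_of_pos hx0]
      have e : (((3 / 8 : ℝ) : ℂ) + t * I - 1).re = (3 / 8 : ℝ) - 1 := by simp
      rw [e]
      have h := norm_ker_le_exp (rotA (pa K R) ψ) (rotL (pl K R z₀) ψ) x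
      have hs : 0 ≤ Real.sqrt x := Real.sqrt_nonneg x
      have hsq : Real.sqrt x ^ 2 = x := Real.sq_sqrt hx0.le
      have hexp : -((rotA (pa K R) ψ).re * x) + |(rotL (pl K R z₀) ψ).re| * Real.sqrt x ≤
          3 * K + -(b * x) := by
        have h1 : 9 / 10 * (K / R ^ 2) * x ≤ (rotA (pa K R) ψ).re * x := by gcongr
        have h2 : |(rotL (pl K R z₀) ψ).re| * Real.sqrt x ≤ 3 * K / R * Real.sqrt x := by gcongr
        set s := Real.sqrt x / R with hsdef
        have e1 : 9 / 10 * (K / R ^ 2) * x = 9 / 10 * K * s ^ 2 := by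
          rw [hsdef, div_pow, hsq]; ring
        have e2 : 3 * K / R * Real.sqrt x = 3 * K * s := by rw [hsdef]; ring
        have e3 : b * x = K * s ^ 2 / 10 := by
          rw [hb, hsdef, div_pow, hsq]; field_simp
        rw [e1] at h1
        rw [e2] at h2
        rw [e3]
        nlinarith [sq_nonneg (s - 15 / 8), mul_nonneg (show 0 ≤ K by linarith)
          (sq_nonneg (s - 15 / 8))]
      have hp : 0 ≤ x ^ ((3 / 8 : ℝ) - 1) := Real.rpow_nonneg hx0.le _
      calc x ^ ((3 / 8 : ℝ) - 1) * ‖ker (rotA (pa K R) ψ) (rotL (pl K R z₀) ψ) x‖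
          ≤ x ^ ((3 / 8 : ℝ) - 1) * Real.exp (3 * K + -(b * x)) := by
            gcongr
            exact h.trans (Real.exp_le_exp.mpr hexp)
        _ = _ := by rw [Real.exp_add]; ring
    refine hle.trans ?_
    rw [integral_const_mul, Real.integral_rpow_mul_exp_neg_mul_Ioi (by norm_num) hbpos]
    have h3 : Real.Gamma (3 / 8) ≤ 16 := Gamma_real_le _ (by norm_num) (by norm_num)
    have hGp : 0 < Real.Gamma (3 / 8) := Real.Gamma_pos_of_pos (by norm_num)
    have h4 : (1 / b) ^ (3 / 8 : ℝ) ≤ 2.5 * R ^ (3 / 4 : ℝ) := by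
      have h5 : 1 / b ≤ 10 * R ^ 2 := by
        rw [hb, one_div_div]
        rw [div_le_iff₀ (by linarith)]
        have : 0 < R ^ 2 := by positivity
        nlinarith
      calc (1 / b) ^ (3 / 8 : ℝ) ≤ (10 * R ^ 2) ^ (3 / 8 : ℝ) :=
            Real.rpow_le_rpow (by positivity) h5 (by norm_num)
        _ = (10:ℝ) ^ (3 / 8 : ℝ) * R ^ (3 / 4 : ℝ) := by
            rw [Real.mul_rpow (by norm_num) (by positivity), ← Real.rpow_natCast R 2,
              ← Real.rpow_mul hR.le]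
            norm_num
        _ ≤ 2.5 * R ^ (3 / 4 : ℝ) := by
            refine mul_le_mul_of_nonneg_right ?_ (by positivity)
            -- 10^(3/8) ≤ 2.5 iff 10^3 ≤ 2.5^8
            have h6 : ((10:ℝ) ^ (3 / 8 : ℝ)) ^ (8 : ℕ) ≤ (2.5 : ℝ) ^ (8 : ℕ) := by
              rw [← Real.rpow_natCast ((10:ℝ) ^ (3 / 8 : ℝ)) 8, ← Real.rpow_mul (by norm_num)]
              norm_num
            exact le_of_pow_le_pow_left₀ (by norm_num) (by norm_num) h6
    calc Real.exp (3 * K) * ((1 / b) ^ (3 / 8 : ℝ) * Real.Gamma (3 / 8))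
        ≤ Real.exp (3 * K) * (2.5 * R ^ (3 / 4 : ℝ) * 16) := by gcongr
      _ = 40 * R ^ (3 / 4 : ℝ) * Real.exp (3 * K) := by ring
  have ha := pa_pos K R (by linarith) hR
  unfold ft
  rcases le_or_gt 0 t with ht | ht
  · rw [norm_mellin_ker_rot _ ha _ _ t (by norm_num) (-(K / z₀)) (by linarith) (by linarith),
      abs_of_nonneg ht]
    have h := key (-(K / z₀)) (by rw [abs_neg, abs_of_pos hdpos])
    have e : Real.exp (-(K / z₀) * t) = Real.exp (-(K / z₀ * t)) := by ring_nf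
    rw [e, mul_comm]
    gcongr
  · rw [norm_mellin_ker_rot _ ha _ _ t (by norm_num) (K / z₀) (by linarith) (by linarith),
      abs_of_neg ht]
    have h := key (K / z₀) (abs_of_pos hdpos)
    have e : Real.exp (K / z₀ * t) = Real.exp (-(K / z₀ * -t)) := by ring_nf
    rw [e, mul_comm]
    gcongr

/-- `L¹` bound on a segment of the line `Re z = 3/8`. -/
lemma integral_norm_ft_le (K R z₀ T : ℝ) (hK : 1 ≤ K) (hR : 0 < R) (hT : 0 < T) :
    ∫ t in Icc (-T) T, ‖ft K R z₀ (((3 / 8 : ℝ) : ℂ) + t * I)‖ ≤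
      40 * Real.sqrt T * (Real.exp K * R ^ (3 / 4 : ℝ)) := by
  set A := Real.exp K * R ^ (3 / 4 : ℝ) with hA
  have hApos : 0 < A := by positivity
  have hsT : 0 < Real.sqrt T := Real.sqrt_pos.mpr hT
  have ha := pa_pos K R (by linarith) hR
  have hcont : Continuous (fun t : ℝ => ‖ft K R z₀ (((3 / 8 : ℝ) : ℂ) + t * I)‖) := by
    unfold ft
    exact (continuous_mellin_ker_vertical _ (by simpa using ha) _ _ (by norm_num)).norm
  set η := 20 * A / Real.sqrt T with hη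
  have hηpos : 0 < η := by positivity
  have hsq : Integrable (fun t : ℝ => ‖ft K R z₀ (((3 / 8 : ℝ) : ℂ) + t * I)‖ ^ 2) := by
    obtain ⟨C, hC, hdec⟩ := mellin_ker_decay (pa K R) ha (pl K R z₀) (3 / 8) (3 / 8) (by norm_num)
      le_rfl
    refine ((integrable_exp_neg_mul_abs 2 (by norm_num)).const_mul (C ^ 2)).mono'
      (hcont.pow 2).aestronglyMeasurable ?_
    filter_upwards with t
    rw [Real.norm_of_nonneg (by positivity)]
    have h := hdec (3 / 8) le_rfl le_rfl t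
    have e : C ^ 2 * Real.exp (-(2 * |t|)) = (C * Real.exp (-|t|)) ^ 2 := by
      rw [mul_pow, ← Real.exp_nat_mul]
      congr 2
      push_cast; ring
    rw [e]
    unfold ft
    gcongr
  have hIcc : volume.real (Icc (-T) T) = 2 * T := by
    rw [Real.volume_real_Icc_of_le (by linarith)]; ring
  have h1 : ∫ t in Icc (-T) T, ‖ft K R z₀ (((3 / 8 : ℝ) : ℂ) + t * I)‖ ≤
      ∫ t in Icc (-T) T, (η / 2 + ‖ft K R z₀ (((3 / 8 : ℝ) : ℂ) + t * I)‖ ^ 2 / (2 * η)) := by
    refine setIntegral_mono_on ?_ ?_ measurableSet_Icc ?_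
    · exact hcont.continuousOn.integrableOn_compact isCompact_Icc
    · have hc2 : Continuous (fun t : ℝ => η / 2 +
          ‖ft K R z₀ (((3 / 8 : ℝ) : ℂ) + t * I)‖ ^ 2 / (2 * η)) :=
        continuous_const.add ((hcont.pow 2).div_const _)
      exact hc2.continuousOn.integrableOn_compact isCompact_Icc
    · intro t _
      set v := ‖ft K R z₀ (((3 / 8 : ℝ) : ℂ) + t * I)‖
      have : 0 ≤ (v - η) ^ 2 / (2 * η) := by positivity
      have e : (v - η) ^ 2 / (2 * η) = η / 2 + v ^ 2 / (2 * η) - v := by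
        field_simp
        ring
      linarith
  refine h1.trans ?_
  have h0 : ∫ t in Icc (-T) T, (η / 2 + ‖ft K R z₀ (((3 / 8 : ℝ) : ℂ) + t * I)‖ ^ 2 / (2 * η)) =
      2 * T * (η / 2) +
      (∫ t in Icc (-T) T, ‖ft K R z₀ (((3 / 8 : ℝ) : ℂ) + t * I)‖ ^ 2) / (2 * η) := by
    have h01 : ∫ _t in Icc (-T) T, (η / 2) = 2 * T * (η / 2) := by
      rw [setIntegral_const, hIcc, smul_eq_mul]
    rw [← integral_div, ← h01]
    exact integral_add (by simp) (hsq.integrableOn.div_const _)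
  rw [h0]
  have h2 : ∫ t in Icc (-T) T, ‖ft K R z₀ (((3 / 8 : ℝ) : ℂ) + t * I)‖ ^ 2 ≤ 800 * A ^ 2 := by
    refine (setIntegral_le_integral hsq ?_).trans (integral_sq_ft_le K R z₀ hK hR)
    filter_upwards with t
    positivity
  have h3 : (∫ t in Icc (-T) T, ‖ft K R z₀ (((3 / 8 : ℝ) : ℂ) + t * I)‖ ^ 2) / (2 * η) ≤
      20 * Real.sqrt T * A := by
    rw [div_le_iff₀ (by positivity)]
    refine h2.trans (le_of_eq ?_)
    rw [hη]
    field_simp
    ring
  have h4 : 2 * T * (η / 2) = 20 * Real.sqrt T * A := by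
    rw [hη]
    have : T = Real.sqrt T ^ 2 := (Real.sq_sqrt hT.le).symm
    field_simp
    nlinarith [this]
  linarith

end Pool.Agent.Ratios
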