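import Pool.Agent.Ratios.JSum
import Pool.Agent.Ratios.KernelQuant

/-! Bounds for the sums and integrals entering the first main term. -/

set_option autoImplicit false

open Complex MeasureTheory Set Filter Topology

namespace Pool.Agent.Ratios

/-- The Gaussian envelope. -/
noncomputable def Gb (K R b r : ℝ) : ℝ := Real.exp (K - K / R ^ 2 * (r - b) ^ 2)

lemma Gb_pos (K R b r : ℝ) : 0 < Gb K R b r := Real.exp_pos _

lemma Gb_le (K R b r : ℝ) (hK : 0 ≤ K) : Gb K R b r ≤ Real.exp K := by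
  unfold Gb
  gcongr
  have : 0 ≤ K / R ^ 2 * (r - b) ^ 2 := by positivity
  linarith

/-- The kernel at a square, in terms of Gaussian envelopes and pure frequencies. -/
lemma ker_sq_eq (K R z₀ r : ℝ) (hR : 0 < R) (hr : 0 ≤ r) :
    ker (pa K R) (pl K R z₀) (r ^ 2) =
      (1 / 2) * ((Gb K R R r : ℂ) * cexp (((2 * z₀ / R * r : ℝ) : ℂ) * I)) -
      (1 / 2) * ((Gb K R (-R) r : ℂ) * cexp (((-(2 * z₀ / R) * r : ℝ) : ℂ) * I)) := by
  have hR0 : (R : ℂ) ≠ 0 := by exact_mod_cast hR.ne'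
  rw [ker, Real.sqrt_sq hr, Complex.sinh, Gb, Gb, pa, pl]
  have e1 : cexp (-(((K / R ^ 2 : ℝ) : ℂ) * ((r ^ 2 : ℝ) : ℂ))) *
      cexp (((2 / R : ℝ) : ℂ) * ((K : ℂ) + (z₀ : ℂ) * I) * (r : ℂ)) =
      ((Real.exp (K - K / R ^ 2 * (r - R) ^ 2) : ℝ) : ℂ) *
        cexp (((2 * z₀ / R * r : ℝ) : ℂ) * I) := by
    rw [Complex.ofReal_exp, ← Complex.exp_add, ← Complex.exp_add]
    congr 1
    push_cast
    field_simp
    ring
  have e2 : cexp (-(((K / R ^ 2 : ℝ) : ℂ) * ((r ^ 2 : ℝ) : ℂ))) *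
      cexp (-(((2 / R : ℝ) : ℂ) * ((K : ℂ) + (z₀ : ℂ) * I) * (r : ℂ))) =
      ((Real.exp (K - K / R ^ 2 * (r - -R) ^ 2) : ℝ) : ℂ) *
        cexp (((-(2 * z₀ / R) * r : ℝ) : ℂ) * I) := by
    rw [Complex.ofReal_exp, ← Complex.exp_add, ← Complex.exp_add]
    congr 1
    push_cast
    field_simp
    ring
  linear_combination (1 / 2) * e1 - (1 / 2) * e2

lemma hasDerivAt_Gb (K R b r : ℝ) :
    HasDerivAt (Gb K R b) (-(2 * (K / R ^ 2) * (r - b)) * Gb K R b r) r := by
  unfold Gb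
  have h1 : HasDerivAt (fun r : ℝ => K - K / R ^ 2 * (r - b) ^ 2)
      (-(2 * (K / R ^ 2) * (r - b))) r := by
    have h2 : HasDerivAt (fun r : ℝ => (r - b) ^ 2) (2 * (r - b)) r := by
      have := ((hasDerivAt_id r).sub_const b).fun_pow 2
      simpa using this
    have h3 := (h2.const_mul (K / R ^ 2)).const_sub K
    refine h3.congr_deriv ?_
    ring
  have := h1.exp
  refine this.congr_deriv ?_
  ring

/-- Majorant of the derivative. -/
noncomputable def Db (K R b r : ℝ) : ℝ :=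
  2 * Real.sqrt (K / R ^ 2) * Real.exp K * Real.exp (-(K / R ^ 2 / 2) * (r - b) ^ 2)

lemma mul_exp_neg_sq_le (x : ℝ) : |x| * Real.exp (-(x ^ 2 / 2)) ≤ 1 := by
  have h := Real.add_one_le_exp (x ^ 2 / 2)
  have h2 : |x| ≤ Real.exp (x ^ 2 / 2) := by
    have : |x| ≤ x ^ 2 / 2 + 1 := by
      have := sq_nonneg (|x| - 1)
      have h3 : |x| ^ 2 = x ^ 2 := sq_abs x
      nlinarith
    linarith
  calc |x| * Real.exp (-(x ^ 2 / 2)) ≤ Real.exp (x ^ 2 / 2) * Real.exp (-(x ^ 2 / 2)) := by gcongr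
    _ = 1 := by rw [← Real.exp_add]; simp

lemma abs_deriv_Gb_le (K R b r : ℝ) (hK : 0 < K) (hR : 0 < R) :
    |-(2 * (K / R ^ 2) * (r - b)) * Gb K R b r| ≤ Db K R b r := by
  set a := K / R ^ 2 with ha
  have hapos : 0 < a := by positivity
  set s := Real.sqrt a with hs
  have hspos : 0 < s := Real.sqrt_pos.mpr hapos
  have hsa : s ^ 2 = a := Real.sq_sqrt hapos.le
  have h1 := mul_exp_neg_sq_le (s * (r - b))
  have e1 : |-(2 * a * (r - b)) * Gb K R b r| = 2 * s * (|s * (r - b)|) * Gb K R b r := by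
    rw [abs_mul, abs_neg, abs_mul, abs_mul, abs_mul, abs_of_pos (Gb_pos K R b r),
      abs_of_pos hapos, abs_of_pos hspos, ← hsa]
    simp only [abs_two]
    ring
  rw [e1]
  have e2 : Gb K R b r = Real.exp K * Real.exp (-((s * (r - b)) ^ 2 / 2)) *
      Real.exp (-(a / 2) * (r - b) ^ 2) := by
    rw [Gb, ← Real.exp_add, ← Real.exp_add, ← ha]
    congr 1
    have : (s * (r - b)) ^ 2 = a * (r - b) ^ 2 := by rw [mul_pow, hsa]
    rw [this]; ring
  rw [e2, Db, ← ha, ← hs]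
  have hE := Real.exp_pos K
  have hE2 := Real.exp_pos (-(a / 2) * (r - b) ^ 2)
  calc 2 * s * |s * (r - b)| * (Real.exp K * Real.exp (-((s * (r - b)) ^ 2 / 2)) *
        Real.exp (-(a / 2) * (r - b) ^ 2))
      = (2 * s * Real.exp K * Real.exp (-(a / 2) * (r - b) ^ 2)) *
        (|s * (r - b)| * Real.exp (-((s * (r - b)) ^ 2 / 2))) := by ring
    _ ≤ (2 * s * Real.exp K * Real.exp (-(a / 2) * (r - b) ^ 2)) * 1 := by gcongr
    _ = _ := by ring

lemma integrable_Db (K R b : ℝ) (hK : 0 < K) (hR : 0 < R) : Integrable (Db K R b) := by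
  unfold Db
  have h := integrable_exp_neg_mul_sq (b := K / R ^ 2 / 2) (by positivity)
  exact (h.comp_sub_right b).const_mul _

lemma integral_Db_le (K R b : ℝ) (hK : 0 < K) (hR : 0 < R) :
    ∫ r, Db K R b r ≤ 6 * Real.exp K := by
  set a := K / R ^ 2 with ha
  have hapos : 0 < a := by positivity
  have h0 : ∫ r : ℝ, Real.exp (-(a / 2) * (r - b) ^ 2) = Real.sqrt (Real.pi / (a / 2)) := by
    rw [integral_sub_right_eq_self (fun r : ℝ => Real.exp (-(a / 2) * r ^ 2)) b]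
    exact integral_gaussian (a / 2)
  have h1 : ∫ r, Db K R b r = 2 * Real.sqrt a * Real.exp K * Real.sqrt (Real.pi / (a / 2)) := by
    unfold Db
    rw [← ha, integral_const_mul, h0]
  rw [h1]
  have h2 : Real.sqrt a * Real.sqrt (Real.pi / (a / 2)) = Real.sqrt (2 * Real.pi) := by
    rw [← Real.sqrt_mul hapos.le]
    congr 1
    field_simp
  have h3 : Real.sqrt (2 * Real.pi) ≤ 3 := by
    rw [Real.sqrt_le_left (by norm_num)]
    linarith [Real.pi_lt_d2]
  calc 2 * Real.sqrt a * Real.exp K * Real.sqrt (Real.pi / (a / 2))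
      = 2 * Real.exp K * (Real.sqrt a * Real.sqrt (Real.pi / (a / 2))) := by ring
    _ ≤ 2 * Real.exp K * 3 := by rw [h2]; gcongr
    _ = _ := by ring

lemma Db_nonneg (K R b r : ℝ) : 0 ≤ Db K R b r := by unfold Db; positivity

lemma intervalIntegral_Db_le (K R b x y : ℝ) (hxy : x ≤ y) (hK : 0 < K) (hR : 0 < R) :
    ∫ r in x..y, Db K R b r ≤ 6 * Real.exp K := by
  rw [intervalIntegral.integral_of_le hxy]
  refine (setIntegral_le_integral (integrable_Db K R b hK hR) ?_).trans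
    (integral_Db_le K R b hK hR)
  filter_upwards with r
  exact Db_nonneg K R b r

lemma continuous_Gb (K R b : ℝ) : Continuous (Gb K R b) := by unfold Gb; fun_prop

lemma continuous_Db (K R b : ℝ) : Continuous (Db K R b) := by unfold Db; fun_prop

lemma abs_Gb_sub_le (K R b x y : ℝ) (hxy : x ≤ y) (hK : 0 < K) (hR : 0 < R) :
    |Gb K R b y - Gb K R b x| ≤ ∫ r in x..y, Db K R b r := by
  have hc : Continuous (fun r => -(2 * (K / R ^ 2) * (r - b)) * Gb K R b r) := by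
    have := continuous_Gb K R b
    fun_prop
  have h := intervalIntegral.integral_eq_sub_of_hasDerivAt (f := Gb K R b)
    (f' := fun r => -(2 * (K / R ^ 2) * (r - b)) * Gb K R b r) (a := x) (b := y)
    (fun r _ => hasDerivAt_Gb K R b r) (hc.intervalIntegrable _ _)
  rw [← h, ← Real.norm_eq_abs]
  refine intervalIntegral.norm_integral_le_of_norm_le hxy ?_
    ((continuous_Db K R b).intervalIntegrable _ _)
  filter_upwards with r _
  exact abs_deriv_Gb_le K R b r hK hR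

/-- First derivative test for the envelope against a pure frequency. -/
lemma norm_integral_Gb_exp_le (K R b θ Y : ℝ) (hK : 0 < K) (hR : 0 < R) (hθ : θ ≠ 0)
    (hY : 0 ≤ Y) :
    ‖∫ r in (0:ℝ)..Y, (Gb K R b r : ℂ) * cexp (((θ * r : ℝ) : ℂ) * I)‖ ≤
      8 * Real.exp K / |θ| := by
  have hθI : (θ : ℂ) * I ≠ 0 := mul_ne_zero (by exact_mod_cast hθ) I_ne_zero
  have hu : ∀ r ∈ uIcc 0 Y, HasDerivAt (fun r : ℝ => (Gb K R b r : ℂ))
      ((-(2 * (K / R ^ 2) * (r - b)) * Gb K R b r : ℝ) : ℂ) r := fun r _ =>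
    (hasDerivAt_Gb K R b r).ofReal_comp
  have hv : ∀ r ∈ uIcc 0 Y, HasDerivAt (fun r : ℝ => cexp (((θ * r : ℝ) : ℂ) * I) / (θ * I))
      (cexp (((θ * r : ℝ) : ℂ) * I)) r := by
    intro r _
    have h1 : HasDerivAt (fun r : ℝ => ((θ * r : ℝ) : ℂ) * I) (θ * I) r := by
      have h0 : HasDerivAt (fun r : ℝ => θ * r) θ r := by simpa using (hasDerivAt_id r).const_mul θ
      exact h0.ofReal_comp.mul_const I
    have h2 := (h1.cexp).div_const (θ * I)
    refine h2.congr_deriv ?_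
    rw [mul_div_assoc, div_self hθI, mul_one]
  have hc : Continuous (fun r : ℝ => ((-(2 * (K / R ^ 2) * (r - b)) * Gb K R b r : ℝ) : ℂ)) := by
    have := continuous_Gb K R b
    fun_prop
  have hce : Continuous (fun r : ℝ => cexp (((θ * r : ℝ) : ℂ) * I)) := by fun_prop
  have hparts := intervalIntegral.integral_mul_deriv_eq_deriv_mul hu hv
    (hc.intervalIntegrable _ _) (hce.intervalIntegrable _ _)
  rw [hparts]
  have hn : ∀ r : ℝ, ‖cexp (((θ * r : ℝ) : ℂ) * I) / (θ * I)‖ = 1 / |θ| := by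
    intro r
    rw [norm_div, Complex.norm_exp_ofReal_mul_I, norm_mul, Complex.norm_I, mul_one,
      Complex.norm_real, Real.norm_eq_abs]
  have hG : ∀ r : ℝ, ‖(Gb K R b r : ℂ)‖ ≤ Real.exp K := by
    intro r
    rw [Complex.norm_real, Real.norm_of_nonneg (Gb_pos K R b r).le]
    exact Gb_le K R b r hK.le
  have hθp : 0 < |θ| := abs_pos.mpr hθ
  have hI : ‖∫ r in (0:ℝ)..Y, ((-(2 * (K / R ^ 2) * (r - b)) * Gb K R b r : ℝ) : ℂ) *
      (cexp (((θ * r : ℝ) : ℂ) * I) / (θ * I))‖ ≤ 6 * Real.exp K / |θ| := by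
    have h1 : ‖∫ r in (0:ℝ)..Y, ((-(2 * (K / R ^ 2) * (r - b)) * Gb K R b r : ℝ) : ℂ) *
      (cexp (((θ * r : ℝ) : ℂ) * I) / (θ * I))‖ ≤ ∫ r in (0:ℝ)..Y, Db K R b r * (1 / |θ|) := by
      refine intervalIntegral.norm_integral_le_of_norm_le hY ?_
        (((continuous_Db K R b).mul continuous_const).intervalIntegrable _ _)
      filter_upwards with r _
      rw [norm_mul, hn, Complex.norm_real, Real.norm_eq_abs]
      have := abs_deriv_Gb_le K R b r hK hR
      gcongr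
    refine h1.trans ?_
    rw [intervalIntegral.integral_mul_const]
    have := intervalIntegral_Db_le K R b 0 Y hY hK hR
    calc (∫ r in (0:ℝ)..Y, Db K R b r) * (1 / |θ|) ≤ 6 * Real.exp K * (1 / |θ|) := by gcongr
      _ = _ := by ring
  calc _ ≤ ‖(Gb K R b Y : ℂ) * (cexp (((θ * Y : ℝ) : ℂ) * I) / (θ * I))‖ +
      ‖(Gb K R b 0 : ℂ) * (cexp (((θ * 0 : ℝ) : ℂ) * I) / (θ * I))‖ + _ :=
        (norm_sub_le _ _).trans (add_le_add (norm_sub_le _ _) le_rfl)
    _ ≤ Real.exp K * (1 / |θ|) + Real.exp K * (1 / |θ|) + 6 * Real.exp K / |θ| := by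
        rw [norm_mul, norm_mul, hn, hn]
        have b1 := hG Y
        have b2 := hG 0
        gcongr
    _ = _ := by ring

/-- Abel summation for the envelope along an arithmetic progression of step `h`. -/
lemma norm_sum_Gb_exp_le (K R b θ h x₀ : ℝ) (hK : 0 < K) (hR : 0 < R) (hh : 0 ≤ h) (M : ℕ) :
    ‖∑ m ∈ Finset.range M, (Gb K R b (x₀ + h * m) : ℂ) *
      cexp (((θ * (x₀ + h * m) : ℝ) : ℂ) * I)‖ * ‖cexp (((θ * h : ℝ) : ℂ) * I) - 1‖ ≤
      8 * Real.exp K := by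
  set g : ℕ → ℝ := fun m => Gb K R b (x₀ + h * m) with hg
  set w : ℕ → ℂ := fun m => cexp (((θ * (x₀ + h * m) : ℝ) : ℂ) * I) with hw
  have hws : ∀ m, w (m + 1) = cexp (((θ * h : ℝ) : ℂ) * I) * w m := by
    intro m
    simp only [hw]
    rw [← Complex.exp_add]
    congr 1
    push_cast
    ring
  have hid : ∀ M : ℕ, (∑ m ∈ Finset.range M, (g m : ℂ) * w m) *
      (cexp (((θ * h : ℝ) : ℂ) * I) - 1) =
      (g M : ℂ) * w M - (g 0 : ℂ) * w 0 -
        ∑ m ∈ Finset.range M, ((g (m + 1) - g m : ℝ) : ℂ) * w (m + 1) := by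
    intro M
    induction M with
    | zero => simp
    | succ M ih =>
      rw [Finset.sum_range_succ, add_mul, ih, Finset.sum_range_succ]
      have := hws M
      rw [Complex.ofReal_sub]
      linear_combination (-(g M : ℂ)) * this
  have hwn : ∀ m, ‖w m‖ = 1 := by
    intro m
    simp only [hw]
    exact Complex.norm_exp_ofReal_mul_I _
  have hgn : ∀ m, ‖(g m : ℂ)‖ ≤ Real.exp K := by
    intro m
    rw [Complex.norm_real, Real.norm_of_nonneg (Gb_pos K R b _).le]
    exact Gb_le K R b _ hK.le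
  have hvar : ∑ m ∈ Finset.range M, |g (m + 1) - g m| ≤ 6 * Real.exp K := by
    have h1 : ∀ m ∈ Finset.range M, |g (m + 1) - g m| ≤
        ∫ r in (x₀ + h * m)..(x₀ + h * ((m + 1 : ℕ) : ℝ)), Db K R b r := by
      intro m _
      refine abs_Gb_sub_le K R b _ _ ?_ hK hR
      push_cast
      nlinarith
    refine (Finset.sum_le_sum h1).trans ?_
    rw [intervalIntegral.sum_integral_adjacent_intervals (a := fun m : ℕ => x₀ + h * (m : ℝ))
      (fun m _ => (continuous_Db K R b).intervalIntegrable _ _)]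
    refine intervalIntegral_Db_le K R b _ _ ?_ hK hR
    have : (0:ℝ) ≤ M := Nat.cast_nonneg M
    simp only [Nat.cast_zero]
    nlinarith
  rw [← norm_mul]
  have := hid M
  simp only [hg, hw] at this ⊢
  rw [this]
  refine (norm_sub_le _ _).trans ?_
  have hS : ‖∑ m ∈ Finset.range M, ((g (m + 1) - g m : ℝ) : ℂ) * w (m + 1)‖ ≤
      6 * Real.exp K := by
    refine (norm_sum_le _ _).trans ?_
    refine le_trans (le_of_eq ?_) hvar
    refine Finset.sum_congr rfl fun m _ => ?_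
    rw [norm_mul, hwn, mul_one, Complex.norm_real, Real.norm_eq_abs]
  have h2 : ‖(g M : ℂ) * w M - (g 0 : ℂ) * w 0‖ ≤ 2 * Real.exp K := by
    refine (norm_sub_le _ _).trans ?_
    rw [norm_mul, norm_mul, hwn, hwn]
    have b1 := hgn M
    have b2 := hgn 0
    linarith
  simp only [hg, hw] at hS h2
  linarith

end Pool.Agent.Ratios
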