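import Pool.Agent.Ratios.JBound

/-! Bounds for the transforms `Jk`. -/

set_option autoImplicit false

open Complex MeasureTheory Set Filter Topology

namespace Pool.Agent.Ratios

lemma norm_exp_neg_sub_one (x : ℝ) :
    ‖cexp (((-x : ℝ) : ℂ) * I) - 1‖ = ‖cexp ((x : ℂ) * I) - 1‖ := by
  have e : cexp (((-x : ℝ) : ℂ) * I) - 1 =
      -cexp (((-x : ℝ) : ℂ) * I) * (cexp ((x : ℂ) * I) - 1) := by
    have h : cexp (((-x : ℝ) : ℂ) * I) * cexp ((x : ℂ) * I) = 1 := by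
      rw [← Complex.exp_add]
      push_cast
      rw [show -(x : ℂ) * I + (x : ℂ) * I = 0 by ring, Complex.exp_zero]
    linear_combination h
  rw [e, norm_mul, norm_neg, Complex.norm_exp_ofReal_mul_I, one_mul]

lemma norm_sum_ker_le (K R z₀ k : ℝ) (hK : 0 < K) (hR : 0 < R) (hk : 0 < k) (M : ℕ) :
    ‖∑ m ∈ Finset.range M, ker (pa K R) (pl K R z₀) ((k * Yt m) ^ 2)‖ *
      ‖cexp (((2 * z₀ / R * (2 * k) : ℝ) : ℂ) * I) - 1‖ ≤ 8 * Real.exp K := by
  have hY : ∀ m : ℕ, k * Yt m = k + 2 * k * m := by intro m; unfold Yt; ring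
  have h1 := norm_sum_Gb_exp_le K R R (2 * z₀ / R) (2 * k) k hK hR (by positivity) M
  have h2 := norm_sum_Gb_exp_le K R (-R) (-(2 * z₀ / R)) (2 * k) k hK hR (by positivity) M
  have e0 : -(2 * z₀ / R) * (2 * k) = -(2 * z₀ / R * (2 * k)) := by ring
  rw [e0, norm_exp_neg_sub_one] at h2
  set D := ‖cexp (((2 * z₀ / R * (2 * k) : ℝ) : ℂ) * I) - 1‖ with hD
  have hD0 : 0 ≤ D := norm_nonneg _
  have e : ∑ m ∈ Finset.range M, ker (pa K R) (pl K R z₀) ((k * Yt m) ^ 2) =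
      (1 / 2) * (∑ m ∈ Finset.range M, (Gb K R R (k + 2 * k * m) : ℂ) *
      cexp (((2 * z₀ / R * (k + 2 * k * m) : ℝ) : ℂ) * I)) -
      (1 / 2) * ∑ m ∈ Finset.range M, (Gb K R (-R) (k + 2 * k * m) : ℂ) *
      cexp (((-(2 * z₀ / R) * (k + 2 * k * m) : ℝ) : ℂ) * I) := by
    rw [Finset.mul_sum, Finset.mul_sum, ← Finset.sum_sub_distrib]
    refine Finset.sum_congr rfl fun m _ => ?_
    rw [ker_sq_eq K R z₀ _ hR (by have := Yt_pos m; positivity), hY m]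
  rw [e]
  have hn : ‖(1 / 2 : ℂ)‖ = 1 / 2 := by simp
  set S1 := ∑ m ∈ Finset.range M, (Gb K R R (k + 2 * k * m) : ℂ) *
      cexp (((2 * z₀ / R * (k + 2 * k * m) : ℝ) : ℂ) * I)
  set S2 := ∑ m ∈ Finset.range M, (Gb K R (-R) (k + 2 * k * m) : ℂ) *
      cexp (((-(2 * z₀ / R) * (k + 2 * k * m) : ℝ) : ℂ) * I)
  calc ‖1 / 2 * S1 - 1 / 2 * S2‖ * D ≤ (1 / 2 * ‖S1‖ + 1 / 2 * ‖S2‖) * D := by
        gcongr
        refine (norm_sub_le _ _).trans ?_
        rw [norm_mul, norm_mul, hn]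
    _ = 1 / 2 * (‖S1‖ * D) + 1 / 2 * (‖S2‖ * D) := by ring
    _ ≤ 1 / 2 * (8 * Real.exp K) + 1 / 2 * (8 * Real.exp K) := by gcongr
    _ = _ := by ring

lemma norm_ker_sq_le' (K R z₀ r : ℝ) (hK : 1 ≤ K) (hR : 0 < R) (hr : 0 < r) :
    ‖ker (pa K R) (pl K R z₀) (r ^ 2)‖ ≤ 4 * Real.exp K * R ^ 2 / r ^ 2 := by
  rw [ker_sq_eq K R z₀ r hR hr.le]
  have hn : ‖(1 / 2 : ℂ)‖ = 1 / 2 := by simp
  have hkey : ∀ b : ℝ, b ≤ R → Gb K R b r ≤ 4 * Real.exp K * R ^ 2 / r ^ 2 := by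
    intro b hb
    rw [le_div_iff₀ (by positivity)]
    rcases le_or_gt r (2 * R) with h | h
    · have h1 := Gb_le K R b r (by linarith)
      have h2 : r ^ 2 ≤ 4 * R ^ 2 := by nlinarith
      have hE := Real.exp_pos K
      calc Gb K R b r * r ^ 2 ≤ Real.exp K * (4 * R ^ 2) := by gcongr
        _ = _ := by ring
    · have h1 : r / 2 ≤ r - b := by linarith
      have h2 : r ^ 2 / 4 ≤ (r - b) ^ 2 := by nlinarith
      have h3 : Gb K R b r ≤ Real.exp K * Real.exp (-(K / R ^ 2 * (r ^ 2 / 4))) := by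
        rw [Gb, ← Real.exp_add]
        gcongr
        have : K / R ^ 2 * (r ^ 2 / 4) ≤ K / R ^ 2 * (r - b) ^ 2 := by gcongr
        linarith
      set x := K / R ^ 2 * (r ^ 2 / 4) with hx
      have hxpos : 0 < x := by positivity
      have h4 : x * Real.exp (-x) ≤ 1 := by
        have := Real.add_one_le_exp x
        calc x * Real.exp (-x) ≤ Real.exp x * Real.exp (-x) := by gcongr; linarith
          _ = 1 := by rw [← Real.exp_add]; simp
      have h5 : r ^ 2 ≤ 4 * R ^ 2 * x := by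
        have e : 4 * R ^ 2 * x = K * r ^ 2 := by rw [hx]; field_simp
        rw [e]
        nlinarith [sq_nonneg r]
      calc Gb K R b r * r ^ 2 ≤ (Real.exp K * Real.exp (-x)) * (4 * R ^ 2 * x) := by gcongr
        _ = 4 * Real.exp K * R ^ 2 * (x * Real.exp (-x)) := by ring
        _ ≤ 4 * Real.exp K * R ^ 2 * 1 := by gcongr
        _ = _ := by ring
  have hb1 := hkey R le_rfl
  have hb2 := hkey (-R) (by linarith)
  refine (norm_sub_le _ _).trans ?_
  rw [norm_mul, norm_mul, norm_mul, norm_mul, Complex.norm_exp_ofReal_mul_I,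
    Complex.norm_exp_ofReal_mul_I, hn, Complex.norm_real, Complex.norm_real,
    Real.norm_of_nonneg (Gb_pos K R R r).le, Real.norm_of_nonneg (Gb_pos K R (-R) r).le]
  linarith

lemma sum_one_div_Yt_sq_le (M : ℕ) : ∑ m ∈ Finset.range M, 1 / Yt m ^ 2 ≤ 2 := by
  rcases Nat.eq_zero_or_pos M with rfl | hM
  · simp
  · have key : ∀ n : ℕ, 1 ≤ n → ∑ m ∈ Finset.range n, 1 / Yt m ^ 2 ≤ 2 - 1 / ((n : ℝ) + 1) := by
      intro n hn
      induction n, hn using Nat.le_induction with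
      | base => simp [Yt]; norm_num
      | succ n hn ih =>
        rw [Finset.sum_range_succ]
        have hn' : (1:ℝ) ≤ n := by exact_mod_cast hn
        have h1 : 1 / Yt n ^ 2 ≤ 1 / ((n : ℝ) + 1) - 1 / ((n : ℝ) + 1 + 1) := by
          unfold Yt
          rw [div_sub_div _ _ (by positivity) (by positivity), div_le_div_iff₀ (by positivity)
            (by positivity)]
          nlinarith
        push_cast
        linarith
    have := key M hM
    have h2 : (0:ℝ) < 1 / ((M : ℝ) + 1) := by positivity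
    linarith

lemma norm_sum_ker_le' (K R z₀ k : ℝ) (hK : 1 ≤ K) (hR : 0 < R) (hk : 0 < k) (M : ℕ) :
    ‖∑ m ∈ Finset.range M, ker (pa K R) (pl K R z₀) ((k * Yt m) ^ 2)‖ ≤
      8 * Real.exp K * R ^ 2 / k ^ 2 := by
  refine (norm_sum_le _ _).trans ?_
  have h1 : ∀ m ∈ Finset.range M, ‖ker (pa K R) (pl K R z₀) ((k * Yt m) ^ 2)‖ ≤
      4 * Real.exp K * R ^ 2 / k ^ 2 * (1 / Yt m ^ 2) := by
    intro m _
    have hY := Yt_pos m
    refine (norm_ker_sq_le' K R z₀ _ hK hR (by positivity)).trans (le_of_eq ?_)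
    rw [mul_pow]
    field_simp
  refine (Finset.sum_le_sum h1).trans ?_
  rw [← Finset.mul_sum]
  have := sum_one_div_Yt_sq_le M
  calc 4 * Real.exp K * R ^ 2 / k ^ 2 * ∑ m ∈ Finset.range M, 1 / Yt m ^ 2
      ≤ 4 * Real.exp K * R ^ 2 / k ^ 2 * 2 := by gcongr
    _ = _ := by ring

lemma norm_integral_ker_le (K R z₀ k : ℝ) (hK : 0 < K) (hR : 0 < R) (hz : 0 < z₀) (hk : 0 < k)
    (Y : ℝ) (hY : 0 < Y) :
    ‖∫ x in (0:ℝ)..Y, ker (pa K R) (pl K R z₀) ((k * x) ^ 2)‖ ≤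
      8 * Real.exp K / (2 * z₀ / R) / k := by
  have hθ : 0 < 2 * z₀ / R := by positivity
  rw [intervalIntegral.integral_comp_mul_left
    (fun r : ℝ => ker (pa K R) (pl K R z₀) (r ^ 2)) hk.ne', norm_smul]
  rw [mul_zero, Real.norm_of_nonneg (by positivity)]
  have h1 := norm_integral_Gb_exp_le K R R (2 * z₀ / R) (k * Y) hK hR hθ.ne' (by positivity)
  have h2 := norm_integral_Gb_exp_le K R (-R) (-(2 * z₀ / R)) (k * Y) hK hR
    (neg_ne_zero.mpr hθ.ne') (by positivity)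
  rw [abs_neg] at h2
  rw [abs_of_pos hθ] at h1 h2
  have hc1 : Continuous (fun r : ℝ => (Gb K R R r : ℂ) *
      cexp (((2 * z₀ / R * r : ℝ) : ℂ) * I)) := by
    have := continuous_Gb K R R
    fun_prop
  have hc2 : Continuous (fun r : ℝ => (Gb K R (-R) r : ℂ) *
      cexp (((-(2 * z₀ / R) * r : ℝ) : ℂ) * I)) := by
    have := continuous_Gb K R (-R)
    fun_prop
  have e : ∫ r in (0:ℝ)..(k * Y), ker (pa K R) (pl K R z₀) (r ^ 2) =
      (1 / 2) * (∫ r in (0:ℝ)..(k * Y), (Gb K R R r : ℂ) *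
        cexp (((2 * z₀ / R * r : ℝ) : ℂ) * I)) -
      (1 / 2) * ∫ r in (0:ℝ)..(k * Y), (Gb K R (-R) r : ℂ) *
        cexp (((-(2 * z₀ / R) * r : ℝ) : ℂ) * I) := by
    rw [← intervalIntegral.integral_const_mul, ← intervalIntegral.integral_const_mul,
      ← intervalIntegral.integral_sub ((hc1.intervalIntegrable _ _).const_mul _)
        ((hc2.intervalIntegrable _ _).const_mul _)]
    refine intervalIntegral.integral_congr ?_
    intro r hr
    rw [uIcc_of_le (by positivity)] at hr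
    exact ker_sq_eq K R z₀ r hR hr.1
  have hn : ‖(1 / 2 : ℂ)‖ = 1 / 2 := by simp
  have hI : ‖∫ r in (0:ℝ)..(k * Y), ker (pa K R) (pl K R z₀) (r ^ 2)‖ ≤
      8 * Real.exp K / (2 * z₀ / R) := by
    rw [e]
    refine (norm_sub_le _ _).trans ?_
    rw [norm_mul, norm_mul, hn]
    linarith
  calc k⁻¹ * ‖∫ r in (0:ℝ)..(k * Y), ker (pa K R) (pl K R z₀) (r ^ 2)‖
      ≤ k⁻¹ * (8 * Real.exp K / (2 * z₀ / R)) := by gcongr
    _ = _ := by ring

theorem norm_Jk_le_of_freq (K R z₀ k δ : ℝ) (hK : 1 ≤ K) (hR : 0 < R) (hz : 0 < z₀)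
    (hk : 0 < k) (hδ : 0 < δ)
    (hq : δ ≤ ‖cexp (((2 * z₀ / R * (2 * k) : ℝ) : ℂ) * I) - 1‖) :
    ‖Jk (pa K R) (pl K R z₀) k‖ ≤
      2 * Real.pi * (8 * Real.exp K / δ + 4 * Real.exp K / (2 * z₀ / R) / k) := by
  have h := norm_Jk_le (pa K R) (pa_pos K R (by linarith) hR) (pl K R z₀) k hk
    (8 * Real.exp K / δ) (8 * Real.exp K / (2 * z₀ / R) / k) ?_
    (fun Y hY => norm_integral_ker_le K R z₀ k (by linarith) hR hz hk Y hY)
  · refine h.trans (le_of_eq ?_)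
    ring
  · intro M
    rw [le_div_iff₀ hδ]
    refine le_trans ?_ (norm_sum_ker_le K R z₀ k (by linarith) hR hk M)
    gcongr

theorem norm_Jk_le_trivial (K R z₀ k : ℝ) (hK : 1 ≤ K) (hR : 0 < R) (hz : 0 < z₀)
    (hk : 0 < k) :
    ‖Jk (pa K R) (pl K R z₀) k‖ ≤
      2 * Real.pi * (8 * Real.exp K * R ^ 2 / k ^ 2 + 4 * Real.exp K / (2 * z₀ / R) / k) := by
  have h := norm_Jk_le (pa K R) (pa_pos K R (by linarith) hR) (pl K R z₀) k hk
    (8 * Real.exp K * R ^ 2 / k ^ 2) (8 * Real.exp K / (2 * z₀ / R) / k)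
    (fun M => norm_sum_ker_le' K R z₀ k hK hR hk M)
    (fun Y hY => norm_integral_ker_le K R z₀ k (by linarith) hR hz hk Y hY)
  refine h.trans (le_of_eq ?_)
  ring

end Pool.Agent.Ratios
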