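import Pool.Agent.Ratios.Params

/-! The final bound for the contribution of the first main term. -/

set_option autoImplicit false

open Complex MeasureTheory Set Filter Topology

namespace Pool.Agent.Ratios

namespace JFinal

lemma norm_exp_sub_one_ge (x : ℝ) (hx : |x| ≤ 1 / 2) :
    4 * |x| ≤ ‖cexp (((2 * Real.pi * x : ℝ) : ℂ) * I) - 1‖ := by
  have h1 := Complex.norm_exp_I_mul_ofReal_sub_one (2 * Real.pi * x)
  rw [mul_comm] at h1
  rw [h1, norm_mul, Real.norm_eq_abs, Real.norm_eq_abs, abs_two]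
  have h2 : 2 * Real.pi * x / 2 = Real.pi * x := by ring
  rw [h2]
  have hpi := Real.pi_pos
  have h3 : |Real.pi * x| ≤ Real.pi / 2 := by
    rw [abs_mul, abs_of_pos hpi]
    calc Real.pi * |x| ≤ Real.pi * (1 / 2) := by gcongr
      _ = _ := by ring
  have h4 := Real.mul_abs_le_abs_sin h3
  rw [abs_mul, abs_of_pos hpi] at h4
  have h5 : 2 / Real.pi * (Real.pi * |x|) = 2 * |x| := by field_simp
  rw [h5] at h4
  linarith

lemma exp_sub_int (x : ℝ) (n : ℤ) :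
    cexp (((2 * Real.pi * x : ℝ) : ℂ) * I) = cexp (((2 * Real.pi * (x - n) : ℝ) : ℂ) * I) := by
  have : (((2 * Real.pi * x : ℝ) : ℂ) * I) =
      (((2 * Real.pi * (x - n) : ℝ) : ℂ) * I) + n * (2 * Real.pi * I) := by
    push_cast; ring
  rw [this, Complex.exp_add, Complex.exp_int_mul_two_pi_mul_I, mul_one]

lemma two_sq_ne (k m : ℕ) (hk : 1 ≤ k) : 2 * k ^ 2 ≠ m ^ 2 := by
  intro h
  have hirr := irrational_sqrt_two
  apply hirr
  refine ⟨(m : ℚ) / k, ?_⟩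
  have hk0 : (0:ℝ) < k := by exact_mod_cast hk
  have h1 : (2:ℝ) * (k : ℝ) ^ 2 = (m : ℝ) ^ 2 := by exact_mod_cast h
  push_cast
  symm
  rw [Real.sqrt_eq_iff_mul_self_eq (by norm_num) (by positivity)]
  field_simp
  linarith

lemma dist_lower (p k : ℕ) (hp : 1 ≤ p) (hk : 1 ≤ k) (n : ℤ)
    (hn : |Real.sqrt 2 * k / p - n| ≤ 1 / 2) :
    1 / (4 * (p : ℝ) ^ 2 * k) ≤ |Real.sqrt 2 * k / p - n| := by
  have hp0 : (1:ℝ) ≤ p := by exact_mod_cast hp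
  have hk0 : (1:ℝ) ≤ k := by exact_mod_cast hk
  have hpp : (0:ℝ) < p := by linarith
  have hs2 := sqrt_two_sq
  have hsle := sqrt_two_le
  have hspos : 0 < Real.sqrt 2 := by positivity
  set A : ℝ := Real.sqrt 2 * k with hA
  have hA0 : 0 < A := by positivity
  have hAle : A ≤ 1.42 * k := by rw [hA]; gcongr
  -- the integer
  have hint : (1 : ℝ) ≤ |2 * (k : ℝ) ^ 2 - (n : ℝ) ^ 2 * (p : ℝ) ^ 2| := by
    have hne : (2 * (k : ℤ) ^ 2 - n ^ 2 * (p : ℤ) ^ 2) ≠ 0 := by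
      intro h0
      apply two_sq_ne k (n.natAbs * p) hk
      have h2 : ((2 * k ^ 2 : ℕ) : ℤ) = (((n.natAbs * p) ^ 2 : ℕ) : ℤ) := by
        push_cast
        rw [mul_pow, sq_abs]
        linarith
      exact_mod_cast h2
    have := Int.one_le_abs hne
    exact_mod_cast this
  have hfac : (2 * (k : ℝ) ^ 2 - (n : ℝ) ^ 2 * (p : ℝ) ^ 2) = (A - n * p) * (A + n * p) := by
    have : A ^ 2 = 2 * (k : ℝ) ^ 2 := by rw [hA, mul_pow, hs2]
    linear_combination -this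
  rw [hfac, abs_mul] at hint
  have hdiv : A / p - n = (A - n * p) / p := by field_simp
  have habs : |A / p - n| = |A - n * p| / p := by rw [hdiv, abs_div, abs_of_pos hpp]
  have hnp : |(n : ℝ) * p| ≤ A + p / 2 := by
    have h1 : |A - n * p| ≤ p / 2 := by
      rw [habs, div_le_iff₀ hpp] at hn
      linarith
    have h2 : (n : ℝ) * p = A - (A - n * p) := by ring
    rw [h2]
    refine (abs_sub _ _).trans ?_
    rw [abs_of_pos hA0]; linarith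
  have hsum : |A + n * p| ≤ 4 * p * k := by
    refine (abs_add_le _ _).trans ?_
    rw [abs_of_pos hA0]
    nlinarith
  have h3 : 1 ≤ |A - n * p| * (4 * p * k) :=
    hint.trans (mul_le_mul_of_nonneg_left hsum (abs_nonneg _))
  rw [habs, div_le_div_iff₀ (by positivity) hpp]
  nlinarith

lemma freq_lower (p k : ℕ) (hp : 1 ≤ p) (hk : 1 ≤ k) :
    1 / ((p : ℝ) ^ 2 * k) ≤
      ‖cexp (((Real.sqrt 2 * Real.pi / p * (2 * k) : ℝ) : ℂ) * I) - 1‖ := by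
  have e : Real.sqrt 2 * Real.pi / p * (2 * k) = 2 * Real.pi * (Real.sqrt 2 * k / p) := by ring
  rw [e, exp_sub_int _ (round (Real.sqrt 2 * k / p))]
  have hr := abs_sub_round (Real.sqrt 2 * (k : ℝ) / p)
  have h1 := norm_exp_sub_one_ge _ hr
  have h2 := dist_lower p k hp hk _ hr
  refine le_trans ?_ h1
  have hp0 : (1:ℝ) ≤ p := by exact_mod_cast hp
  have hk0 : (1:ℝ) ≤ k := by exact_mod_cast hk
  have e2 : 1 / ((p : ℝ) ^ 2 * k) = 4 * (1 / (4 * (p : ℝ) ^ 2 * k)) := by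
    field_simp
  rw [e2]
  linarith

/-- Both bounds for `Jk`. -/
lemma norm_Jk_both (p k : ℕ) (hp : 2 ≤ p) (hk : 1 ≤ k) :
    ‖Jk (ap p) (lp p) k‖ ≤ 2 * Real.pi * (p : ℝ) ^ 30 * (8 * (p : ℝ) ^ 2 * k + p / k) ∧
    ‖Jk (ap p) (lp p) k‖ ≤ 2 * Real.pi * (p : ℝ) ^ 30 * (8 * (p : ℝ) ^ 38 / k ^ 2 + p / k) := by
  have hK := one_le_Kp p hp
  have hR := Rp_pos p hp
  have hz := zp_pos p hp
  have hpp := p_pos p hp
  have hk0 : (0:ℝ) < k := by exact_mod_cast hk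
  have hpi := Real.pi_pos
  have hs := sqrt_two_le
  have hs2 : 1.41 ≤ Real.sqrt 2 := by
    apply Real.le_sqrt_of_sq_le; norm_num
  have hq := freq_lower p k (by omega) hk
  rw [← theta_eq p hp] at hq
  have h1 := norm_Jk_le_of_freq (Kp p) (Rp p) (zp p) k (1 / ((p : ℝ) ^ 2 * k)) hK hR hz hk0
    (by positivity) hq
  have h2 := norm_Jk_le_trivial (Kp p) (Rp p) (zp p) k hK hR hz hk0
  rw [exp_Kp p hp, theta_eq p hp] at h1 h2
  have h3 : 4 * (p : ℝ) ^ 30 / (Real.sqrt 2 * Real.pi / p) / k ≤ (p : ℝ) ^ 30 * (p / k) := by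
    have hsp : 4 ≤ Real.sqrt 2 * Real.pi := by
      have := Real.pi_gt_d2
      nlinarith
    rw [div_div_eq_mul_div, div_div, mul_div_assoc', div_le_div_iff₀ (by positivity) hk0]
    have : 0 ≤ (p : ℝ) ^ 30 * p * k := by positivity
    nlinarith
  constructor
  · refine h1.trans ?_
    have e1 : 8 * (p : ℝ) ^ 30 / (1 / ((p : ℝ) ^ 2 * k)) = (p : ℝ) ^ 30 * (8 * (p : ℝ) ^ 2 * k) := by
      field_simp
    rw [e1]
    calc 2 * Real.pi * ((p : ℝ) ^ 30 * (8 * (p : ℝ) ^ 2 * k) +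
        4 * (p : ℝ) ^ 30 / (Real.sqrt 2 * Real.pi / p) / k) ≤
        2 * Real.pi * ((p : ℝ) ^ 30 * (8 * (p : ℝ) ^ 2 * k) + (p : ℝ) ^ 30 * (p / k)) := by
          gcongr
      _ = _ := by ring
  · refine h2.trans ?_
    have e1 : 8 * (p : ℝ) ^ 30 * Rp p ^ 2 / (k : ℝ) ^ 2 ≤
        (p : ℝ) ^ 30 * (8 * (p : ℝ) ^ 38 / (k : ℝ) ^ 2) := by
      rw [Rp_sq p, ← mul_div_assoc]
      have h0 : 0 ≤ (p : ℝ) ^ 30 * (p : ℝ) ^ 38 := by positivity
      have h5 : 8 * (p : ℝ) ^ 30 * (8 / 9 * (p : ℝ) ^ 38) ≤ (p : ℝ) ^ 30 * (8 * (p : ℝ) ^ 38) := by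
        nlinarith
      exact div_le_div_of_nonneg_right h5 (by positivity)
    calc 2 * Real.pi * (8 * (p : ℝ) ^ 30 * Rp p ^ 2 / (k : ℝ) ^ 2 +
        4 * (p : ℝ) ^ 30 / (Real.sqrt 2 * Real.pi / p) / k) ≤
        2 * Real.pi * ((p : ℝ) ^ 30 * (8 * (p : ℝ) ^ 38 / (k : ℝ) ^ 2) +
          (p : ℝ) ^ 30 * (p / k)) := by
          gcongr
      _ = _ := by ring

/-- The bound `(1/k) ‖Jk‖ ≤ 18 π p^46 k^{-9/8}`. -/
lemma norm_Jk_div (p k : ℕ) (hp : 2 ≤ p) (hk : 1 ≤ k) :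
    1 / (k : ℝ) * ‖Jk (ap p) (lp p) k‖ ≤
      18 * Real.pi * (p : ℝ) ^ 46 * (k : ℝ) ^ (-(9 / 8) : ℝ) := by
  obtain ⟨h1, h2⟩ := norm_Jk_both p k hp hk
  have hpp := p_pos p hp
  have hp1 := one_le_p p hp
  have hk1 : (1:ℝ) ≤ k := by exact_mod_cast hk
  have hk0 : (0:ℝ) < k := by linarith
  have hpi := Real.pi_pos
  set y : ℝ := (k : ℝ) ^ (-(1 / 8) : ℝ) with hy
  have hy0 : 0 < y := Real.rpow_pos_of_pos hk0 _
  have hy1 : y ≤ 1 := Real.rpow_le_one_of_one_le_of_nonpos hk1 (by norm_num)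
  have hy9 : (k : ℝ) ^ (-(9 / 8) : ℝ) = 1 / k * y := by
    rw [hy, one_div, ← Real.rpow_neg_one, ← Real.rpow_add hk0]; norm_num
  have hky : 1 / (k : ℝ) ≤ y := by
    rw [hy, one_div, ← Real.rpow_neg_one]
    exact Real.rpow_le_rpow_of_exponent_le hk1 (by norm_num)
  -- the interpolation
  have hmain : ‖Jk (ap p) (lp p) k‖ ≤
      2 * Real.pi * (p : ℝ) ^ 30 * (8 * (p : ℝ) ^ 16 * y + p * y) := by
    have hpk : (p : ℝ) / k ≤ p * y := by
      rw [div_eq_mul_one_div]; gcongr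
    rcases le_or_gt (k : ℝ) ((p : ℝ) ^ 12) with hc | hc
    · refine h1.trans ?_
      have h3 : 8 * (p : ℝ) ^ 2 * k ≤ 8 * (p : ℝ) ^ 16 * y := by
        have h4 : (k : ℝ) = (k : ℝ) ^ (9 / 8 : ℝ) * y := by
          rw [hy, ← Real.rpow_add hk0]; norm_num
        have h5 : (k : ℝ) ^ (9 / 8 : ℝ) ≤ (p : ℝ) ^ 14 := by
          calc (k : ℝ) ^ (9 / 8 : ℝ) ≤ ((p : ℝ) ^ 12) ^ (9 / 8 : ℝ) :=
                Real.rpow_le_rpow hk0.le hc (by norm_num)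
            _ = (p : ℝ) ^ (12 * (9 / 8) : ℝ) := by
                rw [Real.rpow_mul hpp.le]; norm_num
            _ ≤ (p : ℝ) ^ (14 : ℝ) :=
                Real.rpow_le_rpow_of_exponent_le (by linarith) (by norm_num)
            _ = (p : ℝ) ^ 14 := by
                rw [← Real.rpow_natCast]; norm_num
        calc 8 * (p : ℝ) ^ 2 * k = 8 * (p : ℝ) ^ 2 * ((k : ℝ) ^ (9 / 8 : ℝ) * y) := by rw [← h4]
          _ ≤ 8 * (p : ℝ) ^ 2 * ((p : ℝ) ^ 14 * y) := by gcongr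
          _ = _ := by ring
      gcongr
    · refine h2.trans ?_
      have h3 : 8 * (p : ℝ) ^ 38 / (k : ℝ) ^ 2 ≤ 8 * (p : ℝ) ^ 16 * y := by
        have h4 : 1 / (k : ℝ) ^ 2 = (k : ℝ) ^ (-(15 / 8) : ℝ) * y := by
          rw [hy, ← Real.rpow_add hk0]
          have : (-(15 / 8) : ℝ) + -(1 / 8) = -2 := by norm_num
          rw [this, Real.rpow_neg hk0.le, one_div]
          norm_num
        have h5 : (k : ℝ) ^ (-(15 / 8) : ℝ) ≤ ((p : ℝ) ^ 22)⁻¹ := by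
          calc (k : ℝ) ^ (-(15 / 8) : ℝ) ≤ ((p : ℝ) ^ 12) ^ (-(15 / 8) : ℝ) :=
                Real.rpow_le_rpow_of_nonpos (by positivity) hc.le (by norm_num)
            _ = (p : ℝ) ^ (12 * (-(15 / 8)) : ℝ) := by
                rw [Real.rpow_mul hpp.le]; norm_num
            _ ≤ (p : ℝ) ^ (-22 : ℝ) :=
                Real.rpow_le_rpow_of_exponent_le (by linarith) (by norm_num)
            _ = ((p : ℝ) ^ 22)⁻¹ := by
                rw [Real.rpow_neg hpp.le]; norm_num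
        calc 8 * (p : ℝ) ^ 38 / (k : ℝ) ^ 2 = 8 * (p : ℝ) ^ 38 * (1 / (k : ℝ) ^ 2) := by ring
          _ = 8 * (p : ℝ) ^ 38 * ((k : ℝ) ^ (-(15 / 8) : ℝ) * y) := by rw [h4]
          _ ≤ 8 * (p : ℝ) ^ 38 * (((p : ℝ) ^ 22)⁻¹ * y) := by gcongr
          _ = _ := by field_simp
      gcongr
  have hp16 : (p : ℝ) ≤ (p : ℝ) ^ 16 := le_self_pow₀ (by linarith) (by norm_num)
  calc 1 / (k : ℝ) * ‖Jk (ap p) (lp p) k‖ ≤
      1 / (k : ℝ) * (2 * Real.pi * (p : ℝ) ^ 30 * (8 * (p : ℝ) ^ 16 * y + p * y)) := by gcongr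
    _ ≤ 1 / (k : ℝ) * (2 * Real.pi * (p : ℝ) ^ 30 *
        (8 * (p : ℝ) ^ 16 * y + (p : ℝ) ^ 16 * y)) := by gcongr
    _ = 18 * Real.pi * (p : ℝ) ^ 46 * (1 / k * y) := by ring
    _ = _ := by rw [hy9]

end JFinal

open JFinal in
theorem J_final : ∃ C : ℝ, 0 ≤ C ∧ ∀ p : ℕ, 2 ≤ p →
    ‖((Wstar wS (Xp p) : ℝ) : ℂ) * ∑' k : ℕ, Ch h16 * ((sPF (vp h16) k : ℂ) *
      Jk (ap p) (lp p) k)‖ ≤ C * (p : ℝ) ^ 66 := by
  have hsum : Summable (fun k : ℕ => (k : ℝ) ^ (-(9 / 8) : ℝ)) :=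
    Real.summable_nat_rpow.mpr (by norm_num)
  have hh16 : (0:ℝ) < h16 := by unfold h16; norm_num
  set Z : ℝ := ∑' k : ℕ, (k : ℝ) ^ (-(9 / 8) : ℝ) with hZ
  have hZ0 : 0 ≤ Z := tsum_nonneg fun k => by positivity
  refine ⟨45 * Real.pi * Z, by positivity, fun p hp => ?_⟩
  have hpp := p_pos p hp
  have hpi := Real.pi_pos
  have hterm : ∀ k : ℕ, ‖Ch h16 * ((sPF (vp h16) k : ℂ) * Jk (ap p) (lp p) k)‖ ≤
      9 * Real.pi * (p : ℝ) ^ 46 * (k : ℝ) ^ (-(9 / 8) : ℝ) := by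
    intro k
    rcases Nat.eq_zero_or_pos k with rfl | hk
    · rw [sPF_zero]
      simp only [Complex.ofReal_zero, zero_mul, mul_zero, norm_zero]
      positivity
    · have h1 := norm_Ch_le h16 hh16
      have h2 : 8 * h16 = 1 / 2 := by unfold h16; norm_num
      rw [h2] at h1
      have h3 := abs_sPF_le (vp h16) (fun p hp => abs_vp_le h16 hh16 p hp) k
      have h4 := norm_Jk_div p k hp hk
      rw [norm_mul, norm_mul, Complex.norm_real, Real.norm_eq_abs]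
      calc ‖Ch h16‖ * (|sPF (vp h16) k| * ‖Jk (ap p) (lp p) k‖) ≤
          1 / 2 * (1 / k * ‖Jk (ap p) (lp p) k‖) := by gcongr
        _ ≤ 1 / 2 * (18 * Real.pi * (p : ℝ) ^ 46 * (k : ℝ) ^ (-(9 / 8) : ℝ)) := by gcongr
        _ = _ := by ring
  have hts : ‖∑' k : ℕ, Ch h16 * ((sPF (vp h16) k : ℂ) * Jk (ap p) (lp p) k)‖ ≤
      9 * Real.pi * (p : ℝ) ^ 46 * Z :=
    tsum_of_norm_bounded (hsum.hasSum.mul_left _) hterm
  have hW := Wstar_le (Xp p) (Xp_pos p hp)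
  have hW0 := Wstar_nonneg (Xp p) (Xp_pos p hp)
  rw [Xp_cast p] at hW
  rw [norm_mul, Complex.norm_real, Real.norm_of_nonneg (by simpa using hW0)]
  calc Wstar wS (Xp p) * ‖∑' k : ℕ, Ch h16 * ((sPF (vp h16) k : ℂ) * Jk (ap p) (lp p) k)‖ ≤
      (5 * (p : ℝ) ^ 20) * (9 * Real.pi * (p : ℝ) ^ 46 * Z) := by
        gcongr
        rw [Xp_cast p]; exact hW
    _ = _ := by ring

end Pool.Agent.Ratios
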