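import Pool.Agent.Ratios.ZetaPart
import Pool.Agent.Ratios.KernelBounds

/-! The contribution of the first main term: truncated sums. -/

set_option autoImplicit false

open Complex MeasureTheory Set Filter Topology

namespace Pool.Agent.Ratios

/-- The right end of the truncation. -/
noncomputable def Yt (M : ℕ) : ℝ := 2 * (M : ℝ) + 1

lemma Yt_pos (M : ℕ) : 0 < Yt M := by unfold Yt; positivity
lemma one_le_Yt (M : ℕ) : 1 ≤ Yt M := by
  unfold Yt
  have : (0:ℝ) ≤ M := Nat.cast_nonneg M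
  linarith

/-- Truncated version of `(1 - 2^{-s}) ζ(s)`. -/
noncomputable def ZM (M : ℕ) (s : ℂ) : ℂ :=
  ∑ m ∈ Finset.range M, ((Yt m : ℝ) : ℂ) ^ (-s) + (1 / 2) * ((Yt M : ℝ) : ℂ) ^ (-s) -
    (1 / 2) * ∫ x in (0:ℝ)..(Yt M), (x : ℂ) ^ (-s)

lemma Bodd_on_block (m : ℕ) (t : ℝ) (h1 : Yt m ≤ t) (h2 : t < Yt (m + 1)) :
    Bodd t = (m : ℝ) + 1 - t / 2 := by
  unfold Yt at h1 h2
  push_cast at h2
  have hm : (0:ℝ) ≤ m := Nat.cast_nonneg m
  have ht : 0 ≤ t := by linarith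
  rw [Bodd, Ocount, max_eq_left ht]
  have hf1 : 2 * m + 1 ≤ ⌊t⌋₊ := Nat.le_floor (by push_cast; linarith)
  have hf2 : ⌊t⌋₊ < 2 * m + 3 := (Nat.floor_lt ht).mpr (by push_cast; linarith)
  have : (⌊t⌋₊ + 1) / 2 = m + 1 := by omega
  rw [this]
  push_cast
  ring

lemma block_identity (m : ℕ) (s : ℂ) :
    s * ∫ t in (Yt m)..(Yt (m + 1)), BoddC t * (t : ℂ) ^ (-(s + 1)) =
      (1 / 2) * ((Yt (m + 1) : ℝ) : ℂ) ^ (-s) + (1 / 2) * ((Yt m : ℝ) : ℂ) ^ (-s) -
        (1 / 2) * ∫ x in (Yt m)..(Yt (m + 1)), (x : ℂ) ^ (-s) := by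
  have hlt : Yt m < Yt (m + 1) := by unfold Yt; push_cast; linarith
  have hpos := Yt_pos m
  have hcongr : ∫ t in (Yt m)..(Yt (m + 1)), BoddC t * (t : ℂ) ^ (-(s + 1)) =
      ∫ t in (Yt m)..(Yt (m + 1)), (((m : ℝ) + 1 - t / 2 : ℝ) : ℂ) * (t : ℂ) ^ (-(s + 1)) := by
    rw [intervalIntegral.integral_of_le hlt.le, intervalIntegral.integral_of_le hlt.le,
      setIntegral_congr_set Ioo_ae_eq_Ioc.symm, setIntegral_congr_set Ioo_ae_eq_Ioc.symm]
    refine setIntegral_congr_fun measurableSet_Ioo ?_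
    intro t ht
    simp only
    rw [BoddC, Bodd_on_block m t ht.1.le ht.2]
  have hd : ∀ t ∈ uIcc (Yt m) (Yt (m + 1)),
      HasDerivAt (fun t : ℝ => -((((m : ℝ) + 1 - t / 2 : ℝ) : ℂ)) * (t : ℂ) ^ (-s))
        (s * ((((m : ℝ) + 1 - t / 2 : ℝ) : ℂ) * (t : ℂ) ^ (-(s + 1))) +
          (1 / 2) * (t : ℂ) ^ (-s)) t := by
    intro t ht
    rw [uIcc_of_le hlt.le] at ht
    have ht0 : 0 < t := lt_of_lt_of_le hpos ht.1
    have h1 : HasDerivAt (fun t : ℝ => -((((m : ℝ) + 1 - t / 2 : ℝ) : ℂ))) (1 / 2) t := by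
      have h0 : HasDerivAt (fun t : ℝ => (m : ℝ) + 1 - t / 2) (-(1 / 2)) t := by
        simpa using ((hasDerivAt_id t).div_const 2).const_sub ((m : ℝ) + 1)
      refine (h0.ofReal_comp.fun_neg).congr_deriv ?_
      push_cast; ring
    have h2 : HasDerivAt (fun t : ℝ => (t : ℂ) ^ (-s)) (-s * (t : ℂ) ^ (-s - 1)) t := by
      by_cases hs : s = 0
      · subst hs; simpa using hasDerivAt_const t (1 : ℂ)
      · exact hasDerivAt_ofReal_cpow_const ht0.ne' (neg_ne_zero.mpr hs)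
    refine (h1.fun_mul h2).congr_deriv ?_
    rw [show -(s + 1) = -s - 1 by ring]
    ring
  have hc1 : ContinuousOn (fun t : ℝ => (((m : ℝ) + 1 - t / 2 : ℝ) : ℂ) * (t : ℂ) ^ (-(s + 1)))
      (uIcc (Yt m) (Yt (m + 1))) := by
    intro t ht
    rw [uIcc_of_le hlt.le] at ht
    have ht0 : 0 < t := lt_of_lt_of_le hpos ht.1
    refine ContinuousAt.continuousWithinAt (ContinuousAt.mul (by fun_prop) ?_)
    exact continuousAt_ofReal_cpow_const _ _ (Or.inr ht0.ne')
  have hc2 : ContinuousOn (fun t : ℝ => (t : ℂ) ^ (-s)) (uIcc (Yt m) (Yt (m + 1))) := by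
    intro t ht
    rw [uIcc_of_le hlt.le] at ht
    have ht0 : 0 < t := lt_of_lt_of_le hpos ht.1
    exact (continuousAt_ofReal_cpow_const _ _ (Or.inr ht0.ne')).continuousWithinAt
  have hi1 := (hc1.intervalIntegrable (μ := volume)).const_mul s
  have hi2 := (hc2.intervalIntegrable (μ := volume)).const_mul (1 / 2 : ℂ)
  have hftc := intervalIntegral.integral_eq_sub_of_hasDerivAt hd (hi1.add hi2)
  rw [intervalIntegral.integral_add hi1 hi2, intervalIntegral.integral_const_mul,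
    intervalIntegral.integral_const_mul] at hftc
  rw [hcongr]
  have e1 : -((((m : ℝ) + 1 - Yt (m + 1) / 2 : ℝ) : ℂ)) = 1 / 2 := by
    unfold Yt; push_cast; ring
  have e2 : -((((m : ℝ) + 1 - Yt m / 2 : ℝ) : ℂ)) = -(1 / 2) := by
    unfold Yt; push_cast; ring
  rw [e1, e2] at hftc
  linear_combination hftc

lemma intervalIntegrable_BoddC (s : ℂ) (a b : ℝ) (ha : 1 ≤ a) (hb : 1 ≤ b) :
    IntervalIntegrable (fun t : ℝ => BoddC t * (t : ℂ) ^ (-(s + 1))) volume a b := by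
  have hc : ContinuousOn (fun t : ℝ => (t : ℂ) ^ (-(s + 1))) (uIcc a b) := by
    intro t ht
    have ht0 : 0 < t := by
      rcases le_total a b with h | h
      · rw [uIcc_of_le h] at ht; linarith [ht.1]
      · rw [uIcc_of_ge h] at ht; linarith [ht.1]
    exact (continuousAt_ofReal_cpow_const _ _ (Or.inr ht0.ne')).continuousWithinAt
  refine IntervalIntegrable.mul_continuousOn ?_ hc
  refine (intervalIntegrable_const (c := (1:ℝ))).mono_fun
    (measurable_BoddC.aestronglyMeasurable) ?_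
  filter_upwards with t
  refine (norm_BoddC_le t).trans ?_
  norm_num

lemma ZM_eq (M : ℕ) (s : ℂ) (_h0 : 0 < s.re) (h1 : s.re < 1) :
    ZM M s = s * (∫ t in (1:ℝ)..(Yt M), BoddC t * (t : ℂ) ^ (-(s + 1))) + s / (2 * (s - 1)) := by
  have hs1 : s - 1 ≠ 0 := by
    intro h
    have h2 := congrArg Complex.re h
    simp at h2
    linarith
  have hi : ∀ Y : ℝ, IntervalIntegrable (fun x : ℝ => (x : ℂ) ^ (-s)) volume 0 Y := fun Y =>
    intervalIntegral.intervalIntegrable_cpow' (by simpa using h1)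
  induction M with
  | zero =>
    have e : Yt 0 = 1 := by simp [Yt]
    rw [ZM, e, intervalIntegral.integral_same, integral_cpow (Or.inl (by simpa using h1))]
    have h4 : -s + 1 ≠ 0 := by
      intro h; apply hs1; linear_combination -h
    rw [Complex.ofReal_one, one_cpow, one_cpow, Complex.ofReal_zero, zero_cpow h4]
    simp only [Finset.range_zero, Finset.sum_empty]
    field_simp
    ring
  | succ M ih =>
    have hb := block_identity M s
    have hadd : (∫ t in (1:ℝ)..(Yt (M + 1)), BoddC t * (t : ℂ) ^ (-(s + 1))) =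
        (∫ t in (1:ℝ)..(Yt M), BoddC t * (t : ℂ) ^ (-(s + 1))) +
        ∫ t in (Yt M)..(Yt (M + 1)), BoddC t * (t : ℂ) ^ (-(s + 1)) :=
      (intervalIntegral.integral_add_adjacent_intervals
        (intervalIntegrable_BoddC s _ _ le_rfl (one_le_Yt M))
        (intervalIntegrable_BoddC s _ _ (one_le_Yt M) (one_le_Yt _))).symm
    have hadd2 : (∫ x in (0:ℝ)..(Yt (M + 1)), (x : ℂ) ^ (-s)) =
        (∫ x in (0:ℝ)..(Yt M), (x : ℂ) ^ (-s)) + ∫ x in (Yt M)..(Yt (M + 1)), (x : ℂ) ^ (-s) :=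
      (intervalIntegral.integral_add_adjacent_intervals (hi _)
        ((hi _).symm.trans (hi _))).symm
    rw [ZM] at ih
    rw [ZM, Finset.sum_range_succ, hadd, hadd2]
    linear_combination ih - hb

lemma norm_ZM_le (M : ℕ) (s : ℂ) (h0 : 0 < s.re) (h1 : s.re < 1) :
    ‖ZM M s‖ ≤ ‖s‖ * (1 / (2 * s.re) + 1 / (2 * (1 - s.re))) := by
  rw [ZM_eq M s h0 h1]
  have h2 : 1 - s.re ≤ ‖s - 1‖ := by
    have := Complex.abs_re_le_norm (s - 1)
    have h3 := neg_abs_le (s - 1).re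
    simp only [sub_re, one_re] at this h3
    linarith
  have hI : ‖∫ t in (1:ℝ)..(Yt M), BoddC t * (t : ℂ) ^ (-(s + 1))‖ ≤ 1 / 2 / s.re := by
    rw [intervalIntegral.integral_of_le (one_le_Yt M)]
    have hint : IntegrableOn (fun t : ℝ => 1 / 2 * t ^ (-(s.re + 1))) (Ioi 1) :=
      (integrableOn_Ioi_rpow_of_lt (by linarith) one_pos).const_mul _
    have h3 : ‖∫ t in Ioc (1:ℝ) (Yt M), BoddC t * (t : ℂ) ^ (-(s + 1))‖ ≤
        ∫ t in Ioc (1:ℝ) (Yt M), 1 / 2 * t ^ (-(s.re + 1)) := by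
      refine norm_integral_le_of_norm_le (hint.mono_set Ioc_subset_Ioi_self) ?_
      rw [ae_restrict_iff' measurableSet_Ioc]
      filter_upwards with t ht
      exact norm_gint_integrand_le _ _ norm_BoddC_le s t ht.1
    refine h3.trans ?_
    have h4 : ∫ t in Ioc (1:ℝ) (Yt M), 1 / 2 * t ^ (-(s.re + 1)) ≤
        ∫ t in Ioi (1:ℝ), 1 / 2 * t ^ (-(s.re + 1)) := by
      refine setIntegral_mono_set hint ?_ Ioc_subset_Ioi_self.eventuallyLE
      rw [EventuallyLE, ae_restrict_iff' measurableSet_Ioi]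
      filter_upwards with t ht
      have ht0 : (0:ℝ) < t := by have := mem_Ioi.mp ht; linarith
      simp only [Pi.zero_apply]
      positivity
    refine h4.trans (le_of_eq ?_)
    rw [integral_const_mul, integral_Ioi_rpow_of_lt (by linarith) one_pos, Real.one_rpow]
    have : -(s.re + 1) + 1 = -s.re := by ring
    rw [this]
    field_simp
  calc ‖s * (∫ t in (1:ℝ)..(Yt M), BoddC t * (t : ℂ) ^ (-(s + 1))) + s / (2 * (s - 1))‖
      ≤ ‖s‖ * ‖∫ t in (1:ℝ)..(Yt M), BoddC t * (t : ℂ) ^ (-(s + 1))‖ +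
        ‖s‖ / (2 * ‖s - 1‖) := by
        refine (norm_add_le _ _).trans ?_
        rw [norm_mul, norm_div, norm_mul]
        simp
    _ ≤ ‖s‖ * (1 / 2 / s.re) + ‖s‖ / (2 * (1 - s.re)) := by
        have : 0 < 1 - s.re := by linarith
        gcongr
    _ = _ := by
        have : 0 < 1 - s.re := by linarith
        field_simp

lemma tendsto_Yt : Tendsto Yt atTop atTop := by
  unfold Yt
  exact tendsto_atTop_add_const_right _ _
    ((tendsto_natCast_atTop_atTop (R := ℝ)).const_mul_atTop (by norm_num))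

lemma tendsto_ZM (s : ℂ) (h0 : 0 < s.re) (h1 : s.re < 1) :
    Tendsto (fun M => ZM M s) atTop (𝓝 (Zf s)) := by
  have hs1 : s ≠ 1 := by rintro rfl; simp at h1
  have e : (fun M => ZM M s) = fun M =>
      s * (∫ t in (1:ℝ)..(Yt M), BoddC t * (t : ℂ) ^ (-(s + 1))) + s / (2 * (s - 1)) := by
    funext M; exact ZM_eq M s h0 h1
  rw [e, Zf_eq s h0 hs1]
  refine Tendsto.add (Tendsto.const_mul _ ?_) tendsto_const_nhds
  exact intervalIntegral_tendsto_integral_Ioi 1
    (integrableOn_gint _ measurable_BoddC (1 / 2) norm_BoddC_le s h0) tendsto_Yt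

/-- Mellin inversion for the kernel. -/
lemma mellin_inversion_ker (a : ℝ) (ha : 0 < a) (lam : ℂ) (c : ℝ) (hc : -(1 / 2) < c) (y : ℝ)
    (hy : 0 < y) :
    ∫ t : ℝ, mellin (ker a lam) ((c : ℂ) + t * I) * (y : ℂ) ^ (-((c : ℂ) + t * I)) =
      2 * Real.pi * ker a lam y := by
  obtain ⟨C, hC, hdec⟩ := mellin_ker_decay a ha lam c c hc le_rfl
  have hvi : VerticalIntegrable (mellin (ker a lam)) c := by
    unfold VerticalIntegrable
    refine ((integrable_exp_neg_mul_abs 1 one_pos).const_mul C).mono'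
      (continuous_mellin_ker_vertical a (by simpa using ha) lam c hc).aestronglyMeasurable ?_
    filter_upwards with t
    have := hdec c le_rfl le_rfl t
    simpa using this
  have h := mellinInv_mellin_eq c (ker a lam) hy
    (mellinConvergent_ker a lam c (by simpa using ha) (by simpa using hc)) hvi
    (continuous_ker a lam).continuousAt
  rw [mellinInv] at h
  have hpi : (Real.pi : ℂ) ≠ 0 := by exact_mod_cast Real.pi_ne_zero
  have e : ∀ t : ℝ, (y : ℂ) ^ (-((c : ℂ) + t * I)) • mellin (ker a lam) ((c : ℂ) + t * I) =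
      mellin (ker a lam) ((c : ℂ) + t * I) * (y : ℂ) ^ (-((c : ℂ) + t * I)) := by
    intro t; rw [smul_eq_mul, mul_comm]
  simp_rw [e] at h
  rw [Complex.real_smul] at h
  generalize (∫ t : ℝ, mellin (ker a lam) ((c : ℂ) + t * I) * (y : ℂ) ^ (-((c : ℂ) + t * I))) = J
    at h ⊢
  rw [← h]
  push_cast
  field_simp

end Pool.Agent.Ratios
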