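import Pool.Agent.Ratios.GammaIntegral
import Pool.Agent.Ratios.GammaBound

/-! The kernel `x ↦ exp(-a x) sinh(λ √x)` and its Mellin transform. -/

set_option autoImplicit false

open Complex MeasureTheory Set Filter Topology

namespace Pool.Agent.Ratios

/-- The kernel `exp(-a x) sinh(λ √x)`. -/
noncomputable def ker (a lam : ℂ) (x : ℝ) : ℂ :=
  cexp (-(a * x)) * Complex.sinh (lam * (Real.sqrt x : ℝ))

lemma norm_sinh_le_mul_exp (w : ℂ) : ‖Complex.sinh w‖ ≤ ‖w‖ * Real.exp ‖w‖ := by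
  have h1 := norm_exp_sub_sum_le_norm_mul_exp w 1
  have h2 := norm_exp_sub_sum_le_norm_mul_exp (-w) 1
  simp only [Finset.range_one, Finset.sum_singleton, pow_zero, Nat.factorial_zero, Nat.cast_one,
    div_one, pow_one, norm_neg] at h1 h2
  have e : Complex.sinh w = ((cexp w - 1) - (cexp (-w) - 1)) / 2 := by
    rw [Complex.sinh]; ring
  rw [e, norm_div]
  have h3 := norm_sub_le (cexp w - 1) (cexp (-w) - 1)
  have h4 : ‖(2 : ℂ)‖ = 2 := by simp
  rw [h4]
  linarith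

lemma norm_sinh_le_exp (w : ℂ) : ‖Complex.sinh w‖ ≤ Real.exp |w.re| := by
  rw [Complex.sinh, norm_div]
  have h3 := norm_sub_le (cexp w) (cexp (-w))
  rw [Complex.norm_exp, Complex.norm_exp, neg_re] at h3
  have h4 : ‖(2 : ℂ)‖ = 2 := by simp
  rw [h4]
  have h5 : Real.exp w.re ≤ Real.exp |w.re| := Real.exp_le_exp.mpr (le_abs_self _)
  have h6 : Real.exp (-w.re) ≤ Real.exp |w.re| := Real.exp_le_exp.mpr (neg_le_abs _)
  linarith

lemma norm_cosh_le_exp (w : ℂ) : ‖Complex.cosh w‖ ≤ Real.exp |w.re| := by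
  rw [Complex.cosh, norm_div]
  have h3 := norm_add_le (cexp w) (cexp (-w))
  rw [Complex.norm_exp, Complex.norm_exp, neg_re] at h3
  have h4 : ‖(2 : ℂ)‖ = 2 := by simp
  rw [h4]
  have h5 : Real.exp w.re ≤ Real.exp |w.re| := Real.exp_le_exp.mpr (le_abs_self _)
  have h6 : Real.exp (-w.re) ≤ Real.exp |w.re| := Real.exp_le_exp.mpr (neg_le_abs _)
  linarith

lemma norm_ker_le_exp (a lam : ℂ) (x : ℝ) :
    ‖ker a lam x‖ ≤ Real.exp (-(a.re * x) + |lam.re| * Real.sqrt x) := by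
  rw [ker, norm_mul, Complex.norm_exp, Real.exp_add]
  have h := norm_sinh_le_exp (lam * (Real.sqrt x : ℝ))
  have e1 : (-(a * (x : ℂ))).re = -(a.re * x) := by simp
  have e2 : |(lam * ((Real.sqrt x : ℝ) : ℂ)).re| = |lam.re| * Real.sqrt x := by
    rw [re_mul_ofReal, abs_mul, abs_of_nonneg (Real.sqrt_nonneg x)]
  rw [e1]
  rw [e2] at h
  gcongr

/-- A majorant constant for the kernel. -/
noncomputable def kerC (a lam : ℂ) : ℝ := ‖lam‖ * Real.exp (‖lam‖ ^ 2 / (2 * a.re))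

lemma kerC_nonneg (a lam : ℂ) : 0 ≤ kerC a lam := by unfold kerC; positivity

lemma norm_ker_le (a lam : ℂ) (ha : 0 < a.re) (x : ℝ) (hx : 0 < x) :
    ‖ker a lam x‖ ≤ kerC a lam * (x ^ (1 / 2 : ℝ) * Real.exp (-(a.re / 2 * x))) := by
  rw [ker, norm_mul, Complex.norm_exp]
  have h := norm_sinh_le_mul_exp (lam * (Real.sqrt x : ℝ))
  have e1 : (-(a * (x : ℂ))).re = -(a.re * x) := by simp
  have e2 : ‖lam * ((Real.sqrt x : ℝ) : ℂ)‖ = ‖lam‖ * Real.sqrt x := by
    rw [norm_mul, Complex.norm_real, Real.norm_of_nonneg (Real.sqrt_nonneg x)]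
  rw [e2] at h
  rw [e1, ← Real.sqrt_eq_rpow, kerC]
  have h3 : ‖lam‖ * Real.sqrt x ≤ a.re / 2 * x + ‖lam‖ ^ 2 / (2 * a.re) := by
    have hs := Real.sq_sqrt hx.le
    have hsq : 0 ≤ (a.re * Real.sqrt x - ‖lam‖) ^ 2 / (2 * a.re) := by positivity
    have e : (a.re * Real.sqrt x - ‖lam‖) ^ 2 / (2 * a.re) =
        a.re / 2 * (Real.sqrt x) ^ 2 - ‖lam‖ * Real.sqrt x + ‖lam‖ ^ 2 / (2 * a.re) := by
      field_simp
      ring
    rw [hs] at e
    linarith
  have h4 : Real.exp (‖lam‖ * Real.sqrt x) ≤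
      Real.exp (a.re / 2 * x) * Real.exp (‖lam‖ ^ 2 / (2 * a.re)) := by
    rw [← Real.exp_add]
    exact Real.exp_le_exp.mpr h3
  calc Real.exp (-(a.re * x)) * ‖Complex.sinh (lam * ((Real.sqrt x : ℝ) : ℂ))‖
      ≤ Real.exp (-(a.re * x)) * (‖lam‖ * Real.sqrt x *
          (Real.exp (a.re / 2 * x) * Real.exp (‖lam‖ ^ 2 / (2 * a.re)))) := by
        gcongr
        exact h.trans (by gcongr)
    _ = ‖lam‖ * Real.exp (‖lam‖ ^ 2 / (2 * a.re)) * (Real.sqrt x *
          (Real.exp (-(a.re * x)) * Real.exp (a.re / 2 * x))) := by ring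
    _ = _ := by
        rw [← Real.exp_add]
        congr 3
        ring_nf

lemma continuous_ker (a lam : ℂ) : Continuous (ker a lam) := by
  unfold ker
  fun_prop

lemma aestronglyMeasurable_cpow_smul_ker (a lam z : ℂ) :
    AEStronglyMeasurable (fun x : ℝ => (x : ℂ) ^ (z - 1) • ker a lam x)
      (volume.restrict (Ioi 0)) := by
  simp only [smul_eq_mul]
  refine ContinuousOn.aestronglyMeasurable ?_ measurableSet_Ioi
  intro x hx
  have hx0 : (0:ℝ) < x := hx
  refine ContinuousAt.continuousWithinAt ?_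
  refine ContinuousAt.mul ?_ (continuous_ker a lam).continuousAt
  exact (continuousAt_ofReal_cpow_const _ _ (Or.inr hx0.ne'))

lemma integrableOn_kerMajorant (b c : ℝ) (hb : 0 < b) (hc : -(1 / 2) < c) :
    IntegrableOn (fun x : ℝ => x ^ (c - 1) * (x ^ (1 / 2 : ℝ) * Real.exp (-(b * x)))) (Ioi 0) := by
  refine (integrableOn_rpow_mul_exp (c + 1 / 2) b (by linarith) hb).congr_fun ?_
    measurableSet_Ioi
  intro x hx
  have hx0 : (0:ℝ) < x := hx
  simp only
  rw [← mul_assoc, ← Real.rpow_add hx0]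
  congr 2
  ring

lemma norm_cpow_smul_ker_le (a lam z : ℂ) (ha : 0 < a.re) (x : ℝ) (hx : 0 < x) :
    ‖(x : ℂ) ^ (z - 1) • ker a lam x‖ ≤
      kerC a lam * (x ^ (z.re - 1) * (x ^ (1 / 2 : ℝ) * Real.exp (-(a.re / 2 * x)))) := by
  rw [norm_smul, norm_cpow_eq_rpow_re_of_pos hx]
  have h := norm_ker_le a lam ha x hx
  have e : (z - 1).re = z.re - 1 := by simp
  rw [e]
  have hpos : 0 ≤ x ^ (z.re - 1) := Real.rpow_nonneg hx.le _
  calc x ^ (z.re - 1) * ‖ker a lam x‖
      ≤ x ^ (z.re - 1) * (kerC a lam * (x ^ (1 / 2 : ℝ) * Real.exp (-(a.re / 2 * x)))) := by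
        gcongr
    _ = _ := by ring

lemma mellinConvergent_ker (a lam z : ℂ) (ha : 0 < a.re) (hz : -(1 / 2) < z.re) :
    MellinConvergent (ker a lam) z := by
  refine ((integrableOn_kerMajorant (a.re / 2) z.re (by linarith) hz).const_mul
    (kerC a lam)).mono' (aestronglyMeasurable_cpow_smul_ker a lam z) ?_
  rw [ae_restrict_iff' measurableSet_Ioi]
  filter_upwards with x hx
  exact norm_cpow_smul_ker_le a lam z ha x hx

lemma norm_mellin_ker_le (a lam z : ℂ) (ha : 0 < a.re) (hz : -(1 / 2) < z.re) :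
    ‖mellin (ker a lam) z‖ ≤ kerC a lam *
      ∫ x in Ioi (0:ℝ), x ^ (z.re - 1) * (x ^ (1 / 2 : ℝ) * Real.exp (-(a.re / 2 * x))) := by
  rw [mellin, ← integral_const_mul]
  refine norm_integral_le_of_norm_le ((integrableOn_kerMajorant (a.re / 2) z.re
    (by linarith) hz).const_mul _) ?_
  rw [ae_restrict_iff' measurableSet_Ioi]
  filter_upwards with x hx
  exact norm_cpow_smul_ker_le a lam z ha x hx

/-- Terms of the expansion of the kernel. -/
lemma ker_term_eq (a lam z : ℂ) (m : ℕ) (x : ℝ) (hx : 0 < x) :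
    (x : ℂ) ^ (z - 1) * (cexp (-(a * x)) *
        ((lam * (Real.sqrt x : ℝ)) ^ (2 * m + 1) / ((2 * m + 1).factorial : ℂ))) =
      (lam ^ (2 * m + 1) / ((2 * m + 1).factorial : ℂ)) *
        ((x : ℂ) ^ (z + m + 1 / 2 - 1) * cexp (-(a * x))) := by
  have hx0 : (x : ℂ) ≠ 0 := by exact_mod_cast hx.ne'
  have e1 : ((Real.sqrt x : ℝ) : ℂ) ^ (2 * m + 1) = (x : ℂ) ^ ((m : ℂ) + 1 / 2) := by
    rw [Real.sqrt_eq_rpow, ofReal_cpow hx.le, ← cpow_nat_mul]
    congr 1
    push_cast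
    ring
  have e2 : (x : ℂ) ^ (z + m + 1 / 2 - 1) = (x : ℂ) ^ (z - 1) * (x : ℂ) ^ ((m : ℂ) + 1 / 2) := by
    rw [← cpow_add _ _ hx0]
    congr 1
    ring
  rw [mul_pow, e1, e2]
  ring

/-- Expansion of the Mellin transform of the kernel. -/
lemma hasSum_mellin_ker (a lam z : ℂ) (ha : 0 < a.re) (hz : -(1 / 2) < z.re) :
    HasSum (fun m : ℕ => (lam ^ (2 * m + 1) / ((2 * m + 1).factorial : ℂ)) *
      ((1 / a) ^ (z + m + 1 / 2) * Gamma (z + m + 1 / 2))) (mellin (ker a lam) z) := by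
  set F : ℕ → ℝ → ℂ := fun m x => (x : ℂ) ^ (z - 1) * (cexp (-(a * x)) *
        ((lam * (Real.sqrt x : ℝ)) ^ (2 * m + 1) / ((2 * m + 1).factorial : ℂ))) with hF
  have hre : ∀ m : ℕ, 0 < (z + m + 1 / 2).re := by
    intro m
    have : (z + m + 1 / 2).re = z.re + m + 1 / 2 := by simp
    rw [this]
    have : (0:ℝ) ≤ m := Nat.cast_nonneg m
    linarith
  have hint : ∀ m, Integrable (F m) (volume.restrict (Ioi 0)) := by
    intro m
    have h := (integrableOn_cpow_mul_exp (z + m + 1 / 2) a (hre m) ha).const_mul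
      (lam ^ (2 * m + 1) / ((2 * m + 1).factorial : ℂ))
    refine IntegrableOn.congr_fun (s := Ioi (0:ℝ)) h ?_ measurableSet_Ioi
    intro x hx
    exact (ker_term_eq a lam z m x hx).symm
  have hval : ∀ m, ∫ x in Ioi (0:ℝ), F m x = (lam ^ (2 * m + 1) / ((2 * m + 1).factorial : ℂ)) *
      ((1 / a) ^ (z + m + 1 / 2) * Gamma (z + m + 1 / 2)) := by
    intro m
    rw [← integral_cpow_mul_exp_neg_mul_complex _ _ (hre m) ha, ← integral_const_mul]
    refine setIntegral_congr_fun measurableSet_Ioi ?_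
    intro x hx
    exact ker_term_eq a lam z m x hx
  have hsumF : ∀ x : ℝ, HasSum (fun m => F m x) ((x : ℂ) ^ (z - 1) • ker a lam x) := by
    intro x
    have := (hasSum_sinh (lam * (Real.sqrt x : ℝ))).mul_left (cexp (-(a * x)))
    exact this.mul_left _
  -- majorant
  set G : ℝ → ℝ := fun x => kerC (a.re : ℂ) (‖lam‖ : ℂ) *
    (x ^ (z.re - 1) * (x ^ (1 / 2 : ℝ) * Real.exp (-(a.re / 2 * x)))) with hG
  have hGint : IntegrableOn G (Ioi 0) :=
    (integrableOn_kerMajorant (a.re / 2) z.re (by linarith) hz).const_mul _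
  have hfin : ∀ (S : Finset ℕ) (x : ℝ), 0 < x → ∑ m ∈ S, ‖F m x‖ ≤ G x := by
    intro S x hx
    have hs := Real.sqrt_nonneg x
    have hnorm : ∀ m, ‖F m x‖ = x ^ (z.re - 1) * (Real.exp (-(a.re * x)) *
        ((‖lam‖ * Real.sqrt x) ^ (2 * m + 1) / ((2 * m + 1).factorial : ℝ))) := by
      intro m
      simp only [hF]
      rw [norm_mul, norm_mul, norm_div, norm_pow, norm_mul, Complex.norm_real,
        Real.norm_of_nonneg hs, norm_cpow_eq_rpow_re_of_pos hx, Complex.norm_exp,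
        Complex.norm_natCast]
      simp
    simp_rw [hnorm]
    rw [← Finset.mul_sum, ← Finset.mul_sum]
    have hsinh := Real.hasSum_sinh (‖lam‖ * Real.sqrt x)
    have hle : ∑ m ∈ S, ((‖lam‖ * Real.sqrt x) ^ (2 * m + 1) / ((2 * m + 1).factorial : ℝ)) ≤
        Real.sinh (‖lam‖ * Real.sqrt x) := by
      refine sum_le_hasSum S ?_ hsinh
      intro m _
      positivity
    have hker := norm_ker_le (a.re : ℂ) (‖lam‖ : ℂ) (by simpa using ha) x hx
    have hkereq : ‖ker (a.re : ℂ) (‖lam‖ : ℂ) x‖ = Real.exp (-(a.re * x)) *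
        Real.sinh (‖lam‖ * Real.sqrt x) := by
      rw [ker, norm_mul, Complex.norm_exp]
      have : (‖lam‖ : ℂ) * ((Real.sqrt x : ℝ) : ℂ) = ((‖lam‖ * Real.sqrt x : ℝ) : ℂ) := by
        push_cast; ring
      rw [this, ← Complex.ofReal_sinh, Complex.norm_real,
        Real.norm_of_nonneg (Real.sinh_nonneg_iff.mpr (by positivity))]
      simp
    rw [hkereq] at hker
    have hpos : 0 ≤ x ^ (z.re - 1) := Real.rpow_nonneg hx.le _
    simp only [hG]
    calc x ^ (z.re - 1) * (Real.exp (-(a.re * x)) * _)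
        ≤ x ^ (z.re - 1) * (Real.exp (-(a.re * x)) * Real.sinh (‖lam‖ * Real.sqrt x)) := by
          gcongr
      _ ≤ x ^ (z.re - 1) * (kerC (a.re : ℂ) (‖lam‖ : ℂ) * (x ^ (1 / 2 : ℝ) *
            Real.exp (-(((a.re : ℂ)).re / 2 * x)))) := by
          gcongr
      _ = _ := by simp; ring
  have hsummable : Summable (fun m => ∫ x in Ioi (0:ℝ), ‖F m x‖) := by
    refine summable_of_sum_le (c := ∫ x in Ioi (0:ℝ), G x) ?_ ?_
    · intro m
      exact integral_nonneg fun x => norm_nonneg _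
    · intro S
      rw [← integral_finsetSum _ (fun m _ => (hint m).norm)]
      refine setIntegral_mono_on ?_ hGint measurableSet_Ioi (fun x hx => hfin S x hx)
      exact integrable_finsetSum _ (fun m _ => (hint m).norm)
  have key := hasSum_integral_of_summable_integral_norm hint hsummable
  simp_rw [hval] at key
  have hlast : ∫ x in Ioi (0:ℝ), ∑' m, F m x = mellin (ker a lam) z := by
    rw [mellin]
    refine setIntegral_congr_fun measurableSet_Ioi ?_
    intro x _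
    exact (hsumF x).tsum_eq
  rw [hlast] at key
  exact key

end Pool.Agent.Ratios
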