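import Pool.Agent.Ratios.Kernel

/-! Rotation of the kernel and its Laplace transform. -/

set_option autoImplicit false

open Complex MeasureTheory Set Filter Topology

namespace Pool.Agent.Ratios

lemma real_mul_exp_cpow (r : ℝ) (hr : 0 < r) (φ : ℝ) (h1 : -Real.pi < φ) (h2 : φ ≤ Real.pi)
    (w : ℂ) : ((r : ℂ) * cexp (φ * I)) ^ w = (r : ℂ) ^ w * cexp (φ * I * w) := by
  have hr0 : (r : ℂ) ≠ 0 := by exact_mod_cast hr.ne'
  have he : cexp (φ * I) ≠ 0 := Complex.exp_ne_zero _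
  rw [cpow_def_of_ne_zero (mul_ne_zero hr0 he), cpow_def_of_ne_zero hr0,
    Complex.log_ofReal_mul hr he, Complex.log_exp (by simpa using h1) (by simpa using h2),
    ← Complex.exp_add, ← Complex.ofReal_log hr.le]
  congr 1
  ring

lemma mul_exp_cpow (x : ℂ) (hx : x ≠ 0) (φ : ℝ) (h1 : -Real.pi < x.arg + φ)
    (h2 : x.arg + φ ≤ Real.pi) (w : ℂ) :
    (x * cexp (φ * I)) ^ w = x ^ w * cexp (φ * I * w) := by
  have hn : 0 < ‖x‖ := norm_pos_iff.mpr hx
  have e1 : x = (‖x‖ : ℂ) * cexp (x.arg * I) := (Complex.norm_mul_exp_arg_mul_I x).symm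
  have e2 : x * cexp (φ * I) = (‖x‖ : ℂ) * cexp (((x.arg + φ : ℝ) : ℂ) * I) := by
    conv_lhs => rw [e1]
    rw [mul_assoc, ← Complex.exp_add]
    congr 2
    push_cast; ring
  have e3 : x ^ w = (‖x‖ : ℂ) ^ w * cexp (x.arg * I * w) := by
    conv_lhs => rw [e1]
    exact real_mul_exp_cpow _ hn _ (neg_pi_lt_arg x) (arg_le_pi x) w
  rw [e2, real_mul_exp_cpow _ hn _ h1 h2, e3, mul_assoc ((‖x‖ : ℂ) ^ w), ← Complex.exp_add]
  congr 2
  push_cast; ring

/-- The rotated parameters. -/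
noncomputable def rotA (a ψ : ℝ) : ℂ := (a : ℂ) * cexp (-(ψ * I))

/-- The rotated parameters. -/
noncomputable def rotL (lam : ℂ) (ψ : ℝ) : ℂ := lam * cexp (-(ψ / 2 * I))

lemma rotA_re (a ψ : ℝ) : (rotA a ψ).re = a * Real.cos ψ := by
  have : rotA a ψ = (a : ℂ) * cexp (((-ψ : ℝ) : ℂ) * I) := by
    rw [rotA]; congr 2; push_cast; ring
  rw [this, Complex.re_ofReal_mul, Complex.exp_ofReal_mul_I_re, Real.cos_neg]

lemma rotL_re (lam : ℂ) (ψ : ℝ) :
    (rotL lam ψ).re = lam.re * Real.cos (ψ / 2) + lam.im * Real.sin (ψ / 2) := by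
  have : rotL lam ψ = lam * cexp (((-(ψ / 2) : ℝ) : ℂ) * I) := by
    rw [rotL]; congr 2; push_cast; ring
  rw [this, Complex.mul_re, Complex.exp_ofReal_mul_I_re, Complex.exp_ofReal_mul_I_im,
    Real.cos_neg, Real.sin_neg]
  ring

/-- Rotation of the contour in the Mellin transform of the kernel. -/
lemma mellin_ker_rot (a : ℝ) (ha : 0 < a) (lam z : ℂ) (hz : -(1 / 2) < z.re) (ψ : ℝ)
    (h1 : -(Real.pi / 2) < ψ) (h2 : ψ < Real.pi / 2) :
    mellin (ker a lam) z = cexp (-(ψ * I * z)) * mellin (ker (rotA a ψ) (rotL lam ψ)) z := by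
  have hpi := Real.pi_pos
  have hre : 0 < (rotA a ψ).re := by
    rw [rotA_re]
    exact mul_pos ha (Real.cos_pos_of_mem_Ioo ⟨h1, h2⟩)
  have s1 := hasSum_mellin_ker (a : ℂ) lam z (by simpa using ha) hz
  have s2 := (hasSum_mellin_ker (rotA a ψ) (rotL lam ψ) z hre hz).mul_left
    (cexp (-(ψ * I * z)))
  refine s1.unique ?_
  refine HasSum.congr_fun s2 ?_
  · intro m
    have e1 : (1 / rotA a ψ) = ((1 / a : ℝ) : ℂ) * cexp (ψ * I) := by
      rw [rotA, Complex.exp_neg]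
      push_cast
      have : cexp (ψ * I) ≠ 0 := Complex.exp_ne_zero _
      have ha0 : (a : ℂ) ≠ 0 := by exact_mod_cast ha.ne'
      field_simp
    have e2 : (rotL lam ψ) ^ (2 * m + 1) = lam ^ (2 * m + 1) * cexp (-(ψ * I * (m + 1 / 2))) := by
      rw [rotL, mul_pow, ← Complex.exp_nat_mul]
      congr 2
      push_cast; ring
    rw [e1, e2, real_mul_exp_cpow _ (by positivity) ψ (by linarith) (by linarith)]
    have e3 : cexp (-(ψ * I * z)) * (cexp (-(ψ * I * (m + 1 / 2))) *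
        cexp (ψ * I * (z + m + 1 / 2))) = 1 := by
      rw [← Complex.exp_add, ← Complex.exp_add, ← Complex.exp_zero]
      congr 1
      ring
    push_cast
    calc lam ^ (2 * m + 1) / ((2 * m + 1).factorial : ℂ) *
          ((1 / (a : ℂ)) ^ (z + m + 1 / 2) * Gamma (z + m + 1 / 2))
        = (cexp (-(ψ * I * z)) * (cexp (-(ψ * I * (m + 1 / 2))) *
            cexp (ψ * I * (z + m + 1 / 2)))) * (lam ^ (2 * m + 1) / ((2 * m + 1).factorial : ℂ) *
          ((1 / (a : ℂ)) ^ (z + m + 1 / 2) * Gamma (z + m + 1 / 2))) := by rw [e3, one_mul]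
      _ = _ := by ring

/-- The Laplace transform of the kernel, in closed form. -/
noncomputable def lap (a lam q : ℂ) : ℂ :=
  (lam * Real.sqrt Real.pi / 2) * (1 / (a + q)) ^ (3 / 2 : ℂ) * cexp (lam ^ 2 / (4 * (a + q)))

lemma ker_mul_exp (a lam q : ℂ) (x : ℝ) : ker a lam x * cexp (-(q * x)) = ker (a + q) lam x := by
  rw [ker, ker]
  have : cexp (-((a + q) * x)) = cexp (-(a * x)) * cexp (-(q * x)) := by
    rw [← Complex.exp_add]; congr 1; ring
  rw [this]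
  ring

lemma Gamma_three_halves (m : ℕ) : Gamma (1 + m + 1 / 2) =
    ((2 * m + 1).factorial : ℂ) * Real.sqrt Real.pi / (2 * 4 ^ m * (m.factorial : ℂ)) := by
  have h := Gamma_mul_Gamma_add_half ((m : ℂ) + 1)
  have e1 : Gamma ((m : ℂ) + 1) = (m.factorial : ℂ) := Gamma_nat_eq_factorial m
  have e2 : Gamma (2 * ((m : ℂ) + 1)) = ((2 * m + 1).factorial : ℂ) := by
    rw [← Gamma_nat_eq_factorial]
    congr 1
    push_cast; ring
  have e3 : (2 : ℂ) ^ (1 - 2 * ((m : ℂ) + 1)) = 1 / (2 * 4 ^ m) := by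
    have : (1 - 2 * ((m : ℂ) + 1)) = -((2 * m + 1 : ℕ) : ℂ) := by push_cast; ring
    rw [this, cpow_neg, cpow_natCast, pow_succ, pow_mul]
    norm_num
    ring
  rw [e1, e2, e3] at h
  have hm : (m.factorial : ℂ) ≠ 0 := by exact_mod_cast m.factorial_ne_zero
  have e4 : (1 : ℂ) + m + 1 / 2 = (m : ℂ) + 1 + 1 / 2 := by ring
  rw [e4]
  have h4 : (4 : ℂ) ^ m ≠ 0 := pow_ne_zero _ (by norm_num)
  field_simp
  field_simp at h
  linear_combination h

lemma mellin_ker_one (p lam : ℂ) (hp : 0 < p.re) :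
    mellin (ker p lam) 1 = (lam * Real.sqrt Real.pi / 2) * (1 / p) ^ (3 / 2 : ℂ) *
      cexp (lam ^ 2 / (4 * p)) := by
  have hp0 : p ≠ 0 := by rintro rfl; simp at hp
  have s1 := hasSum_mellin_ker p lam 1 hp (by simp; norm_num)
  have s2 := (NormedSpace.expSeries_div_hasSum_exp (lam ^ 2 / (4 * p))).mul_left
    ((lam * Real.sqrt Real.pi / 2) * (1 / p) ^ (3 / 2 : ℂ))
  rw [← Complex.exp_eq_exp_ℂ] at s2
  refine s1.unique ?_
  refine HasSum.congr_fun s2 ?_
  intro m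
  rw [Gamma_three_halves]
  have hm : (m.factorial : ℂ) ≠ 0 := by exact_mod_cast m.factorial_ne_zero
  have hm2 : ((2 * m + 1).factorial : ℂ) ≠ 0 := by exact_mod_cast (2 * m + 1).factorial_ne_zero
  have h1p : (1 / p) ≠ 0 := one_div_ne_zero hp0
  have e1 : (1 / p) ^ (1 + (m : ℂ) + 1 / 2) = (1 / p) ^ (3 / 2 : ℂ) * (1 / p) ^ m := by
    rw [← cpow_natCast, ← cpow_add _ _ h1p]
    congr 1
    ring
  rw [e1]
  have h4 : (4 : ℂ) ^ m ≠ 0 := pow_ne_zero _ (by norm_num)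
  have e5 : (lam ^ 2 / (4 * p)) ^ m = lam ^ (2 * m) / (4 ^ m * p ^ m) := by
    rw [div_pow, mul_pow, ← pow_mul]
  rw [e5, pow_succ, one_div_pow]
  field_simp

lemma integral_ker_mul_exp (a lam q : ℂ) (h : 0 < (a + q).re) :
    ∫ x : ℝ in Ioi 0, ker a lam x * cexp (-(q * x)) = lap a lam q := by
  simp_rw [ker_mul_exp]
  rw [lap, ← mellin_ker_one _ _ h, mellin]
  refine setIntegral_congr_fun measurableSet_Ioi ?_
  intro x _
  simp

end Pool.Agent.Ratios
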