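import Mathlib

/-! A lower bound for a smooth exponential sum over odd squarefree integers. -/

set_option autoImplicit false

open Finset

namespace Pool.Agent.Ratios

namespace SqfSum

/-! ### The exponential -/

/-- `e(θ) = exp (2 π i θ)`. -/
noncomputable def ee (θ : ℝ) : ℂ := Complex.exp (((2 * Real.pi * θ : ℝ) : ℂ) * Complex.I)

lemma ee_add (x y : ℝ) : ee (x + y) = ee x * ee y := by
  unfold ee
  rw [← Complex.exp_add]
  congr 1
  push_cast; ring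

lemma ee_zero : ee 0 = 1 := by simp [ee]

lemma norm_ee (x : ℝ) : ‖ee x‖ = 1 := by
  unfold ee
  exact Complex.norm_exp_ofReal_mul_I _

lemma ee_nat_mul (n : ℕ) (x : ℝ) : ee (n * x) = ee x ^ n := by
  unfold ee
  rw [← Complex.exp_nat_mul]
  congr 1
  push_cast; ring

lemma ee_eq_one_iff (x : ℝ) : ee x = 1 ↔ ∃ n : ℤ, x = n := by
  unfold ee
  rw [Complex.exp_eq_one_iff]
  have hpi : (Real.pi : ℂ) ≠ 0 := by exact_mod_cast Real.pi_ne_zero
  constructor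
  · rintro ⟨n, hn⟩
    refine ⟨n, ?_⟩
    have h1 : (2 * Real.pi * Complex.I) * ((x : ℂ) - n) = 0 := by
      push_cast at hn
      linear_combination hn
    rcases mul_eq_zero.mp h1 with h2 | h2
    · exfalso
      have : (2 * Real.pi * Complex.I : ℂ) ≠ 0 := by
        simp [hpi, Complex.I_ne_zero]
      exact this h2
    · have h3 : (x : ℂ) = ((n : ℝ) : ℂ) := by
        push_cast; linear_combination h2
      exact_mod_cast h3
  · rintro ⟨n, rfl⟩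
    exact ⟨n, by push_cast; ring⟩

lemma ee_int (n : ℤ) : ee n = 1 := (ee_eq_one_iff _).mpr ⟨n, rfl⟩

lemma norm_one_sub_pow_le (z : ℂ) (hz : ‖z‖ = 1) (j : ℕ) : ‖1 - z ^ j‖ ≤ j * ‖1 - z‖ := by
  induction j with
  | zero => simp
  | succ j ih =>
    have e : 1 - z ^ (j + 1) = (1 - z ^ j) + z ^ j * (1 - z) := by ring
    rw [e]
    refine (norm_add_le _ _).trans ?_
    rw [norm_mul, norm_pow, hz, one_pow, one_mul]
    push_cast
    linarith

/-- A nontrivial `q`-th root of unity has distance at least `1/q` from `1`. -/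
lemma norm_one_sub_ge (z : ℂ) (q : ℕ) (hq : 0 < q) (hz : z ^ q = 1) (hz1 : z ≠ 1) :
    1 / (q : ℝ) ≤ ‖1 - z‖ := by
  have hn : ‖z‖ = 1 := by
    have := congrArg norm hz
    rw [norm_pow, norm_one] at this
    exact (pow_eq_one_iff_of_nonneg (norm_nonneg _) hq.ne').mp this
  have hgeom : ∑ j ∈ range q, z ^ j = 0 := by
    have := mul_neg_geom_sum z q
    rw [hz, sub_self] at this
    rcases mul_eq_zero.mp this with h | h
    · exact absurd (by linear_combination -h) hz1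
    · exact h
  have hsum : ∑ j ∈ range q, (1 - z ^ j) = (q : ℂ) := by
    rw [sum_sub_distrib, hgeom]; simp
  have hb : (q : ℝ) ≤ ∑ j ∈ range q, (q : ℝ) * ‖1 - z‖ := by
    calc (q : ℝ) = ‖∑ j ∈ range q, (1 - z ^ j)‖ := by rw [hsum]; simp
      _ ≤ ∑ j ∈ range q, ‖1 - z ^ j‖ := norm_sum_le _ _
      _ ≤ ∑ j ∈ range q, (q : ℝ) * ‖1 - z‖ := by
        refine sum_le_sum fun j hj => ?_
        refine (norm_one_sub_pow_le z hn j).trans ?_
        have : (j : ℝ) ≤ q := by exact_mod_cast (mem_range.mp hj).le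
        gcongr
  rw [sum_const, card_range, nsmul_eq_mul] at hb
  have hq0 : (0:ℝ) < q := by exact_mod_cast hq
  rw [div_le_iff₀ hq0]
  have h2 : (q:ℝ) * 1 ≤ q * (q * ‖1 - z‖) := by linarith
  have := le_of_mul_le_mul_left h2 hq0
  linarith

/-- Abel summation. -/
lemma abel_identity (z : ℂ) (a : ℕ → ℝ) (T : ℕ) :
    (1 - z) * ∑ k ∈ range (T + 1), z ^ k * (a k : ℂ) =
      a 0 - z ^ (T + 1) * a T + ∑ k ∈ range T, z ^ (k + 1) * ((a (k + 1) - a k : ℝ) : ℂ) := by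
  induction T with
  | zero => simp; ring
  | succ T ih =>
    rw [sum_range_succ, mul_add, ih, sum_range_succ (n := T)]
    push_cast; ring

lemma abel_bound (z : ℂ) (hz : ‖z‖ = 1) (a : ℕ → ℝ) (A D : ℝ) (hA : ∀ k, |a k| ≤ A)
    (hD : ∀ k, |a (k + 1) - a k| ≤ D) (T : ℕ) :
    ‖(1 - z) * ∑ k ∈ range T, z ^ k * (a k : ℂ)‖ ≤ 2 * A + T * D := by
  have hA0 : 0 ≤ A := (abs_nonneg _).trans (hA 0)
  have hD0 : 0 ≤ D := (abs_nonneg _).trans (hD 0)
  rcases T with _ | T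
  · simp; linarith
  rw [abel_identity]
  have h1 : ‖(a 0 : ℂ)‖ ≤ A := by rw [Complex.norm_real]; exact hA 0
  have h2 : ‖z ^ (T + 1) * (a T : ℂ)‖ ≤ A := by
    rw [norm_mul, norm_pow, hz, one_pow, one_mul, Complex.norm_real]; exact hA T
  have h3 : ‖∑ k ∈ range T, z ^ (k + 1) * ((a (k + 1) - a k : ℝ) : ℂ)‖ ≤ T * D := by
    refine (norm_sum_le _ _).trans ?_
    have : ∑ k ∈ range T, ‖z ^ (k + 1) * ((a (k + 1) - a k : ℝ) : ℂ)‖ ≤ ∑ k ∈ range T, D := by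
      refine sum_le_sum fun k _ => ?_
      rw [norm_mul, norm_pow, hz, one_pow, one_mul, Complex.norm_real]; exact hD k
    simpa using this
  have h4 := norm_add_le ((a 0 : ℂ) - z ^ (T + 1) * a T)
    (∑ k ∈ range T, z ^ (k + 1) * ((a (k + 1) - a k : ℝ) : ℂ))
  have h5 := norm_sub_le (a 0 : ℂ) (z ^ (T + 1) * a T)
  have h6 : (((T + 1 : ℕ)) : ℝ) * D = T * D + D := by push_cast; ring
  rw [h6]
  linarith

/-! ### The quadratic symbol modulo three -/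

lemma ee_third : ee (1 / 3) - ee (-(1 / 3)) = Complex.I * (Real.sqrt 3 : ℂ) := by
  have h1 : ee (1 / 3) = Complex.exp (((2 * Real.pi / 3 : ℝ) : ℂ) * Complex.I) := by
    unfold ee; congr 3; ring
  have h2 : ee (-(1 / 3)) = Complex.exp (-(((2 * Real.pi / 3 : ℝ) : ℂ) * Complex.I)) := by
    unfold ee; congr 1; push_cast; ring
  have hs : Real.sin (2 * Real.pi / 3) = Real.sqrt 3 / 2 := by
    rw [show 2 * Real.pi / 3 = Real.pi - Real.pi / 3 by ring, Real.sin_pi_sub,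
      Real.sin_pi_div_three]
  have h3 : Complex.exp (((2 * Real.pi / 3 : ℝ) : ℂ) * Complex.I) -
      Complex.exp (-(((2 * Real.pi / 3 : ℝ) : ℂ) * Complex.I)) =
      2 * Complex.I * Complex.sin ((2 * Real.pi / 3 : ℝ) : ℂ) := by
    have h4 := Complex.two_sin ((2 * Real.pi / 3 : ℝ) : ℂ)
    have h5 : (-((2 * Real.pi / 3 : ℝ) : ℂ) * Complex.I) =
      -(((2 * Real.pi / 3 : ℝ) : ℂ) * Complex.I) := by ring
    rw [h5] at h4
    linear_combination (-Complex.I) * h4 + (Complex.exp (((2 * Real.pi / 3 : ℝ) : ℂ) * Complex.I) -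
      Complex.exp (-(((2 * Real.pi / 3 : ℝ) : ℂ) * Complex.I))) * Complex.I_sq
  rw [h1, h2, h3, ← Complex.ofReal_sin, hs]
  push_cast; ring

lemma jac_three (n : ℕ) : ((jacobiSym (n : ℤ) 3 : ℤ) : ℂ) * (Complex.I * (Real.sqrt 3 : ℂ)) =
    ee (n / 3) - ee (-(n / 3)) := by
  have hn := Nat.div_add_mod n 3
  set q := n / 3
  have hr : n % 3 < 3 := Nat.mod_lt _ (by norm_num)
  have hmod : jacobiSym (n : ℤ) 3 = jacobiSym ((n % 3 : ℕ) : ℤ) 3 := by
    rw [jacobiSym.mod_left]; norm_num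
  have e1 : (n : ℝ) / 3 = ((q : ℤ) : ℝ) + ((n % 3 : ℕ) : ℝ) / 3 := by
    have : (n : ℝ) = 3 * q + ((n % 3 : ℕ) : ℝ) := by exact_mod_cast hn.symm
    rw [this]; push_cast; ring
  have e2 : -((n : ℝ) / 3) = ((-(q : ℤ) : ℤ) : ℝ) + -(((n % 3 : ℕ) : ℝ) / 3) := by
    rw [e1]; push_cast; ring
  rw [hmod, e2, e1, ee_add, ee_add, ee_int, ee_int, one_mul, one_mul]
  generalize n % 3 = r at *
  interval_cases r
  · have : jacobiSym ((0 : ℕ) : ℤ) 3 = 0 := by decide +kernel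
    rw [this]; simp
  · have h1 : jacobiSym ((1 : ℕ) : ℤ) 3 = 1 := by simp
    have h3 := ee_third
    rw [h1, Nat.cast_one, h3]; simp
  · have : jacobiSym ((2 : ℕ) : ℤ) 3 = -1 := by decide +kernel
    rw [this]
    have h3 := ee_third
    have h4 : ee (((2 : ℕ) : ℝ) / 3) = ee (-(1 / 3)) := by
      have : (((2 : ℕ) : ℝ) / 3) = ((1 : ℤ) : ℝ) + -(1 / 3) := by push_cast; ring
      rw [this, ee_add, ee_int, one_mul]
    have h5 : ee (-(((2 : ℕ) : ℝ) / 3)) = ee (1 / 3) := by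
      have : -(((2 : ℕ) : ℝ) / 3) = ((-1 : ℤ) : ℝ) + (1 / 3) := by push_cast; ring
      rw [this, ee_add, ee_int, one_mul]
    rw [h4, h5]
    push_cast
    linear_combination h3

lemma jac_sq_mul (l n : ℕ) (hl : ¬ 3 ∣ l) :
    jacobiSym ((l ^ 2 * n : ℕ) : ℤ) 3 = jacobiSym (n : ℤ) 3 := by
  push_cast
  rw [jacobiSym.mul_left, jacobiSym.sq_one', one_mul]
  rw [Int.gcd_natCast_natCast]
  exact ((Nat.Prime.coprime_iff_not_dvd Nat.prime_three).mpr hl).symm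

lemma jac_sq_mul_zero (l n : ℕ) (hl : 3 ∣ l) :
    jacobiSym ((l ^ 2 * n : ℕ) : ℤ) 3 = 0 := by
  rw [jacobiSym.eq_zero_iff_not_coprime]
  intro h
  rw [Int.gcd_natCast_natCast] at h
  have h1 : 3 ∣ l ^ 2 * n := (dvd_pow hl (by norm_num)).mul_right n
  have h2 := Nat.dvd_gcd h1 (dvd_refl 3)
  rw [h] at h2
  norm_num at h2

/-! ### The squarefree indicator -/

lemma sq_dvd_iff (a b l : ℕ) (hb : b ≠ 0) (ha : Squarefree a) :
    l ^ 2 ∣ b ^ 2 * a ↔ l ∣ b := by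
  constructor
  · intro h
    have ha0 : a ≠ 0 := ha.ne_zero
    have hl0 : l ≠ 0 := by
      rintro rfl
      simp at h
      tauto
    rw [← Nat.factorization_le_iff_dvd hl0 hb]
    intro q
    have h1 := (Nat.factorization_le_iff_dvd (pow_ne_zero 2 hl0)
      (mul_ne_zero (pow_ne_zero 2 hb) ha0)).mpr h q
    rw [Nat.factorization_mul (pow_ne_zero 2 hb) ha0, Nat.factorization_pow,
      Nat.factorization_pow] at h1
    simp only [Finsupp.coe_smul, Finsupp.coe_add, Pi.smul_apply, Pi.add_apply, smul_eq_mul] at h1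
    have h2 := ha.natFactorization_le_one q
    omega
  · intro h
    exact (pow_dvd_pow_of_dvd h 2).mul_right a

lemma sum_moebius_sq (m N : ℕ) (hm : 0 < m) (hN : m < N ^ 2) :
    ∑ l ∈ (range N).filter (fun l => l ^ 2 ∣ m), ArithmeticFunction.moebius l =
      if Squarefree m then 1 else 0 := by
  obtain ⟨a, b, hab, ha⟩ := Nat.sq_mul_squarefree m
  have hb0 : b ≠ 0 := by
    rintro rfl
    simp at hab; omega
  have ha0 : a ≠ 0 := ha.ne_zero
  have hset : (range N).filter (fun l => l ^ 2 ∣ m) = b.divisors := by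
    ext l
    rw [mem_filter, mem_range, ← hab, sq_dvd_iff a b l hb0 ha, Nat.mem_divisors]
    constructor
    · rintro ⟨_, h⟩; exact ⟨h, hb0⟩
    · rintro ⟨h, _⟩
      refine ⟨?_, h⟩
      have h1 := Nat.le_of_dvd (Nat.pos_of_ne_zero hb0) h
      have h2 : b ^ 2 ≤ m := by
        rw [← hab]; exact Nat.le_mul_of_pos_right _ (Nat.pos_of_ne_zero ha0)
      have h3 : b ^ 2 < N ^ 2 := lt_of_le_of_lt h2 hN
      have h4 : b < N := lt_of_pow_lt_pow_left₀ 2 (Nat.zero_le _) h3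
      omega
  rw [hset, ← ArithmeticFunction.coe_mul_zeta_apply, ArithmeticFunction.moebius_mul_coe_zeta,
    ArithmeticFunction.one_apply]
  have : b = 1 ↔ Squarefree m := by
    constructor
    · rintro rfl
      rw [← hab]; simpa using ha
    · intro h
      rw [← hab] at h
      have : b ∣ 1 := by
        have := h b ⟨a, by ring⟩
        exact Nat.isUnit_iff.mp this ▸ dvd_refl _
      exact Nat.dvd_one.mp this
  by_cases hsq : Squarefree m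
  · rw [if_pos hsq, if_pos (this.mpr hsq)]
  · rw [if_neg hsq, if_neg (fun h => hsq (this.mp h))]

lemma sum_squarefree_eq (G : ℕ → ℂ) (Y N : ℕ) (hN : Y < N ^ 2) :
    ∑ m ∈ (range (Y + 1)).filter (fun m => Odd m ∧ Squarefree m), G m =
      ∑ l ∈ range N, ((ArithmeticFunction.moebius l : ℤ) : ℂ) *
        ∑ m ∈ (range (Y + 1)).filter (fun m => Odd m ∧ l ^ 2 ∣ m), G m := by
  have h1 : ∀ l ∈ range N, ((ArithmeticFunction.moebius l : ℤ) : ℂ) *
        ∑ m ∈ (range (Y + 1)).filter (fun m => Odd m ∧ l ^ 2 ∣ m), G m =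
      ∑ m ∈ (range (Y + 1)).filter (fun m => Odd m),
        (if l ^ 2 ∣ m then ((ArithmeticFunction.moebius l : ℤ) : ℂ) else 0) * G m := by
    intro l _
    rw [← filter_filter, sum_filter (s := (range (Y + 1)).filter fun m => Odd m), mul_sum]
    refine sum_congr rfl fun m _ => ?_
    split_ifs <;> simp
  rw [sum_congr rfl h1, sum_comm, ← filter_filter,
    sum_filter (s := (range (Y + 1)).filter fun m => Odd m)]
  refine sum_congr rfl fun m hm => ?_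
  rw [mem_filter, mem_range] at hm
  have hm0 : 0 < m := hm.2.pos
  rw [← sum_mul, ← sum_filter]
  have h2 := sum_moebius_sq m N hm0 (by omega)
  have h3 : ∑ l ∈ (range N).filter (fun l => l ^ 2 ∣ m),
      ((ArithmeticFunction.moebius l : ℤ) : ℂ) = if Squarefree m then 1 else 0 := by
    rw [← Int.cast_sum, h2]; split_ifs <;> simp
  rw [h3]
  split_ifs <;> simp

lemma sum_odd_param (G : ℕ → ℂ) (Y T l : ℕ) (hl : Odd l) (hG : ∀ m, Y < m → G m = 0)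
    (hT : ∀ k, l ^ 2 * (2 * k + 1) ≤ Y → k < T) :
    ∑ m ∈ (range (Y + 1)).filter (fun m => Odd m ∧ l ^ 2 ∣ m), G m =
      ∑ k ∈ range T, G (l ^ 2 * (2 * k + 1)) := by
  have h1 : ∑ k ∈ range T, G (l ^ 2 * (2 * k + 1)) =
      ∑ k ∈ (range T).filter (fun k => l ^ 2 * (2 * k + 1) ≤ Y), G (l ^ 2 * (2 * k + 1)) := by
    rw [sum_filter_of_ne]
    intro k _ hk
    by_contra hlt
    exact hk (hG _ (by omega))
  rw [h1]
  symm
  have hl2 : 0 < l ^ 2 := pow_pos hl.pos 2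
  refine sum_bij (fun k _ => l ^ 2 * (2 * k + 1)) ?_ ?_ ?_ ?_
  · intro k hk
    rw [mem_filter, mem_range] at hk
    rw [mem_filter, mem_range]
    exact ⟨by omega, hl.pow.mul ⟨k, rfl⟩, Dvd.intro _ rfl⟩
  · intro k₁ _ k₂ _ h
    have := Nat.eq_of_mul_eq_mul_left hl2 h
    omega
  · intro m hm
    rw [mem_filter, mem_range] at hm
    obtain ⟨h1, h2, n, rfl⟩ := hm
    obtain ⟨k, rfl⟩ := (Nat.odd_mul.mp h2).2
    have h3 : l ^ 2 * (2 * k + 1) ≤ Y := by omega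
    exact ⟨k, by rw [mem_filter, mem_range]; exact ⟨hT k h3, h3⟩, rfl⟩
  · intro k _; rfl

lemma sum_even_zero (G : ℕ → ℂ) (Y l : ℕ) (hl : ¬ Odd l) :
    ∑ m ∈ (range (Y + 1)).filter (fun m => Odd m ∧ l ^ 2 ∣ m), G m = 0 := by
  rw [filter_eq_empty_iff.mpr, sum_empty]
  rintro m _ ⟨h1, n, rfl⟩
  have h2 := (Nat.odd_mul.mp h1).1
  exact hl ((Nat.odd_pow_iff (by norm_num)).mp h2)

/-! ### The weight -/

/-- The weight function. -/
noncomputable def Wt (b : ℝ → ℝ) (K r : ℝ) : ℝ := b r * r * Real.exp (-K * (1 - r) ^ 2)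

lemma abs_exp_neg_sub_le (u v : ℝ) (hu : 0 ≤ u) (hv : 0 ≤ v) :
    |Real.exp (-u) - Real.exp (-v)| ≤ |u - v| := by
  wlog h : u ≤ v generalizing u v
  · rw [abs_sub_comm, abs_sub_comm u v]
    exact this v u hv hu (by linarith)
  have h1 : Real.exp (-v) = Real.exp (-u) * Real.exp (-(v - u)) := by
    rw [← Real.exp_add]; congr 1; ring
  have h2 : 1 - (v - u) ≤ Real.exp (-(v - u)) := by
    have := Real.add_one_le_exp (-(v - u)); linarith
  have h3 : Real.exp (-u) ≤ 1 := Real.exp_le_one_iff.mpr (by linarith)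
  have h4 : 0 < Real.exp (-u) := Real.exp_pos _
  have h5 : Real.exp (-v) ≤ Real.exp (-u) := Real.exp_le_exp.mpr (by linarith)
  rw [abs_of_nonneg (by linarith), abs_of_nonpos (by linarith), h1]
  nlinarith

section weight

variable (b : ℝ → ℝ) (L : ℝ) (hLip : ∀ x y, |b x - b y| ≤ L * |x - y|) (h0 : ∀ x, 0 ≤ b x)
  (h1 : ∀ x, b x ≤ 1) (hsupp : ∀ x, x ∉ Set.Ioo (9 / 10 : ℝ) (11 / 10) → b x = 0)
  (hone : ∀ x ∈ Set.Icc (19 / 20 : ℝ) (21 / 20), b x = 1) (K : ℝ) (hK : 0 ≤ K)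

include hsupp in
lemma Wt_eq_zero (r : ℝ) (hr : r ∉ Set.Ioo (9 / 10 : ℝ) (11 / 10)) : Wt b K r = 0 := by
  rw [Wt, hsupp r hr]; ring

include h0 hsupp in
lemma Wt_nonneg (r : ℝ) : 0 ≤ Wt b K r := by
  by_cases hr : r ∈ Set.Ioo (9 / 10 : ℝ) (11 / 10)
  · have h2 : 0 ≤ r := by have := hr.1; linarith
    have := h0 r
    unfold Wt
    positivity
  · rw [Wt_eq_zero b hsupp K r hr]

include h0 h1 hsupp hK in
lemma Wt_le_two (r : ℝ) : |Wt b K r| ≤ 2 := by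
  rw [abs_of_nonneg (Wt_nonneg b h0 hsupp K r)]
  by_cases hr : r ∈ Set.Ioo (9 / 10 : ℝ) (11 / 10)
  · have h2 : 0 ≤ r := by have := hr.1; linarith
    have h3 : r ≤ 2 := by have := hr.2; linarith
    have h4 : Real.exp (-K * (1 - r) ^ 2) ≤ 1 :=
      Real.exp_le_one_iff.mpr (by nlinarith [sq_nonneg (1 - r)])
    have h5 : 0 < Real.exp (-K * (1 - r) ^ 2) := Real.exp_pos _
    unfold Wt
    calc b r * r * Real.exp (-K * (1 - r) ^ 2) ≤ 1 * 2 * 1 := by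
          have := h0 r; have := h1 r
          gcongr
      _ = 2 := by norm_num
  · rw [Wt_eq_zero b hsupp K r hr]; norm_num

include hLip in
lemma L_nonneg : 0 ≤ L := by
  have := hLip 1 0
  simp at this
  exact (abs_nonneg _).trans this

/-- The smooth part of the weight. -/
noncomputable def Vt (K r : ℝ) : ℝ := r * Real.exp (-K * (1 - r) ^ 2)

include hK in
lemma Vt_abs_le (r : ℝ) (hr : r ∈ Set.Icc (0:ℝ) 2) : |Vt K r| ≤ 2 := by
  have h4 : Real.exp (-K * (1 - r) ^ 2) ≤ 1 :=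
    Real.exp_le_one_iff.mpr (by nlinarith [sq_nonneg (1 - r)])
  have h5 : 0 < Real.exp (-K * (1 - r) ^ 2) := Real.exp_pos _
  unfold Vt
  rw [abs_of_nonneg (mul_nonneg hr.1 h5.le)]
  calc r * Real.exp (-K * (1 - r) ^ 2) ≤ 2 * 1 := by
        have := hr.1; have := hr.2
        gcongr
    _ = 2 := by norm_num

include hK in
lemma Vt_lip (x y : ℝ) (hx : x ∈ Set.Icc (0:ℝ) 2) (hy : y ∈ Set.Icc (0:ℝ) 2) :
    |Vt K x - Vt K y| ≤ (1 + 4 * K) * |x - y| := by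
  obtain ⟨hx0, hx2⟩ := hx
  obtain ⟨hy0, hy2⟩ := hy
  have e : Vt K x - Vt K y = (x - y) * Real.exp (-K * (1 - x) ^ 2) +
      y * (Real.exp (-K * (1 - x) ^ 2) - Real.exp (-K * (1 - y) ^ 2)) := by unfold Vt; ring
  have h2 : |Real.exp (-K * (1 - x) ^ 2) - Real.exp (-K * (1 - y) ^ 2)| ≤
      2 * K * |x - y| := by
    have h3 := abs_exp_neg_sub_le (K * (1 - x) ^ 2) (K * (1 - y) ^ 2) (by positivity)
      (by positivity)
    rw [← neg_mul, ← neg_mul] at h3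
    refine h3.trans ?_
    have e2 : K * (1 - x) ^ 2 - K * (1 - y) ^ 2 = K * ((x + y - 2) * (x - y)) := by ring
    rw [e2, abs_mul, abs_mul, abs_of_nonneg hK]
    have h5 : |x + y - 2| ≤ 2 := by rw [abs_le]; constructor <;> linarith
    have h6 := abs_nonneg (x - y)
    calc K * (|x + y - 2| * |x - y|) ≤ K * (2 * |x - y|) := by gcongr
      _ = _ := by ring
  have h4 : Real.exp (-K * (1 - x) ^ 2) ≤ 1 :=
    Real.exp_le_one_iff.mpr (by nlinarith [sq_nonneg (1 - x)])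
  have h5 : 0 < Real.exp (-K * (1 - x) ^ 2) := Real.exp_pos _
  rw [e]
  refine (abs_add_le _ _).trans ?_
  rw [abs_mul, abs_mul, abs_of_pos h5, abs_of_nonneg hy0]
  have h6 := abs_nonneg (x - y)
  have h7 : |x - y| * Real.exp (-K * (1 - x) ^ 2) ≤ |x - y| * 1 := by gcongr
  have h8 : y * |Real.exp (-K * (1 - x) ^ 2) - Real.exp (-K * (1 - y) ^ 2)| ≤
      2 * (2 * K * |x - y|) := by gcongr
  linarith

include hLip h0 h1 hsupp hK in
lemma Wt_lip (x y : ℝ) : |Wt b K x - Wt b K y| ≤ (2 * L + 1 + 4 * K) * |x - y| := by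
  have hL := L_nonneg b L hLip
  have hxy := abs_nonneg (x - y)
  have key : ∀ x y : ℝ, x ∈ Set.Icc (0:ℝ) 2 →
      |Wt b K x - Wt b K y| ≤ (2 * L + 1 + 4 * K) * |x - y| := by
    intro x y hx
    have hxy := abs_nonneg (x - y)
    have hV := Vt_abs_le K hK x hx
    have hb := hLip x y
    have e : Wt b K x - Wt b K y = (b x - b y) * Vt K x + b y * (Vt K x - Vt K y) := by
      unfold Wt Vt; ring
    have hB1 : |(b x - b y) * Vt K x| ≤ 2 * L * |x - y| := by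
      rw [abs_mul]
      calc |b x - b y| * |Vt K x| ≤ (L * |x - y|) * 2 := by gcongr
        _ = _ := by ring
    have hB2 : |b y * (Vt K x - Vt K y)| ≤ (1 + 4 * K) * |x - y| := by
      by_cases hy : y ∈ Set.Icc (0:ℝ) 2
      · rw [abs_mul, abs_of_nonneg (h0 y)]
        have hv := Vt_lip K hK x y hx hy
        calc b y * |Vt K x - Vt K y| ≤ 1 * ((1 + 4 * K) * |x - y|) := by
              have := h0 y; have := h1 y
              gcongr
          _ = _ := by ring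
      · have : b y = 0 := hsupp y (fun h => hy ⟨by linarith [h.1], by linarith [h.2]⟩)
        rw [this, zero_mul, abs_zero]
        positivity
    rw [e]
    refine (abs_add_le _ _).trans ?_
    linarith
  by_cases hx : x ∈ Set.Icc (0:ℝ) 2
  · exact key x y hx
  by_cases hy : y ∈ Set.Icc (0:ℝ) 2
  · rw [abs_sub_comm, abs_sub_comm x y]
    exact key y x hy
  have e1 : Wt b K x = 0 :=
    Wt_eq_zero b hsupp K x (fun h => hx ⟨by linarith [h.1], by linarith [h.2]⟩)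
  have e2 : Wt b K y = 0 :=
    Wt_eq_zero b hsupp K y (fun h => hy ⟨by linarith [h.1], by linarith [h.2]⟩)
  rw [e1, e2, sub_zero, abs_zero]
  positivity

end weight

/-! ### Riemann sums -/

lemma continuous_of_lip (W : ℝ → ℝ) (Λ : ℝ) (hΛ : 0 ≤ Λ)
    (hW : ∀ x y, |W x - W y| ≤ Λ * |x - y|) : Continuous W := by
  have : LipschitzWith ⟨Λ, hΛ⟩ W := by
    refine LipschitzWith.of_dist_le_mul fun x y => ?_
    rw [Real.dist_eq, Real.dist_eq]; exact hW x y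
  exact this.continuous

lemma riemann_sum (W : ℝ → ℝ) (Λ : ℝ) (hΛ : 0 ≤ Λ) (hW : ∀ x y, |W x - W y| ≤ Λ * |x - y|)
    (δ : ℝ) (hδ : 0 ≤ δ) (T : ℕ) :
    |δ * ∑ k ∈ range T, W (δ * (k + 1 / 2)) - ∫ t in (0:ℝ)..(δ * T), W t| ≤ T * (Λ * δ ^ 2) := by
  have hc := continuous_of_lip W Λ hΛ hW
  have hsum : ∑ k ∈ range T, ∫ t in (δ * k)..(δ * ((k + 1 : ℕ) : ℝ)), W t =
      ∫ t in (0:ℝ)..(δ * T), W t := by
    have := intervalIntegral.sum_integral_adjacent_intervals (f := W) (μ := MeasureTheory.volume)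
      (a := fun k : ℕ => δ * (k : ℝ)) (n := T) (fun k _ => hc.intervalIntegrable _ _)
    simpa using this
  rw [← hsum, mul_sum, ← sum_sub_distrib]
  refine (abs_sum_le_sum_abs _ _).trans ?_
  have : ∑ k ∈ range T, |δ * W (δ * (k + 1 / 2)) -
      ∫ t in (δ * k)..(δ * ((k + 1 : ℕ) : ℝ)), W t| ≤ ∑ k ∈ range T, Λ * δ ^ 2 := by
    refine sum_le_sum fun k _ => ?_
    have e : δ * W (δ * (k + 1 / 2)) =
        ∫ t in (δ * k)..(δ * ((k + 1 : ℕ) : ℝ)), W (δ * (k + 1 / 2)) := by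
      rw [intervalIntegral.integral_const, smul_eq_mul]; push_cast; ring
    rw [e, ← intervalIntegral.integral_sub (_root_.intervalIntegrable_const)
      (hc.intervalIntegrable _ _)]
    have hb := intervalIntegral.norm_integral_le_of_norm_le_const (C := Λ * δ)
      (f := fun t => W (δ * (k + 1 / 2)) - W t) (a := δ * k) (b := δ * ((k + 1 : ℕ) : ℝ)) (by
        intro t ht
        have hle : δ * (k : ℝ) ≤ δ * ((k + 1 : ℕ) : ℝ) := by
          push_cast; nlinarith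
        rw [Set.uIoc_of_le hle] at ht
        rw [Real.norm_eq_abs]
        refine (hW _ _).trans ?_
        have h1 := ht.1
        have h2 := ht.2
        push_cast at h2
        have : |δ * (k + 1 / 2) - t| ≤ δ := by rw [abs_le]; constructor <;> nlinarith
        gcongr)
    rw [Real.norm_eq_abs] at hb
    refine hb.trans (le_of_eq ?_)
    have : |δ * ((k + 1 : ℕ) : ℝ) - δ * k| = δ := by
      rw [show δ * ((k + 1 : ℕ) : ℝ) - δ * k = δ by push_cast; ring, abs_of_nonneg hδ]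
    rw [this]; ring
  simpa using this

lemma integral_cut (W : ℝ → ℝ) (hW : ∀ x, 11 / 10 ≤ x → W x = 0) (hc : Continuous W) (Y : ℝ)
    (hY : 11 / 10 ≤ Y) : ∫ t in (0:ℝ)..Y, W t = ∫ t in (0:ℝ)..(11 / 10), W t := by
  have h1 : ∫ t in (0:ℝ)..Y, W t = (∫ t in (0:ℝ)..(11 / 10), W t) +
      ∫ t in (11 / 10 : ℝ)..Y, W t :=
    (intervalIntegral.integral_add_adjacent_intervals (hc.intervalIntegrable _ _)
      (hc.intervalIntegrable _ _)).symm
  have h2 : ∫ t in (11 / 10 : ℝ)..Y, W t = 0 := by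
    rw [intervalIntegral.integral_congr (g := fun _ => (0:ℝ))]
    · simp
    · intro t ht
      rw [Set.uIcc_of_le hY] at ht
      exact hW t ht.1
  rw [h1, h2, add_zero]

lemma integral_lower (b : ℝ → ℝ) (K : ℝ) (hK : 400 ≤ K)
    (hone : ∀ x ∈ Set.Icc (19 / 20 : ℝ) (21 / 20), b x = 1)
    (hc : Continuous (Wt b K)) (hpos : ∀ x, 0 ≤ Wt b K x) :
    1 / (2 * Real.sqrt K) ≤ ∫ t in (0:ℝ)..(11 / 10), Wt b K t := by
  have hK0 : 0 < K := by linarith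
  have hsK : 20 ≤ Real.sqrt K := by
    rw [show (20:ℝ) = Real.sqrt 400 by
      rw [show (400:ℝ) = 20 ^ 2 by norm_num, Real.sqrt_sq (by norm_num)]]
    exact Real.sqrt_le_sqrt hK
  set η := 1 / Real.sqrt K with hη
  have hη0 : 0 < η := by positivity
  have hη1 : η ≤ 1 / 20 := by
    rw [hη]; exact one_div_le_one_div_of_le (by norm_num) hsK
  have hη2 : K * η ^ 2 = 1 := by
    rw [hη, div_pow, Real.sq_sqrt hK0.le]; field_simp
  have hsub : ∫ t in (1 - η)..(1 + η), Wt b K t ≤ ∫ t in (0:ℝ)..(11 / 10), Wt b K t := by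
    refine intervalIntegral.integral_mono_interval (by linarith) (by linarith) (by linarith) ?_
      (hc.intervalIntegrable _ _)
    filter_upwards with x
    exact hpos x
  have hlow : ∫ t in (1 - η)..(1 + η), (1 / 4 : ℝ) ≤ ∫ t in (1 - η)..(1 + η), Wt b K t := by
    refine intervalIntegral.integral_mono_on (by linarith) (_root_.intervalIntegrable_const)
      (hc.intervalIntegrable _ _) ?_
    intro x hx
    have hb := hone x ⟨by linarith [hx.1], by linarith [hx.2]⟩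
    have hx1 : (1 - x) ^ 2 ≤ η ^ 2 := by
      rw [sq_le_sq, abs_of_pos hη0, abs_le]
      constructor <;> linarith [hx.1, hx.2]
    have h2 : Real.exp (-1) ≤ Real.exp (-K * (1 - x) ^ 2) := by
      apply Real.exp_le_exp.mpr
      nlinarith
    have h3 : (1 / 3 : ℝ) ≤ Real.exp (-1) := by
      rw [Real.exp_neg, ← one_div]
      exact one_div_le_one_div_of_le (Real.exp_pos 1) (by linarith [Real.exp_one_lt_d9])
    unfold Wt
    rw [hb]
    have hx2 : 19 / 20 ≤ x := by linarith [hx.1]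
    nlinarith
  rw [intervalIntegral.integral_const, smul_eq_mul] at hlow
  have : 1 / (2 * Real.sqrt K) = (1 + η - (1 - η)) * (1 / 4) := by
    rw [hη]; field_simp; ring
  rw [this]
  linarith

/-! ### The inner sums -/

/-- The inner sums. -/
noncomputable def Inn (W : ℝ → ℝ) (X : ℝ) (T l : ℕ) (β : ℝ) : ℂ :=
  ∑ k ∈ range T, ee ((2 * k + 1) * β) * (W ((l : ℝ) ^ 2 * (2 * k + 1) / X) : ℂ)

lemma Inn_nonres (W : ℝ → ℝ) (Λ : ℝ) (hΛ : 0 ≤ Λ) (hW : ∀ x y, |W x - W y| ≤ Λ * |x - y|)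
    (hW2 : ∀ x, |W x| ≤ 2) (X : ℝ) (hX : 0 < X) (T l q : ℕ) (hq : 0 < q) (β : ℝ)
    (hT : (T : ℝ) * (2 * (l : ℝ) ^ 2 / X) ≤ 10)
    (hz : ee (2 * β) ^ q = 1) (hz1 : ee (2 * β) ≠ 1) :
    ‖Inn W X T l β‖ ≤ q * (4 + 10 * Λ) := by
  set z := ee (2 * β) with hzdef
  set a : ℕ → ℝ := fun k => W ((l : ℝ) ^ 2 * (2 * k + 1) / X) with ha
  have e : Inn W X T l β = ee β * ∑ k ∈ range T, z ^ k * (a k : ℂ) := by
    unfold Inn
    rw [mul_sum]
    refine sum_congr rfl fun k _ => ?_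
    have : ((2:ℝ) * k + 1) * β = β + k * (2 * β) := by ring
    rw [this, ee_add, ee_nat_mul, mul_assoc]
  have hab := abel_bound z (norm_ee _) a 2 (Λ * (2 * (l : ℝ) ^ 2 / X)) (fun k => hW2 _)
    (by
      intro k
      refine (hW _ _).trans (le_of_eq ?_)
      congr 1
      have : (l : ℝ) ^ 2 * (2 * ((k + 1 : ℕ) : ℝ) + 1) / X - (l : ℝ) ^ 2 * (2 * k + 1) / X =
          2 * (l : ℝ) ^ 2 / X := by push_cast; ring
      rw [this, abs_of_nonneg (by positivity)]) T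
  have h1 := norm_one_sub_ge z q hq hz hz1
  rw [e, norm_mul, norm_ee, one_mul]
  rw [norm_mul] at hab
  set S := ‖∑ k ∈ range T, z ^ k * (a k : ℂ)‖ with hS
  have hS0 : 0 ≤ S := norm_nonneg _
  have hq0 : (0:ℝ) < q := by exact_mod_cast hq
  have h2 : 1 / (q : ℝ) * S ≤ 4 + 10 * Λ := by
    calc 1 / (q : ℝ) * S ≤ ‖1 - z‖ * S := by gcongr
      _ ≤ 2 * 2 + T * (Λ * (2 * (l : ℝ) ^ 2 / X)) := hab
      _ ≤ 4 + 10 * Λ := by nlinarith
  rw [div_mul_eq_mul_div, one_mul, div_le_iff₀ hq0] at h2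
  linarith

lemma Inn_res (W : ℝ → ℝ) (Λ : ℝ) (hΛ : 0 ≤ Λ) (hW : ∀ x y, |W x - W y| ≤ Λ * |x - y|)
    (hW0 : ∀ x, 11 / 10 ≤ x → W x = 0) (X : ℝ) (hX : 0 < X) (T l : ℕ) (hl : 0 < l) (β : ℝ)
    (hT : (T : ℝ) * (2 * (l : ℝ) ^ 2 / X) ≤ 10) (hT2 : 11 / 10 ≤ (2 * (l : ℝ) ^ 2 / X) * T)
    (hβ : ∃ n : ℤ, β = n) :
    ‖Inn W X T l β - ((X / (2 * (l : ℝ) ^ 2) * ∫ t in (0:ℝ)..(11 / 10), W t : ℝ) : ℂ)‖ ≤
      10 * Λ := by
  obtain ⟨n, rfl⟩ := hβ
  have hl0 : (0:ℝ) < l := by exact_mod_cast hl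
  set δ := 2 * (l : ℝ) ^ 2 / X with hδ
  have hδ0 : 0 < δ := by positivity
  have e : Inn W X T l n = ((∑ k ∈ range T, W (δ * (k + 1 / 2)) : ℝ) : ℂ) := by
    unfold Inn
    rw [Complex.ofReal_sum]
    refine sum_congr rfl fun k _ => ?_
    have h1 : ((2:ℝ) * k + 1) * n = (((2 * k + 1) * n : ℤ) : ℝ) := by push_cast; ring
    have h2 : (l : ℝ) ^ 2 * (2 * k + 1) / X = δ * (k + 1 / 2) := by rw [hδ]; ring
    rw [h1, ee_int, one_mul, h2]
  have hc := continuous_of_lip W Λ hΛ hW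
  have hr := riemann_sum W Λ hΛ hW δ hδ0.le T
  rw [integral_cut W hW0 hc _ hT2] at hr
  set J := ∫ t in (0:ℝ)..(11 / 10), W t with hJ
  have e2 : X / (2 * (l : ℝ) ^ 2) = 1 / δ := by rw [hδ]; field_simp
  rw [e, e2, ← Complex.ofReal_sub, Complex.norm_real, Real.norm_eq_abs]
  set S := ∑ k ∈ range T, W (δ * (k + 1 / 2)) with hS
  have e3 : S - 1 / δ * J = (1 / δ) * (δ * S - J) := by field_simp
  rw [e3, abs_mul, abs_of_pos (by positivity)]
  calc 1 / δ * |δ * S - J| ≤ 1 / δ * (T * (Λ * δ ^ 2)) := by gcongr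
    _ = Λ * (T * δ) := by field_simp
    _ ≤ Λ * 10 := by gcongr
    _ = _ := by ring

/-! ### Arithmetic of the frequencies -/

lemma two_mul_beta (p l : ℕ) (hp : 0 < p) (σ : ℤ) :
    2 * ((σ : ℝ) / 3 + (l : ℝ) ^ 2 / (3 * (p : ℝ) ^ 2)) =
      ((2 * (σ * p ^ 2 + l ^ 2) : ℤ) : ℝ) / ((3 * p ^ 2 : ℕ) : ℝ) := by
  have hp0 : (p : ℝ) ≠ 0 := by exact_mod_cast hp.ne'
  push_cast
  field_simp

lemma ee_two_beta_pow (p l : ℕ) (hp : 0 < p) (σ : ℤ) :
    ee (2 * ((σ : ℝ) / 3 + (l : ℝ) ^ 2 / (3 * (p : ℝ) ^ 2))) ^ (3 * p ^ 2) = 1 := by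
  rw [← ee_nat_mul, two_mul_beta p l hp σ]
  have hq : (((3 * p ^ 2 : ℕ)) : ℝ) ≠ 0 := by
    have : 0 < 3 * p ^ 2 := by positivity
    exact_mod_cast this.ne'
  rw [mul_div_cancel₀ _ hq, ee_int]

lemma ee_two_beta_ne_one (p l : ℕ) (hp : p.Prime) (hp5 : 5 ≤ p) (σ : ℤ) (hσ : σ = 1 ∨ σ = -1)
    (hl3 : ¬ 3 ∣ l) (h : ¬ p ∣ l ∨ σ = 1) :
    ee (2 * ((σ : ℝ) / 3 + (l : ℝ) ^ 2 / (3 * (p : ℝ) ^ 2))) ≠ 1 := by
  rw [two_mul_beta p l hp.pos σ]
  intro he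
  obtain ⟨n, hn⟩ := (ee_eq_one_iff _).mp he
  have hq : (((3 * p ^ 2 : ℕ)) : ℝ) ≠ 0 := by
    have : 0 < 3 * p ^ 2 := by have := hp.pos; positivity
    exact_mod_cast this.ne'
  rw [div_eq_iff hq] at hn
  have hZ : 2 * (σ * (p : ℤ) ^ 2 + (l : ℤ) ^ 2) = n * (3 * (p : ℤ) ^ 2) := by exact_mod_cast hn
  -- p divides l
  have hpl : (p : ℤ) ∣ (l : ℤ) := by
    have h1 : (p : ℤ) ∣ 2 * (l : ℤ) ^ 2 :=
      ⟨n * 3 * p - 2 * σ * p, by linear_combination hZ⟩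
    have hpp : Prime (p : ℤ) := Nat.prime_iff_prime_int.mp hp
    rcases hpp.dvd_or_dvd h1 with h2 | h2
    · exfalso
      have : p ∣ 2 := by exact_mod_cast h2
      have := Nat.le_of_dvd (by norm_num) this
      omega
    · exact hpp.dvd_of_dvd_pow h2
  have hpl' : p ∣ l := by exact_mod_cast hpl
  have hσ1 : σ = 1 := by
    rcases h with h | h
    · exact absurd hpl' h
    · exact h
  obtain ⟨k, rfl⟩ := hpl'
  have hp0 : ((p : ℤ) ^ 2) ≠ 0 := by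
    have := hp.pos
    positivity
  have hk : 2 * (1 + (k : ℤ) ^ 2) = n * 3 := by
    subst hσ1
    have : (p : ℤ) ^ 2 * (2 * (1 + (k : ℤ) ^ 2)) = (p : ℤ) ^ 2 * (n * 3) := by
      push_cast at hZ
      linear_combination hZ
    exact mul_left_cancel₀ hp0 this
  have hk3 : ¬ 3 ∣ k := fun h => hl3 (h.mul_left p)
  have hk3' : k % 3 = 1 ∨ k % 3 = 2 := by omega
  have hsq : (k ^ 2) % 3 = 1 := by
    rcases hk3' with h | h <;> rw [Nat.pow_mod, h]
  have h3 : (3 : ℤ) ∣ 2 * (1 + (k : ℤ) ^ 2) := ⟨n, by linear_combination hk⟩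
  have h4 : ((k : ℤ) ^ 2) % 3 = 1 := by exact_mod_cast hsq
  omega

lemma beta_int (p l : ℕ) (hp : 0 < p) (hl3 : ¬ 3 ∣ l) (hpl : p ∣ l) :
    ∃ n : ℤ, (((-1 : ℤ) : ℝ) / 3 + (l : ℝ) ^ 2 / (3 * (p : ℝ) ^ 2)) = n := by
  obtain ⟨k, rfl⟩ := hpl
  have hk3 : ¬ 3 ∣ k := fun h => hl3 (h.mul_left p)
  have hk3' : k % 3 = 1 ∨ k % 3 = 2 := by omega
  have hsq : (k ^ 2) % 3 = 1 := by
    rcases hk3' with h | h <;> rw [Nat.pow_mod, h]
  obtain ⟨m, hm⟩ : ∃ m, k ^ 2 = 3 * m + 1 := ⟨k ^ 2 / 3, by omega⟩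
  refine ⟨(m : ℤ), ?_⟩
  have hp0 : (p : ℝ) ≠ 0 := by exact_mod_cast hp.ne'
  have h2 : (k : ℝ) ^ 2 = 3 * (m : ℝ) + 1 := by exact_mod_cast hm
  push_cast
  field_simp
  linarith

/-! ### The main term -/

lemma sum_inv_sq_tail (M : ℕ) (hM : 5 ≤ M) :
    ∑ k ∈ Ico 5 M, ((k : ℝ) ^ 2)⁻¹ ≤ 1 / 4 := by
  have h := sum_Ioc_inv_sq_le_sub (α := ℝ) (k := 4) (n := M - 1) (by norm_num) (by omega)
  have e : Ioc 4 (M - 1) = Ico 5 M := by
    ext x; simp only [mem_Ioc, mem_Ico]; omega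
  rw [e] at h
  have : (0:ℝ) ≤ (((M - 1 : ℕ) : ℝ))⁻¹ := by positivity
  norm_num at h ⊢
  linarith

lemma main_sum_lower (p M : ℕ) (hp : p.Prime) (hp5 : 5 ≤ p) (hM : 5 ≤ M) :
    3 / 4 / (p : ℝ) ^ 2 ≤ |∑ l ∈ range (p * M), ((ArithmeticFunction.moebius l : ℤ) : ℝ) *
      (if Odd l ∧ ¬ 3 ∣ l ∧ p ∣ l then 1 / (l : ℝ) ^ 2 else 0)| := by
  have hp0 : 0 < p := hp.pos
  have hpr : (0:ℝ) < p := by exact_mod_cast hp0
  set f : ℕ → ℝ := fun l => ((ArithmeticFunction.moebius l : ℤ) : ℝ) *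
      (if Odd l ∧ ¬ 3 ∣ l ∧ p ∣ l then 1 / (l : ℝ) ^ 2 else 0) with hf
  have hinj : Function.Injective (fun k : ℕ => p * k) := fun a b h =>
    Nat.eq_of_mul_eq_mul_left hp0 h
  have h1 : ∑ l ∈ range (p * M), f l = ∑ k ∈ range M, f (p * k) := by
    rw [← sum_image (f := f) (g := fun k : ℕ => p * k) (fun a _ b _ h => hinj h)]
    symm
    refine sum_subset ?_ ?_
    · intro l hl
      rw [mem_image] at hl
      obtain ⟨k, hk, rfl⟩ := hl
      rw [mem_range] at hk ⊢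
      exact Nat.mul_lt_mul_of_pos_left hk hp0
    · intro l hl hn
      rw [mem_range] at hl
      have : ¬ p ∣ l := by
        rintro ⟨k, rfl⟩
        apply hn
        rw [mem_image]
        exact ⟨k, mem_range.mpr (Nat.lt_of_mul_lt_mul_left hl), rfl⟩
      simp only [hf]
      rw [if_neg (fun h => this h.2.2), mul_zero]
  set g : ℕ → ℝ := fun k => ((ArithmeticFunction.moebius (p * k) : ℤ) : ℝ) *
      (if Odd k ∧ ¬ 3 ∣ k then ((k : ℝ) ^ 2)⁻¹ else 0) with hg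
  have hpo : Odd p := hp.odd_of_ne_two (by omega)
  have hp3 : ¬ 3 ∣ p := by
    intro h
    have := (Nat.prime_dvd_prime_iff_eq Nat.prime_three hp).mp h
    omega
  have h2 : ∀ k, f (p * k) = 1 / (p : ℝ) ^ 2 * g k := by
    intro k
    simp only [hf, hg]
    have hc : (Odd (p * k) ∧ ¬ 3 ∣ p * k ∧ p ∣ p * k) ↔ (Odd k ∧ ¬ 3 ∣ k) := by
      rw [Nat.odd_mul]
      constructor
      · rintro ⟨⟨_, h⟩, h3, _⟩
        exact ⟨h, fun h' => h3 (h'.mul_left p)⟩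
      · rintro ⟨h, h3⟩
        refine ⟨⟨hpo, h⟩, fun h' => ?_, dvd_mul_right _ _⟩
        rcases (Nat.Prime.dvd_mul Nat.prime_three).mp h' with h4 | h4
        · exact hp3 h4
        · exact h3 h4
    rw [if_congr hc rfl rfl]
    split_ifs
    · push_cast
      rw [mul_pow, one_div, mul_inv, one_div]; ring
    · ring
  rw [h1, sum_congr rfl fun k _ => h2 k, ← mul_sum, abs_mul, abs_of_pos (by positivity)]
  have h3 : ∑ k ∈ range M, g k = -1 + ∑ k ∈ Ico 5 M, g k := by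
    rw [← sum_range_add_sum_Ico g hM]
    congr 1
    have g0 : g 0 = 0 := by simp [hg]
    have g1 : g 1 = -1 := by
      simp only [hg]
      rw [mul_one, ArithmeticFunction.moebius_apply_prime hp, if_pos ⟨odd_one, by norm_num⟩]
      norm_num
    have g2 : g 2 = 0 := by
      simp only [hg]; rw [if_neg (fun h => by have := h.1; revert this; decide), mul_zero]
    have g3 : g 3 = 0 := by
      simp only [hg]; rw [if_neg (fun h => h.2 (dvd_refl 3)), mul_zero]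
    have g4 : g 4 = 0 := by
      simp only [hg]; rw [if_neg (fun h => by have := h.1; revert this; decide), mul_zero]
    rw [sum_range_succ, sum_range_succ, sum_range_succ, sum_range_succ, sum_range_one, g0, g1, g2,
      g3, g4]
    ring
  have h4 : |∑ k ∈ Ico 5 M, g k| ≤ 1 / 4 := by
    refine (abs_sum_le_sum_abs _ _).trans (le_trans (sum_le_sum fun k _ => ?_)
      (sum_inv_sq_tail M hM))
    simp only [hg]
    rw [abs_mul]
    have h5 : |((ArithmeticFunction.moebius (p * k) : ℤ) : ℝ)| ≤ 1 := by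
      rw [← Int.cast_abs]
      exact_mod_cast ArithmeticFunction.abs_moebius_le_one
    have h6 : |(if Odd k ∧ ¬ 3 ∣ k then ((k : ℝ) ^ 2)⁻¹ else 0)| ≤ ((k : ℝ) ^ 2)⁻¹ := by
      split_ifs
      · rw [abs_of_nonneg (by positivity)]
      · rw [abs_zero]; positivity
    calc _ ≤ 1 * ((k : ℝ) ^ 2)⁻¹ := by gcongr
      _ = _ := one_mul _
  have h7 : 3 / 4 ≤ |∑ k ∈ range M, g k| := by
    rw [h3]
    have := abs_le.mp h4
    rw [abs_of_neg (by linarith)]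
    linarith
  calc 3 / 4 / (p : ℝ) ^ 2 = 1 / (p : ℝ) ^ 2 * (3 / 4) := by ring
    _ ≤ _ := by gcongr

/-! ### Assembly -/

/-- The summand. -/
noncomputable def Gs (W : ℝ → ℝ) (p m : ℕ) : ℂ :=
  ((jacobiSym (m : ℤ) 3 : ℤ) : ℂ) * ee (m / (3 * (p : ℝ) ^ 2)) * (W (m / (p : ℝ) ^ 20) : ℂ)

lemma sum_Gs_eq (W : ℝ → ℝ) (p T l : ℕ) (hl3 : ¬ 3 ∣ l) :
    (Complex.I * (Real.sqrt 3 : ℂ)) * ∑ k ∈ range T, Gs W p (l ^ 2 * (2 * k + 1)) =
      Inn W ((p : ℝ) ^ 20) T l (((1 : ℤ) : ℝ) / 3 + (l : ℝ) ^ 2 / (3 * (p : ℝ) ^ 2)) -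
      Inn W ((p : ℝ) ^ 20) T l (((-1 : ℤ) : ℝ) / 3 + (l : ℝ) ^ 2 / (3 * (p : ℝ) ^ 2)) := by
  unfold Inn
  rw [mul_sum, ← sum_sub_distrib]
  refine sum_congr rfl fun k _ => ?_
  unfold Gs
  rw [jac_sq_mul l _ hl3]
  have h1 := jac_three (2 * k + 1)
  have e1 : ee ((2 * k + 1) * (((1 : ℤ) : ℝ) / 3 + (l : ℝ) ^ 2 / (3 * (p : ℝ) ^ 2))) =
      ee (((2 * k + 1 : ℕ) : ℝ) / 3) * ee (((l ^ 2 * (2 * k + 1) : ℕ) : ℝ) / (3 * (p : ℝ) ^ 2)) := by
    rw [← ee_add]; congr 1; push_cast; ring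
  have e2 : ee ((2 * k + 1) * (((-1 : ℤ) : ℝ) / 3 + (l : ℝ) ^ 2 / (3 * (p : ℝ) ^ 2))) =
      ee (-(((2 * k + 1 : ℕ) : ℝ) / 3)) *
        ee (((l ^ 2 * (2 * k + 1) : ℕ) : ℝ) / (3 * (p : ℝ) ^ 2)) := by
    rw [← ee_add]; congr 1; push_cast; ring
  have e3 : ((l ^ 2 * (2 * k + 1) : ℕ) : ℝ) / (p : ℝ) ^ 20 =
      (l : ℝ) ^ 2 * (2 * k + 1) / (p : ℝ) ^ 20 := by push_cast; ring
  rw [e1, e2, e3]
  linear_combination (ee (((l ^ 2 * (2 * k + 1) : ℕ) : ℝ) / (3 * (p : ℝ) ^ 2)) *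
    (W ((l : ℝ) ^ 2 * (2 * k + 1) / (p : ℝ) ^ 20) : ℂ)) * h1

/-- The main estimate for one `l`. -/
lemma inner_estimate (W : ℝ → ℝ) (Λ : ℝ) (hΛ : 0 ≤ Λ) (hW : ∀ x y, |W x - W y| ≤ Λ * |x - y|)
    (hW2 : ∀ x, |W x| ≤ 2) (hW0 : ∀ x, 11 / 10 ≤ x → W x = 0) (p l : ℕ) (hp : p.Prime)
    (hp5 : 5 ≤ p) (hl : l < 2 * p ^ 10) :
    ‖(Complex.I * (Real.sqrt 3 : ℂ)) *
      ∑ m ∈ (range (2 * p ^ 20 + 1)).filter (fun m => Odd m ∧ l ^ 2 ∣ m), Gs W p m +
      (((p : ℝ) ^ 20 / 2 * (∫ t in (0:ℝ)..(11 / 10), W t) *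
        (if Odd l ∧ ¬ 3 ∣ l ∧ p ∣ l then 1 / (l : ℝ) ^ 2 else 0) : ℝ) : ℂ)‖ ≤
      2 * ((3 * (p : ℝ) ^ 2) * (4 + 10 * Λ)) + 10 * Λ := by
  have hp0 : 0 < p := hp.pos
  have hpr : (0:ℝ) < p := by exact_mod_cast hp0
  have hE : 0 ≤ 2 * ((3 * (p : ℝ) ^ 2) * (4 + 10 * Λ)) + 10 * Λ := by positivity
  by_cases hlo : Odd l
  swap
  · rw [sum_even_zero _ _ _ hlo, if_neg (fun h => hlo h.1)]
    simpa using hE
  set X : ℝ := (p : ℝ) ^ 20 with hX
  have hX0 : 0 < X := by positivity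
  have hl0 : 0 < l := hlo.pos
  have hlr : (0:ℝ) < l := by exact_mod_cast hl0
  set T : ℕ := p ^ 20 / l ^ 2 + 1 with hT
  have hl2 : 0 < l ^ 2 := pow_pos hl0 2
  have hpar := sum_odd_param (Gs W p) (2 * p ^ 20) T l hlo (by
    intro m hm
    unfold Gs
    rw [hW0, Complex.ofReal_zero, mul_zero]
    rw [le_div_iff₀ hX0]
    have : (2:ℝ) * X ≤ m := by
      rw [hX]; exact_mod_cast hm.le
    linarith) (by
    intro k hk
    rw [hT, Nat.lt_succ_iff, Nat.le_div_iff_mul_le hl2]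
    have : k * l ^ 2 * 2 ≤ p ^ 20 * 2 := by
      calc k * l ^ 2 * 2 ≤ l ^ 2 * (2 * k + 1) := by ring_nf; omega
        _ ≤ 2 * p ^ 20 := hk
        _ = _ := by ring
    omega)
  rw [hpar]
  by_cases hl3 : 3 ∣ l
  · have hz : ∀ k ∈ range T, Gs W p (l ^ 2 * (2 * k + 1)) = 0 := by
      intro k _
      unfold Gs
      rw [jac_sq_mul_zero l _ hl3]; simp
    rw [sum_eq_zero hz, if_neg (fun h => h.2.1 hl3)]
    simpa using hE
  rw [sum_Gs_eq W p T l hl3]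
  have hlX : (l : ℝ) ^ 2 ≤ 4 * X := by
    have h1 : (l : ℝ) ≤ 2 * (p : ℝ) ^ 10 := by exact_mod_cast hl.le
    calc (l : ℝ) ^ 2 ≤ (2 * (p : ℝ) ^ 10) ^ 2 := by gcongr
      _ = 4 * X := by rw [hX]; ring
  have hT1 : (T : ℝ) * (l : ℝ) ^ 2 ≤ X + (l : ℝ) ^ 2 := by
    have h1 : T * l ^ 2 ≤ p ^ 20 + l ^ 2 := by
      rw [hT, add_mul, one_mul]
      have := Nat.div_mul_le_self (p ^ 20) (l ^ 2)
      omega
    rw [hX]; exact_mod_cast h1
  have hT2 : X ≤ (T : ℝ) * (l : ℝ) ^ 2 := by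
    have h1 : p ^ 20 ≤ T * l ^ 2 := by
      rw [hT]
      exact ((Nat.div_lt_iff_lt_mul hl2).mp (Nat.lt_succ_self _)).le
    rw [hX]; exact_mod_cast h1
  have hTa : (T : ℝ) * (2 * (l : ℝ) ^ 2 / X) ≤ 10 := by
    rw [← mul_div_assoc, div_le_iff₀ hX0]
    linarith
  have hTb : 11 / 10 ≤ (2 * (l : ℝ) ^ 2 / X) * T := by
    rw [div_mul_eq_mul_div, le_div_iff₀ hX0]
    linarith
  have hq : 0 < 3 * p ^ 2 := by positivity
  have hI1 : ‖Inn W X T l (((1 : ℤ) : ℝ) / 3 + (l : ℝ) ^ 2 / (3 * (p : ℝ) ^ 2))‖ ≤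
      (3 * (p : ℝ) ^ 2) * (4 + 10 * Λ) := by
    have := Inn_nonres W Λ hΛ hW hW2 X hX0 T l (3 * p ^ 2) hq _ hTa
      (ee_two_beta_pow p l hp0 1) (ee_two_beta_ne_one p l hp hp5 1 (Or.inl rfl) hl3 (Or.inr rfl))
    push_cast at this ⊢
    exact this
  by_cases hpl : p ∣ l
  · rw [if_pos ⟨hlo, hl3, hpl⟩]
    have hI2 := Inn_res W Λ hΛ hW hW0 X hX0 T l hl0 _ hTa hTb (beta_int p l hp0 hl3 hpl)
    set J := ∫ t in (0:ℝ)..(11 / 10), W t with hJ
    have e : X / 2 * J * (1 / (l : ℝ) ^ 2) = X / (2 * (l : ℝ) ^ 2) * J := by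
      field_simp
    rw [e]
    set I1 := Inn W X T l (((1 : ℤ) : ℝ) / 3 + (l : ℝ) ^ 2 / (3 * (p : ℝ) ^ 2))
    set I2 := Inn W X T l (((-1 : ℤ) : ℝ) / 3 + (l : ℝ) ^ 2 / (3 * (p : ℝ) ^ 2))
    have e2 : I1 - I2 + ((X / (2 * (l : ℝ) ^ 2) * J : ℝ) : ℂ) =
        I1 - (I2 - ((X / (2 * (l : ℝ) ^ 2) * J : ℝ) : ℂ)) := by ring
    rw [e2]
    refine (norm_sub_le _ _).trans ?_
    have h4 : 0 ≤ (3 * (p : ℝ) ^ 2) * (4 + 10 * Λ) := by positivity
    linarith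
  · rw [if_neg (fun h => hpl h.2.2), mul_zero, Complex.ofReal_zero, add_zero]
    have hI2 : ‖Inn W X T l (((-1 : ℤ) : ℝ) / 3 + (l : ℝ) ^ 2 / (3 * (p : ℝ) ^ 2))‖ ≤
        (3 * (p : ℝ) ^ 2) * (4 + 10 * Λ) := by
      have := Inn_nonres W Λ hΛ hW hW2 X hX0 T l (3 * p ^ 2) hq _ hTa
        (ee_two_beta_pow p l hp0 (-1)) (ee_two_beta_ne_one p l hp hp5 (-1) (Or.inr rfl) hl3
          (Or.inl hpl))
      push_cast at this ⊢
      exact this
    refine (norm_sub_le _ _).trans ?_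
    linarith

lemma sum_lower (W : ℝ → ℝ) (Λ : ℝ) (hΛ : 0 ≤ Λ) (hW : ∀ x y, |W x - W y| ≤ Λ * |x - y|)
    (hW2 : ∀ x, |W x| ≤ 2) (hW0 : ∀ x, 11 / 10 ≤ x → W x = 0) (p : ℕ) (hp : p.Prime)
    (hp5 : 5 ≤ p) (J : ℝ) (hJ0 : 0 ≤ J) (hJ : J ≤ ∫ t in (0:ℝ)..(11 / 10), W t) :
    3 / 8 * (p : ℝ) ^ 18 * J - 2 * (p : ℝ) ^ 10 *
      (2 * ((3 * (p : ℝ) ^ 2) * (4 + 10 * Λ)) + 10 * Λ) ≤ Real.sqrt 3 *
    ‖∑ m ∈ (range (2 * p ^ 20 + 1)).filter (fun m => Odd m ∧ Squarefree m), Gs W p m‖ := by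
  have hp0 : 0 < p := hp.pos
  have hpr : (0:ℝ) < p := by exact_mod_cast hp0
  set N := 2 * p ^ 10 with hN
  have hYN : 2 * p ^ 20 < N ^ 2 := by
    have : 0 < p ^ 20 := by positivity
    rw [hN]; ring_nf; omega
  rw [sum_squarefree_eq (Gs W p) (2 * p ^ 20) N hYN]
  set Q : ℕ → ℂ := fun l => ∑ m ∈ (range (2 * p ^ 20 + 1)).filter
    (fun m => Odd m ∧ l ^ 2 ∣ m), Gs W p m with hQ
  set I0 := ∫ t in (0:ℝ)..(11 / 10), W t with hI0
  set c : ℕ → ℝ := fun l => if Odd l ∧ ¬ 3 ∣ l ∧ p ∣ l then 1 / (l : ℝ) ^ 2 else 0 with hc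
  set E : ℝ := 2 * ((3 * (p : ℝ) ^ 2) * (4 + 10 * Λ)) + 10 * Λ with hE
  have hE0 : 0 ≤ E := by positivity
  have hsum : (Complex.I * (Real.sqrt 3 : ℂ)) *
      ∑ l ∈ range N, ((ArithmeticFunction.moebius l : ℤ) : ℂ) * Q l =
      ∑ l ∈ range N, ((ArithmeticFunction.moebius l : ℤ) : ℂ) *
        ((Complex.I * (Real.sqrt 3 : ℂ)) * Q l + (((p : ℝ) ^ 20 / 2 * I0 * c l : ℝ) : ℂ)) -
      (((p : ℝ) ^ 20 / 2 * I0 * ∑ l ∈ range N, ((ArithmeticFunction.moebius l : ℤ) : ℝ) * c l : ℝ)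
        : ℂ) := by
    push_cast
    rw [mul_sum, mul_sum, ← sum_sub_distrib]
    refine sum_congr rfl fun l _ => ?_
    ring
  have hmain : 3 / 4 / (p : ℝ) ^ 2 ≤
      |∑ l ∈ range N, ((ArithmeticFunction.moebius l : ℤ) : ℝ) * c l| := by
    have hNM : N = p * (2 * p ^ 9) := by rw [hN]; ring
    rw [hNM]
    refine main_sum_lower p (2 * p ^ 9) hp hp5 ?_
    have : 5 ≤ p ^ 9 := hp5.trans (Nat.le_self_pow (by norm_num) p)
    omega
  have herr : ‖∑ l ∈ range N, ((ArithmeticFunction.moebius l : ℤ) : ℂ) *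
        ((Complex.I * (Real.sqrt 3 : ℂ)) * Q l + (((p : ℝ) ^ 20 / 2 * I0 * c l : ℝ) : ℂ))‖ ≤
      2 * (p : ℝ) ^ 10 * E := by
    refine (norm_sum_le _ _).trans ?_
    have h1 : ∑ l ∈ range N, ‖((ArithmeticFunction.moebius l : ℤ) : ℂ) *
        ((Complex.I * (Real.sqrt 3 : ℂ)) * Q l + (((p : ℝ) ^ 20 / 2 * I0 * c l : ℝ) : ℂ))‖ ≤
        ∑ l ∈ range N, E := by
      refine sum_le_sum fun l hl => ?_
      rw [norm_mul]
      have h2 : ‖((ArithmeticFunction.moebius l : ℤ) : ℂ)‖ ≤ 1 := by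
        rw [Complex.norm_intCast]
        exact_mod_cast ArithmeticFunction.abs_moebius_le_one
      have h3 := inner_estimate W Λ hΛ hW hW2 hW0 p l hp hp5 (mem_range.mp hl)
      calc _ ≤ 1 * E := by
            gcongr
        _ = E := one_mul _
    refine h1.trans (le_of_eq ?_)
    rw [sum_const, card_range, nsmul_eq_mul, hN]; push_cast; ring
  have hnorm : ‖(Complex.I * (Real.sqrt 3 : ℂ)) *
      ∑ l ∈ range N, ((ArithmeticFunction.moebius l : ℤ) : ℂ) * Q l‖ =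
      Real.sqrt 3 * ‖∑ l ∈ range N, ((ArithmeticFunction.moebius l : ℤ) : ℂ) * Q l‖ := by
    rw [norm_mul, norm_mul, Complex.norm_I, one_mul, Complex.norm_real,
      Real.norm_of_nonneg (Real.sqrt_nonneg _)]
  rw [← hnorm, hsum, norm_sub_rev]
  refine le_trans ?_ (norm_sub_norm_le _ _)
  have hI0' : 0 ≤ I0 := hJ0.trans hJ
  rw [Complex.norm_real, Real.norm_eq_abs, abs_mul, abs_of_nonneg (by positivity :
    0 ≤ (p : ℝ) ^ 20 / 2 * I0)]
  have h5 : 3 / 8 * (p : ℝ) ^ 18 * J ≤ (p : ℝ) ^ 20 / 2 * I0 *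
      |∑ l ∈ range N, ((ArithmeticFunction.moebius l : ℤ) : ℝ) * c l| := by
    calc 3 / 8 * (p : ℝ) ^ 18 * J = (p : ℝ) ^ 20 / 2 * J * (3 / 4 / (p : ℝ) ^ 2) := by
          field_simp; ring
      _ ≤ _ := by gcongr
  linarith

end SqfSum

open SqfSum in
/-- A smooth exponential sum over odd squarefree integers near `p ^ 20`, with the frequency
`m / (3 p ^ 2)` and the quadratic symbol modulo three, is large. -/
theorem sqf_sum_lower (b : ℝ → ℝ) (L : ℝ) (hLip : ∀ x y, |b x - b y| ≤ L * |x - y|)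
    (h0 : ∀ x, 0 ≤ b x) (h1 : ∀ x, b x ≤ 1)
    (hsupp : ∀ x, x ∉ Set.Ioo (9 / 10 : ℝ) (11 / 10) → b x = 0)
    (hone : ∀ x ∈ Set.Icc (19 / 20 : ℝ) (21 / 20), b x = 1) :
    ∃ c : ℝ, 0 < c ∧ ∃ p₀ : ℕ, ∀ p : ℕ, p₀ ≤ p → p.Prime →
      c * (p : ℝ) ^ 18 / Real.sqrt (Real.log p) ≤
        ‖∑ m ∈ (Finset.range (2 * p ^ 20 + 1)).filter (fun m => Odd m ∧ Squarefree m),
          ((jacobiSym (m : ℤ) 3 : ℤ) : ℂ) *
            Complex.exp (((2 * Real.pi * m / (3 * (p : ℝ) ^ 2) : ℝ) : ℂ) * Complex.I) *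
            ((b (m / (p : ℝ) ^ 20) * (m / (p : ℝ) ^ 20) *
              Real.exp (-(30 * Real.log p) * (1 - m / (p : ℝ) ^ 20) ^ 2) : ℝ) : ℂ)‖ := by
  have hL := L_nonneg b L hLip
  refine ⟨1 / (8 * Real.sqrt 3 * Real.sqrt 30), by positivity,
    ⌈480 * (16988 + 280 * L)⌉₊, fun p hp₀ hp => ?_⟩
  have hP0 : 480 * (16988 + 280 * L) ≤ (p : ℝ) := (Nat.le_ceil _).trans (by exact_mod_cast hp₀)
  have hP1 : (8154240 : ℝ) ≤ p := by nlinarith
  have hp5 : 5 ≤ p := by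
    have : (5:ℝ) ≤ p := by linarith
    exact_mod_cast this
  have hpr : (0:ℝ) < p := by linarith
  set K : ℝ := 30 * Real.log p with hK
  have hlog : 14 ≤ Real.log p := by
    rw [Real.le_log_iff_exp_le hpr]
    have h2 : Real.exp 14 = Real.exp 1 ^ 14 := by rw [← Real.exp_nat_mul]; norm_num
    rw [h2]
    calc Real.exp 1 ^ 14 ≤ 2.7182818286 ^ 14 := by
          gcongr
          exact Real.exp_one_lt_d9.le
      _ ≤ 8154240 := by norm_num
      _ ≤ p := hP1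
  have hK400 : 400 ≤ K := by rw [hK]; linarith
  have hK0 : 0 ≤ K := by linarith
  have hKp : K ≤ 30 * p := by
    have := Real.log_le_self hpr.le
    rw [hK]; linarith
  have hsK : Real.sqrt K ≤ 30 * p := by
    have h2 : Real.sqrt K ≤ K := by
      rw [Real.sqrt_le_left hK0]
      nlinarith
    linarith
  have hsK0 : 0 < Real.sqrt K := Real.sqrt_pos.mpr (by linarith)
  set W := Wt b K with hW
  set Λ := 2 * L + 1 + 4 * K with hΛ
  have hΛ0 : 0 ≤ Λ := by rw [hΛ]; linarith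
  have hWlip : ∀ x y, |W x - W y| ≤ Λ * |x - y| := Wt_lip b L hLip h0 h1 hsupp K hK0
  have hW2 : ∀ x, |W x| ≤ 2 := Wt_le_two b h0 h1 hsupp K hK0
  have hW0 : ∀ x, 11 / 10 ≤ x → W x = 0 := fun x hx =>
    Wt_eq_zero b hsupp K x (fun h => by linarith [h.2])
  have hWpos : ∀ x, 0 ≤ W x := Wt_nonneg b h0 hsupp K
  have hc := continuous_of_lip W Λ hΛ0 hWlip
  have hJ := integral_lower b K hK400 hone hc hWpos
  have hmain := sum_lower W Λ hΛ0 hWlip hW2 hW0 p hp hp5 (1 / (2 * Real.sqrt K))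
    (by positivity) hJ
  have hGs : ∀ m : ℕ, ((jacobiSym (m : ℤ) 3 : ℤ) : ℂ) *
            Complex.exp (((2 * Real.pi * m / (3 * (p : ℝ) ^ 2) : ℝ) : ℂ) * Complex.I) *
            ((b (m / (p : ℝ) ^ 20) * (m / (p : ℝ) ^ 20) *
              Real.exp (-(30 * Real.log p) * (1 - m / (p : ℝ) ^ 20) ^ 2) : ℝ) : ℂ) =
      Gs W p m := by
    intro m
    unfold Gs ee
    rw [hW, Wt, hK]
    have : 2 * Real.pi * (m : ℝ) / (3 * (p : ℝ) ^ 2) =
        2 * Real.pi * ((m : ℝ) / (3 * (p : ℝ) ^ 2)) := by ring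
    rw [this]
  rw [sum_congr rfl fun m _ => hGs m]
  set S := ‖∑ m ∈ (range (2 * p ^ 20 + 1)).filter (fun m => Odd m ∧ Squarefree m), Gs W p m‖
    with hS
  set P : ℝ := (p : ℝ) with hPdef
  have herr : 2 * P ^ 10 * (2 * ((3 * P ^ 2) * (4 + 10 * Λ)) + 10 * Λ) ≤
      1 / 16 * (P ^ 18 / Real.sqrt K) := by
    have h3 : 2 * P ^ 10 * (2 * ((3 * P ^ 2) * (4 + 10 * Λ)) + 10 * Λ) ≤
        P ^ 12 * (48 + 140 * Λ) := by
      have hP2 : 1 ≤ P ^ 2 := by nlinarith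
      have h4 : 2 * P ^ 10 * (10 * Λ) ≤ 2 * P ^ 10 * (10 * Λ) * P ^ 2 := by
        have : 0 ≤ 2 * P ^ 10 * (10 * Λ) := by positivity
        nlinarith
      calc 2 * P ^ 10 * (2 * ((3 * P ^ 2) * (4 + 10 * Λ)) + 10 * Λ) =
          P ^ 12 * (48 + 120 * Λ) + 2 * P ^ 10 * (10 * Λ) := by ring
        _ ≤ P ^ 12 * (48 + 120 * Λ) + 2 * P ^ 10 * (10 * Λ) * P ^ 2 := by linarith
        _ = P ^ 12 * (48 + 140 * Λ) := by ring
    have h5 : 48 + 140 * Λ ≤ (16988 + 280 * L) * P := by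
      rw [hΛ]
      nlinarith
    have h6 : 16 * (48 + 140 * Λ) * Real.sqrt K ≤ P ^ 6 := by
      have hP6 : P ^ 3 ≤ P ^ 6 := pow_le_pow_right₀ (by linarith) (by norm_num)
      have h7 : 0 ≤ (16988 + 280 * L) * P := by positivity
      calc 16 * (48 + 140 * Λ) * Real.sqrt K ≤ 16 * ((16988 + 280 * L) * P) * (30 * P) := by
            gcongr
        _ = 480 * (16988 + 280 * L) * P ^ 2 := by ring
        _ ≤ P * P ^ 2 := by gcongr
        _ = P ^ 3 := by ring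
        _ ≤ P ^ 6 := hP6
    refine h3.trans ?_
    rw [← mul_div_assoc, le_div_iff₀ hsK0]
    calc P ^ 12 * (48 + 140 * Λ) * Real.sqrt K =
        1 / 16 * (P ^ 12 * (16 * (48 + 140 * Λ) * Real.sqrt K)) := by ring
      _ ≤ 1 / 16 * (P ^ 12 * P ^ 6) := by gcongr
      _ = _ := by ring
  have h8 : 1 / 8 * (P ^ 18 / Real.sqrt K) ≤ Real.sqrt 3 * S := by
    have e : 3 / 8 * P ^ 18 * (1 / (2 * Real.sqrt K)) = 3 / 16 * (P ^ 18 / Real.sqrt K) := by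
      field_simp; ring
    rw [e] at hmain
    linarith
  have hsK' : Real.sqrt K = Real.sqrt 30 * Real.sqrt (Real.log P) := by
    rw [hK, Real.sqrt_mul (by norm_num)]
  have h3pos : 0 < Real.sqrt 3 := by positivity
  have hlogpos : 0 < Real.sqrt (Real.log P) := Real.sqrt_pos.mpr (by linarith)
  have e9 : 1 / (8 * Real.sqrt 3 * Real.sqrt 30) * P ^ 18 / Real.sqrt (Real.log P) =
      (1 / 8 * (P ^ 18 / Real.sqrt K)) / Real.sqrt 3 := by
    rw [hsK']; field_simp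
  rw [e9, div_le_iff₀ h3pos]
  linarith

end Pool.Agent.Ratios
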