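import Pool.Agent.Ratios.Params
import Pool.Agent.Ratios.LapBound
import Pool.Agent.Ratios.SqfSum

/-! The main contribution: the frequency `n = 3`. -/

set_option autoImplicit false

open Complex MeasureTheory Set Filter Topology

namespace Pool.Agent.Ratios

/-- Odd squarefree positive integers up to `2 X`. -/
def MS (X : ℕ) : Finset ℕ := (Finset.range (2 * X + 1)).filter (fun m => Odd m ∧ Squarefree m)

open Classical in
/-- Splitting family sums into positive and negative members. -/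
lemma sum_FS (X : ℕ) (f : ℤ → ℂ) :
    ∑ d ∈ FS X, f (d : ℤ) = ∑ m ∈ MS X, (f (m : ℤ) + f (-(m : ℤ))) := by
  have h1 : ∑ d ∈ FS X, f (d : ℤ) =
      ∑ d ∈ (Finset.Icc (-(2 * X : ℕ) : ℤ) ((2 * X : ℕ) : ℤ)).filter
        (fun d => Odd d ∧ Squarefree d), f d := by
    rw [FS]
    exact Finset.sum_subtype_eq_sum_filter f
  rw [h1, Finset.sum_add_distrib]
  have hinj : Function.Injective (fun m : ℕ => (m : ℤ)) := Nat.cast_injective
  have hinj2 : Function.Injective (fun m : ℕ => -(m : ℤ)) := fun a b h => by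
    simpa using h
  have e : (Finset.Icc (-(2 * X : ℕ) : ℤ) ((2 * X : ℕ) : ℤ)).filter
      (fun d => Odd d ∧ Squarefree d) =
      (MS X).map ⟨_, hinj⟩ ∪ (MS X).map ⟨_, hinj2⟩ := by
    ext d
    simp only [Finset.mem_filter, Finset.mem_Icc, Finset.mem_union, Finset.mem_map,
      Function.Embedding.coeFn_mk, MS, Finset.mem_range]
    constructor
    · rintro ⟨⟨h1, h2⟩, h3, h4⟩
      have h5 : Odd d.natAbs := Int.natAbs_odd.mpr h3
      have h6 : Squarefree d.natAbs := Int.squarefree_natAbs.mpr h4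
      rcases le_or_gt 0 d with hd | hd
      · left
        refine ⟨d.natAbs, ⟨by omega, h5, h6⟩, by omega⟩
      · right
        refine ⟨d.natAbs, ⟨by omega, h5, h6⟩, by omega⟩
    · rintro (⟨m, ⟨h1, h2, h3⟩, rfl⟩ | ⟨m, ⟨h1, h2, h3⟩, rfl⟩)
      · refine ⟨⟨by omega, by omega⟩, ?_, ?_⟩
        · exact_mod_cast h2
        · exact Int.squarefree_natCast.mpr h3
      · refine ⟨⟨by omega, by omega⟩, ?_, ?_⟩
        · exact (show Odd (m : ℤ) by exact_mod_cast h2).neg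
        · rw [← Int.squarefree_natAbs, Int.natAbs_neg, Int.natAbs_natCast]; exact h3
  have hdisj : Disjoint ((MS X).map ⟨_, hinj⟩) ((MS X).map ⟨_, hinj2⟩) := by
    rw [Finset.disjoint_left]
    intro d h1 h2
    simp only [Finset.mem_map, Function.Embedding.coeFn_mk, MS, Finset.mem_filter] at h1 h2
    obtain ⟨m, ⟨_, hm, _⟩, rfl⟩ := h1
    obtain ⟨n, ⟨_, hn, _⟩, hmn⟩ := h2
    obtain ⟨k, hk⟩ := hm
    omega
  rw [e, Finset.sum_union hdisj, Finset.sum_map, Finset.sum_map]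
  rfl

lemma jacobiSym_eight_three (m : ℤ) : jacobiSym (8 * m) 3 = -jacobiSym m 3 := by
  rw [jacobiSym.mul_left]
  have : jacobiSym 8 3 = -1 := by norm_num
  rw [this]; ring

lemma jacobiSym_neg_three (m : ℤ) : jacobiSym (-m) 3 = -jacobiSym m 3 := by
  rw [jacobiSym.neg _ (by decide)]
  have : ZMod.χ₄ ((3 : ℕ) : ZMod 4) = -1 := by decide
  rw [this]; ring

/-- The value of the character at `3`. -/
lemma chi8_three (d : Fam) :
    chi8 (d : ℤ) ((3 : ℕ) : ZMod (8 * (d : ℤ).natAbs)) = ((-jacobiSym (d : ℤ) 3 : ℤ) : ℂ) := by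
  by_cases h : Nat.Coprime 3 (8 * (d : ℤ).natAbs)
  · rw [chi8_apply_nat (d : ℤ) 3 h, jacobiSym_eight_three]
  · rw [chi8_apply_not_coprime (d : ℤ) 3 h]
    have h3 : 3 ∣ 8 * (d : ℤ).natAbs := (Nat.Prime.coprime_iff_not_dvd Nat.prime_three).not_left.mp h
    have h4 : 3 ∣ (d : ℤ).natAbs := by
      exact (Nat.Coprime.dvd_mul_left (by norm_num)).mp h3
    have h5 : jacobiSym (d : ℤ) 3 = 0 := by
      have : NeZero 3 := ⟨by norm_num⟩
      rw [jacobiSym.eq_zero_iff_not_coprime, Int.gcd_comm, Int.gcd_eq_natAbs]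
      intro h6
      have h7 : Nat.gcd 3 (d : ℤ).natAbs = 3 := Nat.gcd_eq_left h4
      have h8 : Nat.gcd (3 : ℤ).natAbs (d : ℤ).natAbs = 1 := by simpa using h6
      rw [show (3 : ℤ).natAbs = 3 from rfl, h7] at h8
      norm_num at h8
    rw [h5]; simp

/-- The coefficient at the frequency three. -/
noncomputable def c3 : ℝ := mPF (jp h16) 3

lemma c3_pos : 0 < c3 := by
  rw [c3, mPF_jp_three]
  have : (3:ℝ) ^ (-h16) < 1 := Real.rpow_lt_one_of_one_lt_of_neg (by norm_num)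
    (by linarith [h16_pos])
  linarith

lemma c3_le_one : c3 ≤ 1 := by
  rw [c3, mPF_jp_three]
  have : 0 < (3:ℝ) ^ (-h16) := by positivity
  linarith

/-- The term at the frequency three. -/
noncomputable def T3 (p : ℕ) (z : ℤ) : ℂ :=
  ((wS ((z : ℝ) / (Xp p : ℕ)) : ℝ) : ℂ) *
    ((c3 : ℂ) * ((-jacobiSym z 3 : ℤ) : ℂ) * (2 * Real.pi * Id (ap p) (lp p) z 3))

lemma T3_eq (p : ℕ) (d : Fam) :
    T3 p (d : ℤ) = (wd (Xp p) d : ℂ) * ((mPF (jp h16) 3 : ℂ) *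
      chi8 (d : ℤ) ((3 : ℕ) : ZMod (8 * (d : ℤ).natAbs)) *
        (2 * Real.pi * Id (ap p) (lp p) d 3)) := by
  rw [T3, chi8_three, wd, c3]

/-- The combination of Laplace transforms from a pair of opposite discriminants. -/
noncomputable def LL (p m : ℕ) : ℂ :=
  (1 - I) * lap (ap p) (lp p) (((zp p / Rp p ^ 2 * (1 / (m / (p : ℝ) ^ 20)) : ℝ) : ℂ) * I) +
    (1 + I) * lap (ap p) (lp p) (((zp p / Rp p ^ 2 * (-(1 / (m / (p : ℝ) ^ 20))) : ℝ) : ℂ) * I)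

lemma T3_pair (p m : ℕ) (hp : 2 ≤ p) (hm : 0 < m) :
    T3 p (m : ℤ) + T3 p (-(m : ℤ)) =
      ((bmp (m / (p : ℝ) ^ 20) : ℝ) : ℂ) * (c3 : ℂ) * ((-jacobiSym (m : ℤ) 3 : ℤ) : ℂ) *
        (2 * Real.pi) * (((Real.sqrt (8 * m))⁻¹ : ℝ) : ℂ) * LL p m := by
  have hpp := p_pos p hp
  have hm' : (0:ℝ) < m := by exact_mod_cast hm
  have hX : (0:ℝ) < (Xp p : ℕ) := by exact_mod_cast Xp_pos p hp
  have hv : 2 * Real.pi * (((3 : ℕ) : ℝ) / (8 * m)) =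
      zp p / Rp p ^ 2 * (1 / (m / (p : ℝ) ^ 20)) := by
    rw [zp_div_Rp_sq p hp]
    push_cast
    field_simp
    ring
  have hvn : -(2 * Real.pi * (((3 : ℕ) : ℝ) / (8 * m))) =
      zp p / Rp p ^ 2 * (-(1 / (m / (p : ℝ) ^ 20))) := by
    rw [hv]; ring
  have w1 : wS (((m : ℤ) : ℝ) / (Xp p : ℕ)) = bmp (m / (p : ℝ) ^ 20) := by
    rw [← Xp_cast p, wS_of_pos _ (by rw [Int.cast_natCast]; positivity), Int.cast_natCast]
  have w2 : wS (((-(m : ℤ) : ℤ) : ℝ) / (Xp p : ℕ)) = bmp (m / (p : ℝ) ^ 20) := by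
    rw [Int.cast_neg, neg_div, wS_even, w1]
  have i1 : Id (ap p) (lp p) (m : ℤ) 3 = (((Real.sqrt (8 * m))⁻¹ : ℝ) : ℂ) *
      (lap (ap p) (lp p) (((zp p / Rp p ^ 2 * (1 / (m / (p : ℝ) ^ 20)) : ℝ) : ℂ) * I) +
      lap (ap p) (lp p) (((zp p / Rp p ^ 2 * (-(1 / (m / (p : ℝ) ^ 20))) : ℝ) : ℂ) * I)) := by
    rw [Id, if_pos (by exact_mod_cast hm)]
    rw [show |(((m : ℤ) : ℤ) : ℝ)| = m by rw [Int.cast_natCast]; exact abs_of_pos hm']
    rw [hvn, hv]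
  have i2 : Id (ap p) (lp p) (-(m : ℤ)) 3 = (((Real.sqrt (8 * m))⁻¹ : ℝ) : ℂ) * I *
      (lap (ap p) (lp p) (((zp p / Rp p ^ 2 * (1 / (m / (p : ℝ) ^ 20)) : ℝ) : ℂ) * I) -
      lap (ap p) (lp p) (((zp p / Rp p ^ 2 * (-(1 / (m / (p : ℝ) ^ 20))) : ℝ) : ℂ) * I)) := by
    rw [Id, if_neg (by omega)]
    rw [show |((-(m : ℤ) : ℤ) : ℝ)| = m by
      rw [Int.cast_neg, Int.cast_natCast, abs_neg]; exact abs_of_pos hm']
    rw [hvn, hv]
  rw [T3, T3, w1, w2, i1, i2, jacobiSym_neg_three, LL]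
  push_cast
  ring

lemma norm_one_sub_I : ‖(1 - I : ℂ)‖ = Real.sqrt 2 := by
  rw [Complex.norm_def, Complex.normSq_apply]
  congr 1
  simp
  norm_num

lemma norm_one_add_I : ‖(1 + I : ℂ)‖ = Real.sqrt 2 := by
  rw [Complex.norm_def, Complex.normSq_apply]
  congr 1
  simp
  norm_num

lemma sq_rpow_neg_half (x : ℝ) (hx : 0 < x) : (x ^ 2) ^ (-(1 / 2) : ℝ) = 1 / x := by
  rw [Real.rpow_neg (by positivity), ← Real.sqrt_eq_rpow, Real.sqrt_sq hx.le, one_div]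

lemma zp_half_le (p : ℕ) (hp : 2 ≤ p) : (zp p) ^ (-(1 / 2) : ℝ) ≤ 1 / (p : ℝ) ^ 9 := by
  have hpp := p_pos p hp
  have h1 : ((p : ℝ) ^ 9) ^ 2 ≤ zp p := by
    have := zp_ge p hp
    have h2 : 0 < (p : ℝ) ^ 18 := by positivity
    calc ((p : ℝ) ^ 9) ^ 2 = (p : ℝ) ^ 18 := by ring
      _ ≤ zp p := by linarith
  calc (zp p) ^ (-(1 / 2) : ℝ) ≤ (((p : ℝ) ^ 9) ^ 2) ^ (-(1 / 2) : ℝ) :=
        Real.rpow_le_rpow_of_nonpos (by positivity) h1 (by norm_num)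
    _ = 1 / (p : ℝ) ^ 9 := sq_rpow_neg_half _ (by positivity)

lemma zp_half_ge (p : ℕ) (hp : 2 ≤ p) : 1 / (2 * (p : ℝ) ^ 9) ≤ (zp p) ^ (-(1 / 2) : ℝ) := by
  have hpp := p_pos p hp
  have h1 : zp p ≤ (2 * (p : ℝ) ^ 9) ^ 2 := by
    have := zp_le p hp
    have h2 : 0 < (p : ℝ) ^ 18 := by positivity
    calc zp p ≤ 3 * (p : ℝ) ^ 18 := this
      _ ≤ 4 * (p : ℝ) ^ 18 := by linarith
      _ = _ := by ring
  calc 1 / (2 * (p : ℝ) ^ 9) = ((2 * (p : ℝ) ^ 9) ^ 2) ^ (-(1 / 2) : ℝ) :=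
        (sq_rpow_neg_half _ (by positivity)).symm
    _ ≤ (zp p) ^ (-(1 / 2) : ℝ) :=
        Real.rpow_le_rpow_of_nonpos (zp_pos p hp) h1 (by norm_num)

lemma exp_far_Kp (p : ℕ) (hp : 2 ≤ p) : Real.exp (0.89 * Kp p) ≤ (p : ℝ) ^ 27 := by
  have h := p_pos p hp
  have h1 : (1:ℝ) ≤ p := by have := one_le_p p hp; linarith
  have e : 0.89 * Kp p = Real.log p * (26.7 : ℝ) := by unfold Kp; ring
  rw [e, Real.exp_mul, Real.exp_log h, ← Real.rpow_natCast]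
  exact Real.rpow_le_rpow_of_exponent_le h1 (by norm_num)

lemma Ksq_div_zp (p : ℕ) (hp : 2 ≤ p) : Kp p ^ 2 / zp p ≤ 450 / (p : ℝ) ^ 16 := by
  have h := p_pos p hp
  have h0 := one_le_Kp p hp
  have h1 := Kp_le p hp
  have h2 := zp_ge p hp
  have hz := zp_pos p hp
  rw [div_le_div_iff₀ hz (by positivity)]
  calc Kp p ^ 2 * (p : ℝ) ^ 16 ≤ (30 * (p : ℝ)) ^ 2 * (p : ℝ) ^ 16 := by gcongr
    _ = 450 * (2 * (p : ℝ) ^ 18) := by ring
    _ ≤ 450 * zp p := by gcongr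

/-- The main part of the Laplace transform. -/
noncomputable def MM (p m : ℕ) : ℂ :=
  ((Real.sqrt Real.pi * Rp p ^ 2 * zp p ^ (-(1 / 2) : ℝ) * (m / (p : ℝ) ^ 20) ^ (3 / 2 : ℝ) *
    Real.exp (Kp p - Kp p * (1 - m / (p : ℝ) ^ 20) ^ 2) : ℝ) : ℂ) * cexp (-(Real.pi / 4) * I) *
    cexp (((m / (p : ℝ) ^ 20 * zp p : ℝ) : ℂ) * I)

lemma norm_LL_sub_le (p m : ℕ) (hp : 2 ≤ p) (h1 : 9 / 10 ≤ (m : ℝ) / (p : ℝ) ^ 20)
    (h2 : (m : ℝ) / (p : ℝ) ^ 20 ≤ 11 / 10) :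
    ‖LL p m - (1 - I) * MM p m‖ ≤ 20000 * (p : ℝ) ^ 56 := by
  have hpp := p_pos p hp
  have hpr := one_le_p p hp
  have hR := Rp_pos p hp
  have hRle := Rp_le p hp
  have hz := zp_pos p hp
  have hK := one_le_Kp p hp
  set r : ℝ := (m : ℝ) / (p : ℝ) ^ 20 with hr
  have hr0 : 0 < r := by linarith
  have b1 := norm_lap_sub_main_le (Kp p) (Rp p) (zp p) r hK hR (zp_ge_Ksq p hp) (zp_ge_50K p hp)
    h1 h2
  have hy1 : 1 / r ≤ 10 / 9 := by
    rw [div_le_div_iff₀ hr0 (by norm_num)]; linarith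
  have hy2 : 10 / 11 ≤ 1 / r := by
    rw [div_le_div_iff₀ (by norm_num) hr0]; linarith
  have b2 := norm_lap_far (Kp p) (Rp p) (zp p) (-(1 / r)) hK hR (zp_ge_50K p hp)
    (Or.inl ⟨by linarith, by
      intro h; linarith, by rw [abs_neg, abs_of_pos (by positivity)]; linarith⟩)
  have e : LL p m - (1 - I) * MM p m =
      (1 - I) * (lap (ap p) (lp p) (((zp p / Rp p ^ 2 * (1 / r) : ℝ) : ℂ) * I) - MM p m) +
      (1 + I) * lap (ap p) (lp p) (((zp p / Rp p ^ 2 * (-(1 / r)) : ℝ) : ℂ) * I) := by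
    rw [LL]; ring
  rw [e]
  have hs2 : Real.sqrt 2 ≤ 2 := by have := sqrt_two_le; linarith
  have c1 : ‖lap (ap p) (lp p) (((zp p / Rp p ^ 2 * (1 / r) : ℝ) : ℂ) * I) - MM p m‖ ≤
      9000 * (p : ℝ) ^ 43 := by
    refine b1.trans ?_
    calc 20 * Rp p ^ 2 * zp p ^ (-(1 / 2) : ℝ) * (Kp p ^ 2 / zp p) * Real.exp (Kp p)
        ≤ 20 * ((p : ℝ) ^ 19) ^ 2 * (1 / (p : ℝ) ^ 9) * (450 / (p : ℝ) ^ 16) * (p : ℝ) ^ 30 := by
          have a1 := zp_half_le p hp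
          have a2 := Ksq_div_zp p hp
          have a3 := exp_Kp p hp
          rw [a3]
          gcongr
      _ = 9000 * (p : ℝ) ^ 43 := by field_simp; ring
  have c2 : ‖lap (ap p) (lp p) (((zp p / Rp p ^ 2 * (-(1 / r)) : ℝ) : ℂ) * I)‖ ≤
      4 * (p : ℝ) ^ 56 := by
    refine b2.trans ?_
    have hyy : |(-(1 / r))| ^ (-(3 / 2) : ℝ) ≤ 2 := by
      rw [abs_neg, abs_of_pos (by positivity), one_div, Real.inv_rpow hr0.le,
        Real.rpow_neg hr0.le, inv_inv]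
      calc r ^ (3 / 2 : ℝ) ≤ (11 / 10) ^ (3 / 2 : ℝ) := by gcongr
        _ ≤ (11 / 10) ^ (2 : ℝ) := Real.rpow_le_rpow_of_exponent_le (by norm_num) (by norm_num)
        _ ≤ 2 := by norm_num
    calc 2 * Rp p ^ 2 * |(-(1 / r))| ^ (-(3 / 2) : ℝ) * zp p ^ (-(1 / 2) : ℝ) *
        Real.exp (0.89 * Kp p)
        ≤ 2 * ((p : ℝ) ^ 19) ^ 2 * 2 * (1 / (p : ℝ) ^ 9) * (p : ℝ) ^ 27 := by
          have a1 := zp_half_le p hp
          have a3 := exp_far_Kp p hp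
          gcongr
      _ = 4 * (p : ℝ) ^ 56 := by field_simp; ring
  have c3' : (p : ℝ) ^ 43 ≤ (p : ℝ) ^ 56 := pow_le_pow_right₀ (by linarith) (by norm_num)
  calc ‖(1 - I) * (lap (ap p) (lp p) (((zp p / Rp p ^ 2 * (1 / r) : ℝ) : ℂ) * I) - MM p m) +
      (1 + I) * lap (ap p) (lp p) (((zp p / Rp p ^ 2 * (-(1 / r)) : ℝ) : ℂ) * I)‖
      ≤ Real.sqrt 2 * (9000 * (p : ℝ) ^ 43) + Real.sqrt 2 * (4 * (p : ℝ) ^ 56) := by
        refine (norm_add_le _ _).trans ?_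
        rw [norm_mul, norm_mul, norm_one_sub_I, norm_one_add_I]
        gcongr
    _ ≤ 2 * (9000 * (p : ℝ) ^ 43) + 2 * (4 * (p : ℝ) ^ 56) := by gcongr
    _ ≤ 20000 * (p : ℝ) ^ 56 := by nlinarith [pow_pos hpp 56]

/-- The constant in front of the main exponential sum. -/
noncomputable def cm (p : ℕ) : ℂ :=
  -((c3 * (2 * Real.pi) * (1 / (Real.sqrt 8 * (p : ℝ) ^ 10)) *
    (Real.sqrt Real.pi * Rp p ^ 2 * zp p ^ (-(1 / 2) : ℝ) * Real.exp (Kp p)) : ℝ) : ℂ) *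
    (1 - I) * cexp (-(Real.pi / 4) * I)

lemma norm_cm (p : ℕ) (hp : 2 ≤ p) : c3 / 2 * (p : ℝ) ^ 49 ≤ ‖cm p‖ := by
  have hpp := p_pos p hp
  have hR := Rp_pos p hp
  have hz := zp_pos p hp
  have hc := c3_pos
  have hpi := Real.pi_gt_three
  have e : cexp (-(Real.pi / 4) * I) = cexp (((-(Real.pi / 4) : ℝ) : ℂ) * I) := by
    congr 1; push_cast; ring
  rw [cm, norm_mul, norm_mul, norm_neg, e, Complex.norm_exp_ofReal_mul_I, norm_one_sub_I,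
    Complex.norm_real, Real.norm_of_nonneg (by positivity), mul_one, exp_Kp p hp, Rp_sq p]
  have h1 := zp_half_ge p hp
  have h8 : Real.sqrt 8 = 2 * Real.sqrt 2 := by
    rw [show (8:ℝ) = 2 ^ 2 * 2 by norm_num, Real.sqrt_mul (by norm_num), Real.sqrt_sq (by norm_num)]
  have hs : 0 < Real.sqrt 2 := by positivity
  have hsp : 1 ≤ Real.sqrt Real.pi := by
    rw [Real.one_le_sqrt]; linarith
  rw [h8]
  calc c3 / 2 * (p : ℝ) ^ 49 ≤ c3 * (2 * 3) * (1 / (2 * Real.sqrt 2 * (p : ℝ) ^ 10)) *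
        (1 * (8 / 9 * (p : ℝ) ^ 38) * (1 / (2 * (p : ℝ) ^ 9)) * (p : ℝ) ^ 30) * Real.sqrt 2 := by
        have : c3 * (2 * 3) * (1 / (2 * Real.sqrt 2 * (p : ℝ) ^ 10)) *
        (1 * (8 / 9 * (p : ℝ) ^ 38) * (1 / (2 * (p : ℝ) ^ 9)) * (p : ℝ) ^ 30) * Real.sqrt 2 =
          4 / 3 * c3 * (p : ℝ) ^ 49 := by
          field_simp
          ring
        rw [this]
        have h49 : 0 < (p : ℝ) ^ 49 := by positivity
        have : 0 < c3 * (p : ℝ) ^ 49 := by positivity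
        linarith
    _ ≤ _ := by gcongr

/-- The terms of the exponential sum. -/
noncomputable def et (p m : ℕ) : ℂ :=
  ((jacobiSym (m : ℤ) 3 : ℤ) : ℂ) *
    Complex.exp (((2 * Real.pi * m / (3 * (p : ℝ) ^ 2) : ℝ) : ℂ) * Complex.I) *
    ((bmp (m / (p : ℝ) ^ 20) * (m / (p : ℝ) ^ 20) *
      Real.exp (-(30 * Real.log p) * (1 - m / (p : ℝ) ^ 20) ^ 2) : ℝ) : ℂ)

lemma main_eq (p m : ℕ) (hp : 2 ≤ p) (hm : 0 < m) :
    ((bmp (m / (p : ℝ) ^ 20) : ℝ) : ℂ) * (c3 : ℂ) * ((-jacobiSym (m : ℤ) 3 : ℤ) : ℂ) *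
        (2 * Real.pi) * (((Real.sqrt (8 * m))⁻¹ : ℝ) : ℂ) * ((1 - I) * MM p m) =
      cm p * et p m := by
  have hpp := p_pos p hp
  have hm' : (0:ℝ) < m := by exact_mod_cast hm
  set r : ℝ := (m : ℝ) / (p : ℝ) ^ 20 with hr
  have hr0 : 0 < r := by positivity
  have hmr : (m : ℝ) = r * (p : ℝ) ^ 20 := by rw [hr]; field_simp
  have hphase : 2 * Real.pi * m / (3 * (p : ℝ) ^ 2) = r * zp p := by
    rw [hr, zp]; field_simp; 
  have hsq : (Real.sqrt (8 * m))⁻¹ * r ^ (3 / 2 : ℝ) = 1 / (Real.sqrt 8 * (p : ℝ) ^ 10) * r := by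
    have h1 : Real.sqrt (8 * m) = Real.sqrt 8 * (r ^ (1 / 2 : ℝ) * (p : ℝ) ^ 10) := by
      rw [Real.sqrt_mul (by norm_num), hmr, Real.sqrt_mul hr0.le, ← Real.sqrt_eq_rpow]
      congr 2
      rw [show (p : ℝ) ^ 20 = ((p : ℝ) ^ 10) ^ 2 by ring, Real.sqrt_sq (by positivity)]
    have h2 : r ^ (3 / 2 : ℝ) = r ^ (1 / 2 : ℝ) * r := by
      nth_rewrite 3 [← Real.rpow_one r]
      rw [← Real.rpow_add hr0]
      norm_num
    have h3 : 0 < r ^ (1 / 2 : ℝ) := by positivity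
    have h4 : 0 < Real.sqrt 8 := by positivity
    rw [h1, h2]
    field_simp
  have hexp : Real.exp (Kp p - Kp p * (1 - r) ^ 2) =
      Real.exp (Kp p) * Real.exp (-(30 * Real.log p) * (1 - r) ^ 2) := by
    rw [← Real.exp_add]; congr 1; rw [Kp]; ring
  have hsqC : (((Real.sqrt (8 * m))⁻¹ : ℝ) : ℂ) * ((r ^ (3 / 2 : ℝ) : ℝ) : ℂ) =
      ((1 / (Real.sqrt 8 * (p : ℝ) ^ 10) : ℝ) : ℂ) * (r : ℂ) := by
    rw [← Complex.ofReal_mul, hsq, Complex.ofReal_mul]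
  rw [MM, cm, et, ← hr, hphase, hexp]
  generalize cexp (((r * zp p : ℝ) : ℂ) * I) = E
  simp only [Complex.ofReal_mul, Int.cast_neg, Complex.ofReal_ofNat]
  linear_combination (-((bmp r : ℝ) : ℂ) * (c3 : ℂ) * (jacobiSym (m : ℤ) 3 : ℂ) *
    (2 * Real.pi) * (1 - I) * ((Real.sqrt Real.pi : ℝ) : ℂ) * (((Rp p ^ 2 : ℝ)) : ℂ) *
    ((zp p ^ (-(1 / 2) : ℝ) : ℝ) : ℂ) * ((Real.exp (Kp p) : ℝ) : ℂ) *
    ((Real.exp (-(30 * Real.log p) * (1 - r) ^ 2) : ℝ) : ℂ) * cexp (-(Real.pi / 4) * I) *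
    E) * hsqC

lemma pos_of_mem_MS (X m : ℕ) (h : m ∈ MS X) : 0 < m := by
  rw [MS, Finset.mem_filter] at h
  exact h.2.1.pos

lemma norm_err_le (p m : ℕ) (hp : 2 ≤ p) (hm : 0 < m) :
    ‖(T3 p (m : ℤ) + T3 p (-(m : ℤ))) - cm p * et p m‖ ≤ 140000 * (p : ℝ) ^ 46 := by
  have hpp := p_pos p hp
  have hm' : (0:ℝ) < m := by exact_mod_cast hm
  rw [T3_pair p m hp hm, ← main_eq p m hp hm, ← mul_sub]
  by_cases hb : bmp ((m : ℝ) / (p : ℝ) ^ 20) = 0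
  · rw [hb]; simp
  have hmem : (m : ℝ) / (p : ℝ) ^ 20 ∈ Ioo (9 / 10 : ℝ) (11 / 10) := by
    by_contra hcon
    exact hb (bmp_zero _ hcon)
  have h1 := norm_LL_sub_le p m hp hmem.1.le hmem.2.le
  have hc := c3_pos
  have hc1 := c3_le_one
  have hj : ‖((-jacobiSym (m : ℤ) 3 : ℤ) : ℂ)‖ ≤ 1 := by
    rw [Int.cast_neg, norm_neg, Complex.norm_intCast]
    have := jacobiSym.trichotomy (m : ℤ) 3
    rcases this with h | h | h <;> rw [h] <;> simp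
  have hpi : ‖(2 * (Real.pi : ℂ))‖ ≤ 7 := by
    rw [norm_mul, Complex.norm_real, Real.norm_of_nonneg Real.pi_pos.le]
    simp
    linarith [Real.pi_lt_d2]
  have hs : (Real.sqrt (8 * m))⁻¹ ≤ 1 / (p : ℝ) ^ 10 := by
    rw [one_div]
    apply inv_anti₀ (by positivity)
    apply Real.le_sqrt_of_sq_le
    have := hmem.1
    rw [lt_div_iff₀ (by positivity)] at this
    calc ((p : ℝ) ^ 10) ^ 2 = (p : ℝ) ^ 20 := by ring
      _ ≤ 8 * (m : ℝ) := by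
        have : 0 < (p : ℝ) ^ 20 := by positivity
        linarith
  rw [norm_mul, norm_mul, norm_mul, norm_mul, norm_mul, Complex.norm_real, Complex.norm_real,
    Complex.norm_real, Real.norm_of_nonneg (bmp_nonneg _), Real.norm_of_nonneg hc.le,
    Real.norm_of_nonneg (by positivity : (0:ℝ) ≤ (Real.sqrt (8 * m))⁻¹)]
  calc bmp (m / (p : ℝ) ^ 20) * c3 * ‖((-jacobiSym (m : ℤ) 3 : ℤ) : ℂ)‖ * ‖(2 * (Real.pi : ℂ))‖ *
        (Real.sqrt (8 * m))⁻¹ * ‖LL p m - (1 - I) * MM p m‖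
      ≤ 1 * 1 * 1 * 7 * (1 / (p : ℝ) ^ 10) * (20000 * (p : ℝ) ^ 56) := by
        have := bmp_le_one ((m : ℝ) / (p : ℝ) ^ 20)
        have := bmp_nonneg ((m : ℝ) / (p : ℝ) ^ 20)
        gcongr
    _ = 140000 * (p : ℝ) ^ 46 := by field_simp; ring

lemma card_MS_le (p : ℕ) (hp : 2 ≤ p) : ((MS (Xp p)).card : ℝ) ≤ 3 * (p : ℝ) ^ 20 := by
  have h1 : (MS (Xp p)).card ≤ 2 * Xp p + 1 := by
    rw [MS]
    exact (Finset.card_filter_le _ _).trans (by simp)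
  have h2 : ((MS (Xp p)).card : ℝ) ≤ ((2 * Xp p + 1 : ℕ) : ℝ) := by exact_mod_cast h1
  rw [Nat.cast_add, Nat.cast_mul, Xp_cast] at h2
  have h3 : (1:ℝ) ≤ (p : ℝ) ^ 20 := one_le_pow₀ (by linarith [one_le_p p hp])
  push_cast at h2
  linarith

/-- Lower bound for the contribution of the frequency three. -/
theorem main_lower : ∃ c : ℝ, 0 < c ∧ ∃ p₀ : ℕ, 2 ≤ p₀ ∧ ∀ p : ℕ, p₀ ≤ p → p.Prime →
    Wstar wS (Xp p) ≠ 0 ∧
    c * (p : ℝ) ^ 67 / Real.sqrt (Real.log p) ≤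
      ‖∑ d ∈ FS (Xp p), T3 p (d : ℤ)‖ + 420000 * (p : ℝ) ^ 66 := by
  obtain ⟨L, hL0, hL⟩ := bmp_lipschitz
  obtain ⟨c, hc, p₀, hlow⟩ := sqf_sum_lower bmp L hL bmp_nonneg bmp_le_one bmp_zero bmp_one
  refine ⟨c3 / 2 * c, by have := c3_pos; positivity, max p₀ 2, le_max_right _ _,
    fun p hpp₀ hprime => ?_⟩
  have hp : 2 ≤ p := (le_max_right _ _).trans hpp₀
  have h1 := hlow p ((le_max_left _ _).trans hpp₀) hprime
  have hpp := p_pos p hp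
  have hpr := one_le_p p hp
  have hlog : 0 < Real.log p := Real.log_pos (by linarith)
  have hMS : (Finset.range (2 * p ^ 20 + 1)).filter (fun m => Odd m ∧ Squarefree m) =
      MS (Xp p) := rfl
  rw [hMS] at h1
  change _ ≤ ‖∑ m ∈ MS (Xp p), et p m‖ at h1
  have hpos : 0 < c * (p : ℝ) ^ 18 / Real.sqrt (Real.log p) := by positivity
  have hXpos := Xp_pos p hp
  constructor
  · have hne : ∑ m ∈ MS (Xp p), et p m ≠ 0 := by
      intro h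
      rw [h, norm_zero] at h1
      linarith
    obtain ⟨m, hm, hmne⟩ := Finset.exists_ne_zero_of_sum_ne_zero hne
    have hm0 := pos_of_mem_MS _ _ hm
    have hm' : (0:ℝ) < m := by exact_mod_cast hm0
    have hb : bmp ((m : ℝ) / (p : ℝ) ^ 20) ≠ 0 := by
      intro h
      apply hmne
      rw [et, h]
      simp
    rw [MS, Finset.mem_filter, Finset.mem_range] at hm
    have hfam : Odd (m : ℤ) ∧ Squarefree (m : ℤ) :=
      ⟨by exact_mod_cast hm.2.1, Int.squarefree_natCast.mpr hm.2.2⟩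
    have hmem : (⟨(m : ℤ), hfam⟩ : Fam) ∈ FS (Xp p) := by
      rw [mem_FS]
      change |(m : ℤ)| ≤ _
      rw [abs_of_nonneg (by positivity)]
      exact_mod_cast Nat.lt_succ_iff.mp hm.1
    have hwd : 0 < wd (Xp p) ⟨(m : ℤ), hfam⟩ := by
      refine lt_of_le_of_ne (wd_nonneg _ _) (Ne.symm ?_)
      rw [wd]
      change wS ((((m : ℤ)) : ℝ) / (Xp p : ℕ)) ≠ 0
      rw [← Xp_cast p, Int.cast_natCast] at *
      rw [wS_of_pos _ (by positivity)]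
      exact hb
    rw [Wstar_eq _ hXpos]
    have := Finset.single_le_sum (f := fun d => wd (Xp p) d) (fun d _ => wd_nonneg _ d) hmem
    have h9 : (0:ℝ) < ∑ d ∈ FS (Xp p), wd (Xp p) d := lt_of_lt_of_le hwd this
    exact h9.ne'
  · rw [sum_FS (Xp p) (T3 p)]
    have e : ∑ m ∈ MS (Xp p), (T3 p (m : ℤ) + T3 p (-(m : ℤ))) =
        cm p * ∑ m ∈ MS (Xp p), et p m +
        ∑ m ∈ MS (Xp p), ((T3 p (m : ℤ) + T3 p (-(m : ℤ))) - cm p * et p m) := by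
      rw [Finset.mul_sum, ← Finset.sum_add_distrib]
      refine Finset.sum_congr rfl fun m _ => ?_
      ring
    have herr : ‖∑ m ∈ MS (Xp p), ((T3 p (m : ℤ) + T3 p (-(m : ℤ))) - cm p * et p m)‖ ≤
        420000 * (p : ℝ) ^ 66 := by
      refine (norm_sum_le _ _).trans ?_
      calc ∑ m ∈ MS (Xp p), ‖(T3 p (m : ℤ) + T3 p (-(m : ℤ))) - cm p * et p m‖
          ≤ ∑ m ∈ MS (Xp p), 140000 * (p : ℝ) ^ 46 :=
            Finset.sum_le_sum fun m hm => norm_err_le p m hp (pos_of_mem_MS _ _ hm)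
        _ = ((MS (Xp p)).card : ℝ) * (140000 * (p : ℝ) ^ 46) := by
            rw [Finset.sum_const, nsmul_eq_mul]
        _ ≤ (3 * (p : ℝ) ^ 20) * (140000 * (p : ℝ) ^ 46) := by
            have := card_MS_le p hp
            gcongr
        _ = 420000 * (p : ℝ) ^ 66 := by ring
    have hcm := norm_cm p hp
    have hmain : c3 / 2 * c * (p : ℝ) ^ 67 / Real.sqrt (Real.log p) ≤
        ‖cm p * ∑ m ∈ MS (Xp p), et p m‖ := by
      rw [norm_mul]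
      have hc3 := c3_pos
      calc c3 / 2 * c * (p : ℝ) ^ 67 / Real.sqrt (Real.log p)
          = (c3 / 2 * (p : ℝ) ^ 49) * (c * (p : ℝ) ^ 18 / Real.sqrt (Real.log p)) := by ring
        _ ≤ _ := mul_le_mul hcm h1 hpos.le (norm_nonneg _)
    rw [e]
    have h3 := norm_sub_le_norm_add (cm p * ∑ m ∈ MS (Xp p), et p m)
      (∑ m ∈ MS (Xp p), ((T3 p (m : ℤ) + T3 p (-(m : ℤ))) - cm p * et p m))
    linarith

end Pool.Agent.Ratios
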