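import Pool.Agent.Ratios.Identity2
import Pool.Agent.Ratios.JBound2

/-! The parameters of the argument. -/

set_option autoImplicit false

open Complex MeasureTheory Set Filter Topology

namespace Pool.Agent.Ratios

/-- `X = p^20`. -/
def Xp (p : ℕ) : ℕ := p ^ 20

/-- `K = 30 log p`. -/
noncomputable def Kp (p : ℕ) : ℝ := 30 * Real.log p

/-- `R = (2 √2 / 3) p^19`. -/
noncomputable def Rp (p : ℕ) : ℝ := 2 * Real.sqrt 2 / 3 * (p : ℝ) ^ 19

/-- `z₀ = (2 π / 3) p^18`. -/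
noncomputable def zp (p : ℕ) : ℝ := 2 * Real.pi / 3 * (p : ℝ) ^ 18

lemma sqrt_two_le : Real.sqrt 2 ≤ 1.42 := by
  rw [Real.sqrt_le_left (by norm_num)]; norm_num

lemma sqrt_two_sq : Real.sqrt 2 ^ 2 = 2 := Real.sq_sqrt (by norm_num)

section

variable (p : ℕ) (hp : 2 ≤ p)

include hp

lemma one_le_p : (2:ℝ) ≤ p := by exact_mod_cast hp

lemma p_pos : (0:ℝ) < p := by have := one_le_p p hp; linarith

lemma Xp_pos : 0 < Xp p := by unfold Xp; positivity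

lemma exp_Kp : Real.exp (Kp p) = (p : ℝ) ^ 30 := by
  have h := p_pos p hp
  rw [Kp, mul_comm, Real.exp_mul, Real.exp_log h]
  exact_mod_cast Real.rpow_natCast (p : ℝ) 30

lemma one_le_Kp : 1 ≤ Kp p := by
  have h := one_le_p p hp
  have h1 : Real.log 2 ≤ Real.log p := Real.log_le_log (by norm_num) h
  have h2 := Real.log_two_gt_d9
  unfold Kp
  linarith

lemma Kp_le : Kp p ≤ 30 * p := by
  have h := p_pos p hp
  have := Real.log_le_sub_one_of_pos h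
  unfold Kp
  linarith

lemma Rp_pos : 0 < Rp p := by have := p_pos p hp; unfold Rp; positivity

lemma Rp_le : Rp p ≤ (p : ℝ) ^ 19 := by
  have := p_pos p hp
  unfold Rp
  have h1 := sqrt_two_le
  have h2 : 2 * Real.sqrt 2 / 3 ≤ 1 := by linarith
  calc 2 * Real.sqrt 2 / 3 * (p : ℝ) ^ 19 ≤ 1 * (p : ℝ) ^ 19 := by gcongr
    _ = _ := one_mul _

omit hp in
lemma Rp_sq : Rp p ^ 2 = 8 / 9 * (p : ℝ) ^ 38 := by
  unfold Rp
  have := sqrt_two_sq
  calc (2 * Real.sqrt 2 / 3 * (p : ℝ) ^ 19) ^ 2 = 4 / 9 * Real.sqrt 2 ^ 2 * (p : ℝ) ^ 38 := by ring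
    _ = _ := by rw [this]; ring

lemma zp_ge : 2 * (p : ℝ) ^ 18 ≤ zp p := by
  have := p_pos p hp
  unfold zp
  have h := Real.pi_gt_three
  have h2 : 2 ≤ 2 * Real.pi / 3 := by linarith
  gcongr

lemma zp_le : zp p ≤ 3 * (p : ℝ) ^ 18 := by
  have := p_pos p hp
  unfold zp
  have h := Real.pi_lt_d2
  have h2 : 2 * Real.pi / 3 ≤ 3 := by linarith
  gcongr

lemma zp_pos : 0 < zp p := by have := p_pos p hp; unfold zp; positivity

lemma zp_ge_50K : 50 * Kp p ≤ zp p := by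
  have h1 := Kp_le p hp
  have h2 := zp_ge p hp
  have h3 := one_le_p p hp
  have h4 : 1500 * (p : ℝ) ≤ 2 * (p : ℝ) ^ 18 := by
    have h5 : (750 : ℝ) ≤ (p : ℝ) ^ 17 := by
      calc (750 : ℝ) ≤ 2 ^ 17 := by norm_num
        _ ≤ (p : ℝ) ^ 17 := by gcongr
    have h6 : (p : ℝ) ^ 18 = (p : ℝ) ^ 17 * p := by ring
    rw [h6]
    nlinarith
  linarith

lemma zp_ge_Ksq : Kp p ^ 2 ≤ zp p := by
  have h0 := one_le_Kp p hp
  have h1 := Kp_le p hp
  have h2 := zp_ge p hp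
  have h3 := one_le_p p hp
  have h4 : 900 * (p : ℝ) ^ 2 ≤ 2 * (p : ℝ) ^ 18 := by
    have h5 : (450 : ℝ) ≤ (p : ℝ) ^ 16 := by
      calc (450 : ℝ) ≤ 2 ^ 16 := by norm_num
        _ ≤ (p : ℝ) ^ 16 := by gcongr
    have h6 : (p : ℝ) ^ 18 = (p : ℝ) ^ 16 * p ^ 2 := by ring
    rw [h6]
    have : 0 < (p : ℝ) ^ 2 := by positivity
    nlinarith
  have h7 : Kp p ^ 2 ≤ (30 * (p : ℝ)) ^ 2 := by gcongr
  nlinarith

lemma theta_eq : 2 * zp p / Rp p = Real.sqrt 2 * Real.pi / p := by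
  have h := p_pos p hp
  have hs : 0 < Real.sqrt 2 := by positivity
  unfold zp Rp
  have h2 := sqrt_two_sq
  field_simp
  nlinarith

lemma zp_div_Rp_sq : zp p / Rp p ^ 2 = 3 * Real.pi / (4 * (p : ℝ) ^ 20) := by
  have h := p_pos p hp
  rw [Rp_sq p]
  unfold zp
  field_simp
  ring

omit hp in
lemma Xp_cast : ((Xp p : ℕ) : ℝ) = (p : ℝ) ^ 20 := by unfold Xp; push_cast; rfl

end

/-- The parameters `a` and `λ`. -/
noncomputable def ap (p : ℕ) : ℝ := pa (Kp p) (Rp p)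

/-- The parameter `λ`. -/
noncomputable def lp (p : ℕ) : ℂ := pl (Kp p) (Rp p) (zp p)

lemma ap_pos (p : ℕ) (hp : 2 ≤ p) : 0 < ap p :=
  pa_pos _ _ (by have := one_le_Kp p hp; linarith) (Rp_pos p hp)

end Pool.Agent.Ratios
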