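import Pool.Agent.Ratios.Kernel2
import Pool.Agent.Ratios.Contour

/-! Mellin-Barnes representation of the Laplace transform of the kernel. -/

set_option autoImplicit false

open Complex MeasureTheory Set Filter Topology

namespace Pool.Agent.Ratios

lemma pow_mul_exp_le (n : ℕ) (δ : ℝ) (hδ : 0 < δ) (t : ℝ) (ht : 0 ≤ t) :
    (1 + t) ^ n * Real.exp (-(δ * t)) ≤
      (n.factorial * (2 / δ) ^ n * Real.exp (δ / 2)) * Real.exp (-(δ / 2 * t)) := by
  have h := Real.pow_div_factorial_le_exp ((δ / 2) * (1 + t)) (by positivity) n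
  have hn : (0:ℝ) < n.factorial := by exact_mod_cast n.factorial_pos
  rw [div_le_iff₀ hn, mul_pow] at h
  have e1 : (1 + t) ^ n = (2 / δ) ^ n * ((δ / 2) ^ n * (1 + t) ^ n) := by
    rw [← mul_assoc, ← mul_pow]
    have : 2 / δ * (δ / 2) = 1 := by field_simp
    rw [this, one_pow, one_mul]
  rw [e1]
  have e2 : Real.exp (-(δ / 2 * t)) * (Real.exp (δ / 2)) =
      Real.exp (δ / 2 * (1 + t)) * Real.exp (-(δ * t)) := by
    rw [← Real.exp_add, ← Real.exp_add]; congr 1; ring
  calc (2 / δ) ^ n * ((δ / 2) ^ n * (1 + t) ^ n) * Real.exp (-(δ * t))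
      ≤ (2 / δ) ^ n * (Real.exp (δ / 2 * (1 + t)) * n.factorial) * Real.exp (-(δ * t)) := by
        gcongr
    _ = (n.factorial * (2 / δ) ^ n) * (Real.exp (δ / 2 * (1 + t)) * Real.exp (-(δ * t))) := by
        ring
    _ = _ := by rw [← e2]; ring

lemma integrable_pow_mul_exp (n : ℕ) (δ : ℝ) (hδ : 0 < δ) :
    Integrable (fun t : ℝ => (1 + |t|) ^ n * Real.exp (-(δ * |t|))) := by
  refine ((integrable_exp_neg_mul_abs (δ / 2) (by linarith)).const_mul
    (n.factorial * (2 / δ) ^ n * Real.exp (δ / 2))).mono' ?_ ?_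
  · exact Continuous.aestronglyMeasurable (by fun_prop)
  · filter_upwards with t
    rw [Real.norm_of_nonneg (by positivity)]
    exact pow_mul_exp_le n δ hδ |t| (abs_nonneg t)

lemma norm_one_div_cpow (q : ℂ) (hq : 0 < q.re) (b y : ℝ) :
    ‖(1 / q) ^ ((b : ℂ) + y * I)‖ ≤ ‖q‖ ^ (-b) * Real.exp (|q.arg| * |y|) := by
  have hq0 : q ≠ 0 := by rintro rfl; simp at hq
  have h1 : (1 / q) ≠ 0 := one_div_ne_zero hq0
  rw [norm_cpow_of_ne_zero h1]
  have harg : (1 / q).arg = -q.arg := by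
    rw [one_div, arg_inv]
    rw [if_neg]
    have := abs_arg_lt_pi_div_two_iff.mpr (Or.inl hq)
    intro h
    rw [h, abs_of_pos Real.pi_pos] at this
    linarith [Real.pi_pos]
  rw [harg]
  have e1 : ((b : ℂ) + y * I).re = b := by simp
  have e2 : ((b : ℂ) + y * I).im = y := by simp
  rw [e1, e2, norm_div, norm_one, one_div, Real.inv_rpow (norm_nonneg _), Real.rpow_neg
    (norm_nonneg _), div_eq_mul_inv]
  gcongr
  rw [← Real.exp_neg]
  apply Real.exp_le_exp.mpr
  rw [← abs_mul]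
  have := neg_abs_le (q.arg * y)
  linarith [neg_abs_le (q.arg * y), le_abs_self (q.arg * y)]

/-- Bound for the Mellin transform of the exponential on vertical lines. -/
lemma norm_cpow_mul_Gamma_le (q : ℂ) (hq : 0 < q.re) (b : ℝ) (hb : 0 < b) (hb2 : b < 2) (y : ℝ) :
    ‖(1 / q) ^ ((b : ℂ) + y * I) * Gamma ((b : ℂ) + y * I)‖ ≤
      (‖q‖ ^ (-b) * (7 * Real.Gamma b)) *
        ((1 + |y|) ^ 2 * Real.exp (-((Real.pi / 2 - |q.arg|) * |y|))) := by
  rw [norm_mul]
  have h1 := norm_one_div_cpow q hq b y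
  have h2 := norm_Gamma_le b y hb hb2
  have hg := (Real.Gamma_pos_of_pos hb).le
  calc ‖(1 / q) ^ ((b : ℂ) + y * I)‖ * ‖Gamma ((b : ℂ) + y * I)‖
      ≤ (‖q‖ ^ (-b) * Real.exp (|q.arg| * |y|)) *
        (7 * Real.Gamma b * (1 + |y|) ^ 2 * Real.exp (-(Real.pi * |y| / 2))) := by
        gcongr
    _ = (‖q‖ ^ (-b) * (7 * Real.Gamma b)) * ((1 + |y|) ^ 2 *
        (Real.exp (|q.arg| * |y|) * Real.exp (-(Real.pi * |y| / 2)))) := by ring
    _ = _ := by
        rw [← Real.exp_add]
        congr 3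
        ring_nf

lemma pi_half_sub_arg_pos (q : ℂ) (hq : 0 < q.re) : 0 < Real.pi / 2 - |q.arg| := by
  have := abs_arg_lt_pi_div_two_iff.mpr (Or.inl hq)
  linarith

lemma integrable_cpow_mul_Gamma (q : ℂ) (hq : 0 < q.re) (b : ℝ) (hb : 0 < b) (hb2 : b < 2) :
    Integrable (fun y : ℝ => (1 / q) ^ ((b : ℂ) + y * I) * Gamma ((b : ℂ) + y * I)) := by
  have hq0 : q ≠ 0 := by rintro rfl; simp at hq
  have h1 : (1 / q) ≠ 0 := one_div_ne_zero hq0
  refine ((integrable_pow_mul_exp 2 _ (pi_half_sub_arg_pos q hq)).const_mul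
    (‖q‖ ^ (-b) * (7 * Real.Gamma b))).mono' ?_ ?_
  · refine Continuous.aestronglyMeasurable ?_
    refine Continuous.mul ?_ ?_
    · exact Continuous.const_cpow (by fun_prop) (Or.inl h1)
    · rw [continuous_iff_continuousAt]
      intro y
      have hd : DifferentiableAt ℂ Gamma ((b : ℂ) + y * I) := by
        apply differentiableAt_Gamma
        intro m h
        have := congrArg Complex.re h
        simp at this
        have hm : (0:ℝ) ≤ m := Nat.cast_nonneg m
        linarith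
      exact ContinuousAt.comp (f := fun y : ℝ => (b : ℂ) + y * I) hd.continuousAt (by fun_prop)
  · filter_upwards with y
    exact norm_cpow_mul_Gamma_le q hq b hb hb2 y

lemma mellin_exp (q s : ℂ) (hq : 0 < q.re) (hs : 0 < s.re) :
    mellin (fun x : ℝ => cexp (-(q * x))) s = (1 / q) ^ s * Gamma s := by
  rw [mellin, ← integral_cpow_mul_exp_neg_mul_complex s q hs hq]
  rfl

/-- Mellin inversion for the exponential. -/
lemma mellin_inversion_exp (q : ℂ) (hq : 0 < q.re) (c : ℝ) (hc : -1 < c) (hc1 : c < 1)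
    (x : ℝ) (hx : 0 < x) :
    ∫ t : ℝ, (x : ℂ) ^ ((c : ℂ) + t * I - 1) *
      ((1 / q) ^ (1 - ((c : ℂ) + t * I)) * Gamma (1 - ((c : ℂ) + t * I))) =
      2 * Real.pi * cexp (-(q * x)) := by
  have hb : 0 < 1 - c := by linarith
  have hb2 : 1 - c < 2 := by linarith
  have hconv : MellinConvergent (fun x : ℝ => cexp (-(q * x))) ((1 - c : ℝ) : ℂ) := by
    refine (integrableOn_cpow_mul_exp ((1 - c : ℝ) : ℂ) q ?_ hq)
    simpa using hb
  have hvert : VerticalIntegrable (mellin (fun x : ℝ => cexp (-(q * x)))) (1 - c) := by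
    refine (integrable_cpow_mul_Gamma q hq (1 - c) hb hb2).congr ?_
    filter_upwards with y
    rw [mellin_exp q _ hq (by simpa using hb)]
  have key := mellinInv_mellin_eq (1 - c) (fun x : ℝ => cexp (-(q * x))) hx hconv hvert
    (by fun_prop)
  rw [mellinInv] at key
  have h2 : ∫ y : ℝ, (x : ℂ) ^ (-(((1 - c : ℝ) : ℂ) + y * I)) •
      mellin (fun x : ℝ => cexp (-(q * x))) (((1 - c : ℝ) : ℂ) + y * I) =
      ∫ t : ℝ, (x : ℂ) ^ ((c : ℂ) + t * I - 1) *
      ((1 / q) ^ (1 - ((c : ℂ) + t * I)) * Gamma (1 - ((c : ℂ) + t * I))) := by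
    rw [← integral_neg_eq_self (fun y : ℝ => (x : ℂ) ^ (-(((1 - c : ℝ) : ℂ) + y * I)) •
      mellin (fun x : ℝ => cexp (-(q * x))) (((1 - c : ℝ) : ℂ) + y * I))]
    refine integral_congr_ae ?_
    filter_upwards with t
    rw [mellin_exp q _ hq (by simpa using hb), smul_eq_mul]
    have e1 : -(((1 - c : ℝ) : ℂ) + ((-t : ℝ) : ℂ) * I) = (c : ℂ) + t * I - 1 := by
      push_cast; ring
    have e2 : ((1 - c : ℝ) : ℂ) + ((-t : ℝ) : ℂ) * I = 1 - ((c : ℂ) + t * I) := by
      push_cast; ring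
    rw [e1, e2]
  rw [h2] at key
  rw [← key, Complex.real_smul]
  generalize (∫ t : ℝ, (x : ℂ) ^ ((c : ℂ) + t * I - 1) *
      ((1 / q) ^ (1 - ((c : ℂ) + t * I)) * Gamma (1 - ((c : ℂ) + t * I)))) = A
  push_cast
  have : (Real.pi : ℂ) ≠ 0 := by exact_mod_cast Real.pi_ne_zero
  field_simp

/-- Mellin-Barnes representation: `(1/2π) ∫ f̃(c+it) Γ(1-c-it) q^{c+it-1} dt` is the Laplace
transform of `f`, for the kernel `f = ker a λ` and `Re q > 0`. -/
lemma parseval_ker (a lam : ℂ) (ha : 0 < a.re) (q : ℂ) (hq : 0 < q.re) (c : ℝ)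
    (hc : -(1 / 2) < c) (hc1 : c < 1) :
    ∫ t : ℝ, mellin (ker a lam) ((c : ℂ) + t * I) *
      ((1 / q) ^ (1 - ((c : ℂ) + t * I)) * Gamma (1 - ((c : ℂ) + t * I))) =
      2 * Real.pi * lap a lam q := by
  have hb : 0 < 1 - c := by linarith
  have hb2 : 1 - c < 2 := by linarith
  set W : ℝ → ℂ := fun t => (1 / q) ^ (1 - ((c : ℂ) + t * I)) * Gamma (1 - ((c : ℂ) + t * I))
    with hW
  have hWint : Integrable W := by
    have h := (integrable_cpow_mul_Gamma q hq (1 - c) hb hb2).comp_neg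
    refine h.congr ?_
    filter_upwards with t
    simp only [hW]
    have e2 : ((1 - c : ℝ) : ℂ) + ((-t : ℝ) : ℂ) * I = 1 - ((c : ℂ) + t * I) := by
      push_cast; ring
    rw [e2]
  have hG : IntegrableOn (fun x : ℝ => (x : ℂ) ^ ((c : ℂ) - 1) * ker a lam x) (Ioi 0) :=
    mellinConvergent_ker a lam c ha (by simpa using hc)
  -- the double integral
  have hprod : Integrable (Function.uncurry fun (t x : ℝ) =>
      (x : ℂ) ^ ((c : ℂ) + t * I - 1) * ker a lam x * W t)
      (volume.prod (volume.restrict (Ioi (0:ℝ)))) := by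
    refine (hWint.norm.mul_prod hG.norm).mono' ?_ ?_
    · refine AEStronglyMeasurable.mul ?_ ?_
      · refine Measurable.aestronglyMeasurable ?_
        refine Measurable.mul ?_ ?_
        · refine Measurable.pow ?_ ?_
          · exact Complex.measurable_ofReal.comp measurable_snd
          · exact ((measurable_const.add ((Complex.measurable_ofReal.comp measurable_fst).mul
              measurable_const)).sub measurable_const)
        · exact (continuous_ker a lam).measurable.comp measurable_snd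
      · exact hWint.aestronglyMeasurable.comp_fst
    · have : ∀ᵐ p : ℝ × ℝ ∂(volume.prod (volume.restrict (Ioi (0:ℝ)))), 0 < p.2 := by
        have h1 : ∀ᵐ x : ℝ ∂(volume.restrict (Ioi (0:ℝ))), 0 < x := by
          rw [ae_restrict_iff' measurableSet_Ioi]
          filter_upwards with x hx using hx
        exact Measure.quasiMeasurePreserving_snd.ae h1
      filter_upwards [this] with p hp
      simp only [Function.uncurry]
      rw [norm_mul, norm_mul ((p.2 : ℂ) ^ ((c : ℂ) + p.1 * I - 1)),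
        norm_mul ((p.2 : ℂ) ^ ((c : ℂ) - 1)), norm_cpow_eq_rpow_re_of_pos hp,
        norm_cpow_eq_rpow_re_of_pos hp]
      have e1 : ((c : ℂ) + p.1 * I - 1).re = c - 1 := by simp
      have e2 : ((c : ℂ) - 1).re = c - 1 := by simp
      rw [e1, e2]
      exact le_of_eq (by ring)
  have hswap := integral_integral_swap hprod
  have hleft : ∀ t : ℝ, ∫ x : ℝ in Ioi 0, (x : ℂ) ^ ((c : ℂ) + t * I - 1) * ker a lam x * W t =
      mellin (ker a lam) ((c : ℂ) + t * I) * W t := by
    intro t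
    rw [integral_mul_const]
    rfl
  have hright : ∀ x : ℝ, x ∈ Ioi (0:ℝ) →
      ∫ t : ℝ, (x : ℂ) ^ ((c : ℂ) + t * I - 1) * ker a lam x * W t =
      (2 * Real.pi) * (ker a lam x * cexp (-(q * x))) := by
    intro x hx
    have h := mellin_inversion_exp q hq c (by linarith) hc1 x hx
    have e : (fun t : ℝ => (x : ℂ) ^ ((c : ℂ) + t * I - 1) * ker a lam x * W t) =
        fun t : ℝ => ker a lam x * ((x : ℂ) ^ ((c : ℂ) + t * I - 1) * W t) := by
      funext t; ring
    rw [e, integral_const_mul, h]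
    ring
  rw [← integral_ker_mul_exp a lam q (by simp; linarith), ← integral_const_mul]
  rw [← setIntegral_congr_fun measurableSet_Ioi hright, ← hswap]
  refine integral_congr_ae ?_
  filter_upwards with t
  exact (hleft t).symm

end Pool.Agent.Ratios
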