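import Pool.Agent.Ratios.Defs

/-! The weight function, and family sums as finite sums. -/

set_option autoImplicit false

open Complex Set Filter Topology

namespace Pool.Agent.Ratios

/-- The bump function about `1`. -/
noncomputable def bmp : ContDiffBump (1:ℝ) := ⟨1 / 20, 1 / 10, by norm_num, by norm_num⟩

lemma bmp_nonneg (x : ℝ) : 0 ≤ bmp x := bmp.nonneg
lemma bmp_le_one (x : ℝ) : bmp x ≤ 1 := bmp.le_one

lemma bmp_zero (x : ℝ) (hx : x ∉ Ioo (9 / 10 : ℝ) (11 / 10)) : bmp x = 0 := by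
  apply bmp.zero_of_le_dist
  change (1 / 10 : ℝ) ≤ dist x 1
  rw [Real.dist_eq]
  by_contra hcon
  push Not at hcon
  apply hx
  rw [abs_lt] at hcon
  constructor <;> linarith [hcon.1, hcon.2]

lemma bmp_one (x : ℝ) (hx : x ∈ Icc (19 / 20 : ℝ) (21 / 20)) : bmp x = 1 := by
  apply bmp.one_of_mem_closedBall
  change x ∈ Metric.closedBall 1 (1 / 20 : ℝ)
  rw [Metric.mem_closedBall, Real.dist_eq, abs_le]
  constructor <;> linarith [hx.1, hx.2]

lemma bmp_lipschitz : ∃ L : ℝ, 0 ≤ L ∧ ∀ x y : ℝ, |bmp x - bmp y| ≤ L * |x - y| := by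
  obtain ⟨C, hC⟩ := ContDiff.lipschitzWith_of_hasCompactSupport (𝕂 := ℝ) (n := 1)
    bmp.hasCompactSupport bmp.contDiff one_ne_zero
  refine ⟨C, C.2, fun x y => ?_⟩
  have := hC.dist_le_mul x y
  rwa [Real.dist_eq, Real.dist_eq] at this

/-- The weight. -/
noncomputable def wfun (x : ℝ) : ℝ := bmp x + bmp (-x)

lemma wfun_contDiff : ContDiff ℝ (⊤ : ℕ∞) wfun :=
  bmp.contDiff.add (bmp.contDiff.comp contDiff_neg)

lemma wfun_eq_zero (x : ℝ) (hx : |x| ∉ Ioo (9 / 10 : ℝ) (11 / 10)) : wfun x = 0 := by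
  rw [wfun, bmp_zero x, bmp_zero (-x), add_zero]
  · intro h
    apply hx
    have : |x| = -x := by
      apply abs_of_neg
      linarith [h.1]
    rw [this]; exact h
  · intro h
    apply hx
    have : |x| = x := by
      apply abs_of_pos
      linarith [h.1]
    rw [this]; exact h

lemma wfun_compact : HasCompactSupport wfun := by
  refine HasCompactSupport.intro (isCompact_Icc (a := (-2:ℝ)) (b := 2)) fun x hx => ?_
  apply wfun_eq_zero
  intro h
  apply hx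
  have := abs_lt.mp (lt_trans h.2 (by norm_num : (11 / 10 : ℝ) < 2))
  exact ⟨this.1.le, this.2.le⟩

/-- The weight as a Schwartz function. -/
noncomputable def wS : SchwartzMap ℝ ℝ := wfun_compact.toSchwartzMap wfun_contDiff

lemma wS_apply (x : ℝ) : wS x = wfun x := rfl

lemma wS_nonneg (x : ℝ) : 0 ≤ wS x := add_nonneg (bmp_nonneg _) (bmp_nonneg _)

lemma wS_even (x : ℝ) : wS (-x) = wS x := by
  rw [wS_apply, wS_apply, wfun, wfun, neg_neg, add_comm]

lemma wS_of_pos (x : ℝ) (hx : 0 < x) : wS x = bmp x := by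
  rw [wS_apply, wfun, bmp_zero (-x), add_zero]
  intro h
  linarith [h.1]

lemma wS_le_one (x : ℝ) : wS x ≤ 1 := by
  rcases lt_trichotomy x 0 with h | rfl | h
  · rw [← wS_even, wS_of_pos _ (by linarith)]; exact bmp_le_one _
  · rw [wS_apply, wfun_eq_zero 0 (by simp; norm_num)]; norm_num
  · rw [wS_of_pos _ h]; exact bmp_le_one _

lemma wS_eq_zero (x : ℝ) (hx : |x| ∉ Ioo (9 / 10 : ℝ) (11 / 10)) : wS x = 0 := wfun_eq_zero x hx

lemma wS_ne_zero : wS ≠ 0 := by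
  intro h
  have h1 : wS 1 = 0 := by rw [h]; rfl
  rw [wS_of_pos 1 one_pos, bmp_one 1 (by constructor <;> norm_num)] at h1
  exact one_ne_zero h1

open Classical in
/-- The members of the family of size at most `2 X`. -/
noncomputable def FS (X : ℕ) : Finset Fam :=
  (Finset.Icc (-(2 * X : ℕ) : ℤ) ((2 * X : ℕ) : ℤ)).subtype (fun d => Odd d ∧ Squarefree d)

open Classical in
lemma mem_FS (X : ℕ) (d : Fam) : d ∈ FS X ↔ |(d : ℤ)| ≤ ((2 * X : ℕ) : ℤ) := by
  rw [FS, Finset.mem_subtype, Finset.mem_Icc, abs_le]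

/-- The weight of a member of the family. -/
noncomputable def wd (X : ℕ) (d : Fam) : ℝ := wS (((d : ℤ) : ℝ) / X)

lemma wd_nonneg (X : ℕ) (d : Fam) : 0 ≤ wd X d := wS_nonneg _
lemma wd_le_one (X : ℕ) (d : Fam) : wd X d ≤ 1 := wS_le_one _

lemma wd_support (X : ℕ) (hX : 0 < X) (d : Fam) (h : wd X d ≠ 0) :
    9 / 10 * (X : ℝ) < |((d : ℤ) : ℝ)| ∧ |((d : ℤ) : ℝ)| < 11 / 10 * X := by
  have hX' : (0:ℝ) < X := by exact_mod_cast hX
  by_contra hcon
  apply h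
  apply wS_eq_zero
  intro h2
  apply hcon
  rw [abs_div, abs_of_pos hX'] at h2
  constructor
  · have := h2.1
    rwa [lt_div_iff₀ hX'] at this
  · have := h2.2
    rwa [div_lt_iff₀ hX'] at this

lemma wd_eq_zero_of_notMem (X : ℕ) (hX : 0 < X) (d : Fam) (h : d ∉ FS X) : wd X d = 0 := by
  by_contra hne
  have h1 := (wd_support X hX d hne).2
  apply h
  rw [mem_FS]
  have hX' : (0:ℝ) < X := by exact_mod_cast hX
  have : |((d : ℤ) : ℝ)| ≤ ((2 * X : ℕ) : ℝ) := by push_cast; linarith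
  exact_mod_cast this

lemma tsum_Fam (X : ℕ) (hX : 0 < X) (f : Fam → ℂ) :
    ∑' d : Fam, ((wS (((d : ℤ) : ℝ) / X) : ℝ) : ℂ) * f d = ∑ d ∈ FS X, (wd X d : ℂ) * f d := by
  rw [tsum_eq_sum (s := FS X)]
  · rfl
  · intro d hd
    have := wd_eq_zero_of_notMem X hX d hd
    rw [wd] at this
    rw [this]; simp

lemma Wstar_eq (X : ℕ) (hX : 0 < X) : Wstar wS X = ∑ d ∈ FS X, wd X d := by
  rw [Wstar, tsum_eq_sum (s := FS X)]
  · rfl
  · intro d hd
    exact wd_eq_zero_of_notMem X hX d hd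

lemma Wstar_nonneg (X : ℕ) (hX : 0 < X) : 0 ≤ Wstar wS X := by
  rw [Wstar_eq X hX]
  exact Finset.sum_nonneg fun d _ => wd_nonneg X d

lemma card_FS_le (X : ℕ) (hX : 0 < X) : ((FS X).card : ℝ) ≤ 5 * X := by
  classical
  have h1 : (FS X).card ≤ (Finset.Icc (-(2 * X : ℕ) : ℤ) ((2 * X : ℕ) : ℤ)).card := by
    rw [FS, Finset.card_subtype]
    exact Finset.card_filter_le _ _
  rw [Int.card_Icc] at h1
  have h2 : (((2 * X : ℕ) : ℤ) + 1 - (-(2 * X : ℕ) : ℤ)).toNat = 4 * X + 1 := by omega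
  rw [h2] at h1
  have h3 : ((FS X).card : ℝ) ≤ ((4 * X + 1 : ℕ) : ℝ) := by exact_mod_cast h1
  push_cast at h3
  have hX' : (1:ℝ) ≤ X := by exact_mod_cast hX
  linarith

lemma Wstar_le (X : ℕ) (hX : 0 < X) : Wstar wS X ≤ 5 * X := by
  rw [Wstar_eq X hX]
  refine le_trans ?_ (card_FS_le X hX)
  calc ∑ d ∈ FS X, wd X d ≤ ∑ d ∈ FS X, (1:ℝ) := Finset.sum_le_sum fun d _ => wd_le_one X d
    _ = _ := by simp

lemma mul_avg (X : ℕ) (hX : 0 < X) (hW : Wstar wS X ≠ 0) (f : Fam → ℂ) :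
    ((Wstar wS X : ℝ) : ℂ) * avg wS X f = ∑ d ∈ FS X, (wd X d : ℂ) * f d := by
  rw [avg, tsum_Fam X hX, ← mul_assoc, mul_inv_cancel₀ (by exact_mod_cast hW), one_mul]

/-- The difference in the ratios conjecture, multiplied by the total weight. -/
lemma mul_ratiosDiff (X : ℕ) (hX : 0 < X) (hW : Wstar wS X ≠ 0) (α γ : ℂ) :
    ((Wstar wS X : ℝ) : ℂ) * ratiosDiff wS X α γ =
      ∑ d ∈ FS X, (wd X d : ℂ) * (L8 d (1 / 2 + α) / L8 d (1 / 2 + γ)) -
      ((Wstar wS X : ℝ) : ℂ) * Phi α γ -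
      (∑ d ∈ FS X, (wd X d : ℂ) * Xd d (1 / 2 + α)) * Phi (-α) γ := by
  rw [ratiosDiff, ← mul_avg X hX hW, ← mul_avg X hX hW]
  ring

end Pool.Agent.Ratios
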