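import Pool.Agent.Ratios.FuncEq

/-! Bounds for the archimedean factor, and the integrals against it. -/

set_option autoImplicit false

open Complex MeasureTheory Set Filter Topology

namespace Pool.Agent.Ratios

lemma norm_one_div_mul_I_cpow_le (v : ℝ) (hv : v ≠ 0) (s : ℂ) :
    ‖(1 / ((v : ℂ) * I)) ^ s‖ ≤ |v| ^ (-s.re) * Real.exp (Real.pi * |s.im| / 2) := by
  have hpi := Real.pi_pos
  rcases lt_or_gt_of_ne hv with hneg | hpos
  · have h := one_div_mul_I_cpow_neg (-v) (by linarith) s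
    rw [neg_neg] at h
    rw [h, norm_mul, Complex.norm_exp, Complex.norm_exp, abs_of_neg hneg,
      Real.rpow_def_of_pos (by linarith)]
    have e1 : (-(((Real.log (-v) : ℝ) : ℂ) * s)).re = Real.log (-v) * -s.re := by
      rw [Complex.neg_re, Complex.re_ofReal_mul]; ring
    have e2 : (((Real.pi : ℝ) : ℂ) / 2 * I * s).re = -(Real.pi * s.im / 2) := by
      have : ((Real.pi : ℝ) : ℂ) / 2 * I * s = (((Real.pi / 2 : ℝ)) : ℂ) * (I * s) := by
        push_cast; ring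
      rw [this, Complex.re_ofReal_mul]
      simp
      ring
    rw [e1, e2]
    gcongr
    have := neg_abs_le s.im
    nlinarith
  · have h := one_div_mul_I_cpow_pos v hpos s
    rw [h, norm_mul, Complex.norm_exp, Complex.norm_exp, abs_of_pos hpos,
      Real.rpow_def_of_pos hpos]
    have e1 : (-(((Real.log v : ℝ) : ℂ) * s)).re = Real.log v * -s.re := by
      rw [Complex.neg_re, Complex.re_ofReal_mul]; ring
    have e2 : (-(((Real.pi : ℝ) : ℂ) / 2 * I * s)).re = Real.pi * s.im / 2 := by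
      have : -(((Real.pi : ℝ) : ℂ) / 2 * I * s) = (((Real.pi / 2 : ℝ)) : ℂ) * (-(I * s)) := by
        push_cast; ring
      rw [this, Complex.re_ofReal_mul]
      simp
      ring
    rw [e1, e2]
    gcongr
    exact le_abs_self _

lemma norm_mlt_le (v : ℝ) (hv : v ≠ 0) (z : ℂ) (h1 : z.re < 1) (h2 : -1 < z.re) :
    ‖mlt v z‖ ≤ 7 * |v| ^ (z.re - 1) * Real.Gamma (1 - z.re) * (1 + |z.im|) ^ 2 := by
  have hG := norm_Gamma_le (1 - z.re) (-z.im) (by linarith) (by linarith)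
  have e : ((1 - z.re : ℝ) : ℂ) + ((-z.im : ℝ) : ℂ) * I = 1 - z := by
    apply Complex.ext <;> simp
  rw [e, abs_neg] at hG
  have hp := norm_one_div_mul_I_cpow_le v hv (1 - z)
  have e1 : -(1 - z).re = z.re - 1 := by simp
  have e2 : |(1 - z).im| = |z.im| := by simp
  rw [e1, e2] at hp
  rw [mlt, norm_mul]
  have hGp : 0 < Real.Gamma (1 - z.re) := Real.Gamma_pos_of_pos (by linarith)
  calc ‖(1 / ((v : ℂ) * I)) ^ (1 - z)‖ * ‖Gamma (1 - z)‖
      ≤ (|v| ^ (z.re - 1) * Real.exp (Real.pi * |z.im| / 2)) *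
        (7 * Real.Gamma (1 - z.re) * (1 + |z.im|) ^ 2 * Real.exp (-(Real.pi * |z.im| / 2))) := by
        gcongr
    _ = 7 * |v| ^ (z.re - 1) * Real.Gamma (1 - z.re) * (1 + |z.im|) ^ 2 *
        (Real.exp (Real.pi * |z.im| / 2) * Real.exp (-(Real.pi * |z.im| / 2))) := by ring
    _ = _ := by rw [← Real.exp_add, add_neg_cancel, Real.exp_zero, mul_one]

lemma differentiableAt_mlt (v : ℝ) (hv : v ≠ 0) (z : ℂ) (h1 : z.re < 1) :
    DifferentiableAt ℂ (mlt v) z := by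
  have hne : (1 / ((v : ℂ) * I)) ≠ 0 := by
    apply one_div_ne_zero
    exact mul_ne_zero (by exact_mod_cast hv) I_ne_zero
  unfold mlt
  refine DifferentiableAt.mul ?_ ?_
  · exact ((differentiableAt_const (1:ℂ)).sub differentiableAt_id).const_cpow (Or.inl hne)
  · have hg : DifferentiableAt ℂ Gamma (1 - z) := by
      refine differentiableAt_Gamma _ fun m h => ?_
      have h2 := congrArg Complex.re h
      simp at h2
      have : (0:ℝ) ≤ m := Nat.cast_nonneg m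
      linarith
    exact DifferentiableAt.comp z hg ((differentiableAt_const (1:ℂ)).sub differentiableAt_id)

lemma continuous_mlt_vertical (v : ℝ) (hv : v ≠ 0) (c : ℝ) (hc : c < 1) :
    Continuous (fun t : ℝ => mlt v ((c : ℂ) + t * I)) := by
  rw [continuous_iff_continuousAt]
  intro t
  have h := (differentiableAt_mlt v hv ((c : ℂ) + t * I) (by simpa using hc)).continuousAt
  exact ContinuousAt.comp (f := fun t : ℝ => (c : ℂ) + t * I) h (by fun_prop)

lemma Xd_eq_mlt_pos (d : ℤ) (hd : 0 < d) (z : ℂ) (hz : z.re < 1) :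
    Xd d z = (((Real.sqrt (8 * |(d : ℝ)|))⁻¹ : ℝ) : ℂ) *
      (mlt (2 * Real.pi * (1 / (8 * |(d : ℝ)|))) z +
        mlt (-(2 * Real.pi * (1 / (8 * |(d : ℝ)|)))) z) := by
  have h := Xd_mul_cpow_pos d hd 1 one_pos z hz
  simpa using h

lemma Xd_eq_mlt_neg (d : ℤ) (hd : d < 0) (z : ℂ) (hz : z.re < 1) :
    Xd d z = (((Real.sqrt (8 * |(d : ℝ)|))⁻¹ : ℝ) : ℂ) * I *
      (mlt (2 * Real.pi * (1 / (8 * |(d : ℝ)|))) z -
        mlt (-(2 * Real.pi * (1 / (8 * |(d : ℝ)|)))) z) := by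
  have h := Xd_mul_cpow_neg d hd 1 one_pos z hz
  simpa using h

lemma norm_Xd_le (d : ℤ) (hd : d ≠ 0) (z : ℂ) (h1 : z.re < 1) (h2 : -1 < z.re) :
    ‖Xd d z‖ ≤ 14 * (8 * |(d : ℝ)|) ^ (1 / 2 - z.re) * Real.Gamma (1 - z.re) *
      (1 + |z.im|) ^ 2 := by
  have hN := cond_pos d hd
  have hpi := Real.pi_pos
  set N := 8 * |(d : ℝ)| with hNdef
  set v := 2 * Real.pi * (1 / N) with hv
  have hvpos : 0 < v := by positivity
  have hGp : 0 < Real.Gamma (1 - z.re) := Real.Gamma_pos_of_pos (by linarith)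
  have m1 := norm_mlt_le v hvpos.ne' z h1 h2
  have m2 := norm_mlt_le (-v) (by linarith) z h1 h2
  rw [abs_neg] at m2
  rw [abs_of_pos hvpos] at m1 m2
  set B := 7 * v ^ (z.re - 1) * Real.Gamma (1 - z.re) * (1 + |z.im|) ^ 2 with hB
  have hkey : ‖Xd d z‖ ≤ (Real.sqrt N)⁻¹ * (B + B) := by
    rcases lt_or_gt_of_ne hd with hneg | hpos
    · rw [Xd_eq_mlt_neg d hneg z h1, norm_mul, norm_mul, Complex.norm_I, mul_one,
        Complex.norm_real, Real.norm_of_nonneg (by positivity)]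
      gcongr
      exact (norm_sub_le _ _).trans (add_le_add m1 m2)
    · rw [Xd_eq_mlt_pos d hpos z h1, norm_mul,
        Complex.norm_real, Real.norm_of_nonneg (by positivity)]
      gcongr
      exact (norm_add_le _ _).trans (add_le_add m1 m2)
  refine hkey.trans ?_
  have e1 : (Real.sqrt N)⁻¹ * v ^ (z.re - 1) ≤ N ^ (1 / 2 - z.re) := by
    have e2 : v ^ (z.re - 1) = (2 * Real.pi) ^ (z.re - 1) * N ^ (-(z.re - 1)) := by
      rw [hv, Real.mul_rpow (by positivity) (by positivity), one_div, Real.inv_rpow hN.le,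
        ← Real.rpow_neg hN.le]
    have e3 : (2 * Real.pi) ^ (z.re - 1) ≤ 1 := by
      apply Real.rpow_le_one_of_one_le_of_nonpos
      · linarith [Real.pi_gt_three]
      · linarith
    have e4 : (Real.sqrt N)⁻¹ = N ^ (-(1 / 2) : ℝ) := by
      rw [Real.sqrt_eq_rpow, ← Real.rpow_neg hN.le]
    have e5 : N ^ (-(1 / 2) : ℝ) * N ^ (-(z.re - 1)) = N ^ (1 / 2 - z.re) := by
      rw [← Real.rpow_add hN]; ring_nf
    calc (Real.sqrt N)⁻¹ * v ^ (z.re - 1)
        = (2 * Real.pi) ^ (z.re - 1) * (N ^ (-(1 / 2) : ℝ) * N ^ (-(z.re - 1))) := by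
          rw [e2, e4]; ring
      _ ≤ 1 * (N ^ (-(1 / 2) : ℝ) * N ^ (-(z.re - 1))) := by gcongr
      _ = _ := by rw [one_mul, e5]
  calc (Real.sqrt N)⁻¹ * (B + B)
      = 14 * ((Real.sqrt N)⁻¹ * v ^ (z.re - 1)) * Real.Gamma (1 - z.re) * (1 + |z.im|) ^ 2 := by
        rw [hB]; ring
    _ ≤ _ := by gcongr

lemma differentiableAt_Xd (d : ℤ) (hd : d ≠ 0) (z : ℂ) (h1 : z.re < 1) :
    DifferentiableAt ℂ (Xd d) z := by
  have hN := cond_pos d hd
  have hpi := Real.pi_pos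
  have hopen : {z : ℂ | z.re < 1} ∈ 𝓝 z := (isOpen_lt Complex.continuous_re continuous_const).mem_nhds h1
  have hv : 2 * Real.pi * (1 / (8 * |(d : ℝ)|)) ≠ 0 := by positivity
  have m1 := differentiableAt_mlt _ hv z h1
  have m2 := differentiableAt_mlt _ (neg_ne_zero.mpr hv) z h1
  rcases lt_or_gt_of_ne hd with hneg | hpos
  · refine DifferentiableAt.congr_of_eventuallyEq ((m1.sub m2).const_mul
      ((((Real.sqrt (8 * |(d : ℝ)|))⁻¹ : ℝ) : ℂ) * I)) ?_
    filter_upwards [hopen] with w hw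
    exact Xd_eq_mlt_neg d hneg w hw
  · refine DifferentiableAt.congr_of_eventuallyEq ((m1.add m2).const_mul
      ((((Real.sqrt (8 * |(d : ℝ)|))⁻¹ : ℝ) : ℂ))) ?_
    filter_upwards [hopen] with w hw
    exact Xd_eq_mlt_pos d hpos w hw

/-- Exponential decay beats a square polynomial. -/
lemma sq_mul_exp_neg_le (t : ℝ) : (1 + |t|) ^ 2 * Real.exp (-|t|) ≤ 8 * Real.exp (-(|t| / 2)) := by
  have ht : 0 ≤ |t| := abs_nonneg t
  have h := Real.add_one_le_exp (|t| / 4)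
  have h2 : (1 + |t| / 4) ^ 2 ≤ Real.exp (|t| / 2) := by
    have : Real.exp (|t| / 2) = Real.exp (|t| / 4) ^ 2 := by
      rw [← Real.exp_nat_mul]; congr 1; push_cast; ring
    rw [this]
    gcongr
    linarith
  have h3 := Real.quadratic_le_exp_of_nonneg (x := |t| / 2) (by positivity)
  have h4 : (1 + |t|) ^ 2 ≤ 8 * Real.exp (|t| / 2) := by nlinarith
  have h5 : Real.exp (-|t|) = Real.exp (-(|t| / 2)) * Real.exp (-(|t| / 2)) := by
    rw [← Real.exp_add]; congr 1; ring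
  have h6 : Real.exp (|t| / 2) * Real.exp (-(|t| / 2)) = 1 := by
    rw [← Real.exp_add]; simp
  calc (1 + |t|) ^ 2 * Real.exp (-|t|) ≤ 8 * Real.exp (|t| / 2) * Real.exp (-|t|) := by gcongr
    _ = 8 * (Real.exp (|t| / 2) * Real.exp (-(|t| / 2))) * Real.exp (-(|t| / 2)) := by
        rw [h5]; ring
    _ = _ := by rw [h6]; ring

lemma integrable_mellin_mul_mlt (a : ℝ) (ha : 0 < a) (lam : ℂ) (v : ℝ) (hv : v ≠ 0) (c : ℝ)
    (hc : -(1 / 2) < c) (hc1 : c < 1) :
    Integrable (fun t : ℝ => mellin (ker a lam) ((c : ℂ) + t * I) * mlt v ((c : ℂ) + t * I)) := by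
  obtain ⟨C, hC, hdec⟩ := mellin_ker_decay a ha lam c c hc le_rfl
  have hcont := (continuous_mellin_ker_vertical a (by simpa using ha) lam c hc).mul
    (continuous_mlt_vertical v hv c hc1)
  have hGp : 0 < Real.Gamma (1 - c) := Real.Gamma_pos_of_pos (by linarith)
  refine ((integrable_exp_neg_mul_abs (1 / 2) (by norm_num)).const_mul
    (C * (7 * |v| ^ (c - 1) * Real.Gamma (1 - c)) * 8)).mono' hcont.aestronglyMeasurable ?_
  filter_upwards with t
  rw [norm_mul]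
  have h1 := hdec c le_rfl le_rfl t
  have h2 := norm_mlt_le v hv ((c : ℂ) + t * I) (by simpa using hc1) (by simp; linarith)
  have e1 : ((c : ℂ) + t * I).re = c := by simp
  have e2 : ((c : ℂ) + t * I).im = t := by simp
  rw [e1, e2] at h2
  calc ‖mellin (ker a lam) ((c : ℂ) + t * I)‖ * ‖mlt v ((c : ℂ) + t * I)‖
      ≤ (C * Real.exp (-|t|)) * (7 * |v| ^ (c - 1) * Real.Gamma (1 - c) * (1 + |t|) ^ 2) := by
        gcongr
    _ = C * (7 * |v| ^ (c - 1) * Real.Gamma (1 - c)) * ((1 + |t|) ^ 2 * Real.exp (-|t|)) := by ring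
    _ ≤ C * (7 * |v| ^ (c - 1) * Real.Gamma (1 - c)) * (8 * Real.exp (-(|t| / 2))) :=
        mul_le_mul_of_nonneg_left (sq_mul_exp_neg_le t) (by positivity)
    _ = _ := by
        rw [show 1 / 2 * |t| = |t| / 2 by ring]; ring

/-- The transform of the archimedean factor: closed form. -/
noncomputable def Id (a : ℝ) (lam : ℂ) (d : ℤ) (n : ℕ) : ℂ :=
  if 0 < d then
    (((Real.sqrt (8 * |(d : ℝ)|))⁻¹ : ℝ) : ℂ) *
      (lap a lam (((2 * Real.pi * (n / (8 * |(d : ℝ)|)) : ℝ) : ℂ) * I) +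
        lap a lam (((-(2 * Real.pi * (n / (8 * |(d : ℝ)|))) : ℝ) : ℂ) * I))
  else
    (((Real.sqrt (8 * |(d : ℝ)|))⁻¹ : ℝ) : ℂ) * I *
      (lap a lam (((2 * Real.pi * (n / (8 * |(d : ℝ)|)) : ℝ) : ℂ) * I) -
        lap a lam (((-(2 * Real.pi * (n / (8 * |(d : ℝ)|))) : ℝ) : ℂ) * I))

theorem integral_mellin_Xd (a : ℝ) (ha : 0 < a) (lam : ℂ) (d : ℤ) (hd : d ≠ 0) (n : ℕ)
    (hn : 0 < n) (c : ℝ) (hc : -(1 / 2) < c) (hc1 : c < 1) :
    ∫ t : ℝ, mellin (ker a lam) ((c : ℂ) + t * I) *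
      (Xd d ((c : ℂ) + t * I) * (n : ℂ) ^ ((c : ℂ) + t * I - 1)) =
      2 * Real.pi * Id a lam d n := by
  have hN := cond_pos d hd
  have hpi := Real.pi_pos
  have hn' : (0:ℝ) < n := by exact_mod_cast hn
  have hv : 2 * Real.pi * (n / (8 * |(d : ℝ)|)) ≠ 0 := by positivity
  have i1 := integrable_mellin_mul_mlt a ha lam _ hv c hc hc1
  have i2 := integrable_mellin_mul_mlt a ha lam _ (neg_ne_zero.mpr hv) c hc hc1
  have p1 := parseval_boundary a ha lam _ hv c hc hc1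
  have p2 := parseval_boundary a ha lam _ (neg_ne_zero.mpr hv) c hc hc1
  have hre : ∀ t : ℝ, ((c : ℂ) + t * I).re < 1 := fun t => by simpa using hc1
  rcases lt_or_gt_of_ne hd with hneg | hpos
  · rw [Id, if_neg (by omega)]
    have e : ∀ t : ℝ, mellin (ker a lam) ((c : ℂ) + t * I) *
      (Xd d ((c : ℂ) + t * I) * (n : ℂ) ^ ((c : ℂ) + t * I - 1)) =
      (((Real.sqrt (8 * |(d : ℝ)|))⁻¹ : ℝ) : ℂ) * I *
      (mellin (ker a lam) ((c : ℂ) + t * I) *
        mlt (2 * Real.pi * (n / (8 * |(d : ℝ)|))) ((c : ℂ) + t * I) -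
      mellin (ker a lam) ((c : ℂ) + t * I) *
        mlt (-(2 * Real.pi * (n / (8 * |(d : ℝ)|)))) ((c : ℂ) + t * I)) := by
      intro t
      rw [Xd_mul_cpow_neg d hneg n hn _ (hre t)]
      ring
    simp_rw [e]
    rw [integral_const_mul, integral_sub i1 i2]
    simp only [mlt]
    rw [p1, p2]
    ring
  · rw [Id, if_pos hpos]
    have e : ∀ t : ℝ, mellin (ker a lam) ((c : ℂ) + t * I) *
      (Xd d ((c : ℂ) + t * I) * (n : ℂ) ^ ((c : ℂ) + t * I - 1)) =
      (((Real.sqrt (8 * |(d : ℝ)|))⁻¹ : ℝ) : ℂ) *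
      (mellin (ker a lam) ((c : ℂ) + t * I) *
        mlt (2 * Real.pi * (n / (8 * |(d : ℝ)|))) ((c : ℂ) + t * I) +
      mellin (ker a lam) ((c : ℂ) + t * I) *
        mlt (-(2 * Real.pi * (n / (8 * |(d : ℝ)|)))) ((c : ℂ) + t * I)) := by
      intro t
      rw [Xd_mul_cpow_pos d hpos n hn _ (hre t)]
      ring
    simp_rw [e]
    rw [integral_const_mul, integral_add i1 i2]
    simp only [mlt]
    rw [p1, p2]
    ring

end Pool.Agent.Ratios
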